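import Pool.Agent.CSN.Feas
import Pool.Agent.PT.Num

/-!
# The algorithm on lists

The dynamic program with tables stored as lists, and the proof that it is computable in
polynomial time.
-/

set_option autoImplicit false

namespace Pool.Agent.CSN

open Pool.Agent.PT

/-! ### Index lists instead of bounds -/

/-- `all` over the members `i` of `R` with `a < i ≤ b`. -/
def allR (R : List ℕ) (a b : ℕ) (f : ℕ → Bool) : Bool :=
  R.all (fun i => !(decide (a < i) && decide (i ≤ b)) || f i)

/-- `rectOK` with an index list. -/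
def rectR (P : ℕ → ℕ → Bool) (R : List ℕ) (a b c d : ℕ) : Bool :=
  (decide (a < b) && decide (c < d)) &&
    (allR R a b (fun i => allR R c d (fun j => P i j)) &&
      ((!ipt P a c && !ipt P a d) && (!ipt P b c && !ipt P b d)))

/-- `same` with an index list. -/
def sameR (P : ℕ → ℕ → Bool) (R : List ℕ) (dir a j j' : ℕ) : Bool :=
  R.all (fun t => !(decide (min j j' ≤ t) && decide (t ≤ max j j')) || edgeIn P dir a t)

/-- `okCols` with an index list. -/
def colsR (R : List ℕ) (k : ℕ) (G : Tab) (a b c d : ℕ) (e e' : ℕ → Bool) : Bool :=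
  allR R a b (fun i => decide ((if e i then 0 else G 3 c i) + 1 +
    (if e' i then 0 else G 2 d i) ≤ k))

/-- `okRows` with an index list. -/
def rowsR (R : List ℕ) (k : ℕ) (G : Tab) (a b c d : ℕ) (e e' : ℕ → Bool) : Bool :=
  allR R c d (fun j => decide ((if e j then 0 else G 1 a j) + 1 +
    (if e' j then 0 else G 0 b j) ≤ k))

/-- All triples. -/
def tripR (R : List ℕ) : List (ℕ × ℕ × ℕ) :=
  R.flatMap (fun x => R.flatMap (fun y => R.map (fun z => (x, y, z))))

/-- `cand` with an index list. -/
def candR (P : ℕ → ℕ → Bool) (R : List ℕ) (k : ℕ) (G : Tab) (dir a j : ℕ) (q : ℕ × ℕ × ℕ) : ℕ :=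
  if dir = 0 then
    if rectR P R a q.1 q.2.1 q.2.2 && (decide (q.2.1 < j) && decide (j ≤ q.2.2)) &&
      (colsR R k G a q.1 q.2.1 q.2.2 noEx noEx &&
        rowsR R k G a q.1 q.2.1 q.2.2 (sameR P R 0 a j) noEx)
    then 1 + G 0 q.1 j else k + 1
  else if dir = 1 then
    if rectR P R q.1 a q.2.1 q.2.2 && (decide (q.2.1 < j) && decide (j ≤ q.2.2)) &&
      (colsR R k G q.1 a q.2.1 q.2.2 noEx noEx &&
        rowsR R k G q.1 a q.2.1 q.2.2 noEx (sameR P R 1 a j))
    then 1 + G 1 q.1 j else k + 1
  else if dir = 2 then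
    if rectR P R q.2.1 q.2.2 a q.1 && (decide (q.2.1 < j) && decide (j ≤ q.2.2)) &&
      (colsR R k G q.2.1 q.2.2 a q.1 (sameR P R 2 a j) noEx &&
        rowsR R k G q.2.1 q.2.2 a q.1 noEx noEx)
    then 1 + G 2 q.1 j else k + 1
  else
    if rectR P R q.2.1 q.2.2 q.1 a && (decide (q.2.1 < j) && decide (j ≤ q.2.2)) &&
      (colsR R k G q.2.1 q.2.2 q.1 a noEx (sameR P R 3 a j) &&
        rowsR R k G q.2.1 q.2.2 q.1 a noEx noEx)
    then 1 + G 3 q.1 j else k + 1

/-- `stepTab` with an index list. -/
def stepR (P : ℕ → ℕ → Bool) (R : List ℕ) (k : ℕ) (G : Tab) : Tab :=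
  fun dir a j => if edgeIn P dir a j then
    (tripR R).foldl (fun m q => min m (candR P R k G dir a j q)) (k + 1) else 0

/-- `final` with an index list. -/
def finalR (P : ℕ → ℕ → Bool) (R : List ℕ) (k : ℕ) (G : Tab) : Bool :=
  R.all (fun i => R.all (fun j => !P i j ||
    R.any (fun a => (tripR R).any (fun q =>
      (rectR P R a q.1 q.2.1 q.2.2 && ((decide (a < i) && decide (i ≤ q.1)) &&
        (decide (q.2.1 < j) && decide (j ≤ q.2.2)))) &&
      (colsR R k G a q.1 q.2.1 q.2.2 noEx noEx && rowsR R k G a q.1 q.2.1 q.2.2 noEx noEx)))))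

theorem stepR_eq (P : ℕ → ℕ → Bool) (N k : ℕ) (G : Tab) :
    stepR P (List.range (N + 1)) k G = stepTab P N k G := rfl

theorem finalR_eq (P : ℕ → ℕ → Bool) (N k : ℕ) (G : Tab) :
    finalR P (List.range (N + 1)) k G = final P N k G := rfl

/-! ### Tables as lists -/

/-- Look up an entry. -/
def look (T : List (List (List ℕ))) : Tab := fun dir a j => ((T.getD dir []).getD a []).getD j 0

/-- Store a table. -/
def store (R : List ℕ) (G : Tab) : List (List (List ℕ)) :=
  [0, 1, 2, 3].map (fun dir => R.map (fun a => R.map (fun j => G dir a j)))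

theorem look_store (N : ℕ) (G : Tab) (dir a j : ℕ) (hd : dir < 4) :
    look (store (List.range (N + 1)) G) dir a j =
      if a ≤ N ∧ j ≤ N then G dir a j else 0 := by
  unfold look store
  have h1 : ([0, 1, 2, 3].map (fun dir => (List.range (N + 1)).map (fun a =>
      (List.range (N + 1)).map (fun j => G dir a j)))).getD dir [] =
      (List.range (N + 1)).map (fun a => (List.range (N + 1)).map (fun j => G dir a j)) := by
    interval_cases dir <;> rfl
  rw [h1]
  by_cases ha : a ≤ N
  · have h2 : ((List.range (N + 1)).map (fun a =>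
        (List.range (N + 1)).map (fun j => G dir a j))).getD a [] =
        (List.range (N + 1)).map (fun j => G dir a j) := by
      rw [List.getD_eq_getElem _ _ (by simp; omega)]
      simp
    rw [h2]
    by_cases hj : j ≤ N
    · rw [List.getD_eq_getElem _ _ (by simp; omega)]
      simp [ha, hj]
    · rw [List.getD_eq_default _ _ (by simp; omega)]
      simp [hj]
  · have h2 : ((List.range (N + 1)).map (fun a =>
        (List.range (N + 1)).map (fun j => G dir a j))).getD a [] = [] :=
      List.getD_eq_default _ _ (by simp; omega)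
    rw [h2]
    simp [ha]

/-- The clock of the iteration. -/
def clock (R : List ℕ) : List ℕ := [0, 1, 2, 3].flatMap (fun _ => R.flatMap (fun _ => R))

theorem clock_length (N : ℕ) : (clock (List.range (N + 1))).length = 4 * (N + 1) * (N + 1) := by
  unfold clock
  simp [List.length_flatMap]
  ring

/-- The dynamic program on lists. -/
def dpR (P : ℕ → ℕ → Bool) (R : List ℕ) (k : ℕ) : Bool :=
  finalR P R k (look ((clock R).foldl (fun T _ => store R (stepR P R k (look T)))
    (store R (initTab P k))))

/-- Agreement of tables. -/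
def Agree (G G' : Tab) : Prop := ∀ dir < 4, ∀ a j, G dir a j = G' dir a j

theorem stepR_agree (P : ℕ → ℕ → Bool) (R : List ℕ) (k : ℕ) {G G' : Tab} (h : Agree G G') :
    stepR P R k G = stepR P R k G' := by
  have h0 : G 0 = G' 0 := by funext a j; exact h 0 (by omega) a j
  have h1 : G 1 = G' 1 := by funext a j; exact h 1 (by omega) a j
  have h2 : G 2 = G' 2 := by funext a j; exact h 2 (by omega) a j
  have h3 : G 3 = G' 3 := by funext a j; exact h 3 (by omega) a j
  funext dir a j
  unfold stepR candR colsR rowsR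
  rw [h0, h1, h2, h3]

theorem finalR_agree (P : ℕ → ℕ → Bool) (R : List ℕ) (k : ℕ) {G G' : Tab} (h : Agree G G') :
    finalR P R k G = finalR P R k G' := by
  have h0 : G 0 = G' 0 := by funext a j; exact h 0 (by omega) a j
  have h1 : G 1 = G' 1 := by funext a j; exact h 1 (by omega) a j
  have h2 : G 2 = G' 2 := by funext a j; exact h 2 (by omega) a j
  have h3 : G 3 = G' 3 := by funext a j; exact h 3 (by omega) a j
  unfold finalR colsR rowsR
  rw [h0, h1, h2, h3]

theorem edgeIn_range {P : ℕ → ℕ → Bool} {N : ℕ}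
    (hS : ∀ i j, P i j = true → 0 < i ∧ i ≤ N ∧ 0 < j ∧ j ≤ N) {dir a j : ℕ}
    (h : edgeIn P dir a j = true) : a ≤ N ∧ j ≤ N := by
  unfold edgeIn at h
  split_ifs at h with hd
  · rw [Bool.and_eq_true] at h
    have := hS _ _ h.1
    omega
  · rw [Bool.and_eq_true] at h
    have := hS _ _ h.1
    omega

theorem dpR_eq (P : ℕ → ℕ → Bool) (N k : ℕ)
    (hS : ∀ i j, P i j = true → 0 < i ∧ i ≤ N ∧ 0 < j ∧ j ≤ N) :
    dpR P (List.range (N + 1)) k = dp P N k := by
  have hst : ∀ G : Tab, (∀ dir a j, ¬ edgeIn P dir a j = true → G dir a j = 0) →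
      Agree (look (store (List.range (N + 1)) G)) G := by
    intro G hG dir hd a j
    rw [look_store N G dir a j hd]
    split_ifs with h
    · rfl
    · rw [hG]
      intro he
      exact h (edgeIn_range hS he)
  have hfold : ∀ (K : List ℕ) (T : List (List (List ℕ))) (G : Tab), Agree (look T) G →
      Agree (look (K.foldl (fun T _ => store (List.range (N + 1))
        (stepR P (List.range (N + 1)) k (look T))) T))
        ((stepTab P N k)^[K.length] G) := by
    intro K
    induction K with
    | nil => intro T G h; exact h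
    | cons c K ih =>
      intro T G h
      rw [List.foldl_cons, List.length_cons, Function.iterate_succ_apply]
      apply ih
      rw [stepR_agree P _ k h, stepR_eq]
      apply hst
      intro dir a j he
      unfold stepTab
      rw [if_neg he]
  unfold dpR dp
  rw [← finalR_eq]
  apply finalR_agree
  rw [← clock_length]
  apply hfold
  apply hst
  intro dir a j he
  unfold initTab
  rw [if_neg he]

end Pool.Agent.CSN
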