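import Pool.Agent.CSN.Algo

/-!
# The dynamic program is computable in polynomial time
-/

set_option autoImplicit false

namespace Pool.Agent.CSN

open Pool.Agent.PT

variable {γ : Type} [Dat γ] [hC : Fact Core]

@[fun_prop] theorem allR_pt {R : γ → List ℕ} {a b : γ → ℕ} {f : γ → ℕ → Bool} (hR : PolyF R)
    (ha : PolyF a) (hb : PolyF b) (hf : PolyF (fun p : γ × ℕ => f p.1 p.2)) :
    PolyF (fun x => allR (R x) (a x) (b x) (f x)) := by
  unfold allR; fun_prop

@[fun_prop] theorem ipt_pt {P : γ → ℕ → ℕ → Bool} {a c : γ → ℕ}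
    (hP : PolyF (fun p : γ × ℕ × ℕ => P p.1 p.2.1 p.2.2)) (ha : PolyF a) (hc : PolyF c) :
    PolyF (fun x => ipt (P x) (a x) (c x)) := by
  unfold ipt; fun_prop

@[fun_prop] theorem edgeIn_pt {P : γ → ℕ → ℕ → Bool} {d a j : γ → ℕ}
    (hP : PolyF (fun p : γ × ℕ × ℕ => P p.1 p.2.1 p.2.2)) (hd : PolyF d) (ha : PolyF a)
    (hj : PolyF j) : PolyF (fun x => edgeIn (P x) (d x) (a x) (j x)) := by
  unfold edgeIn
  refine PolyF.ite' ?_ ?_ ?_ <;> fun_prop

@[fun_prop] theorem rectR_pt {P : γ → ℕ → ℕ → Bool} {R : γ → List ℕ} {a b c d : γ → ℕ}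
    (hP : PolyF (fun p : γ × ℕ × ℕ => P p.1 p.2.1 p.2.2)) (hR : PolyF R)
    (ha : PolyF a) (hb : PolyF b) (hc : PolyF c) (hd : PolyF d) :
    PolyF (fun x => rectR (P x) (R x) (a x) (b x) (c x) (d x)) := by
  unfold rectR; fun_prop

@[fun_prop] theorem sameR_pt {P : γ → ℕ → ℕ → Bool} {R : γ → List ℕ} {d a j j' : γ → ℕ}
    (hP : PolyF (fun p : γ × ℕ × ℕ => P p.1 p.2.1 p.2.2)) (hR : PolyF R)
    (hd : PolyF d) (ha : PolyF a) (hj : PolyF j) (hj' : PolyF j') :
    PolyF (fun x => sameR (P x) (R x) (d x) (a x) (j x) (j' x)) := by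
  unfold sameR; fun_prop

@[fun_prop] theorem noEx_pt {i : γ → ℕ} : PolyF (fun x => noEx (i x)) := by
  unfold noEx; fun_prop

@[fun_prop] theorem colsR_pt {R : γ → List ℕ} {k a b c d : γ → ℕ} {G : γ → ℕ → ℕ → ℕ → ℕ}
    {e e' : γ → ℕ → Bool} (hR : PolyF R) (hk : PolyF k)
    (hG : PolyF (fun p : γ × ℕ × ℕ × ℕ => G p.1 p.2.1 p.2.2.1 p.2.2.2))
    (ha : PolyF a) (hb : PolyF b) (hc : PolyF c) (hd : PolyF d)
    (he : PolyF (fun p : γ × ℕ => e p.1 p.2)) (he' : PolyF (fun p : γ × ℕ => e' p.1 p.2)) :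
    PolyF (fun x => colsR (R x) (k x) (G x) (a x) (b x) (c x) (d x) (e x) (e' x)) := by
  unfold colsR; fun_prop

@[fun_prop] theorem rowsR_pt {R : γ → List ℕ} {k a b c d : γ → ℕ} {G : γ → ℕ → ℕ → ℕ → ℕ}
    {e e' : γ → ℕ → Bool} (hR : PolyF R) (hk : PolyF k)
    (hG : PolyF (fun p : γ × ℕ × ℕ × ℕ => G p.1 p.2.1 p.2.2.1 p.2.2.2))
    (ha : PolyF a) (hb : PolyF b) (hc : PolyF c) (hd : PolyF d)
    (he : PolyF (fun p : γ × ℕ => e p.1 p.2)) (he' : PolyF (fun p : γ × ℕ => e' p.1 p.2)) :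
    PolyF (fun x => rowsR (R x) (k x) (G x) (a x) (b x) (c x) (d x) (e x) (e' x)) := by
  unfold rowsR; fun_prop

@[fun_prop] theorem tripR_pt {R : γ → List ℕ} (hR : PolyF R) : PolyF (fun x => tripR (R x)) := by
  unfold tripR; fun_prop

@[fun_prop] theorem candR_pt {P : γ → ℕ → ℕ → Bool} {R : γ → List ℕ} {k d a j : γ → ℕ}
    {G : γ → ℕ → ℕ → ℕ → ℕ} {q : γ → ℕ × ℕ × ℕ}
    (hP : PolyF (fun p : γ × ℕ × ℕ => P p.1 p.2.1 p.2.2)) (hR : PolyF R) (hk : PolyF k)
    (hG : PolyF (fun p : γ × ℕ × ℕ × ℕ => G p.1 p.2.1 p.2.2.1 p.2.2.2))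
    (hd : PolyF d) (ha : PolyF a) (hj : PolyF j) (hq : PolyF q) :
    PolyF (fun x => candR (P x) (R x) (k x) (G x) (d x) (a x) (j x) (q x)) := by
  unfold candR
  refine PolyF.ite' (by fun_prop) (by fun_prop) ?_
  refine PolyF.ite' (by fun_prop) (by fun_prop) ?_
  refine PolyF.ite' (by fun_prop) (by fun_prop) (by fun_prop)

omit hC [Dat γ] in
theorem minfold_le {q : Type} (f : q → ℕ) (l : List q) (m : ℕ) :
    l.foldl (fun m q => min m (f q)) m ≤ m := by
  induction l generalizing m with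
  | nil => exact le_refl _
  | cons a l ih => exact (ih _).trans (min_le_left _ _)

@[fun_prop] theorem stepR_pt {P : γ → ℕ → ℕ → Bool} {R : γ → List ℕ} {k d a j : γ → ℕ}
    {G : γ → ℕ → ℕ → ℕ → ℕ}
    (hP : PolyF (fun p : γ × ℕ × ℕ => P p.1 p.2.1 p.2.2)) (hR : PolyF R) (hk : PolyF k)
    (hG : PolyF (fun p : γ × ℕ × ℕ × ℕ => G p.1 p.2.1 p.2.2.1 p.2.2.2))
    (hd : PolyF d) (ha : PolyF a) (hj : PolyF j) :
    PolyF (fun x => stepR (P x) (R x) (k x) (G x) (d x) (a x) (j x)) := by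
  unfold stepR
  refine PolyF.iteb (by fun_prop) ?_ (by fun_prop)
  refine PolyF.foldl (by fun_prop) (by fun_prop) (by fun_prop) (fun x => 2 * sz (k x + 1))
    ((PolyB.const 2).mul (PolyF.bound (f := fun x => k x + 1) (by fun_prop))) ?_
  intro x l₁ _
  exact sz_nat_mono (minfold_le _ _ _)

@[fun_prop] theorem finalR_pt {P : γ → ℕ → ℕ → Bool} {R : γ → List ℕ} {k : γ → ℕ}
    {G : γ → ℕ → ℕ → ℕ → ℕ}
    (hP : PolyF (fun p : γ × ℕ × ℕ => P p.1 p.2.1 p.2.2)) (hR : PolyF R) (hk : PolyF k)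
    (hG : PolyF (fun p : γ × ℕ × ℕ × ℕ => G p.1 p.2.1 p.2.2.1 p.2.2.2)) :
    PolyF (fun x => finalR (P x) (R x) (k x) (G x)) := by
  unfold finalR; fun_prop

@[fun_prop] theorem look_pt {T : γ → List (List (List ℕ))} {d a j : γ → ℕ} (hT : PolyF T)
    (hd : PolyF d) (ha : PolyF a) (hj : PolyF j) :
    PolyF (fun x => look (T x) (d x) (a x) (j x)) := by
  unfold look; fun_prop

@[fun_prop] theorem store_pt {R : γ → List ℕ} {G : γ → ℕ → ℕ → ℕ → ℕ} (hR : PolyF R)
    (hG : PolyF (fun p : γ × ℕ × ℕ × ℕ => G p.1 p.2.1 p.2.2.1 p.2.2.2)) :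
    PolyF (fun x => store (R x) (G x)) := by
  unfold store; fun_prop

@[fun_prop] theorem clock_pt {R : γ → List ℕ} (hR : PolyF R) : PolyF (fun x => clock (R x)) := by
  unfold clock; fun_prop

@[fun_prop] theorem initTab_pt {P : γ → ℕ → ℕ → Bool} {k d a j : γ → ℕ}
    (hP : PolyF (fun p : γ × ℕ × ℕ => P p.1 p.2.1 p.2.2)) (hk : PolyF k)
    (hd : PolyF d) (ha : PolyF a) (hj : PolyF j) :
    PolyF (fun x => initTab (P x) (k x) (d x) (a x) (j x)) := by
  unfold initTab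
  fun_prop

omit hC [Dat γ] in
theorem sz_store_le (R : List ℕ) (G : Tab) (M : ℕ) (h : ∀ dir a j, G dir a j ≤ M) :
    sz (store R G) ≤ 4 * ((R.length * ((R.length * (2 * sz M + 1) + 1) + 1) + 1) + 1) + 1 := by
  unfold store
  have h1 : ∀ dir a, sz (R.map (fun j => G dir a j)) ≤ R.length * (2 * sz M + 1) + 1 := by
    intro dir a
    have := sz_list_le (l := R.map (fun j => G dir a j)) (M := 2 * sz M) (by
      intro v hv
      obtain ⟨j, _, rfl⟩ := List.mem_map.mp hv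
      exact sz_nat_mono (h _ _ _))
    rwa [List.length_map] at this
  have h2 : ∀ dir, sz (R.map (fun a => R.map (fun j => G dir a j))) ≤
      R.length * ((R.length * (2 * sz M + 1) + 1) + 1) + 1 := by
    intro dir
    have := sz_list_le (l := R.map (fun a => R.map (fun j => G dir a j)))
      (M := R.length * (2 * sz M + 1) + 1) (by
      intro v hv
      obtain ⟨a, _, rfl⟩ := List.mem_map.mp hv
      exact h1 _ _)
    rwa [List.length_map] at this
  have := sz_list_le (l := [0, 1, 2, 3].map (fun dir => R.map (fun a => R.map (fun j => G dir a j))))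
    (M := R.length * ((R.length * (2 * sz M + 1) + 1) + 1) + 1) (by
      intro v hv
      obtain ⟨a, _, rfl⟩ := List.mem_map.mp hv
      exact h2 _)
  simpa using this

omit hC [Dat γ] in
theorem stepR_le (P : ℕ → ℕ → Bool) (R : List ℕ) (k : ℕ) (G : Tab) (dir a j : ℕ) :
    stepR P R k G dir a j ≤ k + 1 := by
  unfold stepR
  split_ifs
  · exact minfold_le _ _ _
  · omega

omit hC [Dat γ] in
theorem initTab_le (P : ℕ → ℕ → Bool) (k : ℕ) (dir a j : ℕ) : initTab P k dir a j ≤ k + 1 := by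
  unfold initTab
  split_ifs <;> omega

@[fun_prop] theorem dpR_pt {P : γ → ℕ → ℕ → Bool} {R : γ → List ℕ} {k : γ → ℕ}
    (hP : PolyF (fun p : γ × ℕ × ℕ => P p.1 p.2.1 p.2.2)) (hR : PolyF R) (hk : PolyF k) :
    PolyF (fun x => dpR (P x) (R x) (k x)) := by
  unfold dpR
  have h1 : PolyF (fun x => (clock (R x)).foldl
      (fun T _ => store (R x) (stepR (P x) (R x) (k x) (look T))) (store (R x) (initTab (P x) (k x)))) := by
    refine PolyF.foldl (by fun_prop) (by fun_prop) (by fun_prop)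
      (fun x => 4 * ((sz (R x) * ((sz (R x) * (2 * sz (k x + 1) + 1) + 1) + 1) + 1) + 1) + 1) ?_ ?_
    · have h2 : PolyB (fun x => sz (k x + 1)) := PolyF.bound (f := fun x => k x + 1) (by fun_prop)
      have h3 : PolyB (fun x => sz (R x) * (2 * sz (k x + 1) + 1) + 1) :=
        (hR.bound.mul (((PolyB.const 2).mul h2).add (PolyB.const 1))).add (PolyB.const 1)
      exact ((PolyB.const 4).mul (((hR.bound.mul (h3.add (PolyB.const 1))).add (PolyB.const 1)).add
        (PolyB.const 1))).add (PolyB.const 1)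
    · intro x l₁ _
      have key : ∃ G : Tab, (∀ dir a j, G dir a j ≤ k x + 1) ∧ l₁.foldl
          (fun T _ => store (R x) (stepR (P x) (R x) (k x) (look T)))
          (store (R x) (initTab (P x) (k x))) = store (R x) G := by
        rcases List.eq_nil_or_concat l₁ with rfl | ⟨l₂, c, rfl⟩
        · exact ⟨_, initTab_le _ _, rfl⟩
        · refine ⟨stepR (P x) (R x) (k x) (look (l₂.foldl
            (fun T _ => store (R x) (stepR (P x) (R x) (k x) (look T)))
            (store (R x) (initTab (P x) (k x))))), fun dir a j => stepR_le _ _ _ _ dir a j, ?_⟩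
          rw [List.concat_eq_append, List.foldl_append]
          rfl
      obtain ⟨G, hG, h⟩ := key
      rw [h]
      refine (sz_store_le _ _ _ hG).trans ?_
      have h4 := length_lt_sz (R x)
      gcongr
  refine finalR_pt hP hR hk (look_pt ?_ (by fun_prop) (by fun_prop) (by fun_prop))
  exact PolyF.comp (g := fun p : γ × ℕ × ℕ × ℕ => p.1) h1 (by fun_prop)

end Pool.Agent.CSN
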