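import Pool.Agent.CSN.Path

/-!
# The boundary as a unit step path

Every simple rectilinear polygon has a unit step path.
-/

set_option autoImplicit false

namespace Pool.Agent.CSN

/-- The direction of the `i`-th side. -/
def dirU (V : List (ℤ × ℤ)) (i : ℕ) : ℤ × ℤ :=
  (Int.sign ((vtx V (i + 1)).1 - (vtx V i).1), Int.sign ((vtx V (i + 1)).2 - (vtx V i).2))

/-- The length of the `i`-th side. -/
def lenU (V : List (ℤ × ℤ)) (i : ℕ) : ℕ :=
  ((vtx V (i + 1)).1 - (vtx V i).1).natAbs + ((vtx V (i + 1)).2 - (vtx V i).2).natAbs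

/-- The `r`-th lattice point of the `i`-th side. -/
def ptU (V : List (ℤ × ℤ)) (i r : ℕ) : ℤ × ℤ :=
  ((vtx V i).1 + r * (dirU V i).1, (vtx V i).2 + r * (dirU V i).2)

/-- The length of the path up to the `i`-th vertex. -/
def cumU (V : List (ℤ × ℤ)) (i : ℕ) : ℕ := ∑ j ∈ Finset.range i, lenU V j

theorem vtx_mod (V : List (ℤ × ℤ)) (i : ℕ) : vtx V (i % V.length) = vtx V i := by
  unfold vtx; rw [Nat.mod_mod]

theorem vtx_mod_succ (V : List (ℤ × ℤ)) (i : ℕ) : vtx V (i % V.length + 1) = vtx V (i + 1) := by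
  unfold vtx; rw [Nat.mod_add_mod]

theorem side_mod (V : List (ℤ × ℤ)) (i : ℕ) : side V (i % V.length) = side V i := by
  unfold side; rw [vtx_mod, vtx_mod_succ]

theorem vtx_add (V : List (ℤ × ℤ)) (i : ℕ) : vtx V (i + V.length) = vtx V i := by
  unfold vtx; rw [Nat.add_mod_right]

theorem vtx_mem (V : List (ℤ × ℤ)) (hV : 4 ≤ V.length) (i : ℕ) : vtx V i ∈ V := by
  unfold vtx
  have h : i % V.length < V.length := Nat.mod_lt _ (by omega)
  rw [List.getD_eq_getElem _ _ h]
  exact List.getElem_mem h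

theorem side_cases (V : List (ℤ × ℤ)) (hV : IsRectilinear V) (i : ℕ) :
    1 ≤ lenU V i ∧
    ((dirU V i = (0, 1) ∧ vtx V (i + 1) = ((vtx V i).1, (vtx V i).2 + lenU V i)) ∨
     (dirU V i = (0, -1) ∧ vtx V (i + 1) = ((vtx V i).1, (vtx V i).2 - lenU V i)) ∨
     (dirU V i = (1, 0) ∧ vtx V (i + 1) = ((vtx V i).1 + lenU V i, (vtx V i).2)) ∨
     (dirU V i = (-1, 0) ∧ vtx V (i + 1) = ((vtx V i).1 - lenU V i, (vtx V i).2))) := by
  have h4 := hV.len
  have hlt : i % V.length < V.length := Nat.mod_lt _ (by omega)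
  have h1 := hV.nondeg _ hlt
  have h2 := hV.axis _ hlt
  rw [vtx_mod, vtx_mod_succ] at h1 h2
  unfold lenU dirU
  set p := vtx V i
  set q := vtx V (i + 1)
  obtain ⟨p1, p2⟩ := p
  obtain ⟨q1, q2⟩ := q
  simp only [ne_eq, Prod.mk.injEq] at h1 h2 ⊢
  rcases h2 with h2 | h2
  · subst h2
    have h3 : p2 ≠ q2 := fun h => h1 ⟨rfl, h⟩
    rcases lt_or_gt_of_ne h3 with h | h
    · have hs : Int.sign (q2 - p2) = 1 := Int.sign_eq_one_of_pos (by omega)
      refine ⟨by omega, Or.inl ⟨⟨by simp, hs⟩, rfl, by omega⟩⟩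
    · have hs : Int.sign (q2 - p2) = -1 := Int.sign_eq_neg_one_of_neg (by omega)
      refine ⟨by omega, Or.inr (Or.inl ⟨⟨by simp, hs⟩, rfl, by omega⟩)⟩
  · subst h2
    have h3 : p1 ≠ q1 := fun h => h1 ⟨h, rfl⟩
    rcases lt_or_gt_of_ne h3 with h | h
    · have hs : Int.sign (q1 - p1) = 1 := Int.sign_eq_one_of_pos (by omega)
      refine ⟨by omega, Or.inr (Or.inr (Or.inl ⟨⟨hs, by simp⟩, by omega, rfl⟩))⟩
    · have hs : Int.sign (q1 - p1) = -1 := Int.sign_eq_neg_one_of_neg (by omega)
      refine ⟨by omega, Or.inr (Or.inr (Or.inr ⟨⟨hs, by simp⟩, by omega, rfl⟩))⟩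

theorem ptU_zero (V : List (ℤ × ℤ)) (i : ℕ) : ptU V i 0 = vtx V i := by
  unfold ptU; simp

theorem ptU_len (V : List (ℤ × ℤ)) (hV : IsRectilinear V) (i : ℕ) :
    ptU V i (lenU V i) = vtx V (i + 1) := by
  unfold ptU
  obtain ⟨-, h | h | h | h⟩ := side_cases V hV i <;> rw [h.2, h.1] <;> simp <;> ring

theorem ptU_inj (V : List (ℤ × ℤ)) (hV : IsRectilinear V) (i r r' : ℕ)
    (h : ptU V i r = ptU V i r') : r = r' := by
  unfold ptU at h
  obtain ⟨-, hc | hc | hc | hc⟩ := side_cases V hV i <;> rw [hc.1] at h <;> simp at h <;> omega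

theorem ptU_step (V : List (ℤ × ℤ)) (hV : IsRectilinear V) (i r : ℕ) :
    UnitStep (ptU V i r) (ptU V i (r + 1)) := by
  unfold ptU UnitStep
  obtain ⟨-, hc | hc | hc | hc⟩ := side_cases V hV i <;> rw [hc.1] <;> push_cast <;> simp <;> omega

theorem toPt_ptU (V : List (ℤ × ℤ)) (i r : ℕ) :
    toPt (ptU V i r) = toPt (vtx V i) + (r : ℝ) • toPt (dirU V i) := by
  unfold toPt ptU
  ext <;> simp

theorem mem_seg (A u p : Pt) (a b : ℝ) (hab : a < b) :
    p ∈ segment ℝ (A + a • u) (A + b • u) ↔ ∃ t, a ≤ t ∧ t ≤ b ∧ p = A + t • u := by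
  rw [segment_eq_image']
  constructor
  · rintro ⟨θ, ⟨h0, h1⟩, rfl⟩
    refine ⟨a + θ * (b - a), ?_, ?_, ?_⟩
    · have := mul_nonneg h0 (sub_nonneg.mpr hab.le); linarith
    · have := mul_le_mul_of_nonneg_right h1 (sub_nonneg.mpr hab.le); linarith
    · ext <;> simp <;> ring
  · rintro ⟨t, h0, h1, rfl⟩
    have hba : 0 < b - a := sub_pos.mpr hab
    refine ⟨(t - a) / (b - a), ⟨div_nonneg (by linarith) hba.le, ?_⟩, ?_⟩
    · rw [div_le_one hba]; linarith
    · have : (t - a) / (b - a) * (b - a) = t - a := div_mul_cancel₀ _ hba.ne'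
      ext
      · simp only [Prod.fst_add, Prod.smul_fst, smul_eq_mul, Prod.fst_sub]
        linear_combination u.1 * this
      · simp only [Prod.snd_add, Prod.smul_snd, smul_eq_mul, Prod.snd_sub]
        linear_combination u.2 * this

theorem mem_side (V : List (ℤ × ℤ)) (hV : IsRectilinear V) (i : ℕ) (p : Pt) :
    p ∈ side V i ↔ ∃ t : ℝ, 0 ≤ t ∧ t ≤ lenU V i ∧ p = toPt (vtx V i) + t • toPt (dirU V i) := by
  unfold side
  have h1 : (1 : ℝ) ≤ (lenU V i : ℝ) := by exact_mod_cast (side_cases V hV i).1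
  rw [← ptU_len V hV i, ← ptU_zero V i, toPt_ptU, toPt_ptU, Nat.cast_zero,
    mem_seg _ _ _ _ _ (by linarith)]
  simp

theorem ptU_mem_side (V : List (ℤ × ℤ)) (hV : IsRectilinear V) (i r : ℕ) (hr : r ≤ lenU V i) :
    toPt (ptU V i r) ∈ side V i := by
  rw [mem_side V hV]
  exact ⟨r, by positivity, by exact_mod_cast hr, toPt_ptU V i r⟩

theorem side_eq (V : List (ℤ × ℤ)) (hV : IsRectilinear V) (i : ℕ) (p : Pt) :
    p ∈ side V i ↔ ∃ r < lenU V i, p ∈ segment ℝ (toPt (ptU V i r)) (toPt (ptU V i (r + 1))) := by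
  have h1 := (side_cases V hV i).1
  rw [mem_side V hV]
  constructor
  · rintro ⟨t, h0, hl, rfl⟩
    by_cases ht : t = lenU V i
    · refine ⟨lenU V i - 1, by omega, ?_⟩
      rw [toPt_ptU, toPt_ptU, mem_seg]
      · refine ⟨t, ?_, ?_, rfl⟩
        · rw [ht]; exact_mod_cast (by omega)
        · rw [ht]; exact_mod_cast (by omega)
      · exact_mod_cast (by omega)
    · have hlt : t < lenU V i := lt_of_le_of_ne hl ht
      refine ⟨⌊t⌋₊, ?_, ?_⟩
      · rw [Nat.floor_lt h0]; exact hlt
      · rw [toPt_ptU, toPt_ptU, mem_seg]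
        · refine ⟨t, Nat.floor_le h0, ?_, rfl⟩
          push_cast
          exact (Nat.lt_floor_add_one t).le
        · exact_mod_cast (by omega)
  · rintro ⟨r, hr, hp⟩
    rw [toPt_ptU, toPt_ptU, mem_seg] at hp
    · obtain ⟨t, h0, h1', rfl⟩ := hp
      refine ⟨t, le_trans (by positivity) h0, le_trans h1' ?_, rfl⟩
      exact_mod_cast hr
    · exact_mod_cast (by omega)

theorem cumU_succ (V : List (ℤ × ℤ)) (i : ℕ) : cumU V (i + 1) = cumU V i + lenU V i := by
  unfold cumU; rw [Finset.sum_range_succ]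

theorem cumU_lt (V : List (ℤ × ℤ)) (hV : IsRectilinear V) (i : ℕ) :
    cumU V i < cumU V (i + 1) := by
  rw [cumU_succ]; have := (side_cases V hV i).1; omega

theorem cumU_strictMono (V : List (ℤ × ℤ)) (hV : IsRectilinear V) : StrictMono (cumU V) :=
  strictMono_nat_of_lt_succ (cumU_lt V hV)

theorem cumU_period (V : List (ℤ × ℤ)) (i : ℕ) :
    cumU V (i + V.length) = cumU V i + cumU V V.length := by
  induction i with
  | zero => simp [cumU]
  | succ i ih =>
    rw [cumU_succ, show i + 1 + V.length = (i + V.length) + 1 by ring, cumU_succ, ih]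
    have : lenU V (i + V.length) = lenU V i := by
      unfold lenU
      rw [show i + V.length + 1 = (i + 1) + V.length by ring, vtx_add, vtx_add]
    omega

theorem exists_idx (V : List (ℤ × ℤ)) (hV : IsRectilinear V) (t : ℕ) :
    ∃ i, cumU V i ≤ t ∧ t < cumU V (i + 1) := by
  have hex : ∃ i, t < cumU V (i + 1) := by
    refine ⟨t, ?_⟩
    have := (cumU_strictMono V hV).le_apply (x := t + 1)
    omega
  classical
  refine ⟨Nat.find hex, ?_, Nat.find_spec hex⟩
  rcases Nat.eq_zero_or_pos (Nat.find hex) with h | h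
  · rw [h]; simp [cumU]
  · have := Nat.find_min hex (m := Nat.find hex - 1) (by omega)
    rw [show Nat.find hex - 1 + 1 = Nat.find hex by omega] at this
    omega

open Classical in
/-- The side on which the `t`-th step runs. -/
noncomputable def idxU (V : List (ℤ × ℤ)) (t : ℕ) : ℕ :=
  if h : ∃ i, cumU V i ≤ t ∧ t < cumU V (i + 1) then h.choose else 0

theorem idxU_spec (V : List (ℤ × ℤ)) (hV : IsRectilinear V) (t : ℕ) :
    cumU V (idxU V t) ≤ t ∧ t < cumU V (idxU V t + 1) := by
  have h := exists_idx V hV t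
  unfold idxU
  rw [dif_pos h]
  exact h.choose_spec

theorem idxU_eq (V : List (ℤ × ℤ)) (hV : IsRectilinear V) (t i : ℕ) (h1 : cumU V i ≤ t)
    (h2 : t < cumU V (i + 1)) : idxU V t = i := by
  have h := idxU_spec V hV t
  have hm := cumU_strictMono V hV
  have a : idxU V t < i + 1 := hm.lt_iff_lt.mp (lt_of_le_of_lt h.1 h2)
  have b : i < idxU V t + 1 := hm.lt_iff_lt.mp (lt_of_le_of_lt h1 h.2)
  omega

/-- The path. -/
noncomputable def pathU (V : List (ℤ × ℤ)) (t : ℕ) : ℤ × ℤ :=
  ptU V (idxU V t) (t - cumU V (idxU V t))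

theorem pathU_eq (V : List (ℤ × ℤ)) (hV : IsRectilinear V) (i r : ℕ) (hr : r ≤ lenU V i) :
    pathU V (cumU V i + r) = ptU V i r := by
  rcases Nat.lt_or_ge r (lenU V i) with h | h
  · unfold pathU
    rw [idxU_eq V hV (cumU V i + r) i (by omega) (by rw [cumU_succ]; omega)]
    congr 1
    omega
  · have hr' : r = lenU V i := le_antisymm hr h
    subst hr'
    have h1 := (side_cases V hV (i + 1)).1
    unfold pathU
    rw [← cumU_succ, idxU_eq V hV (cumU V (i + 1)) (i + 1) le_rfl (cumU_lt V hV _), Nat.sub_self,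
      ptU_zero, ptU_len V hV]

theorem exists_pathU (V : List (ℤ × ℤ)) (hV : IsRectilinear V) (t : ℕ) :
    ∃ i r, r < lenU V i ∧ t = cumU V i + r ∧ pathU V t = ptU V i r ∧
      pathU V (t + 1) = ptU V i (r + 1) := by
  obtain ⟨h1, h2⟩ := idxU_spec V hV t
  rw [cumU_succ] at h2
  refine ⟨idxU V t, t - cumU V (idxU V t), by omega, by omega, rfl, ?_⟩
  have h := pathU_eq V hV (idxU V t) (t - cumU V (idxU V t) + 1) (by omega)
  rw [← h]
  congr 1
  omega

theorem pathU_per (V : List (ℤ × ℤ)) (hV : IsRectilinear V) (t : ℕ) :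
    pathU V (t + cumU V V.length) = pathU V t := by
  obtain ⟨i, r, hr, ht, h1, -⟩ := exists_pathU V hV t
  have hl : lenU V (i + V.length) = lenU V i := by
    unfold lenU
    rw [show i + V.length + 1 = (i + 1) + V.length by ring, vtx_add, vtx_add]
  have h := pathU_eq V hV (i + V.length) r (by rw [hl]; exact hr.le)
  rw [cumU_period] at h
  rw [h1, ht, show cumU V i + r + cumU V V.length = cumU V i + cumU V V.length + r by ring, h]
  unfold ptU dirU
  rw [show i + V.length + 1 = (i + 1) + V.length by ring, vtx_add, vtx_add]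

theorem ptU_ne (V : List (ℤ × ℤ)) (hV : IsRectilinear V) (i r : ℕ) (hr : r < lenU V i) :
    ptU V i r ≠ vtx V (i + 1) := by
  intro h
  rw [← ptU_len V hV i] at h
  have := ptU_inj V hV i _ _ h
  omega

theorem toPt_inj {p q : ℤ × ℤ} (h : toPt p = toPt q) : p = q := by
  unfold toPt at h
  rw [Prod.mk.injEq] at h
  ext
  · exact_mod_cast h.1
  · exact_mod_cast h.2

theorem ptU_cross (V : List (ℤ × ℤ)) (hV : IsRectilinear V) (i j r r' : ℕ)
    (hi : i < V.length) (hj : j < V.length)
    (hr : r < lenU V i) (hr' : r' < lenU V j) (h : ptU V i r = ptU V j r') : i = j := by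
  by_contra hij
  have m1 := ptU_mem_side V hV i r hr.le
  have m2 := ptU_mem_side V hV j r' hr'.le
  rw [← h] at m2
  by_cases h1 : (i + 1) % V.length = j
  · have h2 := hV.adj i hi
    rw [← side_mod V (i + 1), h1] at h2
    have h3 : toPt (ptU V i r) ∈ ({toPt (vtx V (i + 1))} : Set Pt) := by
      rw [← h2]; exact ⟨m1, m2⟩
    exact ptU_ne V hV i r hr (toPt_inj h3)
  · by_cases h2 : (j + 1) % V.length = i
    · have h4 := hV.adj j hj
      rw [← side_mod V (j + 1), h2] at h4
      have h3 : toPt (ptU V i r) ∈ ({toPt (vtx V (j + 1))} : Set Pt) := by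
        rw [← h4]; exact ⟨m2, m1⟩
      rw [h] at h3
      exact ptU_ne V hV j r' hr' (toPt_inj h3)
    · exact Set.disjoint_left.mp (hV.nonadj i hi j hj hij h1 h2) m1 m2

theorem pathU_inj (V : List (ℤ × ℤ)) (hV : IsRectilinear V) (s t : ℕ)
    (hs : s < cumU V V.length) (ht : t < cumU V V.length) (h : pathU V s = pathU V t) : s = t := by
  obtain ⟨i, r, hr, hs', h1, -⟩ := exists_pathU V hV s
  obtain ⟨j, r', hr', ht', h2, -⟩ := exists_pathU V hV t
  have hm := cumU_strictMono V hV
  have hi : i < V.length := hm.lt_iff_lt.mp (by omega)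
  have hj : j < V.length := hm.lt_iff_lt.mp (by omega)
  rw [h1, h2] at h
  have hij := ptU_cross V hV i j r r' hi hj hr hr' h
  subst hij
  have := ptU_inj V hV i _ _ h
  omega

theorem pathU_bd (V : List (ℤ × ℤ)) (hV : IsRectilinear V) :
    boundary V = {p | ∃ t < cumU V V.length,
      p ∈ segment ℝ (toPt (pathU V t)) (toPt (pathU V (t + 1)))} := by
  have hm := cumU_strictMono V hV
  ext p
  unfold boundary
  constructor
  · rintro ⟨i, hi, hp⟩
    rw [side_eq V hV] at hp
    obtain ⟨r, hr, hp⟩ := hp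
    refine ⟨cumU V i + r, ?_, ?_⟩
    · have h1 : cumU V (i + 1) ≤ cumU V V.length := hm.monotone hi
      rw [cumU_succ] at h1
      omega
    · rw [pathU_eq V hV i r hr.le, show cumU V i + r + 1 = cumU V i + (r + 1) by ring,
        pathU_eq V hV i (r + 1) hr]
      exact hp
  · rintro ⟨t, ht, hp⟩
    obtain ⟨i, r, hr, ht', h1, h2⟩ := exists_pathU V hV t
    refine ⟨i, hm.lt_iff_lt.mp (by omega), ?_⟩
    rw [side_eq V hV]
    refine ⟨r, hr, ?_⟩
    rw [← h1, ← h2]
    exact hp

/-- The number of crossings of one side. -/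
theorem side_count (V : List (ℤ × ℤ)) (hV : IsRectilinear V) (x y : ℤ) (i : ℕ) :
    ((Finset.range (lenU V i)).filter (fun r => stepL (pathU V) x y (cumU V i + r))).card =
      if crossL x y (vtx V i, vtx V (i + 1)) = true then 1 else 0 := by
  have e1 : ∀ r ∈ Finset.range (lenU V i), (stepL (pathU V) x y (cumU V i + r) ↔
      ((ptU V i (r + 1)).1 = (ptU V i r).1 ∧ (ptU V i r).1 ≤ x ∧
        min (ptU V i r).2 (ptU V i (r + 1)).2 = y)) := by
    intro r hr
    rw [Finset.mem_range] at hr
    unfold stepL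
    rw [pathU_eq V hV i r hr.le, show cumU V i + r + 1 = cumU V i + (r + 1) by ring,
        pathU_eq V hV i (r + 1) hr]
  rw [Finset.filter_congr e1]
  unfold ptU crossL
  obtain ⟨h1, hc | hc | hc | hc⟩ := side_cases V hV i
  · rw [hc.1, hc.2]
    simp only [Bool.and_eq_true, decide_eq_true_eq, mul_zero, add_zero, mul_one, true_and]
    split_ifs with h
    · rw [Finset.card_eq_one]
      refine ⟨(y - (vtx V i).2).toNat, ?_⟩
      ext r
      simp only [Finset.mem_filter, Finset.mem_range, Finset.mem_singleton]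
      push_cast
      omega
    · rw [Finset.card_eq_zero, Finset.filter_eq_empty_iff]
      intro r hr
      rw [Finset.mem_range] at hr
      push_cast
      omega
  · rw [hc.1, hc.2]
    simp only [Bool.and_eq_true, decide_eq_true_eq, mul_zero, add_zero, mul_neg, mul_one, true_and]
    split_ifs with h
    · rw [Finset.card_eq_one]
      refine ⟨((vtx V i).2 - 1 - y).toNat, ?_⟩
      ext r
      simp only [Finset.mem_filter, Finset.mem_range, Finset.mem_singleton]
      push_cast
      omega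
    · rw [Finset.card_eq_zero, Finset.filter_eq_empty_iff]
      intro r hr
      rw [Finset.mem_range] at hr
      push_cast
      omega
  · rw [hc.1, hc.2]
    simp only [Bool.and_eq_true, decide_eq_true_eq, mul_zero, add_zero, mul_one]
    split_ifs with h
    · omega
    · rw [Finset.card_eq_zero, Finset.filter_eq_empty_iff]
      intro r hr
      push_cast
      omega
  · rw [hc.1, hc.2]
    simp only [Bool.and_eq_true, decide_eq_true_eq, mul_zero, add_zero, mul_neg, mul_one]
    split_ifs with h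
    · omega
    · rw [Finset.card_eq_zero, Finset.filter_eq_empty_iff]
      intro r hr
      push_cast
      omega

theorem cntL_cum (V : List (ℤ × ℤ)) (hV : IsRectilinear V) (x y : ℤ) (m : ℕ) :
    cntL (pathU V) (cumU V m) x y =
      (List.range m).countP (fun i => crossL x y (vtx V i, vtx V (i + 1))) := by
  induction m with
  | zero => simp [cntL, cumU]
  | succ m ih =>
    rw [List.range_succ, List.countP_append, ← ih, List.countP_singleton, ← side_count V hV x y m,
      cumU_succ]
    unfold cntL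
    rw [Finset.range_eq_Ico, ← Finset.Ico_union_Ico_eq_Ico (b := cumU V m) (by omega) (by omega),
      Finset.filter_union, Finset.card_union_of_disjoint]
    · rw [← Finset.card_map (addLeftEmbedding (cumU V m)) (s := (Finset.range (lenU V m)).filter
        (fun r => stepL (pathU V) x y (cumU V m + r))), ← Finset.range_eq_Ico]
      congr 2
      ext t
      simp only [Finset.mem_filter, Finset.mem_Ico, Finset.mem_map, Finset.mem_range,
        addLeftEmbedding_apply]
      constructor
      · rintro ⟨⟨h1, h2⟩, h3⟩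
        refine ⟨t - cumU V m, ⟨by omega, ?_⟩, by omega⟩
        rw [show cumU V m + (t - cumU V m) = t by omega]
        exact h3
      · rintro ⟨r, ⟨h1, h2⟩, rfl⟩
        exact ⟨⟨by omega, by omega⟩, h2⟩
    · apply Finset.disjoint_filter_filter
      exact Finset.Ico_disjoint_Ico_consecutive _ _ _

theorem edges_eq (V : List (ℤ × ℤ)) (hV : 4 ≤ V.length) :
    edges V = (List.range V.length).map (fun i => (vtx V i, vtx V (i + 1))) := by
  unfold edges
  apply List.ext_getElem
  · simp
    omega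
  · intro i h1 h2
    simp only [List.length_map, List.length_range] at h2
    rw [List.getElem_zip, List.getElem_map, List.getElem_range]
    unfold vtx
    rw [Nat.mod_eq_of_lt h2, List.getD_eq_getElem _ _ h2]
    congr 1
    rcases Nat.lt_or_ge (i + 1) V.length with h | h
    · rw [Nat.mod_eq_of_lt h, List.getD_eq_getElem _ _ h, List.getElem_append_left, List.getElem_tail]
      rw [List.length_tail]
      omega
    · have hi : i + 1 = V.length := by omega
      rw [hi, Nat.mod_self, List.getD_eq_getElem _ _ (by omega), List.getElem_append_right]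
      · rw [List.getElem_take]
        congr 1
        simp
        omega
      · simp
        omega

theorem pathU_par (V : List (ℤ × ℤ)) (hV : IsRectilinear V) (x y : ℤ) :
    par V x y = decide (cntL (pathU V) (cumU V V.length) x y % 2 = 1) := by
  unfold par
  rw [cntL_cum V hV, edges_eq V hV.len, List.countP_map]
  rfl

/-- Job U. -/
theorem targetUnit : TargetUnit := by
  intro V hV
  refine ⟨cumU V V.length, pathU V, ?_, pathU_per V hV, ?_, ?_, pathU_bd V hV, pathU_par V hV,
    ?_, ?_⟩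
  · have := (cumU_strictMono V hV).le_apply (x := V.length)
    have := hV.len
    omega
  · intro s hs t ht h
    exact pathU_inj V hV s t hs ht h
  · intro t
    obtain ⟨i, r, hr, ht, h1, h2⟩ := exists_pathU V hV t
    rw [h1, h2]
    exact ptU_step V hV i r
  · intro t h
    obtain ⟨i, r, hr, ht, h1, h2⟩ := exists_pathU V hV t
    refine ⟨vtx V i, vtx_mem V hV.len i, ?_⟩
    rw [h1] at h ⊢
    rw [h2] at h
    unfold ptU at h ⊢
    obtain ⟨-, hc | hc | hc | hc⟩ := side_cases V hV i <;> rw [hc.1] at h ⊢ <;> push_cast at h ⊢ <;>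
      simp at h ⊢
  · intro t h
    obtain ⟨i, r, hr, ht, h1, h2⟩ := exists_pathU V hV t
    refine ⟨vtx V i, vtx_mem V hV.len i, ?_⟩
    rw [h1] at h ⊢
    rw [h2] at h
    unfold ptU at h ⊢
    obtain ⟨-, hc | hc | hc | hc⟩ := side_cases V hV i <;> rw [hc.1] at h ⊢ <;> push_cast at h ⊢ <;>
      simp at h ⊢

end Pool.Agent.CSN
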