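import Pool.Agent.CSN.Encode
import Pool.Agent.CSN.Unit

/-!
# Recognising simple rectilinear polygons
-/

set_option autoImplicit false

namespace Pool.Agent.CSN

open Pool.Agent.PT

/-- A side is nondegenerate and axis-parallel. -/
def okE (e : (ℤ × ℤ) × (ℤ × ℤ)) : Bool :=
  !(decide (e.1.1 = e.2.1) && decide (e.1.2 = e.2.2)) &&
    (decide (e.1.1 = e.2.1) || decide (e.1.2 = e.2.2))

/-- Two axis-parallel segments meet. -/
def hitB (e f : (ℤ × ℤ) × (ℤ × ℤ)) : Bool :=
  decide (max (min e.1.1 e.2.1) (min f.1.1 f.2.1) ≤ min (max e.1.1 e.2.1) (max f.1.1 f.2.1)) &&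
    decide (max (min e.1.2 e.2.2) (min f.1.2 f.2.2) ≤ min (max e.1.2 e.2.2) (max f.1.2 f.2.2))

/-- Two axis-parallel segments meet in one point. -/
def oneB (e f : (ℤ × ℤ) × (ℤ × ℤ)) : Bool :=
  decide (max (min e.1.1 e.2.1) (min f.1.1 f.2.1) = min (max e.1.1 e.2.1) (max f.1.1 f.2.1)) &&
    decide (max (min e.1.2 e.2.2) (min f.1.2 f.2.2) = min (max e.1.2 e.2.2) (max f.1.2 f.2.2))

/-- `j` follows `i` cyclically. -/
def nxt (n i j : ℕ) : Bool := decide (i + 1 = j) || (decide (j = 0) && decide (i + 1 = n))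

/-- The condition for two numbered sides. -/
def pairB (n : ℕ) (p q : ℕ × (ℤ × ℤ) × (ℤ × ℤ)) : Bool :=
  cond (decide (p.1 = q.1)) true (cond (nxt n p.1 q.1) (oneB p.2 q.2)
    (cond (nxt n q.1 p.1) true (!hitB p.2 q.2)))

/-- The numbered sides. -/
def numE (V : List (ℤ × ℤ)) : List (ℕ × (ℤ × ℤ) × (ℤ × ℤ)) :=
  (List.range (edges V).length).zip (edges V)

/-- Recognition of simple rectilinear polygons. -/
def recB (V : List (ℤ × ℤ)) : Bool :=
  decide (4 ≤ V.length) && ((edges V).all okE &&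
    (numE V).all (fun p => (numE V).all (fun q => pairB V.length p q)))

/-- The box of a side. -/
def inBox (e : (ℤ × ℤ) × (ℤ × ℤ)) (p : Pt) : Prop :=
  ((min e.1.1 e.2.1 : ℤ) : ℝ) ≤ p.1 ∧ p.1 ≤ ((max e.1.1 e.2.1 : ℤ) : ℝ) ∧
    ((min e.1.2 e.2.2 : ℤ) : ℝ) ≤ p.2 ∧ p.2 ≤ ((max e.1.2 e.2.2 : ℤ) : ℝ)

theorem seg_box {e : (ℤ × ℤ) × (ℤ × ℤ)} (h : e.1.1 = e.2.1 ∨ e.1.2 = e.2.2) (p : Pt) :
    p ∈ segment ℝ (toPt e.1) (toPt e.2) ↔ inBox e p := by
  obtain ⟨⟨a, b⟩, ⟨c, d⟩⟩ := e
  obtain ⟨x, y⟩ := p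
  simp only at h
  unfold toPt inBox
  simp only
  rcases h with h | h
  · subst h
    rw [← Prod.image_mk_segment_right, segment_eq_uIcc, Set.mem_image, min_self, max_self,
      Int.cast_min, Int.cast_max]
    constructor
    · rintro ⟨z, hz, hzz⟩
      rw [Prod.mk.injEq] at hzz
      obtain ⟨rfl, rfl⟩ := hzz
      exact ⟨le_refl _, le_refl _, hz.1, hz.2⟩
    · rintro ⟨h1, h2, h3, h4⟩
      exact ⟨y, ⟨h3, h4⟩, by rw [le_antisymm h1 h2]⟩
  · subst h
    rw [← Prod.image_mk_segment_left, segment_eq_uIcc, Set.mem_image, min_self, max_self,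
      Int.cast_min, Int.cast_max]
    constructor
    · rintro ⟨z, hz, hzz⟩
      rw [Prod.mk.injEq] at hzz
      obtain ⟨rfl, rfl⟩ := hzz
      exact ⟨hz.1, hz.2, le_refl _, le_refl _⟩
    · rintro ⟨h1, h2, h3, h4⟩
      exact ⟨x, ⟨h1, h2⟩, by rw [le_antisymm h3 h4]⟩

theorem hitB_iff (e f : (ℤ × ℤ) × (ℤ × ℤ)) : hitB e f = true ↔ ∃ p, inBox e p ∧ inBox f p := by
  unfold hitB inBox
  rw [Bool.and_eq_true, decide_eq_true_eq, decide_eq_true_eq]
  constructor
  · rintro ⟨h1, h2⟩
    refine ⟨(((max (min e.1.1 e.2.1) (min f.1.1 f.2.1) : ℤ) : ℝ),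
      ((max (min e.1.2 e.2.2) (min f.1.2 f.2.2) : ℤ) : ℝ)), ?_, ?_⟩ <;>
    · simp only [Int.cast_le]
      omega
  · rintro ⟨p, ⟨h1, h2, h3, h4⟩, ⟨h5, h6, h7, h8⟩⟩
    have h9 : ∀ {a b : ℤ} {x : ℝ}, (a : ℝ) ≤ x → x ≤ (b : ℝ) → a ≤ b := fun h h' => by
      exact_mod_cast h.trans h'
    have g1 := h9 h1 h2
    have g2 := h9 h1 h6
    have g3 := h9 h5 h2
    have g4 := h9 h5 h6
    have g5 := h9 h3 h4
    have g6 := h9 h3 h8
    have g7 := h9 h7 h4
    have g8 := h9 h7 h8
    exact ⟨by omega, by omega⟩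

theorem oneB_iff (e f : (ℤ × ℤ) × (ℤ × ℤ)) (hef : e.2 = f.1) :
    oneB e f = true ↔ ∀ p, inBox e p → inBox f p → p = toPt f.1 := by
  unfold oneB inBox
  rw [Bool.and_eq_true, decide_eq_true_eq, decide_eq_true_eq]
  obtain ⟨⟨a, b⟩, ⟨c, d⟩⟩ := e
  obtain ⟨⟨c', d'⟩, ⟨g, h⟩⟩ := f
  simp only [Prod.mk.injEq] at hef
  obtain ⟨rfl, rfl⟩ := hef
  simp only
  constructor
  · rintro ⟨h1, h2⟩ ⟨x, y⟩ ⟨g1, g2, g3, g4⟩ ⟨g5, g6, g7, g8⟩
    simp only at g1 g2 g3 g4 g5 g6 g7 g8
    unfold toPt
    have k1 : max (min a c) (min c g) = c ∧ min (max a c) (max c g) = c := by omega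
    have k2 : max (min b d) (min d h) = d ∧ min (max b d) (max d h) = d := by omega
    have k3 : ((max (min a c) (min c g) : ℤ) : ℝ) ≤ x := by
      rw [Int.cast_max]; exact max_le g1 g5
    have k4 : x ≤ ((min (max a c) (max c g) : ℤ) : ℝ) := by
      rw [Int.cast_min]; exact le_min g2 g6
    have k5 : ((max (min b d) (min d h) : ℤ) : ℝ) ≤ y := by
      rw [Int.cast_max]; exact max_le g3 g7
    have k6 : y ≤ ((min (max b d) (max d h) : ℤ) : ℝ) := by
      rw [Int.cast_min]; exact le_min g4 g8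
    rw [k1.1] at k3
    rw [k1.2] at k4
    rw [k2.1] at k5
    rw [k2.2] at k6
    rw [le_antisymm k4 k3, le_antisymm k6 k5]
  · intro hp
    have key : ∀ x y : ℤ, min a c ≤ x → x ≤ max a c → min b d ≤ y → y ≤ max b d →
        min c g ≤ x → x ≤ max c g → min d h ≤ y → y ≤ max d h → x = c ∧ y = d := by
      intro x y q1 q2 q3 q4 q5 q6 q7 q8
      have := hp ((x : ℝ), (y : ℝ)) ⟨Int.cast_le.mpr q1, Int.cast_le.mpr q2,
        Int.cast_le.mpr q3, Int.cast_le.mpr q4⟩ ⟨Int.cast_le.mpr q5, Int.cast_le.mpr q6,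
        Int.cast_le.mpr q7, Int.cast_le.mpr q8⟩
      unfold toPt at this
      simp only [Prod.mk.injEq, Int.cast_inj] at this
      exact this
    have k1 := key (max (min a c) (min c g)) (max (min b d) (min d h)) (by omega) (by omega)
      (by omega) (by omega) (by omega) (by omega) (by omega) (by omega)
    have k2 := key (min (max a c) (max c g)) (min (max b d) (max d h)) (by omega) (by omega)
      (by omega) (by omega) (by omega) (by omega) (by omega) (by omega)
    exact ⟨k1.1.trans k2.1.symm, k1.2.trans k2.2.symm⟩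

theorem mem_numE {V : List (ℤ × ℤ)} (hV : 4 ≤ V.length) (p : ℕ × (ℤ × ℤ) × (ℤ × ℤ)) :
    p ∈ numE V ↔ p.1 < V.length ∧ p.2 = (vtx V p.1, vtx V (p.1 + 1)) := by
  have h : numE V = (List.range V.length).map (fun i => (i, (vtx V i, vtx V (i + 1)))) := by
    unfold numE
    rw [edges_eq V hV, List.length_map, List.length_range]
    apply List.ext_getElem
    · simp
    · intro i h1 h2
      simp
  rw [h, List.mem_map]
  constructor
  · rintro ⟨i, hi, rfl⟩
    exact ⟨List.mem_range.mp hi, rfl⟩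
  · rintro ⟨h1, h2⟩
    exact ⟨p.1, List.mem_range.mpr h1, by rw [← h2]⟩

theorem recB_iff (V : List (ℤ × ℤ)) : recB V = true ↔ IsRectilinear V := by
  unfold recB
  rw [Bool.and_eq_true, Bool.and_eq_true, decide_eq_true_eq, List.all_eq_true, List.all_eq_true]
  have hnx : ∀ i j, i < V.length → j < V.length →
      (nxt V.length i j = true ↔ (i + 1) % V.length = j) := by
    intro i j hi hj
    unfold nxt
    simp only [Bool.or_eq_true, Bool.and_eq_true, decide_eq_true_eq]
    rcases Nat.lt_or_ge (i + 1) V.length with h | h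
    · rw [Nat.mod_eq_of_lt h]; omega
    · have : i + 1 = V.length := by omega
      rw [this, Nat.mod_self]; omega
  have hside : ∀ i, ((vtx V i).1 = (vtx V (i + 1)).1 ∨ (vtx V i).2 = (vtx V (i + 1)).2) →
      ∀ p, p ∈ side V i ↔ inBox (vtx V i, vtx V (i + 1)) p := fun i h p =>
    seg_box (e := (vtx V i, vtx V (i + 1))) h p
  have hvs : ∀ i, vtx V (i + 1) = vtx V ((i + 1) % V.length) := fun i => (vtx_mod V (i + 1)).symm
  constructor
  · rintro ⟨hlen, hE, hP⟩
    have hE' : ∀ i < V.length, vtx V i ≠ vtx V (i + 1) ∧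
        ((vtx V i).1 = (vtx V (i + 1)).1 ∨ (vtx V i).2 = (vtx V (i + 1)).2) := by
      intro i hi
      have h1 := hE (vtx V i, vtx V (i + 1)) (by
        rw [edges_eq V hlen]
        exact List.mem_map.mpr ⟨i, List.mem_range.mpr hi, rfl⟩)
      unfold okE at h1
      simp only [Bool.and_eq_true, Bool.not_eq_true', Bool.and_eq_false_iff, Bool.or_eq_true,
        decide_eq_true_eq, decide_eq_false_iff_not] at h1
      refine ⟨fun h2 => ?_, h1.2⟩
      rcases h1.1 with h3 | h3
      · exact h3 (by rw [h2])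
      · exact h3 (by rw [h2])
    have hax : ∀ i, (vtx V i).1 = (vtx V (i + 1)).1 ∨ (vtx V i).2 = (vtx V (i + 1)).2 := by
      intro i
      have h1 := (hE' (i % V.length) (Nat.mod_lt _ (by omega))).2
      rw [vtx_mod, vtx_mod_succ] at h1
      exact h1
    have hP' : ∀ i < V.length, ∀ j < V.length, pairB V.length
        (i, (vtx V i, vtx V (i + 1))) (j, (vtx V j, vtx V (j + 1))) = true := by
      intro i hi j hj
      have h1 := hP (i, (vtx V i, vtx V (i + 1))) ((mem_numE hlen _).mpr ⟨hi, rfl⟩)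
      rw [List.all_eq_true] at h1
      exact h1 (j, (vtx V j, vtx V (j + 1))) ((mem_numE hlen _).mpr ⟨hj, rfl⟩)
    refine ⟨hlen, fun i hi => (hE' i hi).1, fun i hi => (hE' i hi).2, ?_, ?_⟩
    · intro i hi
      have hj : (i + 1) % V.length < V.length := Nat.mod_lt _ (by omega)
      have h1 := hP' i hi _ hj
      unfold pairB at h1
      have h2 : ¬ i = (i + 1) % V.length := by
        rcases Nat.lt_or_ge (i + 1) V.length with h | h
        · rw [Nat.mod_eq_of_lt h]; omega
        · have : i + 1 = V.length := by omega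
          rw [this, Nat.mod_self]; omega
      rw [decide_eq_false h2, cond_false, (hnx i _ hi hj).mpr rfl, cond_true] at h1
      rw [vtx_mod, vtx_mod_succ] at h1
      rw [oneB_iff _ _ rfl] at h1
      ext p
      rw [Set.mem_inter_iff, hside i (hax i), hside (i + 1) (hax (i + 1)), Set.mem_singleton_iff]
      constructor
      · rintro ⟨h3, h4⟩
        exact h1 p h3 h4
      · rintro rfl
        rw [← hside i (hax i), ← hside (i + 1) (hax (i + 1))]
        exact ⟨right_mem_segment _ _ _, left_mem_segment _ _ _⟩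
    · intro i hi j hj hij h1 h2
      have h3 := hP' i hi j hj
      unfold pairB at h3
      have h4 : nxt V.length i j = false := by
        rw [← Bool.not_eq_true, hnx i j hi hj]; exact h1
      have h5 : nxt V.length j i = false := by
        rw [← Bool.not_eq_true, hnx j i hj hi]; exact h2
      rw [decide_eq_false hij, cond_false, h4, cond_false, h5, cond_false,
        Bool.not_eq_true', ← Bool.not_eq_true, hitB_iff] at h3
      rw [Set.disjoint_left]
      intro p h6 h7
      rw [hside i (hax i)] at h6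
      rw [hside j (hax j)] at h7
      exact h3 ⟨p, h6, h7⟩
  · intro hV
    have hlen := hV.len
    have hax : ∀ i, (vtx V i).1 = (vtx V (i + 1)).1 ∨ (vtx V i).2 = (vtx V (i + 1)).2 := by
      intro i
      have h1 := hV.axis (i % V.length) (Nat.mod_lt _ (by omega))
      rw [vtx_mod, vtx_mod_succ] at h1
      exact h1
    refine ⟨hlen, ?_, ?_⟩
    · intro e he
      rw [edges_eq V hlen] at he
      obtain ⟨i, hi, rfl⟩ := List.mem_map.mp he
      rw [List.mem_range] at hi
      unfold okE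
      simp only [Bool.and_eq_true, Bool.not_eq_true', Bool.and_eq_false_iff, Bool.or_eq_true,
        decide_eq_true_eq, decide_eq_false_iff_not]
      refine ⟨?_, hV.axis i hi⟩
      by_contra hcon
      rw [not_or, not_not, not_not] at hcon
      exact hV.nondeg i hi (Prod.ext hcon.1 hcon.2)
    · rintro ⟨i, e⟩ hp
      rw [List.all_eq_true]
      rintro ⟨j, f⟩ hq
      obtain ⟨hi, he⟩ := (mem_numE hlen _).mp hp
      obtain ⟨hj, hf⟩ := (mem_numE hlen _).mp hq
      simp only at hi he hj hf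
      subst he hf
      unfold pairB
      simp only
      by_cases hij : i = j
      · rw [decide_eq_true hij, cond_true]
      rw [decide_eq_false hij, cond_false]
      by_cases h1 : nxt V.length i j = true
      · rw [h1, cond_true]
        have h2 := (hnx i j hi hj).mp h1
        have h3 : vtx V j = vtx V (i + 1) := by rw [← h2, vtx_mod]
        rw [oneB_iff _ _ h3.symm]
        intro p h4 h5
        have h6 : side V j = side V (i + 1) := by rw [← h2, side_mod]
        rw [← hside i (hax i)] at h4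
        rw [← hside j (hax j), h6] at h5
        have h7 := hV.adj i hi
        have h8 : p ∈ side V i ∩ side V (i + 1) := ⟨h4, h5⟩
        rw [h7, Set.mem_singleton_iff] at h8
        rw [h8, h3]
      · rw [Bool.not_eq_true] at h1
        rw [h1, cond_false]
        by_cases h2 : nxt V.length j i = true
        · rw [h2, cond_true]
        · rw [Bool.not_eq_true] at h2
          rw [h2, cond_false, Bool.not_eq_true', ← Bool.not_eq_true, hitB_iff]
          rintro ⟨p, h4, h5⟩
          rw [← hside i (hax i)] at h4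
          rw [← hside j (hax j)] at h5
          have h6 : ¬ (i + 1) % V.length = j := by
            rw [← hnx i j hi hj, h1]; simp
          have h7 : ¬ (j + 1) % V.length = i := by
            rw [← hnx j i hj hi, h2]; simp
          exact Set.disjoint_left.mp (hV.nonadj i hi j hj hij h6 h7) h4 h5

/-- The complete decision procedure. -/
def csnFull (q : List (ℤ × ℤ) × ℕ) : Bool := recB q.1 && csnAlg q

section

variable {γ : Type} [Dat γ] [hC : Fact Core]

@[fun_prop] theorem okE_pt {e : γ → (ℤ × ℤ) × (ℤ × ℤ)} (he : PolyF e) :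
    PolyF (fun x => okE (e x)) := by
  unfold okE; fun_prop

@[fun_prop] theorem hitB_pt {e f : γ → (ℤ × ℤ) × (ℤ × ℤ)} (he : PolyF e) (hf : PolyF f) :
    PolyF (fun x => hitB (e x) (f x)) := by
  unfold hitB; fun_prop

@[fun_prop] theorem oneB_pt {e f : γ → (ℤ × ℤ) × (ℤ × ℤ)} (he : PolyF e) (hf : PolyF f) :
    PolyF (fun x => oneB (e x) (f x)) := by
  unfold oneB; fun_prop

@[fun_prop] theorem nxt_pt {n i j : γ → ℕ} (hn : PolyF n) (hi : PolyF i) (hj : PolyF j) :
    PolyF (fun x => nxt (n x) (i x) (j x)) := by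
  unfold nxt; fun_prop

@[fun_prop] theorem pairB_pt {n : γ → ℕ} {p q : γ → ℕ × (ℤ × ℤ) × (ℤ × ℤ)} (hn : PolyF n)
    (hp : PolyF p) (hq : PolyF q) : PolyF (fun x => pairB (n x) (p x) (q x)) := by
  unfold pairB; fun_prop

@[fun_prop] theorem numE_pt {V : γ → List (ℤ × ℤ)} (hV : PolyF V) :
    PolyF (fun x => numE (V x)) := by
  unfold numE; fun_prop

@[fun_prop] theorem recB_pt {V : γ → List (ℤ × ℤ)} (hV : PolyF V) :
    PolyF (fun x => recB (V x)) := by
  unfold recB; fun_prop

theorem csnFull_pt : PolyF csnFull := by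
  have := csnAlg_pt (hC := hC)
  unfold csnFull
  fun_prop

/-- Decision procedures in polynomial time on strings. -/
theorem tm_of_polyF {f : List (ℤ × ℤ) × ℕ → Bool} (hf : PolyF f) :
    Nonempty (Turing.TM2ComputableInPolyTime encInst encBool f) := by
  have h1 : PolyF (fun w : List Sym => [cond (f (parse w)) Sym.b1 Sym.b0]) := by
    have h2 : PolyF (fun w : List Sym => f (parse w)) := hf.comp (parse_pt (hC := hC))
    exact PolyF.cons (PolyF.cond h2 (by fun_prop) (by fun_prop)) (by fun_prop)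
  obtain ⟨g, hg, hg'⟩ := h1
  refine hC.out.io encInst encBool f g (hg.mono ?_) ?_
  · rintro t ⟨q, rfl⟩
    exact ⟨encInst q, rfl⟩
  · intro q
    have := hg' (encInst q)
    simp only [parse_encInst] at this
    refine this.trans ?_
    show enc _ = enc (encBool (f q))
    unfold encBool
    cases f q <;> rfl

end

end Pool.Agent.CSN
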