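import Pool.Agent.CSN.Region

/-!
# Job CSN-B4: partitions bound the tables
-/

set_option autoImplicit false

namespace Pool.Agent.CSN

namespace Cmp

/-- Members met by the run that starts at `lo` and goes down. -/
def ML (F : Set IRect) (m : IRect → ℕ → Prop) (Q : ℕ → Prop) (lo : ℕ) : Set IRect :=
  {S | S ∈ F ∧ ∃ i, i ≤ lo ∧ (∀ i', i ≤ i' → i' ≤ lo → Q i') ∧ m S i}

/-- Members met by the run that starts behind `hi` and goes up. -/
def MR (F : Set IRect) (m : IRect → ℕ → Prop) (Q : ℕ → Prop) (hi : ℕ) : Set IRect :=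
  {S | S ∈ F ∧ ∃ i, hi < i ∧ (∀ i', hi < i' → i' ≤ i → Q i') ∧ m S i}

/-- what is needed about one line -/
structure LineOK (F : Set IRect) (m : IRect → ℕ → Prop) (Q : ℕ → Prop) (N k : ℕ) : Prop where
  fin : F.Finite
  q0 : ¬ Q 0
  qN : ∀ i, Q i → i ≤ N
  conv : ∀ S i i' i'', m S i → m S i'' → i ≤ i' → i' ≤ i'' → m S i'
  disj : ∀ S ∈ F, ∀ S' ∈ F, ∀ i, m S i → m S' i → S = S'
  bound : ∀ i₁ i₂, (∀ i, i₁ < i → i ≤ i₂ → Q i) →
      {R ∈ F | ∃ i, i₁ < i ∧ i ≤ i₂ ∧ m R i}.ncard ≤ k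

theorem line_sum {F : Set IRect} {m : IRect → ℕ → Prop} {Q : ℕ → Prop} {N k : ℕ}
    (h : LineOK F m Q N k) {R : IRect} (hR : R ∈ F) {lo hi : ℕ} (hlt : lo < hi)
    (hm : ∀ i, m R i ↔ lo < i ∧ i ≤ hi) (hQ : ∀ i, lo < i → i ≤ hi → Q i) :
    (ML F m Q lo).ncard + 1 + (MR F m Q hi).ncard ≤ k := by
  classical
  have hex : ∃ l, l ≤ lo ∧ ∀ i', l < i' → i' ≤ lo → Q i' := ⟨lo, le_rfl, fun i' h1 h2 => by omega⟩
  set i₁ := Nat.find hex with hi₁
  have h1 : i₁ ≤ lo ∧ ∀ i', i₁ < i' → i' ≤ lo → Q i' := Nat.find_spec hex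
  set p : ℕ → Prop := fun r => ∀ i', hi < i' → i' ≤ r → Q i' with hp
  set i₂ := Nat.findGreatest p (max hi N) with hi₂
  have h2 : p i₂ := by
    apply Nat.findGreatest_spec (m := hi) (le_max_left _ _)
    intro i' h3 h4; omega
  have h2' : hi ≤ i₂ := by
    apply Nat.le_findGreatest (le_max_left _ _)
    intro i' h3 h4; omega
  have hrun : ∀ i, i₁ < i → i ≤ i₂ → Q i := by
    intro i h3 h4
    by_cases h5 : i ≤ lo
    · exact h1.2 i h3 h5
    · by_cases h6 : i ≤ hi
      · exact hQ i (by omega) h6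
      · exact h2 i (by omega) h4
  have hb := h.bound i₁ i₂ hrun
  have hfinL : (ML F m Q lo).Finite := h.fin.subset (fun S hS => hS.1)
  have hfinR : (MR F m Q hi).Finite := h.fin.subset (fun S hS => hS.1)
  have hdisj1 : Disjoint (ML F m Q lo) ({R} : Set IRect) := by
    rw [Set.disjoint_singleton_right]
    rintro ⟨-, i, h3, -, h4⟩
    have := (hm i).1 h4
    omega
  have hdisj2 : Disjoint (ML F m Q lo ∪ {R}) (MR F m Q hi) := by
    rw [Set.disjoint_left]
    rintro S hS ⟨hSF, i, h3, -, h4⟩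
    rcases hS with ⟨-, i', h5, -, h6⟩ | hS
    · have h7 : m S hi := h.conv S i' hi i h6 h4 (by omega) (by omega)
      have h8 : S = R := h.disj S hSF R hR hi h7 ((hm hi).2 ⟨hlt, le_rfl⟩)
      rw [h8] at h6
      have := (hm i').1 h6
      omega
    · rw [Set.mem_singleton_iff] at hS
      rw [hS] at h4
      have := (hm i).1 h4
      omega
  have hcard : (ML F m Q lo ∪ {R} ∪ MR F m Q hi).ncard =
      (ML F m Q lo).ncard + 1 + (MR F m Q hi).ncard := by
    rw [Set.ncard_union_eq hdisj2 (hfinL.union (Set.finite_singleton R)) hfinR,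
      Set.ncard_union_eq hdisj1 hfinL (Set.finite_singleton R), Set.ncard_singleton]
  rw [← hcard]
  refine le_trans (Set.ncard_le_ncard ?_ (h.fin.subset (fun S hS => hS.1))) hb
  rintro S ((⟨hSF, i, h3, h4, h5⟩ | hS) | ⟨hSF, i, h3, h4, h5⟩)
  · refine ⟨hSF, i, ?_, by omega, h5⟩
    have h6 : i ≠ 0 := by
      rintro rfl
      exact h.q0 (h4 0 le_rfl (Nat.zero_le _))
    have h7 : i₁ ≤ i - 1 := by
      apply Nat.find_min' hex
      exact ⟨by omega, fun i' h8 h9 => h4 i' (by omega) h9⟩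
    omega
  · rw [Set.mem_singleton_iff] at hS
    rw [hS]
    exact ⟨hR, hi, by omega, h2', (hm hi).2 ⟨hlt, le_rfl⟩⟩
  · refine ⟨hSF, i, by omega, ?_, h5⟩
    have h6 : i ≤ N := h.qN i (h4 i h3 le_rfl)
    exact Nat.le_findGreatest (le_trans h6 (le_max_right _ _)) h4

theorem up_step {F : Set IRect} {m : IRect → ℕ → Prop} {Q : ℕ → Prop} {N k : ℕ}
    (h : LineOK F m Q N k) {R : IRect} (hR : R ∈ F) {lo hi : ℕ} (hlt : lo < hi)
    (hm : ∀ i, m R i ↔ lo < i ∧ i ≤ hi) (hQ : ∀ i, lo < i → i ≤ hi → Q i) :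
    1 + (MR F m Q hi).ncard ≤ (MR F m Q lo).ncard := by
  have hfinR : (MR F m Q hi).Finite := h.fin.subset (fun S hS => hS.1)
  have hdisj : Disjoint ({R} : Set IRect) (MR F m Q hi) := by
    rw [Set.disjoint_singleton_left]
    rintro ⟨-, i, h3, -, h4⟩
    have := (hm i).1 h4
    omega
  have hcard : (({R} : Set IRect) ∪ MR F m Q hi).ncard = 1 + (MR F m Q hi).ncard := by
    rw [Set.ncard_union_eq hdisj (Set.finite_singleton R) hfinR, Set.ncard_singleton]
  rw [← hcard]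
  refine Set.ncard_le_ncard ?_ (h.fin.subset (fun S hS => hS.1))
  rintro S (hS | ⟨hSF, i, h3, h4, h5⟩)
  · rw [Set.mem_singleton_iff] at hS
    rw [hS]
    exact ⟨hR, hi, hlt, hQ, (hm hi).2 ⟨hlt, le_rfl⟩⟩
  · refine ⟨hSF, i, by omega, ?_, h5⟩
    intro i' h6 h7
    by_cases h8 : i' ≤ hi
    · exact hQ i' h6 h8
    · exact h4 i' (by omega) h7

theorem down_step {F : Set IRect} {m : IRect → ℕ → Prop} {Q : ℕ → Prop} {N k : ℕ}
    (h : LineOK F m Q N k) {R : IRect} (hR : R ∈ F) {lo hi : ℕ} (hlt : lo < hi)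
    (hm : ∀ i, m R i ↔ lo < i ∧ i ≤ hi) (hQ : ∀ i, lo < i → i ≤ hi → Q i) :
    1 + (ML F m Q lo).ncard ≤ (ML F m Q hi).ncard := by
  have hfinL : (ML F m Q lo).Finite := h.fin.subset (fun S hS => hS.1)
  have hdisj : Disjoint ({R} : Set IRect) (ML F m Q lo) := by
    rw [Set.disjoint_singleton_left]
    rintro ⟨-, i, h3, -, h4⟩
    have := (hm i).1 h4
    omega
  have hcard : (({R} : Set IRect) ∪ ML F m Q lo).ncard = 1 + (ML F m Q lo).ncard := by
    rw [Set.ncard_union_eq hdisj (Set.finite_singleton R) hfinL, Set.ncard_singleton]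
  rw [← hcard]
  refine Set.ncard_le_ncard ?_ (h.fin.subset (fun S hS => hS.1))
  rintro S (hS | ⟨hSF, i, h3, h4, h5⟩)
  · rw [Set.mem_singleton_iff] at hS
    rw [hS]
    refine ⟨hR, hi, le_rfl, ?_, (hm hi).2 ⟨hlt, le_rfl⟩⟩
    intro i' h6 h7
    exact hQ i' (by omega) h7
  · refine ⟨hSF, i, by omega, ?_, h5⟩
    intro i' h6 h7
    by_cases h8 : i' ≤ lo
    · exact h4 i' h6 h8
    · exact hQ i' (by omega) h7

/-- Members met by the maximal run behind the unit edge. -/
def M (P : ℕ → ℕ → Prop) (F : Set IRect) (dir a j : ℕ) : Set IRect :=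
  if dir = 0 then MR F (fun S i => S.mem i j) (fun i => P i j) a
  else if dir = 1 then ML F (fun S i => S.mem i j) (fun i => P i j) a
  else if dir = 2 then MR F (fun S i => S.mem j i) (fun i => P j i) a
  else ML F (fun S i => S.mem j i) (fun i => P j i) a

/-- the members of a partition are valid -/
theorem valid_of_mem {P : ℕ → ℕ → Prop} {F : Set IRect} (hF : IsGridPartition P F) {R : IRect}
    (hR : R ∈ F) : Valid P R := by
  have h1 := hF.pos R hR
  have h2 := hF.corner R hR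
  exact ⟨h1.1, h1.2, hF.sub R hR, h2.1, h2.2.1, h2.2.2.1, h2.2.2.2⟩

theorem fin_of_supp {P : ℕ → ℕ → Prop} {F : Set IRect} {N : ℕ} (hS : Supp P N)
    (hF : IsGridPartition P F) : F.Finite := by
  have hinj : Function.Injective (fun R : IRect => (R.a, R.b, R.c, R.d)) := by
    rintro ⟨a, b, c, d⟩ ⟨a', b', c', d'⟩ h
    simp only [Prod.mk.injEq] at h
    obtain ⟨rfl, rfl, rfl, rfl⟩ := h
    rfl
  apply Set.Finite.of_finite_image _ hinj.injOn
  apply Set.Finite.subset (s := (Set.Iic N) ×ˢ ((Set.Iic N) ×ˢ ((Set.Iic N) ×ˢ (Set.Iic N))))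
  · exact (Set.finite_Iic N).prod ((Set.finite_Iic N).prod ((Set.finite_Iic N).prod
      (Set.finite_Iic N)))
  · rintro _ ⟨R, hR, rfl⟩
    have h1 := hF.pos R hR
    have h2 := hS R.b R.d (hF.sub R hR R.b R.d ⟨h1.1, le_rfl, h1.2, le_rfl⟩)
    simp only [Set.mem_prod, Set.mem_Iic]
    omega

theorem lineOK_row {P : ℕ → ℕ → Prop} {F : Set IRect} {N k : ℕ} (hS : Supp P N)
    (hF : IsGridPartition P F)
    (hrow : ∀ j i₁ i₂, (∀ i, i₁ < i → i ≤ i₂ → P i j) →
      {R ∈ F | ∃ i, i₁ < i ∧ i ≤ i₂ ∧ R.mem i j}.ncard ≤ k) (j : ℕ) :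
    LineOK F (fun S i => S.mem i j) (fun i => P i j) N k where
  fin := fin_of_supp hS hF
  q0 := fun h => by have := hS _ _ h; omega
  qN := fun i h => (hS _ _ h).2.1
  conv := by
    intro S i i' i'' h1 h2 h3 h4
    unfold IRect.mem at *
    omega
  disj := fun S hS' S' hS'' i h1 h2 => hF.disj S hS' S' hS'' i j h1 h2
  bound := hrow j

theorem lineOK_col {P : ℕ → ℕ → Prop} {F : Set IRect} {N k : ℕ} (hS : Supp P N)
    (hF : IsGridPartition P F)
    (hcol : ∀ i j₁ j₂, (∀ j, j₁ < j → j ≤ j₂ → P i j) →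
      {R ∈ F | ∃ j, j₁ < j ∧ j ≤ j₂ ∧ R.mem i j}.ncard ≤ k) (j : ℕ) :
    LineOK F (fun S i => S.mem j i) (fun i => P j i) N k where
  fin := fin_of_supp hS hF
  q0 := fun h => by have := hS _ _ h; omega
  qN := fun i h => (hS _ _ h).2.2.2
  conv := by
    intro S i i' i'' h1 h2 h3 h4
    unfold IRect.mem at *
    omega
  disj := fun S hS' S' hS'' i h1 h2 => hF.disj S hS' S' hS'' j i h1 h2
  bound := hcol j

/-- the horizontal line through a member -/
theorem factA {P : ℕ → ℕ → Prop} {F : Set IRect} {N k : ℕ} (hS : Supp P N)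
    (hF : IsGridPartition P F)
    (hrow : ∀ j i₁ i₂, (∀ i, i₁ < i → i ≤ i₂ → P i j) →
      {R ∈ F | ∃ i, i₁ < i ∧ i ≤ i₂ ∧ R.mem i j}.ncard ≤ k) {R : IRect} (hR : R ∈ F) {j : ℕ}
    (hp : R.pos 0 j) : (M P F 1 R.a j).ncard + 1 + (M P F 0 R.b j).ncard ≤ k := by
  have h := lineOK_row hS hF hrow j
  have h1 := hF.pos R hR
  have h2 : R.c < j ∧ j ≤ R.d := by simpa [IRect.pos] using hp
  have := line_sum h hR h1.1 (fun i => by unfold IRect.mem; tauto)
    (fun i h3 h4 => hF.sub R hR i j ⟨h3, h4, h2.1, h2.2⟩)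
  simpa [M] using this

/-- the vertical line through a member -/
theorem factB {P : ℕ → ℕ → Prop} {F : Set IRect} {N k : ℕ} (hS : Supp P N)
    (hF : IsGridPartition P F)
    (hcol : ∀ i j₁ j₂, (∀ j, j₁ < j → j ≤ j₂ → P i j) →
      {R ∈ F | ∃ j, j₁ < j ∧ j ≤ j₂ ∧ R.mem i j}.ncard ≤ k) {R : IRect} (hR : R ∈ F) {j : ℕ}
    (hp : R.pos 2 j) : (M P F 3 R.c j).ncard + 1 + (M P F 2 R.d j).ncard ≤ k := by
  have h := lineOK_col hS hF hcol j
  have h1 := hF.pos R hR
  have h2 : R.a < j ∧ j ≤ R.b := by simpa [IRect.pos] using hp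
  have := line_sum h hR h1.2 (fun i => by unfold IRect.mem; tauto)
    (fun i h3 h4 => hF.sub R hR j i ⟨h2.1, h2.2, h3, h4⟩)
  simpa [M] using this

/-- one more member -/
theorem factC {P : ℕ → ℕ → Prop} {F : Set IRect} {N k : ℕ} (hS : Supp P N)
    (hF : IsGridPartition P F)
    (hrow : ∀ j i₁ i₂, (∀ i, i₁ < i → i ≤ i₂ → P i j) →
      {R ∈ F | ∃ i, i₁ < i ∧ i ≤ i₂ ∧ R.mem i j}.ncard ≤ k)
    (hcol : ∀ i j₁ j₂, (∀ j, j₁ < j → j ≤ j₂ → P i j) →
      {R ∈ F | ∃ j, j₁ < j ∧ j ≤ j₂ ∧ R.mem i j}.ncard ≤ k) {R : IRect} (hR : R ∈ F)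
    {dir j : ℕ} (hd : dir < 4) (hp : R.pos dir j) :
    1 + (M P F dir (R.line dir) j).ncard ≤ (M P F dir (R.line (op dir)) j).ncard := by
  have h1 := hF.pos R hR
  have hr := lineOK_row hS hF hrow j
  have hc := lineOK_col hS hF hcol j
  have hmr : R.c < j ∧ j ≤ R.d → ∀ i, R.mem i j ↔ R.a < i ∧ i ≤ R.b := by
    intro h2 i; unfold IRect.mem; tauto
  have hmc : R.a < j ∧ j ≤ R.b → ∀ i, R.mem j i ↔ R.c < i ∧ i ≤ R.d := by
    intro h2 i; unfold IRect.mem; tauto
  interval_cases dir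
  · have h2 : R.c < j ∧ j ≤ R.d := by simpa [IRect.pos] using hp
    have := up_step hr hR h1.1 (hmr h2) (fun i h3 h4 => hF.sub R hR i j ⟨h3, h4, h2.1, h2.2⟩)
    simpa [M, IRect.line, op] using this
  · have h2 : R.c < j ∧ j ≤ R.d := by simpa [IRect.pos] using hp
    have := down_step hr hR h1.1 (hmr h2) (fun i h3 h4 => hF.sub R hR i j ⟨h3, h4, h2.1, h2.2⟩)
    simpa [M, IRect.line, op] using this
  · have h2 : R.a < j ∧ j ≤ R.b := by simpa [IRect.pos] using hp
    have := up_step hc hR h1.2 (hmc h2) (fun i h3 h4 => hF.sub R hR j i ⟨h2.1, h2.2, h3, h4⟩)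
    simpa [M, IRect.line, op] using this
  · have h2 : R.a < j ∧ j ≤ R.b := by simpa [IRect.pos] using hp
    have := down_step hc hR h1.2 (hmc h2) (fun i h3 h4 => hF.sub R hR j i ⟨h2.1, h2.2, h3, h4⟩)
    simpa [M, IRect.line, op] using this

/-- the cells behind a chord -/
def B (P : ℕ → ℕ → Prop) (dir a j : ℕ) : Set (ℕ × ℕ) := {u | Bhd P dir a j u}

theorem B_sub {P : ℕ → ℕ → Prop} {N : ℕ} (hS : Supp P N) {dir a j : ℕ} (he : Edge P dir a j) :
    B P dir a j ⊆ (Set.Icc 1 N) ×ˢ (Set.Icc 1 N) := by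
  have hP : ∀ u, Bhd P dir a j u → P u.1 u.2 := by
    intro u hu
    induction hu with
    | refl => exact he.2
    | tail _ h2 _ =>
      obtain ⟨d, a', j', _, he', _, h3, _⟩ := h2
      rw [← h3]
      exact he'.2
  rintro u hu
  have := hS _ _ (hP u hu)
  simp only [Set.mem_prod, Set.mem_Icc]
  omega

theorem B_fin {P : ℕ → ℕ → Prop} {N : ℕ} (hS : Supp P N) {dir a j : ℕ} (he : Edge P dir a j) :
    (B P dir a j).Finite :=
  ((Set.finite_Icc 1 N).prod (Set.finite_Icc 1 N)).subset (B_sub hS he)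

theorem B_card {P : ℕ → ℕ → Prop} {N : ℕ} (hS : Supp P N) {dir a j : ℕ} (he : Edge P dir a j) :
    (B P dir a j).ncard ≤ N * N := by
  refine (Set.ncard_le_ncard (B_sub hS he)
    ((Set.finite_Icc 1 N).prod (Set.finite_Icc 1 N))).trans ?_
  rw [Set.ncard_prod]
  have : (Set.Icc 1 N : Set ℕ).ncard = N := by
    rw [Set.ncard_eq_toFinset_card', Set.toFinset_Icc, Nat.card_Icc]
    omega
  rw [this]

/-- Bound for the tables. -/
theorem claim {P : ℕ → ℕ → Prop} {F : Set IRect} {N k : ℕ} {G : ℕ → Tab} (hS : Supp P N)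
    (hTF : TF P) (hF : IsGridPartition P F)
    (hrow : ∀ j i₁ i₂, (∀ i, i₁ < i → i ≤ i₂ → P i j) →
      {R ∈ F | ∃ i, i₁ < i ∧ i ≤ i₂ ∧ R.mem i j}.ncard ≤ k)
    (hcol : ∀ i j₁ j₂, (∀ j, j₁ < j → j ≤ j₂ → P i j) →
      {R ∈ F | ∃ j, j₁ < j ∧ j ≤ j₂ ∧ R.mem i j}.ncard ≤ k)
    (hG0 : ∀ n dir a j, dir < 4 → ¬ Edge P dir a j → G n dir a j = 0)
    (hG : ∀ n dir a j R, dir < 4 → Edge P dir a j → CandOK P k (G n) dir a j R →
      G (n + 1) dir a j ≤ 1 + G n dir (R.line dir) j) :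
    ∀ (n dir a j : ℕ), dir < 4 → Edge P dir a j →
      (∀ S ∈ F, S.memc (far dir a j) → ¬ S.memc (near dir a j)) →
      (B P dir a j).ncard ≤ n → G n dir a j ≤ (M P F dir a j).ncard := by
  intro n
  induction n with
  | zero =>
    intro dir a j hd he _ hn
    exfalso
    have h1 : (B P dir a j) = ∅ := by
      rw [← Set.ncard_eq_zero (B_fin hS he)]
      omega
    have h2 : far dir a j ∈ B P dir a j := Relation.ReflTransGen.refl
    rw [h1] at h2
    exact h2
  | succ n ih =>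
    intro dir a j hd he hdiff hn
    obtain ⟨R, hR, hfar⟩ := hF.cover _ _ he.2
    have hfar' : R.memc (far dir a j) := hfar
    have hnear : ¬ R.memc (near dir a j) := hdiff R hR hfar'
    have hV := valid_of_mem hF hR
    obtain ⟨hline, hpos⟩ := exit_of_step (R := R) (op_lt hd) (a := a) (j := j)
      (by rw [near_op hd]; exact hfar') (by rw [far_op hd]; exact hnear)
    have hpos' : R.pos dir j := (pos_op R hd j).1 hpos
    subst hline
    -- loads behind the exits
    have hload : ∀ d j', d < 4 → R.pos d j' → ¬ Ex P dir (R.line (op dir)) j d j' →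
        G n d (R.line d) j' ≤ (M P F d (R.line d) j').ncard := by
      intro d j' hd' hp' hne
      by_cases he' : Edge P d (R.line d) j'
      · apply ih d (R.line d) j' hd' he'
        · intro S hSF h1 h2
          have h3 := near_memc hV.ab hV.cd hd' hp'
          have h4 : S = R := hF.disj S hSF R hR _ _ h2 h3
          rw [h4] at h1
          exact far_not_memc hd' h1
        · have hsub : B P d (R.line d) j' ⊆ B P dir (R.line (op dir)) j := fun u hu =>
            bhd_sub hTF hV hd hpos' he hd' hp' he' hne hu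
          have hss : B P d (R.line d) j' ⊂ B P dir (R.line (op dir)) j := by
            refine ⟨hsub, fun h5 => ?_⟩
            have h6 : far dir (R.line (op dir)) j ∈ B P dir (R.line (op dir)) j :=
              Relation.ReflTransGen.refl
            exact bhd_disj hTF hV hd' hp' he' (h5 h6) hfar'
          have := Set.ncard_lt_ncard hss (B_fin hS he)
          omega
      · rw [hG0 n d _ _ hd' he']
        exact Nat.zero_le _
    have hld : ∀ d j', d < 4 → R.pos d j' →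
        ld (G n) R (Ex P dir (R.line (op dir)) j) d j' ≤ (M P F d (R.line d) j').ncard := by
      intro d j' hd' hp'
      unfold ld
      split_ifs with hex
      · exact Nat.zero_le _
      · exact hload d j' hd' hp' hex
    have hcand : CandOK P k (G n) dir (R.line (op dir)) j R := by
      refine ⟨hV, rfl, hpos', ?_, ?_⟩
      · intro j' hj'
        have h1 : _ ≤ (M P F 1 R.a j').ncard :=
          hld 1 j' (by omega) ((pos_op R (by omega : 0 < 4) j').2 hj')
        have h0 : _ ≤ (M P F 0 R.b j').ncard := hld 0 j' (by omega) hj'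
        have h2 := factA hS hF hrow hR hj'
        omega
      · intro j' hj'
        have h1 : _ ≤ (M P F 3 R.c j').ncard :=
          hld 3 j' (by omega) ((pos_op R (by omega : 2 < 4) j').2 hj')
        have h0 : _ ≤ (M P F 2 R.d j').ncard := hld 2 j' (by omega) hj'
        have h2 := factB hS hF hcol hR hj'
        omega
    refine (hG n dir _ j R hd he hcand).trans ?_
    refine le_trans ?_ (factC hS hF hrow hcol hR hd hpos')
    have := hload dir j hd hpos' (fun h => op_ne hd h.1.symm)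
    omega

end Cmp

/-- Job CSN-B4 -/
theorem targetComplete : TargetComplete := by
  intro P N k G hS hTF ⟨F, hF, hrow, hcol⟩ hG0 hG n hn i j hij
  obtain ⟨R, hR, hmem⟩ := hF.cover i j hij
  have hV := Cmp.valid_of_mem hF hR
  refine ⟨R, hV, hmem, ?_⟩
  have hld : ∀ d j', d < 4 → R.pos d j' →
      ld (G n) R (fun _ _ => False) d j' ≤ (Cmp.M P F d (R.line d) j').ncard := by
    intro d j' hd' hp'
    unfold ld
    rw [if_neg not_false]
    by_cases he' : Edge P d (R.line d) j'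
    · apply Cmp.claim hS hTF hF hrow hcol hG0 hG n d (R.line d) j' hd' he'
      · intro S hSF h1 h2
        have h3 := near_memc hV.ab hV.cd hd' hp'
        have h4 : S = R := hF.disj S hSF R hR _ _ h2 h3
        rw [h4] at h1
        exact far_not_memc hd' h1
      · exact (Cmp.B_card hS he').trans hn
    · rw [hG0 n d _ _ hd' he']
      exact Nat.zero_le _
  constructor
  · intro j' hj'
    have h1 : _ ≤ (Cmp.M P F 1 R.a j').ncard :=
      hld 1 j' (by omega) ((pos_op R (by omega : 0 < 4) j').2 hj')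
    have h0 : _ ≤ (Cmp.M P F 0 R.b j').ncard := hld 0 j' (by omega) hj'
    have h2 := Cmp.factA hS hF hrow hR hj'
    omega
  · intro j' hj'
    have h1 : _ ≤ (Cmp.M P F 3 R.c j').ncard :=
      hld 3 j' (by omega) ((pos_op R (by omega : 2 < 4) j').2 hj')
    have h0 : _ ≤ (Cmp.M P F 2 R.d j').ncard := hld 2 j' (by omega) hj'
    have h2 := Cmp.factB hS hF hcol hR hj'
    omega

end Pool.Agent.CSN
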