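import Mathlib

/-!
# Conforming stabbing number of rectilinear polygons without holes (MP_fcf681_lc)

Part 1: the problem. Part 2: parity. Part 3: the index grid. Part 4: the dynamic program.
The targets at the end are the jobs.
-/

set_option autoImplicit false

namespace Pool.Agent.CSN

/-! ### Part 1: the problem -/

/-- Points of the plane. -/
abbrev Pt := ℝ × ℝ

/-- A lattice point as a point of the plane. -/
def toPt (p : ℤ × ℤ) : Pt := ((p.1 : ℝ), (p.2 : ℝ))

/-- The `i`-th vertex of the polygon with vertex list `V`, cyclically. -/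
def vtx (V : List (ℤ × ℤ)) (i : ℕ) : ℤ × ℤ := V.getD (i % V.length) (0, 0)

/-- The `i`-th side of the polygon, a closed segment. -/
def side (V : List (ℤ × ℤ)) (i : ℕ) : Set Pt :=
  segment ℝ (toPt (vtx V i)) (toPt (vtx V (i + 1)))

/-- `V` is the vertex list of a simple polygon all of whose sides are axis-parallel. -/
structure IsRectilinear (V : List (ℤ × ℤ)) : Prop where
  len : 4 ≤ V.length
  nondeg : ∀ i < V.length, vtx V i ≠ vtx V (i + 1)
  axis : ∀ i < V.length, (vtx V i).1 = (vtx V (i + 1)).1 ∨ (vtx V i).2 = (vtx V (i + 1)).2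
  adj : ∀ i < V.length, side V i ∩ side V (i + 1) = {toPt (vtx V (i + 1))}
  nonadj : ∀ i < V.length, ∀ j < V.length, i ≠ j → (i + 1) % V.length ≠ j →
    (j + 1) % V.length ≠ i → Disjoint (side V i) (side V j)

/-- The boundary of the polygon. -/
def boundary (V : List (ℤ × ℤ)) : Set Pt := {p | ∃ i < V.length, p ∈ side V i}

/-- The interior of the polygon: the points in the bounded connected components of the
complement of the boundary. -/
def inner (V : List (ℤ × ℤ)) : Set Pt :=
  {p | p ∈ (boundary V)ᶜ ∧ Bornology.IsBounded (connectedComponentIn (boundary V)ᶜ p)}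

/-- An axis-parallel rectangle `[a,b] × [c,d]`. -/
structure Box where
  a : ℝ
  b : ℝ
  c : ℝ
  d : ℝ
  hab : a < b
  hcd : c < d

/-- The closed rectangle. -/
def Box.carrier (R : Box) : Set Pt := Set.Icc R.a R.b ×ˢ Set.Icc R.c R.d

/-- The open rectangle. -/
def Box.inside (R : Box) : Set Pt := Set.Ioo R.a R.b ×ˢ Set.Ioo R.c R.d

/-- The four corners. -/
def Box.corners (R : Box) : Set Pt := {(R.a, R.c), (R.a, R.d), (R.b, R.c), (R.b, R.d)}

/-- A conforming partition of the closed region with interior `U`: finitely many rectangles with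
disjoint interiors that cover the closed region, no corner of which lies in the interior `U`
(no Steiner points). -/
structure IsConforming (U : Set Pt) (F : Set Box) : Prop where
  finite : F.Finite
  cover : ⋃ R ∈ F, R.carrier = closure U
  disj : ∀ R ∈ F, ∀ R' ∈ F, R ≠ R' → Disjoint R.inside R'.inside
  noSteiner : ∀ R ∈ F, ∀ p ∈ R.corners, p ∉ U

/-- A stabbing segment: an open axis-parallel segment contained in the interior. -/
def IsStabbing (U : Set Pt) (s : Set Pt) : Prop :=
  s ⊆ U ∧ ((∃ x₁ x₂ y, x₁ < x₂ ∧ s = Set.Ioo x₁ x₂ ×ˢ {y}) ∨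
    (∃ x y₁ y₂, y₁ < y₂ ∧ s = {x} ×ˢ Set.Ioo y₁ y₂))

/-- The rectangles met by `s`. -/
def met (F : Set Box) (s : Set Pt) : Set Box := {R ∈ F | (R.carrier ∩ s).Nonempty}

/-- The conforming stabbing number of the polygon is at most `k`: there is a conforming partition
such that every stabbing segment meets at most `k` of its rectangles. -/
def CsnLe (V : List (ℤ × ℤ)) (k : ℕ) : Prop :=
  ∃ F : Set Box, IsConforming (inner V) F ∧
    ∀ s, IsStabbing (inner V) s → (met F s).ncard ≤ k

/-! ### Part 2: parity -/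

/-- The sides as ordered pairs of vertices. -/
def edges (V : List (ℤ × ℤ)) : List ((ℤ × ℤ) × (ℤ × ℤ)) := V.zip (V.tail ++ V.take 1)

/-- The side is vertical and is crossed by the horizontal ray from the point `(x, y)` to the left
(with the half-open convention). -/
def crossL (x y : ℤ) (e : (ℤ × ℤ) × (ℤ × ℤ)) : Bool :=
  decide (e.1.1 = e.2.1) && (decide (e.1.1 ≤ x) &&
    (decide (min e.1.2 e.2.2 ≤ y) && decide (y < max e.1.2 e.2.2)))

/-- Parity of the number of crossings. -/
def par (V : List (ℤ × ℤ)) (x y : ℤ) : Bool := decide ((edges V).countP (crossL x y) % 2 = 1)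

/-- The point is off the boundary and has odd parity. -/
def Odd' (V : List (ℤ × ℤ)) (p : Pt) : Prop := p ∉ boundary V ∧ par V ⌊p.1⌋ ⌊p.2⌋ = true

/-- Job D. The interior of a simple rectilinear polygon is given by the even-odd rule. -/
def TargetInner : Prop := ∀ V, IsRectilinear V → inner V = {p | Odd' V p}

/-! ### Part 3: the index grid -/

/-- `X` and `Y` are strictly increasing lists that contain all coordinates of the vertices in
their tails. -/
structure IsGrid (V : List (ℤ × ℤ)) (X Y : List ℤ) : Prop where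
  sx : X.Pairwise (· < ·)
  sy : Y.Pairwise (· < ·)
  mx : ∀ p ∈ V, p.1 ∈ X.tail
  my : ∀ p ∈ V, p.2 ∈ Y.tail

/-- The cell `[X i, X (i+1)) × [Y j, Y (j+1))` lies in the polygon. -/
def cell (V : List (ℤ × ℤ)) (X Y : List ℤ) (i j : ℕ) : Bool :=
  decide (i + 1 < X.length) && (decide (j + 1 < Y.length) && par V (X.getD i 0) (Y.getD j 0))

/-- Job C1. The interior in terms of the cells. -/
def TargetLocal : Prop := ∀ (V : List (ℤ × ℤ)) (X Y : List ℤ), IsRectilinear V → IsGrid V X Y →
  (∀ (i j : ℕ) (x y : ℝ), i + 2 < X.length → j + 2 < Y.length →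
    (X.getD (i + 1) 0 : ℝ) ≤ x → x < (X.getD (i + 2) 0 : ℝ) →
    (Y.getD (j + 1) 0 : ℝ) ≤ y → y < (Y.getD (j + 2) 0 : ℝ) →
    (Odd' V (x, y) ↔ cell V X Y (i + 1) (j + 1) = true ∧
      (x = (X.getD (i + 1) 0 : ℝ) → cell V X Y i (j + 1) = true) ∧
      (y = (Y.getD (j + 1) 0 : ℝ) → cell V X Y (i + 1) j = true) ∧
      (x = (X.getD (i + 1) 0 : ℝ) → y = (Y.getD (j + 1) 0 : ℝ) → cell V X Y i j = true))) ∧
  (∀ (x y : ℝ), Odd' V (x, y) → ∃ i j : ℕ, i + 2 < X.length ∧ j + 2 < Y.length ∧
    (X.getD (i + 1) 0 : ℝ) ≤ x ∧ x < (X.getD (i + 2) 0 : ℝ) ∧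
    (Y.getD (j + 1) 0 : ℝ) ≤ y ∧ y < (Y.getD (j + 2) 0 : ℝ))

/-- The rows `j` and `j'` belong to the same vertical chord on the line between the columns
`a` and `a + 1`. -/
def SameV (P : ℕ → ℕ → Prop) (a j j' : ℕ) : Prop :=
  ∀ t, min j j' ≤ t → t ≤ max j j' → P a t ∧ P (a + 1) t

/-- The columns `i` and `i'` belong to the same horizontal chord on the line between the rows
`c` and `c + 1`. -/
def SameH (P : ℕ → ℕ → Prop) (c i i' : ℕ) : Prop :=
  ∀ t, min i i' ≤ t → t ≤ max i i' → P t c ∧ P t (c + 1)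

/-- Every chord separates its two sides. -/
structure TF (P : ℕ → ℕ → Prop) : Prop where
  vert : ∀ a j, P a j → P (a + 1) j → ∃ s : ℕ → ℕ → Bool, s a j ≠ s (a + 1) j ∧
    (∀ i j', P i j' → P (i + 1) j' → ¬ (i = a ∧ SameV P a j j') → s i j' = s (i + 1) j') ∧
    (∀ i j', P i j' → P i (j' + 1) → s i j' = s i (j' + 1))
  horz : ∀ c i, P i c → P i (c + 1) → ∃ s : ℕ → ℕ → Bool, s i c ≠ s i (c + 1) ∧
    (∀ i' j', P i' j' → P i' (j' + 1) → ¬ (j' = c ∧ SameH P c i i') → s i' j' = s i' (j' + 1)) ∧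
    (∀ i' j', P i' j' → P (i' + 1) j' → s i' j' = s (i' + 1) j')

/-- Job C2. Chords of a polygon without holes separate. -/
def TargetTF : Prop := ∀ (V : List (ℤ × ℤ)) (X Y : List ℤ), IsRectilinear V → IsGrid V X Y →
  TF (fun i j => cell V X Y i j = true)

/-- A rectangle of the index grid: the cells `(i, j)` with `a < i ≤ b`, `c < j ≤ d`. -/
structure IRect where
  a : ℕ
  b : ℕ
  c : ℕ
  d : ℕ
  deriving DecidableEq

/-- The cell belongs to the rectangle. -/
def IRect.mem (R : IRect) (i j : ℕ) : Prop := R.a < i ∧ i ≤ R.b ∧ R.c < j ∧ j ≤ R.d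

/-- The grid point between the columns `a, a + 1` and the rows `c, c + 1` is interior. -/
def Ipt (P : ℕ → ℕ → Prop) (a c : ℕ) : Prop :=
  P a c ∧ P (a + 1) c ∧ P a (c + 1) ∧ P (a + 1) (c + 1)

/-- Conforming partitions of the index grid. -/
structure IsGridPartition (P : ℕ → ℕ → Prop) (F : Set IRect) : Prop where
  pos : ∀ R ∈ F, R.a < R.b ∧ R.c < R.d
  sub : ∀ R ∈ F, ∀ i j, R.mem i j → P i j
  cover : ∀ i j, P i j → ∃ R ∈ F, R.mem i j
  disj : ∀ R ∈ F, ∀ R' ∈ F, ∀ i j, R.mem i j → R'.mem i j → R = R'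
  corner : ∀ R ∈ F, ¬ Ipt P R.a R.c ∧ ¬ Ipt P R.a R.d ∧ ¬ Ipt P R.b R.c ∧ ¬ Ipt P R.b R.d

/-- There is a conforming partition of the index grid with stabbing number at most `k`. -/
def GridLe (P : ℕ → ℕ → Prop) (k : ℕ) : Prop :=
  ∃ F : Set IRect, IsGridPartition P F ∧
    (∀ j i₁ i₂, (∀ i, i₁ < i → i ≤ i₂ → P i j) →
      {R ∈ F | ∃ i, i₁ < i ∧ i ≤ i₂ ∧ R.mem i j}.ncard ≤ k) ∧
    (∀ i j₁ j₂, (∀ j, j₁ < j → j ≤ j₂ → P i j) →
      {R ∈ F | ∃ j, j₁ < j ∧ j ≤ j₂ ∧ R.mem i j}.ncard ≤ k)

/-- Job E. Rounding: real conforming partitions and conforming partitions of the index grid. -/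
def TargetRound : Prop := ∀ (V : List (ℤ × ℤ)) (X Y : List ℤ) (k : ℕ),
  TargetInner → TargetLocal → IsRectilinear V → IsGrid V X Y →
  (CsnLe V k ↔ GridLe (fun i j => cell V X Y i j = true) k)

/-! ### Part 4: the dynamic program -/

/-- Tables: direction (0 right, 1 left, 2 up, 3 down), line, position on the line. -/
abbrev Tab := ℕ → ℕ → ℕ → ℕ

/-- The unit edge on the given line at the given position is interior. -/
def edgeIn (P : ℕ → ℕ → Bool) (dir a j : ℕ) : Bool :=
  if dir < 2 then P a j && P (a + 1) j else P j a && P j (a + 1)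

/-- Interior grid point. -/
def ipt (P : ℕ → ℕ → Bool) (a c : ℕ) : Bool :=
  P a c && (P (a + 1) c && (P a (c + 1) && P (a + 1) (c + 1)))

/-- `all` over `a < i ≤ b` inside `List.range (N + 1)`. -/
def allIoc (N a b : ℕ) (f : ℕ → Bool) : Bool :=
  (List.range (N + 1)).all (fun i => !(decide (a < i) && decide (i ≤ b)) || f i)

/-- The rectangle lies in the region and has no interior grid point as a corner. -/
def rectOK (P : ℕ → ℕ → Bool) (N a b c d : ℕ) : Bool :=
  (decide (a < b) && decide (c < d)) &&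
    (allIoc N a b (fun i => allIoc N c d (fun j => P i j)) &&
      ((!ipt P a c && !ipt P a d) && (!ipt P b c && !ipt P b d)))

/-- Positions `j`, `j'` on the same chord. -/
def same (P : ℕ → ℕ → Bool) (N dir a j j' : ℕ) : Bool :=
  (List.range (N + 1)).all (fun t => !(decide (min j j' ≤ t) && decide (t ≤ max j j')) ||
    edgeIn P dir a t)

/-- Vertical lines through the rectangle; `e` tells where the lower load is exempt, `e'` where
the upper load is exempt. -/
def okCols (N k : ℕ) (G : Tab) (a b c d : ℕ) (e e' : ℕ → Bool) : Bool :=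
  allIoc N a b (fun i => decide ((if e i then 0 else G 3 c i) + 1 +
    (if e' i then 0 else G 2 d i) ≤ k))

/-- Horizontal lines through the rectangle. -/
def okRows (N k : ℕ) (G : Tab) (a b c d : ℕ) (e e' : ℕ → Bool) : Bool :=
  allIoc N c d (fun j => decide ((if e j then 0 else G 1 a j) + 1 +
    (if e' j then 0 else G 0 b j) ≤ k))

/-- No exemption. -/
def noEx : ℕ → Bool := fun _ => false

/-- All triples of numbers at most `N`. -/
def triples (N : ℕ) : List (ℕ × ℕ × ℕ) :=
  (List.range (N + 1)).flatMap (fun x => (List.range (N + 1)).flatMap (fun y =>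
    (List.range (N + 1)).map (fun z => (x, y, z))))

/-- The value offered by one candidate rectangle, `k + 1` if it is not admissible. The triple
gives the three sides that are not on the line of the entry. -/
def cand (P : ℕ → ℕ → Bool) (N k : ℕ) (G : Tab) (dir a j : ℕ) (q : ℕ × ℕ × ℕ) : ℕ :=
  if dir = 0 then
    if rectOK P N a q.1 q.2.1 q.2.2 && (decide (q.2.1 < j) && decide (j ≤ q.2.2)) &&
      (okCols N k G a q.1 q.2.1 q.2.2 noEx noEx &&
        okRows N k G a q.1 q.2.1 q.2.2 (same P N 0 a j) noEx)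
    then 1 + G 0 q.1 j else k + 1
  else if dir = 1 then
    if rectOK P N q.1 a q.2.1 q.2.2 && (decide (q.2.1 < j) && decide (j ≤ q.2.2)) &&
      (okCols N k G q.1 a q.2.1 q.2.2 noEx noEx &&
        okRows N k G q.1 a q.2.1 q.2.2 noEx (same P N 1 a j))
    then 1 + G 1 q.1 j else k + 1
  else if dir = 2 then
    if rectOK P N q.2.1 q.2.2 a q.1 && (decide (q.2.1 < j) && decide (j ≤ q.2.2)) &&
      (okCols N k G q.2.1 q.2.2 a q.1 (same P N 2 a j) noEx &&
        okRows N k G q.2.1 q.2.2 a q.1 noEx noEx)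
    then 1 + G 2 q.1 j else k + 1
  else
    if rectOK P N q.2.1 q.2.2 q.1 a && (decide (q.2.1 < j) && decide (j ≤ q.2.2)) &&
      (okCols N k G q.2.1 q.2.2 q.1 a noEx (same P N 3 a j) &&
        okRows N k G q.2.1 q.2.2 q.1 a noEx noEx)
    then 1 + G 3 q.1 j else k + 1

/-- The table before the first round. -/
def initTab (P : ℕ → ℕ → Bool) (k : ℕ) : Tab :=
  fun dir a j => if edgeIn P dir a j then k + 1 else 0

/-- One round. -/
def stepTab (P : ℕ → ℕ → Bool) (N k : ℕ) (G : Tab) : Tab :=
  fun dir a j => if edgeIn P dir a j then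
    (triples N).foldl (fun m q => min m (cand P N k G dir a j q)) (k + 1) else 0

/-- The final check. -/
def final (P : ℕ → ℕ → Bool) (N k : ℕ) (G : Tab) : Bool :=
  (List.range (N + 1)).all (fun i => (List.range (N + 1)).all (fun j => !P i j ||
    (List.range (N + 1)).any (fun a => (triples N).any (fun q =>
      (rectOK P N a q.1 q.2.1 q.2.2 && ((decide (a < i) && decide (i ≤ q.1)) &&
        (decide (q.2.1 < j) && decide (j ≤ q.2.2)))) &&
      (okCols N k G a q.1 q.2.1 q.2.2 noEx noEx && okRows N k G a q.1 q.2.1 q.2.2 noEx noEx)))))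

/-- The dynamic program. -/
def dp (P : ℕ → ℕ → Bool) (N k : ℕ) : Bool :=
  final P N k ((stepTab P N k)^[4 * (N + 1) * (N + 1)] (initTab P k))

/-- Job B. Correctness of the dynamic program. -/
def TargetDP : Prop := ∀ (P : ℕ → ℕ → Bool) (N k : ℕ),
  (∀ i j, P i j = true → 0 < i ∧ i ≤ N ∧ 0 < j ∧ j ≤ N) → TF (fun i j => P i j = true) →
  (dp P N k = true ↔ GridLe (fun i j => P i j = true) k)

/-! ### Part 5: the decision procedure -/

/-- Insertion into a strictly increasing list. -/
def ins (x : ℤ) (l : List ℤ) : List ℤ := l.filter (· < x) ++ x :: l.filter (x < ·)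

/-- The strictly increasing list of the members of `l`, preceded by a smaller number. -/
def gridList (l : List ℤ) : List ℤ :=
  let s := l.foldl (fun s x => ins x s) []
  s.take 1 |>.map (· - 1) |>.append s

/-- The decision procedure. -/
def csnDecide (q : List (ℤ × ℤ) × ℕ) : Bool :=
  let X := gridList (q.1.map Prod.fst)
  let Y := gridList (q.1.map Prod.snd)
  dp (cell q.1 X Y) (X.length + Y.length) q.2

end Pool.Agent.CSN
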