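import Pool.Agent.CSN.Path

/-!
# Path edges and parity of unit cells
-/

set_option autoImplicit false

namespace Pool.Agent.CSN

/-- Some step of the path runs along the vertical unit edge. -/
def EV (w : ℕ → ℤ × ℤ) (L : ℕ) (x y : ℤ) : Prop := ∃ t < L, OnV w x y t

/-- Some step of the path runs along the horizontal unit edge. -/
def EH (w : ℕ → ℤ × ℤ) (L : ℕ) (x y : ℤ) : Prop := ∃ t < L, OnH w x y t

variable {V : List (ℤ × ℤ)} {L : ℕ} {w : ℕ → ℤ × ℤ}

theorem UnitPath.closed (h : UnitPath V L w) : w L = w 0 := by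
  have := h.per 0
  rwa [Nat.zero_add] at this

theorem UnitPath.mod (h : UnitPath V L w) (t : ℕ) : w (t % L) = w t :=
  (show Function.Periodic w L from h.per).map_mod_nat t

theorem UnitPath.pos (h : UnitPath V L w) : 0 < L := by have := h.four; omega

theorem UnitPath.inj' (h : UnitPath V L w) {s t : ℕ} (hs : s ≤ L) (ht : t ≤ L)
    (he : w s = w t) : s = t ∨ (s = 0 ∧ t = L) ∨ (s = L ∧ t = 0) := by
  have hp := h.pos
  rcases hs.lt_or_eq with hs' | hs'
  · rcases ht.lt_or_eq with ht' | ht'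
    · exact Or.inl (h.inj s hs' t ht' he)
    · subst ht'
      rw [h.closed] at he
      have := h.inj s hs' 0 hp he
      exact Or.inr (Or.inl ⟨this, rfl⟩)
  · subst hs'
    rcases ht.lt_or_eq with ht' | ht'
    · rw [h.closed] at he
      have := h.inj 0 hp t ht' he
      exact Or.inr (Or.inr ⟨rfl, this.symm⟩)
    · exact Or.inl ht'.symm

/-- Two steps along the same unit edge are equal. -/
theorem UnitPath.step_unique (h : UnitPath V L w) {s t : ℕ} (hs : s < L) (ht : t < L)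
    (he : (w s = w t ∧ w (s + 1) = w (t + 1)) ∨ (w s = w (t + 1) ∧ w (s + 1) = w t)) :
    s = t := by
  have h4 := h.four
  rcases he with ⟨h1, _⟩ | ⟨h1, h2⟩
  · exact h.inj s hs t ht h1
  · have a1 := h.inj' (by omega : s ≤ L) (by omega : t + 1 ≤ L) h1
    have a2 := h.inj' (by omega : s + 1 ≤ L) (by omega : t ≤ L) h2
    omega

theorem UnitPath.card_V (h : UnitPath V L w) (x y : ℤ) [Decidable (EV w L x y)] :
    ((Finset.range L).filter (OnV w x y)).card = if EV w L x y then 1 else 0 := by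
  split_ifs with he
  · obtain ⟨t, ht, h1⟩ := he
    rw [Finset.card_eq_one]
    refine ⟨t, ?_⟩
    ext s
    simp only [Finset.mem_filter, Finset.mem_range, Finset.mem_singleton]
    constructor
    · rintro ⟨hs, h2⟩
      apply h.step_unique hs ht
      rcases h1 with ⟨a, b⟩ | ⟨a, b⟩ <;> rcases h2 with ⟨c, d⟩ | ⟨c, d⟩ <;> rw [a, b, c, d] <;> simp
    · rintro rfl
      exact ⟨ht, h1⟩
  · rw [Finset.card_eq_zero, Finset.filter_eq_empty_iff]
    intro t ht h1
    exact he ⟨t, Finset.mem_range.mp ht, h1⟩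

theorem UnitPath.card_H (h : UnitPath V L w) (x y : ℤ) [Decidable (EH w L x y)] :
    ((Finset.range L).filter (OnH w x y)).card = if EH w L x y then 1 else 0 := by
  split_ifs with he
  · obtain ⟨t, ht, h1⟩ := he
    rw [Finset.card_eq_one]
    refine ⟨t, ?_⟩
    ext s
    simp only [Finset.mem_filter, Finset.mem_range, Finset.mem_singleton]
    constructor
    · rintro ⟨hs, h2⟩
      apply h.step_unique hs ht
      rcases h1 with ⟨a, b⟩ | ⟨a, b⟩ <;> rcases h2 with ⟨c, d⟩ | ⟨c, d⟩ <;> rw [a, b, c, d] <;> simp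
    · rintro rfl
      exact ⟨ht, h1⟩
  · rw [Finset.card_eq_zero, Finset.filter_eq_empty_iff]
    intro t ht h1
    exact he ⟨t, Finset.mem_range.mp ht, h1⟩

/-- The parity changes exactly across the vertical path edges. -/
theorem UnitPath.par_left (h : UnitPath V L w) (x y : ℤ) :
    CSN.par V x y ≠ CSN.par V (x - 1) y ↔ EV w L x y := by
  classical
  have h1 := cntL_succ w L (fun t _ => h.step t) x y
  rw [h.card_V] at h1
  rw [h.par, h.par, h1]
  by_cases he : EV w L x y
  · simp only [he, if_true, iff_true]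
    rw [Ne, decide_eq_decide]
    omega
  · simp only [he, if_false, iff_false]
    rw [Ne, decide_eq_decide]
    omega

/-- The parity changes exactly across the horizontal path edges. -/
theorem UnitPath.par_down (h : UnitPath V L w) (x y : ℤ) :
    CSN.par V x y ≠ CSN.par V x (y - 1) ↔ EH w L x y := by
  classical
  have h1 := cntL_flipH w L (fun t _ => h.step t) h.closed x y
  rw [h.card_H] at h1
  rw [h.par, h.par]
  by_cases he : EH w L x y
  · simp only [he, if_true, iff_true] at h1 ⊢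
    rw [Ne, decide_eq_decide]
    omega
  · simp only [he, if_false, iff_false] at h1 ⊢
    rw [Ne, decide_eq_decide]
    omega

theorem segment_vert (x y : ℤ) :
    segment ℝ (toPt (x, y)) (toPt (x, y + 1)) =
      {p : Pt | p.1 = x ∧ (y : ℝ) ≤ p.2 ∧ p.2 ≤ (y : ℝ) + 1} := by
  ext p
  simp only [segment_eq_image, toPt, Set.mem_image, Set.mem_Icc, Set.mem_ofPred_eq]
  constructor
  · rintro ⟨s, ⟨h0, h1⟩, rfl⟩
    simp only [Prod.smul_mk, Prod.mk_add_mk, smul_eq_mul]
    push_cast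
    refine ⟨by ring, by nlinarith, by nlinarith⟩
  · rintro ⟨h1, h2, h3⟩
    refine ⟨p.2 - y, ⟨by linarith, by linarith⟩, ?_⟩
    ext
    · simp only [Prod.smul_mk, Prod.mk_add_mk, smul_eq_mul]
      rw [h1]; ring
    · simp only [Prod.smul_mk, Prod.mk_add_mk, smul_eq_mul]
      push_cast; ring

theorem segment_horz (x y : ℤ) :
    segment ℝ (toPt (x, y)) (toPt (x + 1, y)) =
      {p : Pt | p.2 = y ∧ (x : ℝ) ≤ p.1 ∧ p.1 ≤ (x : ℝ) + 1} := by
  ext p
  simp only [segment_eq_image, toPt, Set.mem_image, Set.mem_Icc, Set.mem_ofPred_eq]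
  constructor
  · rintro ⟨s, ⟨h0, h1⟩, rfl⟩
    simp only [Prod.smul_mk, Prod.mk_add_mk, smul_eq_mul]
    push_cast
    refine ⟨by ring, by nlinarith, by nlinarith⟩
  · rintro ⟨h1, h2, h3⟩
    refine ⟨p.1 - x, ⟨by linarith, by linarith⟩, ?_⟩
    ext
    · simp only [Prod.smul_mk, Prod.mk_add_mk, smul_eq_mul]
      push_cast; ring
    · simp only [Prod.smul_mk, Prod.mk_add_mk, smul_eq_mul]
      rw [h1]; ring

/-- The boundary is the union of the path edges. -/
theorem UnitPath.mem_bd (h : UnitPath V L w) (p : Pt) : p ∈ boundary V ↔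
    (∃ x y : ℤ, EV w L x y ∧ p.1 = x ∧ (y : ℝ) ≤ p.2 ∧ p.2 ≤ (y : ℝ) + 1) ∨
    (∃ x y : ℤ, EH w L x y ∧ p.2 = y ∧ (x : ℝ) ≤ p.1 ∧ p.1 ≤ (x : ℝ) + 1) := by
  rw [h.bd]
  simp only [Set.mem_ofPred_eq]
  constructor
  · rintro ⟨t, ht, hp⟩
    rcases h.step t with ⟨h1, h2 | h2⟩ | ⟨h1, h2 | h2⟩
    · left
      have e1 : w t = ((w t).1, (w t).2) := rfl
      have e2 : w (t + 1) = ((w t).1, (w t).2 + 1) := Prod.ext h1 h2
      rw [e2, e1, segment_vert] at hp
      exact ⟨(w t).1, (w t).2, ⟨t, ht, Or.inl ⟨rfl, e2⟩⟩, hp⟩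
    · left
      have e1 : w t = ((w t).1, (w (t + 1)).2 + 1) := Prod.ext rfl h2
      have e2 : w (t + 1) = ((w t).1, (w (t + 1)).2) := Prod.ext h1 rfl
      rw [segment_symm, e2, e1, segment_vert] at hp
      exact ⟨(w t).1, (w (t + 1)).2, ⟨t, ht, Or.inr ⟨e1, e2⟩⟩, hp⟩
    · right
      have e1 : w t = ((w t).1, (w t).2) := rfl
      have e2 : w (t + 1) = ((w t).1 + 1, (w t).2) := Prod.ext h2 h1
      rw [e2, e1, segment_horz] at hp
      exact ⟨(w t).1, (w t).2, ⟨t, ht, Or.inl ⟨rfl, e2⟩⟩, hp⟩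
    · right
      have e1 : w t = ((w (t + 1)).1 + 1, (w t).2) := Prod.ext h2 rfl
      have e2 : w (t + 1) = ((w (t + 1)).1, (w t).2) := Prod.ext rfl h1
      rw [segment_symm, e2, e1, segment_horz] at hp
      exact ⟨(w (t + 1)).1, (w t).2, ⟨t, ht, Or.inr ⟨e1, e2⟩⟩, hp⟩
  · rintro (⟨x, y, ⟨t, ht, h1⟩, hp⟩ | ⟨x, y, ⟨t, ht, h1⟩, hp⟩)
    · refine ⟨t, ht, ?_⟩
      have hp' : p ∈ segment ℝ (toPt (x, y)) (toPt (x, y + 1)) := by
        rw [segment_vert]; exact hp
      rcases h1 with ⟨a, b⟩ | ⟨a, b⟩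
      · rw [a, b]; exact hp'
      · rw [a, b, segment_symm]; exact hp'
    · refine ⟨t, ht, ?_⟩
      have hp' : p ∈ segment ℝ (toPt (x, y)) (toPt (x + 1, y)) := by
        rw [segment_horz]; exact hp
      rcases h1 with ⟨a, b⟩ | ⟨a, b⟩
      · rw [a, b]; exact hp'
      · rw [a, b, segment_symm]; exact hp'

/-- A point is off the boundary and odd iff the unit cells that touch it are odd. -/
theorem UnitPath.odd_iff (h : UnitPath V L w) (p : Pt) (x y : ℤ) (hx : ⌊p.1⌋ = x)
    (hy : ⌊p.2⌋ = y) : Odd' V p ↔ CSN.par V x y = true ∧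
      (p.1 = x → CSN.par V (x - 1) y = true) ∧ (p.2 = y → CSN.par V x (y - 1) = true) ∧
      (p.1 = x → p.2 = y → CSN.par V (x - 1) (y - 1) = true) := by
  unfold Odd'
  rw [hx, hy, h.mem_bd]
  have hx1 : (x : ℝ) ≤ p.1 := by rw [← hx]; exact Int.floor_le _
  have hx2 : p.1 < (x : ℝ) + 1 := by rw [← hx]; exact Int.lt_floor_add_one _
  have hy1 : (y : ℝ) ≤ p.2 := by rw [← hy]; exact Int.floor_le _
  have hy2 : p.2 < (y : ℝ) + 1 := by rw [← hy]; exact Int.lt_floor_add_one _
  constructor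
  · rintro ⟨hb, hp⟩
    have nV : p.1 = x → ¬ EV w L x y := fun e he =>
      hb (Or.inl ⟨x, y, he, e, hy1, hy2.le⟩)
    have nH : p.2 = y → ¬ EH w L x y := fun e he =>
      hb (Or.inr ⟨x, y, he, e, hx1, hx2.le⟩)
    have nV' : p.1 = x → p.2 = y → ¬ EV w L x (y - 1) := fun e e' he =>
      hb (Or.inl ⟨x, y - 1, he, e, by push_cast; linarith, by push_cast; linarith⟩)
    have c1 : p.1 = x → CSN.par V (x - 1) y = true := fun e => by
      have := (h.par_left x y).not.mpr (nV e)
      rw [not_not] at this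
      rw [← this]; exact hp
    have c2 : p.2 = y → CSN.par V x (y - 1) = true := fun e => by
      have := (h.par_down x y).not.mpr (nH e)
      rw [not_not] at this
      rw [← this]; exact hp
    refine ⟨hp, c1, c2, fun e e' => ?_⟩
    have := (h.par_left x (y - 1)).not.mpr (nV' e e')
    rw [not_not] at this
    rw [← this]; exact c2 e'
  · rintro ⟨hp, c1, c2, c3⟩
    refine ⟨?_, hp⟩
    rintro (⟨x', y', he, e, a, b⟩ | ⟨x', y', he, e, a, b⟩)
    · have hxx : x' = x := by
        rw [← hx, e]; simp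
      subst hxx
      have hyy : y' = y ∨ (y' = y - 1 ∧ p.2 = y) := by
        have l1 : (y' : ℝ) < (y : ℝ) + 1 := lt_of_le_of_lt a hy2
        have l2 : (y : ℝ) ≤ (y' : ℝ) + 1 := le_trans hy1 b
        have l1' : y' < y + 1 := by exact_mod_cast l1
        have l2' : y ≤ y' + 1 := by exact_mod_cast l2
        rcases (by omega : y' = y ∨ y' = y - 1) with h' | h'
        · exact Or.inl h'
        · right
          refine ⟨h', le_antisymm ?_ hy1⟩
          rw [h'] at b
          push_cast at b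
          linarith
      rcases hyy with h' | ⟨h', e'⟩
      · subst h'
        have := (h.par_left x' y').mpr he
        exact this (by rw [hp, c1 e])
      · subst h'
        have := (h.par_left x' (y - 1)).mpr he
        exact this (by rw [c2 e', c3 e e'])
    · have hyy : y' = y := by
        rw [← hy, e]; simp
      subst hyy
      have hxx : x' = x ∨ (x' = x - 1 ∧ p.1 = x) := by
        have l1 : (x' : ℝ) < (x : ℝ) + 1 := lt_of_le_of_lt a hx2
        have l2 : (x : ℝ) ≤ (x' : ℝ) + 1 := le_trans hx1 b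
        have l1' : x' < x + 1 := by exact_mod_cast l1
        have l2' : x ≤ x' + 1 := by exact_mod_cast l2
        rcases (by omega : x' = x ∨ x' = x - 1) with h' | h'
        · exact Or.inl h'
        · right
          refine ⟨h', le_antisymm ?_ hx1⟩
          rw [h'] at b
          push_cast at b
          linarith
      rcases hxx with h' | ⟨h', e'⟩
      · subst h'
        have := (h.par_down x' y').mpr he
        exact this (by rw [hp, c2 e])
      · subst h'
        have := (h.par_down (x - 1) y').mpr he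
        exact this (by rw [c1 e', c3 e' e])

/-- End points of path edges are path vertices. -/
theorem UnitPath.vert_V (h : UnitPath V L w) {x y : ℤ} (he : EV w L x y) :
    (∃ t < L, w t = (x, y)) ∧ (∃ t < L, w t = (x, y + 1)) := by
  obtain ⟨t, ht, h1⟩ := he
  have h2 : ∃ s < L, w s = w (t + 1) :=
    ⟨(t + 1) % L, Nat.mod_lt _ h.pos, h.mod _⟩
  obtain ⟨s, hs, h3⟩ := h2
  rcases h1 with ⟨a, b⟩ | ⟨a, b⟩
  · exact ⟨⟨t, ht, a⟩, ⟨s, hs, by rw [h3, b]⟩⟩
  · exact ⟨⟨s, hs, by rw [h3, b]⟩, ⟨t, ht, a⟩⟩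

theorem UnitPath.vert_H (h : UnitPath V L w) {x y : ℤ} (he : EH w L x y) :
    (∃ t < L, w t = (x, y)) ∧ (∃ t < L, w t = (x + 1, y)) := by
  obtain ⟨t, ht, h1⟩ := he
  have h2 : ∃ s < L, w s = w (t + 1) :=
    ⟨(t + 1) % L, Nat.mod_lt _ h.pos, h.mod _⟩
  obtain ⟨s, hs, h3⟩ := h2
  rcases h1 with ⟨a, b⟩ | ⟨a, b⟩
  · exact ⟨⟨t, ht, a⟩, ⟨s, hs, by rw [h3, b]⟩⟩
  · exact ⟨⟨s, hs, by rw [h3, b]⟩, ⟨t, ht, a⟩⟩

/-- A vertical path edge has the abscissa of a vertex. -/
theorem UnitPath.line_V (h : UnitPath V L w) {x y : ℤ} (he : EV w L x y) : ∃ p ∈ V, p.1 = x := by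
  obtain ⟨t, _, h1⟩ := he
  rcases h1 with ⟨a, b⟩ | ⟨a, b⟩
  · have := h.vline t (by rw [a, b])
    rwa [a] at this
  · have := h.vline t (by rw [a, b])
    rwa [a] at this

theorem UnitPath.line_H (h : UnitPath V L w) {x y : ℤ} (he : EH w L x y) : ∃ p ∈ V, p.2 = y := by
  obtain ⟨t, _, h1⟩ := he
  rcases h1 with ⟨a, b⟩ | ⟨a, b⟩
  · have := h.hline t (by rw [a, b])
    rwa [a] at this
  · have := h.hline t (by rw [a, b])
    rwa [a] at this

end Pool.Agent.CSN
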