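import Pool.Agent.CSN.AlgoPT

/-!
# Instances as strings, and the decision procedure
-/

set_option autoImplicit false

namespace Pool.Agent.CSN

open Pool.Agent.PT

/-! ### The encoding of instances -/

/-- Binary digits, most significant first. -/
def encNat (n : ℕ) : List Sym := n.bits.reverse.map (fun b => if b then Sym.b1 else Sym.b0)

/-- Sign and binary digits. -/
def encInt (z : ℤ) : List Sym := (if z < 0 then [Sym.minus] else []) ++ encNat z.natAbs

/-- A vertex. -/
def encPt (p : ℤ × ℤ) : List Sym := encInt p.1 ++ Sym.comma :: (encInt p.2 ++ [Sym.semi])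

/-- An instance: the number `k` and the list of vertices. -/
def encInst (q : List (ℤ × ℤ) × ℕ) : List Sym := encNat q.2 ++ Sym.semi :: q.1.flatMap encPt

/-- The answer. -/
def encBool (b : Bool) : List Sym := [if b then Sym.b1 else Sym.b0]

/-! ### Parsing -/

/-- The integer with the given sign and digits. -/
def toInt (neg : Bool) (l : List Bool) : ℤ := cond neg (-(val l : ℤ)) (val l : ℤ)

/-- State of the parser: digits read, sign, abscissa, vertices (reversed), `k`, phase. -/
abbrev PSt : Type := List Bool × Bool × ℤ × List (ℤ × ℤ) × ℕ × Bool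

/-- One step of the parser. -/
def pstep (s : PSt) (c : Sym) : PSt :=
  cond (decide (c = Sym.b0)) (false :: s.1, s.2)
    (cond (decide (c = Sym.b1)) (true :: s.1, s.2)
      (cond (decide (c = Sym.minus)) (s.1, true, s.2.2)
        (cond (decide (c = Sym.comma)) ([], false, toInt s.2.1 s.1, s.2.2.2)
          (cond (decide (c = Sym.semi))
            (cond s.2.2.2.2.2
              ([], false, 0, (s.2.2.1, toInt s.2.1 s.1) :: s.2.2.2.1, s.2.2.2.2.1, true)
              ([], false, 0, s.2.2.2.1, val s.1, true))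
            s))))

/-- The start of the parser. -/
def pinit : PSt := ([], false, 0, [], 0, false)

/-- The parser. -/
def parse (w : List Sym) : List (ℤ × ℤ) × ℕ :=
  ((w.foldl pstep pinit).2.2.2.1.reverse, (w.foldl pstep pinit).2.2.2.2.1)

theorem foldl_bits (l : List Bool) (o : List Bool) (r : Bool × ℤ × List (ℤ × ℤ) × ℕ × Bool) :
    (l.map (fun b => if b then Sym.b1 else Sym.b0)).foldl pstep (o, r) = (l.reverse ++ o, r) := by
  induction l generalizing o with
  | nil => rfl
  | cons b l ih =>
    rw [List.map_cons, List.foldl_cons]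
    have : pstep (o, r) (if b = true then Sym.b1 else Sym.b0) = (b :: o, r) := by
      cases b <;> simp [pstep]
    rw [this, ih]
    simp

theorem foldl_encNat (n : ℕ) (r : Bool × ℤ × List (ℤ × ℤ) × ℕ × Bool) :
    (encNat n).foldl pstep ([], r) = (n.bits, r) := by
  unfold encNat
  rw [foldl_bits]
  simp

theorem foldl_encInt (z : ℤ) (r : ℤ × List (ℤ × ℤ) × ℕ × Bool) :
    (encInt z).foldl pstep ([], false, r) = (z.natAbs.bits, decide (z < 0), r) := by
  unfold encInt
  by_cases hz : z < 0
  · rw [if_pos hz, List.foldl_append, List.foldl_cons, List.foldl_nil]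
    have : pstep ([], false, r) Sym.minus = ([], true, r) := by simp [pstep]
    rw [this, foldl_encNat]
    simp [hz]
  · rw [if_neg hz, List.nil_append, foldl_encNat]
    simp [hz]

theorem toInt_bits (z : ℤ) : toInt (decide (z < 0)) z.natAbs.bits = z := by
  unfold toInt
  rw [val_bits]
  by_cases hz : z < 0
  · rw [decide_eq_true hz, cond_true]; omega
  · rw [decide_eq_false hz, cond_false]; omega

theorem foldl_encPt (p : ℤ × ℤ) (pts : List (ℤ × ℤ)) (k : ℕ) :
    (encPt p).foldl pstep ([], false, 0, pts, k, true) = ([], false, 0, p :: pts, k, true) := by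
  unfold encPt
  rw [List.foldl_append, foldl_encInt, List.foldl_cons]
  have h1 : pstep (p.1.natAbs.bits, decide (p.1 < 0), 0, pts, k, true) Sym.comma =
      ([], false, p.1, pts, k, true) := by
    conv_rhs => rw [← toInt_bits p.1]
    simp [pstep]
  rw [h1, List.foldl_append, foldl_encInt, List.foldl_cons, List.foldl_nil]
  have h2 : pstep (p.2.natAbs.bits, decide (p.2 < 0), p.1, pts, k, true) Sym.semi =
      ([], false, 0, (p.1, toInt (decide (p.2 < 0)) p.2.natAbs.bits) :: pts, k, true) := by
    simp [pstep]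
  rw [h2, toInt_bits]

theorem foldl_pts (l pts : List (ℤ × ℤ)) (k : ℕ) :
    (l.flatMap encPt).foldl pstep ([], false, 0, pts, k, true) =
      ([], false, 0, l.reverse ++ pts, k, true) := by
  induction l generalizing pts with
  | nil => rfl
  | cons p l ih =>
    rw [List.flatMap_cons, List.foldl_append, foldl_encPt, ih]
    simp

theorem parse_encInst (q : List (ℤ × ℤ) × ℕ) : parse (encInst q) = q := by
  have h : (encInst q).foldl pstep pinit = ([], false, 0, q.1.reverse, q.2, true) := by
    unfold encInst pinit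
    rw [List.foldl_append, foldl_encNat, List.foldl_cons]
    have : pstep (q.2.bits, false, 0, [], 0, false) Sym.semi =
        ([], false, 0, [], q.2, true) := by
      have := val_bits q.2
      simp [pstep, this]
    rw [this, foldl_pts]
    simp
  unfold parse
  rw [h]
  simp

theorem encInst_injective : Function.Injective encInst := fun a b h => by
  rw [← parse_encInst a, h, parse_encInst]

/-! ### The decision procedure -/

/-- Insertion into a strictly increasing list. -/
def ins' (x : ℤ) (l : List ℤ) : List ℤ :=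
  (l.filter (fun y => decide (y < x))) ++ (x :: (l.filter (fun y => decide (x < y))))

/-- The strictly increasing list of the members. -/
def sortL (l : List ℤ) : List ℤ := l.foldl (fun s x => ins' x s) []

/-- The strictly increasing list of the members, preceded by a smaller number. -/
def gl (l : List ℤ) : List ℤ :=
  (((sortL l).take 1).map (fun z => -((z.natAbs + 1 : ℕ) : ℤ))) ++ sortL l

/-- The decision procedure. -/
def csnAlg (q : List (ℤ × ℤ) × ℕ) : Bool :=
  dpR (cell q.1 (gl (q.1.map Prod.fst)) (gl (q.1.map Prod.snd)))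
    (List.range ((0 : ℤ) :: (gl (q.1.map Prod.fst) ++ gl (q.1.map Prod.snd))).length) q.2

theorem pairwise_ins' {x : ℤ} {l : List ℤ} (h : l.Pairwise (· < ·)) :
    (ins' x l).Pairwise (· < ·) := by
  unfold ins'
  rw [List.pairwise_append]
  refine ⟨h.filter _, ?_, ?_⟩
  · rw [List.pairwise_cons]
    refine ⟨fun y hy => ?_, h.filter _⟩
    simpa using (List.mem_filter.mp hy).2
  · intro a ha b hb
    have h1 : a < x := by simpa using (List.mem_filter.mp ha).2
    rcases List.mem_cons.mp hb with rfl | hb
    · exact h1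
    · have h2 : x < b := by simpa using (List.mem_filter.mp hb).2
      omega

theorem mem_ins' {x y : ℤ} {l : List ℤ} : y ∈ ins' x l ↔ y = x ∨ y ∈ l := by
  unfold ins'
  simp only [List.mem_append, List.mem_cons, List.mem_filter, decide_eq_true_eq]
  constructor
  · rintro (h | h | h)
    · exact Or.inr h.1
    · exact Or.inl h
    · exact Or.inr h.1
  · rintro (h | h)
    · exact Or.inr (Or.inl h)
    · rcases lt_trichotomy y x with h1 | h1 | h1
      · exact Or.inl ⟨h, h1⟩
      · exact Or.inr (Or.inl h1)
      · exact Or.inr (Or.inr ⟨h, h1⟩)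

theorem sort_aux (l : List ℤ) : ∀ s : List ℤ, s.Pairwise (· < ·) →
    (l.foldl (fun s x => ins' x s) s).Pairwise (· < ·) ∧
    ∀ y, y ∈ l.foldl (fun s x => ins' x s) s ↔ y ∈ l ∨ y ∈ s := by
  induction l with
  | nil => intro s hs; exact ⟨hs, fun y => by simp⟩
  | cons x l ih =>
    intro s hs
    obtain ⟨h1, h2⟩ := ih (ins' x s) (pairwise_ins' hs)
    refine ⟨h1, fun y => ?_⟩
    rw [List.foldl_cons, h2, mem_ins', List.mem_cons]
    tauto

theorem pairwise_sortL (l : List ℤ) : (sortL l).Pairwise (· < ·) := (sort_aux l [] (by simp)).1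

theorem mem_sortL {l : List ℤ} {y : ℤ} : y ∈ sortL l ↔ y ∈ l := by
  unfold sortL
  rw [(sort_aux l [] (by simp)).2]
  simp

theorem gl_cons {l : List ℤ} (h : l ≠ []) : ∃ z, gl l = z :: sortL l ∧ ∀ y ∈ l, z < y := by
  have h1 : sortL l ≠ [] := by
    obtain ⟨x, hx⟩ := List.exists_mem_of_ne_nil l h
    intro h2
    have := mem_sortL.mpr hx
    rw [h2] at this
    simp at this
  obtain ⟨z, s, hs⟩ := List.exists_cons_of_ne_nil h1
  refine ⟨-((z.natAbs + 1 : ℕ) : ℤ), ?_, ?_⟩
  · unfold gl
    rw [hs]
    rfl
  · intro y hy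
    have h2 := mem_sortL.mpr hy
    have h3 := pairwise_sortL l
    rw [hs] at h2 h3
    have h4 : z ≤ y := by
      rcases List.mem_cons.mp h2 with h2 | h2
      · omega
      · exact ((List.pairwise_cons.mp h3).1 y h2).le
    omega

theorem isGrid_gl {V : List (ℤ × ℤ)} (hV : V ≠ []) :
    IsGrid V (gl (V.map Prod.fst)) (gl (V.map Prod.snd)) := by
  have key : ∀ l : List ℤ, l ≠ [] → (gl l).Pairwise (· < ·) ∧ ∀ y ∈ l, y ∈ (gl l).tail := by
    intro l hl
    obtain ⟨z, hz, hz'⟩ := gl_cons hl
    rw [hz]
    refine ⟨?_, fun y hy => ?_⟩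
    · rw [List.pairwise_cons]
      exact ⟨fun y hy => hz' y (mem_sortL.mp hy), pairwise_sortL l⟩
    · exact mem_sortL.mpr hy
  have h1 := key (V.map Prod.fst) (by simpa using hV)
  have h2 := key (V.map Prod.snd) (by simpa using hV)
  exact ⟨h1.1, h2.1, fun p hp => h1.2 _ (List.mem_map_of_mem hp),
    fun p hp => h2.2 _ (List.mem_map_of_mem hp)⟩

theorem mem_edges {V : List (ℤ × ℤ)} {e : (ℤ × ℤ) × (ℤ × ℤ)} (h : e ∈ edges V) :
    e.1 ∈ V ∧ e.2 ∈ V := by
  unfold edges at h
  have h1 := List.of_mem_zip (a := e.1) (b := e.2) h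
  refine ⟨h1.1, ?_⟩
  rcases List.mem_append.mp h1.2 with h2 | h2
  · exact List.mem_of_mem_tail h2
  · exact List.mem_of_mem_take h2

theorem cell_supp {V : List (ℤ × ℤ)} (hV : V ≠ []) (i j : ℕ)
    (h : cell V (gl (V.map Prod.fst)) (gl (V.map Prod.snd)) i j = true) :
    0 < i ∧ i ≤ (gl (V.map Prod.fst) ++ gl (V.map Prod.snd)).length ∧ 0 < j ∧
      j ≤ (gl (V.map Prod.fst) ++ gl (V.map Prod.snd)).length := by
  unfold cell at h
  rw [Bool.and_eq_true, Bool.and_eq_true, decide_eq_true_eq, decide_eq_true_eq] at h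
  obtain ⟨h1, h2, h3⟩ := h
  obtain ⟨zx, hzx, hzx'⟩ := gl_cons (l := V.map Prod.fst) (by simpa using hV)
  obtain ⟨zy, hzy, hzy'⟩ := gl_cons (l := V.map Prod.snd) (by simpa using hV)
  have hne : ∀ x y : ℤ, ((∀ p ∈ V, x < p.1) ∨ (∀ p ∈ V, y < p.2)) → par V x y = false := by
    intro x y hxy
    unfold par
    have : (edges V).countP (crossL x y) = 0 := by
      rw [List.countP_eq_zero]
      intro e he
      obtain ⟨he1, he2⟩ := mem_edges he
      unfold crossL
      rcases hxy with hxy | hxy
      · have := hxy _ he1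
        simp
        omega
      · have := hxy _ he1
        have := hxy _ he2
        simp
        omega
    rw [this]
    simp
  refine ⟨?_, ?_, ?_, ?_⟩
  · rcases Nat.eq_zero_or_pos i with hi | hi
    · exfalso
      rw [hi, hzx, List.getD_cons_zero] at h3
      rw [hne _ _ (Or.inl fun p hp => hzx' _ (List.mem_map_of_mem hp))] at h3
      simp at h3
    · exact hi
  · rw [List.length_append]; omega
  · rcases Nat.eq_zero_or_pos j with hi | hi
    · exfalso
      rw [hi, hzy, List.getD_cons_zero] at h3
      rw [hne _ _ (Or.inr fun p hp => hzy' _ (List.mem_map_of_mem hp))] at h3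
      simp at h3
    · exact hi
  · rw [List.length_append]; omega

/-- Correctness of the decision procedure. -/
theorem csnAlg_correct (hin : TargetInner) (hloc : TargetLocal) (htf : TargetTF)
    (hround : TargetRound) (hdp : TargetDP) {V : List (ℤ × ℤ)} (hV : IsRectilinear V) (k : ℕ) :
    csnAlg (V, k) = true ↔ CsnLe V k := by
  have hne : V ≠ [] := by
    have := hV.len
    rintro rfl
    simp at this
  have hg := isGrid_gl hne
  rw [hround V _ _ k hin hloc hV hg]
  unfold csnAlg
  rw [List.length_cons, dpR_eq _ _ _ (cell_supp hne)]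
  exact hdp _ _ _ (cell_supp hne) (htf V _ _ hV hg)

/-! ### Polynomial time -/

theorem sz_val_le (l : List Bool) : sz (val l) ≤ sz l := by
  rw [sz_nat, val_bits_foldr]
  induction l with
  | nil => exact le_refl _
  | cons b l ih =>
    rw [List.foldr_cons]
    split_ifs
    · rw [sz_nil]; exact sz_pos _
    · rw [sz_cons, sz_cons]; omega

theorem sz_int (z : ℤ) : sz z = sz z.toNat + sz (-z).toNat + 1 := rfl

theorem sz_toInt_le (b : Bool) (l : List Bool) : sz (toInt b l) ≤ sz l + 2 := by
  have h := sz_val_le l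
  have h0 : sz (0 : ℕ) = 1 := rfl
  unfold toInt
  cases b
  · rw [cond_false, sz_int]
    have h1 : ((val l : ℕ) : ℤ).toNat = val l := by omega
    have h2 : (-((val l : ℕ) : ℤ)).toNat = 0 := by omega
    rw [h1, h2, h0]
    omega
  · rw [cond_true, sz_int]
    have h1 : (-(-((val l : ℕ) : ℤ))).toNat = val l := by omega
    have h2 : (-((val l : ℕ) : ℤ)).toNat = 0 := by omega
    rw [h1, h2, h0]
    omega

theorem sz_pstep_le (s : PSt) (c : Sym) : sz (pstep s c) ≤ sz s + 20 := by
  obtain ⟨l, b, x, pts, k, ph⟩ := s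
  have h1 := sz_toInt_le b l
  have h2 := sz_val_le l
  have h3 := sz_pos l
  have h4 := sz_pos b
  have h5 := sz_pos x
  have h6 := sz_pos pts
  have h7 := sz_pos k
  have h8 := sz_pos ph
  have h9 : sz true = 3 := rfl
  have h10 : sz false = 1 := rfl
  have h11 : sz (0 : ℤ) = 3 := rfl
  have h12 : sz ([] : List Bool) = 1 := rfl
  cases c <;> (try cases ph) <;> simp [pstep, sz_pair, sz_cons, h9, h10, h11, h12] <;> omega

theorem sz_foldl_pstep (w : List Sym) (s : PSt) : sz (w.foldl pstep s) ≤ sz s + 20 * w.length := by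
  induction w generalizing s with
  | nil => simp
  | cons c w ih =>
    rw [List.foldl_cons, List.length_cons]
    have := ih (pstep s c)
    have := sz_pstep_le s c
    omega

variable {γ : Type} [Dat γ] [hC : Fact Core]

@[fun_prop] theorem toInt_pt {b : γ → Bool} {l : γ → List Bool} (hb : PolyF b) (hl : PolyF l) :
    PolyF (fun x => toInt (b x) (l x)) := by
  unfold toInt; fun_prop

@[fun_prop] theorem pstep_pt {s : γ → PSt} {c : γ → Sym} (hs : PolyF s) (hc : PolyF c) :
    PolyF (fun x => pstep (s x) (c x)) := by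
  unfold pstep; fun_prop

theorem foldl_pstep_pt : PolyF (fun w : List Sym => w.foldl pstep pinit) := by
  refine PolyF.foldl (f := fun _ => pstep) (by fun_prop) (by fun_prop) (by fun_prop)
    (fun w => sz pinit + 20 * sz w) ((PolyB.const _).add ((PolyB.const 20).mul PolyB.sz)) ?_
  intro w l₁ hl₁
  have h1 := sz_foldl_pstep l₁ pinit
  have h2 := length_lt_sz l₁
  have h3 := sz_le_of_prefix hl₁
  omega

theorem parse_pt : PolyF parse := by
  have := foldl_pstep_pt (hC := hC)
  exact PolyF.pair (this.snd.snd.snd.fst.reverse) (this.snd.snd.snd.snd.fst)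

@[fun_prop] theorem ins'_pt {x : γ → ℤ} {l : γ → List ℤ} (hx : PolyF x) (hl : PolyF l) :
    PolyF (fun y => ins' (x y) (l y)) := by
  unfold ins'; fun_prop

omit hC [Dat γ] in
theorem sz_ins'_le (x : ℤ) (l : List ℤ) : sz (ins' x l) ≤ sz l + sz x + 1 := by
  unfold ins'
  have h1 := sz_append (l.filter (fun y => decide (y < x)))
    (x :: (l.filter (fun y => decide (x < y))))
  rw [sz_cons] at h1
  have h2 : sz (l.filter (fun y => decide (y < x))) + sz (l.filter (fun y => decide (x < y))) ≤
      sz l + 1 := by
    clear h1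
    induction l with
    | nil => simp [sz_nil]
    | cons a l ih =>
      rw [sz_cons]
      rcases lt_trichotomy a x with h | h | h
      · rw [List.filter_cons_of_pos (by simpa using h), List.filter_cons_of_neg (by simp; omega),
          sz_cons]
        omega
      · rw [List.filter_cons_of_neg (by simp; omega), List.filter_cons_of_neg (by simp; omega)]
        omega
      · rw [List.filter_cons_of_neg (by simp; omega), List.filter_cons_of_pos (by simpa using h),
          sz_cons]
        omega
  omega

@[fun_prop] theorem sortL_pt {l : γ → List ℤ} (hl : PolyF l) : PolyF (fun x => sortL (l x)) := by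
  unfold sortL
  refine PolyF.foldl (by fun_prop) (by fun_prop) hl (fun x => sz (l x)) hl.bound ?_
  intro x l₁ hl₁
  have key : ∀ (m s : List ℤ), sz (m.foldl (fun s x => ins' x s) s) + 1 ≤ sz m + sz s := by
    intro m
    induction m with
    | nil => intro s; simp [sz_nil, Nat.add_comm]
    | cons a m ih =>
      intro s
      rw [List.foldl_cons, sz_cons]
      have := ih (ins' a s)
      have := sz_ins'_le a s
      omega
  have h1 := key l₁ []
  have h2 := sz_le_of_prefix hl₁
  rw [sz_nil] at h1
  omega

@[fun_prop] theorem gl_pt {l : γ → List ℤ} (hl : PolyF l) : PolyF (fun x => gl (l x)) := by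
  unfold gl; fun_prop

@[fun_prop] theorem edges_pt {V : γ → List (ℤ × ℤ)} (hV : PolyF V) :
    PolyF (fun x => edges (V x)) := by
  unfold edges; fun_prop

@[fun_prop] theorem crossL_pt {x y : γ → ℤ} {e : γ → (ℤ × ℤ) × (ℤ × ℤ)} (hx : PolyF x)
    (hy : PolyF y) (he : PolyF e) : PolyF (fun z => crossL (x z) (y z) (e z)) := by
  unfold crossL; fun_prop

@[fun_prop] theorem par_pt {V : γ → List (ℤ × ℤ)} {x y : γ → ℤ} (hV : PolyF V) (hx : PolyF x)
    (hy : PolyF y) : PolyF (fun z => par (V z) (x z) (y z)) := by
  unfold par; fun_prop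

@[fun_prop] theorem cell_pt {V : γ → List (ℤ × ℤ)} {X Y : γ → List ℤ} {i j : γ → ℕ}
    (hV : PolyF V) (hX : PolyF X) (hY : PolyF Y) (hi : PolyF i) (hj : PolyF j) :
    PolyF (fun z => cell (V z) (X z) (Y z) (i z) (j z)) := by
  unfold cell; fun_prop

theorem csnAlg_pt : PolyF csnAlg := by
  unfold csnAlg
  fun_prop

/-- The decision procedure runs in polynomial time on a Turing machine. -/
theorem csnAlg_tm : Nonempty (Turing.TM2ComputableInPolyTime encInst encBool csnAlg) := by
  have h1 : PolyF (fun w : List Sym => [cond (csnAlg (parse w)) Sym.b1 Sym.b0]) := by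
    have h2 := (csnAlg_pt (hC := hC)).comp (parse_pt (hC := hC))
    fun_prop
  obtain ⟨g, hg, hg'⟩ := h1
  refine hC.out.io encInst encBool csnAlg g (hg.mono ?_) ?_
  · rintro t ⟨q, rfl⟩
    exact ⟨encInst q, rfl⟩
  · intro q
    have := hg' (encInst q)
    simp only [parse_encInst] at this
    refine this.trans ?_
    show enc _ = enc (encBool (csnAlg q))
    unfold encBool
    cases csnAlg q <;> rfl

end Pool.Agent.CSN
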