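import Pool.Agent.CSN.Defs

/-!
# Direction-uniform notions for the dynamic program, and the targets of the jobs CSN-B1 ... B5

Directions: 0 right, 1 left, 2 up, 3 down. A line is a vertical line between the columns `a` and
`a + 1` (directions 0, 1) or a horizontal line between the rows `a` and `a + 1` (directions 2, 3).
A position on a line is a row or a column.
-/

set_option autoImplicit false

namespace Pool.Agent.CSN

/-- The opposite direction. -/
def op (dir : ℕ) : ℕ := if dir = 0 then 1 else if dir = 1 then 0 else if dir = 2 then 3 else 2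

/-- The cell before the unit edge at position `j` on line `a`, seen in direction `dir`. -/
def near (dir a j : ℕ) : ℕ × ℕ :=
  if dir = 0 then (a, j) else if dir = 1 then (a + 1, j) else if dir = 2 then (j, a)
    else (j, a + 1)

/-- The cell behind the unit edge at position `j` on line `a`, seen in direction `dir`. -/
def far (dir a j : ℕ) : ℕ × ℕ :=
  if dir = 0 then (a + 1, j) else if dir = 1 then (a, j) else if dir = 2 then (j, a + 1)
    else (j, a)

/-- The unit edge is interior. -/
def Edge (P : ℕ → ℕ → Prop) (dir a j : ℕ) : Prop :=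
  P (near dir a j).1 (near dir a j).2 ∧ P (far dir a j).1 (far dir a j).2

/-- The positions `j` and `j'` on line `a` belong to the same chord. -/
def Same (P : ℕ → ℕ → Prop) (dir a j j' : ℕ) : Prop :=
  ∀ t, min j j' ≤ t → t ≤ max j j' → Edge P dir a t

/-- The line carrying the side of the rectangle in direction `dir`. -/
def IRect.line (R : IRect) (dir : ℕ) : ℕ :=
  if dir = 0 then R.b else if dir = 1 then R.a else if dir = 2 then R.d else R.c

/-- The position is on the side of the rectangle in direction `dir`. -/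
def IRect.pos (R : IRect) (dir j : ℕ) : Prop :=
  if dir < 2 then R.c < j ∧ j ≤ R.d else R.a < j ∧ j ≤ R.b

/-- A rectangle in the region, none of whose corners is an interior grid point. -/
structure Valid (P : ℕ → ℕ → Prop) (R : IRect) : Prop where
  ab : R.a < R.b
  cd : R.c < R.d
  sub : ∀ i j, R.mem i j → P i j
  ac : ¬ Ipt P R.a R.c
  ad : ¬ Ipt P R.a R.d
  bc : ¬ Ipt P R.b R.c
  bd : ¬ Ipt P R.b R.d

/-- The lines through the rectangle meet at most `k` rectangles, if `L d j` is the load behind
the side in direction `d` at position `j`. -/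
def CondL (k : ℕ) (R : IRect) (L : ℕ → ℕ → ℕ) : Prop :=
  (∀ j, R.pos 0 j → L 1 j + 1 + L 0 j ≤ k) ∧ (∀ j, R.pos 2 j → L 3 j + 1 + L 2 j ≤ k)

/-- The exit at position `j'` of the side in direction `d` of a rectangle entered in direction
`dir` through line `a` at position `j` is the entry itself. -/
def Ex (P : ℕ → ℕ → Prop) (dir a j d j' : ℕ) : Prop := d = op dir ∧ Same P dir a j j'

/-- `FeasN P k h dir a j f`: behind the chord through position `j` of line `a` in direction `dir`
there is a tree of rectangles, of height at most `h`, all of whose lines are good, such that the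
number of rectangles met by the ray from position `j'` of the chord is `f j'`. -/
def FeasN (P : ℕ → ℕ → Prop) (k : ℕ) : ℕ → ℕ → ℕ → ℕ → (ℕ → ℕ) → Prop
  | 0, _, _, _, _ => False
  | h + 1, dir, a, j, f => Edge P dir a j ∧
      ∃ (R : IRect) (F : ℕ → ℕ → ℕ → ℕ) (L : ℕ → ℕ → ℕ), Valid P R ∧ R.line (op dir) = a ∧
      R.pos dir j ∧
      (∀ d < 4, ∀ j', R.pos d j' → Edge P d (R.line d) j' → ¬ Ex P dir a j d j' →
        FeasN P k h d (R.line d) j' (F d j') ∧ L d j' = F d j' j') ∧
      (∀ d < 4, ∀ j', R.pos d j' → ¬ (Edge P d (R.line d) j' ∧ ¬ Ex P dir a j d j') →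
        L d j' = 0) ∧
      (∀ d < 4, ∀ j' j'', Same P d (R.line d) j' j'' → F d j' = F d j'') ∧
      CondL k R L ∧
      (∀ j', Same P dir a j j' → f j' = 1 + L dir j')

/-- There is a tree of rectangles behind the chord, with profile `f`. -/
def Feas (P : ℕ → ℕ → Prop) (k dir a j : ℕ) (f : ℕ → ℕ) : Prop := ∃ h, FeasN P k h dir a j f

/-- The cell lies in a rectangle with trees behind all its chords. -/
def Root (P : ℕ → ℕ → Prop) (k i₀ j₀ : ℕ) : Prop :=
  ∃ (R : IRect) (F : ℕ → ℕ → ℕ → ℕ) (L : ℕ → ℕ → ℕ), Valid P R ∧ R.mem i₀ j₀ ∧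
    (∀ d < 4, ∀ j', R.pos d j' → Edge P d (R.line d) j' →
      Feas P k d (R.line d) j' (F d j') ∧ L d j' = F d j' j') ∧
    (∀ d < 4, ∀ j', R.pos d j' → ¬ Edge P d (R.line d) j' → L d j' = 0) ∧
    (∀ d < 4, ∀ j' j'', Same P d (R.line d) j' j'' → F d j' = F d j'') ∧
    CondL k R L

open Classical in
/-- The load given by a table, with exemptions. -/
noncomputable def ld (G : Tab) (R : IRect) (ex : ℕ → ℕ → Prop) (d j : ℕ) : ℕ :=
  if ex d j then 0 else G d (R.line d) j

/-- The rectangle is an admissible candidate for the entry `dir a j`. -/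
structure CandOK (P : ℕ → ℕ → Prop) (k : ℕ) (G : Tab) (dir a j : ℕ) (R : IRect) : Prop where
  valid : Valid P R
  line : R.line (op dir) = a
  pos : R.pos dir j
  cond : CondL k R (ld G R (Ex P dir a j))

/-- The region is contained in `[1, N] × [1, N]`. -/
def Supp (P : ℕ → ℕ → Prop) (N : ℕ) : Prop := ∀ i j, P i j → 0 < i ∧ i ≤ N ∧ 0 < j ∧ j ≤ N

/-- Job B1. Any two trees behind a chord have a common lower bound. -/
def TargetKey : Prop := ∀ (P : ℕ → ℕ → Prop) (N k dir a j : ℕ) (f₁ f₂ : ℕ → ℕ), Supp P N →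
  dir < 4 → Feas P k dir a j f₁ → Feas P k dir a j f₂ →
  ∃ f, Feas P k dir a j f ∧ ∀ j', Same P dir a j j' → f j' ≤ f₁ j' ∧ f j' ≤ f₂ j'

/-- Job B2. Tables give trees. -/
def TargetSound : Prop := TargetKey → ∀ (P : ℕ → ℕ → Prop) (N k : ℕ) (G : ℕ → Tab), Supp P N →
  (∀ dir a j, dir < 4 → Edge P dir a j → k < G 0 dir a j) →
  (∀ n dir a j, dir < 4 → ¬ Edge P dir a j → G n dir a j = 0) →
  (∀ n dir a j, dir < 4 → Edge P dir a j → G (n + 1) dir a j ≤ k →
    ∃ R, CandOK P k (G n) dir a j R ∧ 1 + G n dir (R.line dir) j ≤ G (n + 1) dir a j) →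
  (∀ n dir a j, dir < 4 → Edge P dir a j → G n dir a j ≤ k →
    ∃ f, Feas P k dir a j f ∧ f j ≤ G n dir a j) ∧
  (∀ n i j, (∃ R, Valid P R ∧ R.mem i j ∧ CondL k R (ld (G n) R (fun _ _ => False))) →
    Root P k i j)

/-- Job B3. Trees give partitions. -/
def TargetRealize : Prop := ∀ (P : ℕ → ℕ → Prop) (N k : ℕ), Supp P N → TF P →
  (∀ i j, P i j → Root P k i j) → GridLe P k

/-- Job B4. Partitions bound the tables. -/
def TargetComplete : Prop := ∀ (P : ℕ → ℕ → Prop) (N k : ℕ) (G : ℕ → Tab), Supp P N → TF P →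
  GridLe P k →
  (∀ n dir a j, dir < 4 → ¬ Edge P dir a j → G n dir a j = 0) →
  (∀ n dir a j R, dir < 4 → Edge P dir a j → CandOK P k (G n) dir a j R →
    G (n + 1) dir a j ≤ 1 + G n dir (R.line dir) j) →
  ∀ n, N * N ≤ n → ∀ i j, P i j →
    ∃ R, Valid P R ∧ R.mem i j ∧ CondL k R (ld (G n) R (fun _ _ => False))

/-- Job B5. What the functions `stepTab` and `final` do. -/
def TargetUnfold : Prop := ∀ (P : ℕ → ℕ → Bool) (N k : ℕ) (G : Tab),
  Supp (fun i j => P i j = true) N →
  (∀ dir a j, dir < 4 → ¬ Edge (fun i j => P i j = true) dir a j → stepTab P N k G dir a j = 0) ∧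
  (∀ dir a j, dir < 4 → ¬ Edge (fun i j => P i j = true) dir a j → initTab P k dir a j = 0) ∧
  (∀ dir a j, dir < 4 → Edge (fun i j => P i j = true) dir a j → initTab P k dir a j = k + 1) ∧
  ((∀ dir a j, dir < 4 → ¬ Edge (fun i j => P i j = true) dir a j → G dir a j = 0) →
    (∀ dir a j R, dir < 4 → Edge (fun i j => P i j = true) dir a j →
      CandOK (fun i j => P i j = true) k G dir a j R →
      stepTab P N k G dir a j ≤ 1 + G dir (R.line dir) j) ∧
    (∀ dir a j, dir < 4 → Edge (fun i j => P i j = true) dir a j →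
      stepTab P N k G dir a j ≤ k →
      ∃ R, CandOK (fun i j => P i j = true) k G dir a j R ∧
        1 + G dir (R.line dir) j ≤ stepTab P N k G dir a j) ∧
    (final P N k G = true ↔ ∀ i j, P i j = true → ∃ R, Valid (fun i j => P i j = true) R ∧
      R.mem i j ∧ CondL k R (ld G R (fun _ _ => False))))

/-- The assembly. -/
theorem targetDP (h1 : TargetKey) (h2 : TargetSound) (h3 : TargetRealize) (h4 : TargetComplete)
    (h5 : TargetUnfold) : TargetDP := by
  intro P N k hsupp hTF
  have hS : Supp (fun i j => P i j = true) N := hsupp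
  set G : ℕ → Tab := fun n => (stepTab P N k)^[n] (initTab P k) with hG
  have hsucc : ∀ n, G (n + 1) = stepTab P N k (G n) := fun n =>
    Function.iterate_succ_apply' _ _ _
  have hzero : ∀ n dir a j, dir < 4 → ¬ Edge (fun i j => P i j = true) dir a j →
      G n dir a j = 0 := by
    intro n dir a j hd he
    cases n with
    | zero => exact (h5 P N k (G 0) hS).2.1 dir a j hd he
    | succ n =>
      rw [hsucc]
      exact (h5 P N k (G n) hS).1 dir a j hd he
  have hN : N * N ≤ 4 * (N + 1) * (N + 1) := by nlinarith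
  have hfin := ((h5 P N k (G (4 * (N + 1) * (N + 1))) hS).2.2.2 (hzero _)).2.2
  have hdp : dp P N k = final P N k (G (4 * (N + 1) * (N + 1))) := rfl
  rw [hdp, hfin]
  constructor
  · intro h
    refine h3 _ N k hS hTF (fun i j hij => ?_)
    refine (h2 h1 _ N k G hS ?_ hzero ?_).2 _ i j (h i j hij)
    · intro dir a j hd he
      rw [show G 0 = initTab P k from rfl, (h5 P N k (G 0) hS).2.2.1 dir a j hd he]
      exact Nat.lt_succ_self k
    · intro n dir a j hd he hle
      rw [hsucc] at hle ⊢
      exact ((h5 P N k (G n) hS).2.2.2 (hzero n)).2.1 dir a j hd he hle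
  · intro h i j hij
    refine h4 _ N k G hS hTF h hzero ?_ _ hN i j hij
    intro n dir a j R hd he hc
    rw [hsucc]
    exact ((h5 P N k (G n) hS).2.2.2 (hzero n)).1 dir a j R hd he hc

end Pool.Agent.CSN
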