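import Pool.Agent.CSN.Edges

/-!
# Parity and the index grid
-/

set_option autoImplicit false

namespace Pool.Agent.CSN

variable {V : List (ℤ × ℤ)} {L : ℕ} {w : ℕ → ℤ × ℤ} {X Y : List ℤ}

theorem getD_lt {X : List ℤ} (h : X.Pairwise (· < ·)) {i j : ℕ} (hij : i < j)
    (hj : j < X.length) : X.getD i 0 < X.getD j 0 := by
  have hi : i < X.length := hij.trans hj
  rw [List.getD_eq_getElem X 0 hi, List.getD_eq_getElem X 0 hj]
  exact List.pairwise_iff_getElem.mp h i j hi hj hij

theorem getD_le {X : List ℤ} (h : X.Pairwise (· < ·)) {i j : ℕ} (hij : i ≤ j)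
    (hj : j < X.length) : X.getD i 0 ≤ X.getD j 0 := by
  rcases hij.lt_or_eq with h' | h'
  · exact (getD_lt h h' hj).le
  · rw [h']

theorem getD_inj {X : List ℤ} (h : X.Pairwise (· < ·)) {i j : ℕ} (hi : i < X.length)
    (hj : j < X.length) (he : X.getD i 0 = X.getD j 0) : i = j := by
  rcases lt_trichotomy i j with h' | h' | h'
  · have := getD_lt h h' hj; omega
  · exact h'
  · have := getD_lt h h' hi; omega

theorem mem_tail_getD {X : List ℤ} {x : ℤ} (h : x ∈ X.tail) :
    ∃ k, k + 1 < X.length ∧ X.getD (k + 1) 0 = x := by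
  obtain ⟨k, hk, he⟩ := List.mem_iff_getElem.mp h
  have hk' : k + 1 < X.length := by
    rw [List.length_tail] at hk; omega
  refine ⟨k, hk', ?_⟩
  rw [List.getD_eq_getElem X 0 hk', ← he, List.getElem_tail]

/-- No member of the list strictly between two consecutive ones. -/
theorem no_between {X : List ℤ} (h : X.Pairwise (· < ·)) {i k : ℕ} (hi : i + 1 < X.length)
    (hk : k < X.length) : ¬ (X.getD i 0 < X.getD k 0 ∧ X.getD k 0 < X.getD (i + 1) 0) := by
  rintro ⟨h1, h2⟩
  rcases Nat.lt_or_ge i k with h' | h'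
  · have := getD_le h (by omega : i + 1 ≤ k) hk; omega
  · have := getD_le h h' (by omega : i < X.length); omega

theorem UnitPath.EV_grid (h : UnitPath V L w) (hg : IsGrid V X Y) {x y : ℤ} (he : EV w L x y) :
    ∃ k, k + 1 < X.length ∧ X.getD (k + 1) 0 = x := by
  obtain ⟨p, hp, rfl⟩ := h.line_V he
  exact mem_tail_getD (hg.mx p hp)

theorem UnitPath.EH_grid (h : UnitPath V L w) (hg : IsGrid V X Y) {x y : ℤ} (he : EH w L x y) :
    ∃ k, k + 1 < Y.length ∧ Y.getD (k + 1) 0 = y := by
  obtain ⟨p, hp, rfl⟩ := h.line_H he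
  exact mem_tail_getD (hg.my p hp)

/-- A function that does not change at the vertical lines between `X i` and `X (i + 1)`. -/
theorem const_x {α : Type} (f : ℤ → α) {i : ℕ} {x : ℤ}
    (hx : X.getD i 0 ≤ x) (hx' : x < X.getD (i + 1) 0)
    (hf : ∀ z, X.getD i 0 < z → z < X.getD (i + 1) 0 → f z = f (z - 1)) :
    f x = f (X.getD i 0) := by
  induction x, hx using Int.le_induction with
  | base => rfl
  | succ n hn ih =>
    rw [hf (n + 1) (by omega) hx', add_sub_cancel_right]
    exact ih (by omega)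

theorem UnitPath.noEV (h : UnitPath V L w) (hg : IsGrid V X Y) {i : ℕ} (hi : i + 1 < X.length)
    {z y : ℤ} (h1 : X.getD i 0 < z) (h2 : z < X.getD (i + 1) 0) : ¬ EV w L z y := by
  intro he
  obtain ⟨k, hk, rfl⟩ := h.EV_grid hg he
  exact no_between hg.sx hi hk ⟨h1, h2⟩

theorem UnitPath.noEH (h : UnitPath V L w) (hg : IsGrid V X Y) {j : ℕ} (hj : j + 1 < Y.length)
    {x z : ℤ} (h1 : Y.getD j 0 < z) (h2 : z < Y.getD (j + 1) 0) : ¬ EH w L x z := by
  intro he
  obtain ⟨k, hk, rfl⟩ := h.EH_grid hg he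
  exact no_between hg.sy hj hk ⟨h1, h2⟩

/-- The parity of a unit cell is that of its grid cell. -/
theorem UnitPath.par_cell (h : UnitPath V L w) (hg : IsGrid V X Y) {i j : ℕ}
    (hi : i + 1 < X.length) (hj : j + 1 < Y.length) {x y : ℤ}
    (hx : X.getD i 0 ≤ x) (hx' : x < X.getD (i + 1) 0)
    (hy : Y.getD j 0 ≤ y) (hy' : y < Y.getD (j + 1) 0) :
    CSN.par V x y = cell V X Y i j := by
  have e1 : CSN.par V x y = CSN.par V (X.getD i 0) y :=
    const_x (fun z => CSN.par V z y) hx hx' (fun z h1 h2 => by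
      by_contra hne
      exact h.noEV hg hi h1 h2 ((h.par_left z y).mp hne))
  have e2 : CSN.par V (X.getD i 0) y = CSN.par V (X.getD i 0) (Y.getD j 0) :=
    const_x (X := Y) (fun z => CSN.par V (X.getD i 0) z) hy hy' (fun z h1 h2 => by
      by_contra hne
      exact h.noEH hg hj h1 h2 ((h.par_down _ z).mp hne))
  rw [e1, e2, cell, decide_eq_true hi, decide_eq_true hj]
  rfl

theorem mem_edges {e : (ℤ × ℤ) × (ℤ × ℤ)} (he : e ∈ edges V) : e.1 ∈ V ∧ e.2 ∈ V := by
  unfold edges at he
  obtain ⟨h1, h2⟩ := List.of_mem_zip (show (e.1, e.2) ∈ _ from he)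
  refine ⟨h1, ?_⟩
  rcases List.mem_append.mp h2 with h3 | h3
  · exact List.mem_of_mem_tail h3
  · exact List.mem_of_mem_take h3

theorem par_false {x y : ℤ} (h : ∀ e ∈ edges V, crossL x y e = false) : par V x y = false := by
  unfold par
  have : (edges V).countP (crossL x y) = 0 := by
    rw [List.countP_eq_zero]
    intro e he
    rw [h e he]
    simp
  rw [this]
  simp

theorem par_out_left {x y : ℤ} (h : ∀ p ∈ V, x < p.1) : par V x y = false := by
  apply par_false
  intro e he
  have := h _ (mem_edges he).1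
  unfold crossL
  have h2 : decide (e.1.1 ≤ x) = false := by
    rw [decide_eq_false_iff_not]; omega
  rw [h2]
  simp

theorem par_out_low {x y : ℤ} (h : ∀ p ∈ V, y < p.2) : par V x y = false := by
  apply par_false
  intro e he
  have h1 := h _ (mem_edges he).1
  have h2 := h _ (mem_edges he).2
  unfold crossL
  have h3 : decide (min e.1.2 e.2.2 ≤ y) = false := by
    rw [decide_eq_false_iff_not]; omega
  rw [h3]
  simp

theorem par_out_high {x y : ℤ} (h : ∀ p ∈ V, p.2 ≤ y) : par V x y = false := by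
  apply par_false
  intro e he
  have h1 := h _ (mem_edges he).1
  have h2 := h _ (mem_edges he).2
  unfold crossL
  have h3 : decide (y < max e.1.2 e.2.2) = false := by
    rw [decide_eq_false_iff_not]; omega
  rw [h3]
  simp

theorem UnitPath.par_out_right (h : UnitPath V L w) {x y : ℤ} (hx : ∀ p ∈ V, p.1 ≤ x) :
    CSN.par V x y = false := by
  obtain ⟨M, hM⟩ : ∃ M : ℤ, ∀ t < L, (w t).1 ≤ M := by
    obtain ⟨M, hM⟩ := ((Finset.range L).image (fun t => (w t).1)).exists_le
    refine ⟨M, fun t ht => hM _ ?_⟩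
    exact Finset.mem_image_of_mem _ (Finset.mem_range.mpr ht)
  have key : ∀ z, x ≤ z → CSN.par V z y = CSN.par V x y := by
    intro z hz
    induction z, hz using Int.le_induction with
    | base => rfl
    | succ n hn ih =>
      rw [← ih]
      by_contra hne
      have he := (h.par_left (n + 1) y).mp (by rw [add_sub_cancel_right]; exact hne)
      obtain ⟨p, hp, hpx⟩ := h.line_V he
      have := hx p hp
      omega
  rw [← key (max x M) (le_max_left _ _), h.par]
  have := cntL_full w L (fun t _ => h.step t) h.closed (max x M) y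
    (fun t ht => (hM t ht).trans (le_max_right _ _))
  rw [this]
  simp

/-- The column that contains an abscissa inside the grid. -/
theorem exists_col {X : List ℤ} {x : ℤ} (h1 : ∃ k, k + 1 < X.length ∧ X.getD (k + 1) 0 ≤ x)
    (h2 : ∃ k, k + 1 < X.length ∧ x < X.getD (k + 1) 0) (hs : X.Pairwise (· < ·)) :
    ∃ i, i + 2 < X.length ∧ X.getD (i + 1) 0 ≤ x ∧ x < X.getD (i + 2) 0 := by
  classical
  have hex : ∃ m, m < X.length ∧ x < X.getD m 0 := by
    obtain ⟨k, hk, hk'⟩ := h2
    exact ⟨k + 1, hk, hk'⟩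
  obtain ⟨hm, hm'⟩ := Nat.find_spec hex
  have hmin := fun m (h : m < Nat.find hex) => Nat.find_min hex h
  obtain ⟨k, hk, hk'⟩ := h1
  have h3 : 2 ≤ Nat.find hex := by
    by_contra h4
    have h5 : X.getD (Nat.find hex) 0 ≤ X.getD (k + 1) 0 := getD_le hs (by omega) hk
    omega
  refine ⟨Nat.find hex - 2, by omega, ?_, ?_⟩
  · have h4 := hmin (Nat.find hex - 2 + 1) (by omega)
    rw [not_and] at h4
    have h5 := h4 (by omega)
    omega
  · have h4 : Nat.find hex - 2 + 2 = Nat.find hex := by omega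
    rw [h4]; exact hm'

end Pool.Agent.CSN
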