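import Pool.Agent.CSN.Par

/-!
# The interior of a simple rectilinear polygon is given by the even-odd rule
-/

set_option autoImplicit false

namespace Pool.Agent.CSN

open Filter Topology

theorem floor_near (a : ℝ) : ∀ᶠ b in 𝓝 a, ⌊b⌋ = ⌊a⌋ ∨ (a = ⌊a⌋ ∧ ⌊b⌋ = ⌊a⌋ - 1) := by
  by_cases ha : a = ⌊a⌋
  · have h1 : Set.Ioo ((⌊a⌋ : ℝ) - 1) (⌊a⌋ + 1) ∈ 𝓝 a :=
      Ioo_mem_nhds (by linarith) (by linarith)
    filter_upwards [h1] with b hb
    obtain ⟨hb1, hb2⟩ := hb
    by_cases hb3 : (⌊a⌋ : ℝ) ≤ b
    · left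
      rw [Int.floor_eq_iff]
      exact ⟨hb3, hb2⟩
    · right
      refine ⟨ha, ?_⟩
      rw [Int.floor_eq_iff]
      push_cast
      constructor <;> linarith
  · have h1 : Set.Ioo (⌊a⌋ : ℝ) (⌊a⌋ + 1) ∈ 𝓝 a :=
      Ioo_mem_nhds (lt_of_le_of_ne (Int.floor_le a) (Ne.symm ha)) (Int.lt_floor_add_one a)
    filter_upwards [h1] with b hb
    left
    rw [Int.floor_eq_iff]
    exact ⟨hb.1.le, hb.2⟩

/-- The parity function is locally constant off the boundary. -/
theorem UnitPath.continuousOn {V : List (ℤ × ℤ)} {L : ℕ} {w : ℕ → ℤ × ℤ}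
    (h : UnitPath V L w) :
    ContinuousOn (fun p : Pt => CSN.par V ⌊p.1⌋ ⌊p.2⌋) (boundary V)ᶜ := by
  intro p hp
  apply ContinuousAt.continuousWithinAt
  have h1 : ∀ᶠ q in 𝓝 p, (fun p : Pt => CSN.par V ⌊p.1⌋ ⌊p.2⌋) q = CSN.par V ⌊p.1⌋ ⌊p.2⌋ := by
    have e1 := (continuous_fst.tendsto p).eventually (floor_near p.1)
    have e2 := (continuous_snd.tendsto p).eventually (floor_near p.2)
    filter_upwards [e1, e2] with q hq1 hq2
    exact h.par_near hp hq1 hq2
  exact (tendsto_congr' h1).mpr tendsto_const_nhds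

/-- A function on the plane lattice that is invariant under the unit steps is constant. -/
theorem const_of_steps {α : Type} (f : ℤ → ℤ → α) (h1 : ∀ x y, f x y = f (x - 1) y)
    (h2 : ∀ x y, f x y = f x (y - 1)) (x y x' y' : ℤ) : f x y = f x' y' := by
  have hx : ∀ x y, f x y = f 0 y := by
    intro x y
    induction x using Int.induction_on with
    | zero => rfl
    | succ i ih => rw [h1, ← ih]; congr 1; ring
    | pred i ih => rw [← ih, h1 (-(i : ℤ))]
  have hy : ∀ y, f 0 y = f 0 0 := by
    intro y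
    induction y using Int.induction_on with
    | zero => rfl
    | succ i ih => rw [h2, ← ih]; congr 1; ring
    | pred i ih => rw [← ih, h2 0 (-(i : ℤ))]
  rw [hx x y, hy, hx x' y', hy y']

/-- The jump of a function on the cells across the unit edge between two lattice points. -/
def jmp (c : ℤ → ℤ → Bool) (p q : ℤ × ℤ) : Bool :=
  if q.1 = p.1 then Bool.xor (c p.1 (min p.2 q.2)) (c (p.1 - 1) (min p.2 q.2))
  else Bool.xor (c (min p.1 q.1) p.2) (c (min p.1 q.1) (p.2 - 1))

theorem jmp_up (c : ℤ → ℤ → Bool) (x y : ℤ) :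
    jmp c (x, y) (x, y + 1) = Bool.xor (c x y) (c (x - 1) y) := by
  simp [jmp]

theorem jmp_down (c : ℤ → ℤ → Bool) (x y : ℤ) :
    jmp c (x, y) (x, y - 1) = Bool.xor (c x (y - 1)) (c (x - 1) (y - 1)) := by
  simp [jmp]

theorem jmp_right (c : ℤ → ℤ → Bool) (x y : ℤ) :
    jmp c (x, y) (x + 1, y) = Bool.xor (c x y) (c x (y - 1)) := by
  simp [jmp]

theorem jmp_left (c : ℤ → ℤ → Bool) (x y : ℤ) :
    jmp c (x, y) (x - 1, y) = Bool.xor (c (x - 1) y) (c (x - 1) (y - 1)) := by
  simp [jmp]

theorem jmp_symm (c : ℤ → ℤ → Bool) (p q : ℤ × ℤ) (h : UnitStep p q) :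
    jmp c p q = jmp c q p := by
  unfold jmp
  by_cases h1 : q.1 = p.1
  · rw [if_pos h1, if_pos h1.symm, h1, min_comm]
  · rw [if_neg h1, if_neg (Ne.symm h1), min_comm]
    have : q.2 = p.2 := by
      rcases h with h | h
      · exact absurd h.1 h1
      · exact h.1
    rw [this]

/-- The edge across which the jump is not zero is a path edge, all jumps along the path agree. -/
theorem UnitPath.jmp_succ {V : List (ℤ × ℤ)} {L : ℕ} {w : ℕ → ℤ × ℤ} (h : UnitPath V L w)
    (c : ℤ → ℤ → Bool)
    (hV : ∀ x y, (¬ ∃ t < L, OnV w x y t) → c x y = c (x - 1) y)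
    (hH : ∀ x y, (¬ ∃ t < L, OnH w x y t) → c x y = c x (y - 1)) (t : ℕ) :
    jmp c (w t) (w (t + 1)) = jmp c (w (t + 1)) (w (t + 2)) := by
  -- the other end of a path edge at `w (t + 1)`
  have ends : ∀ s q, (w s = w (t + 1) ∧ w (s + 1) = q) ∨ (w s = q ∧ w (s + 1) = w (t + 1)) →
      q = w t ∨ q = w (t + 2) := by
    rintro s q (⟨h1, h2⟩ | ⟨h1, h2⟩)
    · right
      rw [← h2, h.succ_eq h1]
    · left
      rw [← h1, h.pred_eq h2]
  rcases hv : w (t + 1) with ⟨x, y⟩
  have up : (x, y + 1) ≠ w t → (x, y + 1) ≠ w (t + 2) → c x y = c (x - 1) y := by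
    intro h1 h2
    refine hV x y ?_
    rintro ⟨s, hs, ⟨h3, h4⟩ | ⟨h3, h4⟩⟩
    · rcases ends s (x, y + 1) (Or.inl ⟨h3.trans hv.symm, h4⟩) with h5 | h5
      · exact h1 h5
      · exact h2 h5
    · rcases ends s (x, y + 1) (Or.inr ⟨h3, h4.trans hv.symm⟩) with h5 | h5
      · exact h1 h5
      · exact h2 h5
  have down : (x, y - 1) ≠ w t → (x, y - 1) ≠ w (t + 2) → c x (y - 1) = c (x - 1) (y - 1) := by
    intro h1 h2
    refine hV x (y - 1) ?_
    rintro ⟨s, hs, ⟨h3, h4⟩ | ⟨h3, h4⟩⟩
    · rw [sub_add_cancel] at h4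
      rcases ends s (x, y - 1) (Or.inr ⟨h3, h4.trans hv.symm⟩) with h5 | h5
      · exact h1 h5
      · exact h2 h5
    · rw [sub_add_cancel] at h3
      rcases ends s (x, y - 1) (Or.inl ⟨h3.trans hv.symm, h4⟩) with h5 | h5
      · exact h1 h5
      · exact h2 h5
  have right : (x + 1, y) ≠ w t → (x + 1, y) ≠ w (t + 2) → c x y = c x (y - 1) := by
    intro h1 h2
    refine hH x y ?_
    rintro ⟨s, hs, ⟨h3, h4⟩ | ⟨h3, h4⟩⟩
    · rcases ends s (x + 1, y) (Or.inl ⟨h3.trans hv.symm, h4⟩) with h5 | h5
      · exact h1 h5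
      · exact h2 h5
    · rcases ends s (x + 1, y) (Or.inr ⟨h3, h4.trans hv.symm⟩) with h5 | h5
      · exact h1 h5
      · exact h2 h5
  have left : (x - 1, y) ≠ w t → (x - 1, y) ≠ w (t + 2) → c (x - 1) y = c (x - 1) (y - 1) := by
    intro h1 h2
    refine hH (x - 1) y ?_
    rintro ⟨s, hs, ⟨h3, h4⟩ | ⟨h3, h4⟩⟩
    · rw [sub_add_cancel] at h4
      rcases ends s (x - 1, y) (Or.inr ⟨h3, h4.trans hv.symm⟩) with h5 | h5
      · exact h1 h5
      · exact h2 h5
    · rw [sub_add_cancel] at h3
      rcases ends s (x - 1, y) (Or.inl ⟨h3.trans hv.symm, h4⟩) with h5 | h5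
      · exact h1 h5
      · exact h2 h5
  have hne := h.ne_two t
  have s1 := h.step t
  have s2 := h.step (t + 1)
  have sy := jmp_symm c _ _ s1
  rw [show t + 1 + 1 = t + 2 from rfl] at s2
  rw [hv] at s1 s2 sy
  rw [sy]
  have s1' : w t = (x, y + 1) ∨ w t = (x, y - 1) ∨ w t = (x + 1, y) ∨ w t = (x - 1, y) := by
    rcases s1 with ⟨e1, e2 | e2⟩ | ⟨e1, e2 | e2⟩ <;> simp only at e1 e2
    · exact Or.inr (Or.inl (Prod.ext e1.symm (by simp only; omega)))
    · exact Or.inl (Prod.ext e1.symm (by simp only; omega))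
    · exact Or.inr (Or.inr (Or.inr (Prod.ext (by simp only; omega) e1.symm)))
    · exact Or.inr (Or.inr (Or.inl (Prod.ext (by simp only; omega) e1.symm)))
  have s2' : w (t + 2) = (x, y + 1) ∨ w (t + 2) = (x, y - 1) ∨ w (t + 2) = (x + 1, y) ∨
      w (t + 2) = (x - 1, y) := by
    rcases s2 with ⟨e1, e2 | e2⟩ | ⟨e1, e2 | e2⟩ <;> simp only at e1 e2
    · exact Or.inl (Prod.ext e1 (by simp only; omega))
    · exact Or.inr (Or.inl (Prod.ext e1 (by simp only; omega)))
    · exact Or.inr (Or.inr (Or.inl (Prod.ext (by simp only; omega) e1)))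
    · exact Or.inr (Or.inr (Or.inr (Prod.ext (by simp only; omega) e1)))
  clear sy s1 s2 ends hv hV hH h
  generalize w t = p at *
  generalize w (t + 2) = q at *
  rcases s1' with rfl | rfl | rfl | rfl <;> rcases s2' with rfl | rfl | rfl | rfl
  all_goals simp only [jmp_up, jmp_down, jmp_right, jmp_left]
  all_goals simp only [ne_eq, Prod.mk.injEq, not_and] at up down right left hne
  all_goals try (have e1 := up (by omega) (by omega); clear up)
  all_goals try (have e2 := down (by omega) (by omega); clear down)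
  all_goals try (have e3 := right (by omega) (by omega); clear right)
  all_goals try (have e4 := left (by omega) (by omega); clear left)
  all_goals clear hne
  all_goals generalize c x y = c1 at *
  all_goals generalize c (x - 1) y = c2 at *
  all_goals generalize c x (y - 1) = c3 at *
  all_goals generalize c (x - 1) (y - 1) = c4 at *
  all_goals try clear up
  all_goals try clear down
  all_goals try clear right
  all_goals try clear left
  all_goals (revert c1 c2 c3 c4; decide)

/-- The jump across the edge of the path is the same for all steps. -/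
theorem UnitPath.jmp_const {V : List (ℤ × ℤ)} {L : ℕ} {w : ℕ → ℤ × ℤ} (h : UnitPath V L w)
    (c : ℤ → ℤ → Bool)
    (hV : ∀ x y, (¬ ∃ t < L, OnV w x y t) → c x y = c (x - 1) y)
    (hH : ∀ x y, (¬ ∃ t < L, OnH w x y t) → c x y = c x (y - 1)) (t : ℕ) :
    jmp c (w t) (w (t + 1)) = jmp c (w 0) (w 1) := by
  induction t with
  | zero => rfl
  | succ t ih => rw [← ih]; exact (h.jmp_succ c hV hH t).symm

/-- A function on the cells that changes only across path edges and vanishes far away is a
multiple of the parity. -/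
theorem UnitPath.eq_and_par {V : List (ℤ × ℤ)} {L : ℕ} {w : ℕ → ℤ × ℤ} (h : UnitPath V L w)
    (c : ℤ → ℤ → Bool)
    (hV : ∀ x y, (¬ ∃ t < L, OnV w x y t) → c x y = c (x - 1) y)
    (hH : ∀ x y, (¬ ∃ t < L, OnH w x y t) → c x y = c x (y - 1))
    (hfar : ∃ M : ℤ, ∀ x y : ℤ, M < x → c x y = false) (x y : ℤ) :
    c x y = (jmp c (w 0) (w 1) && CSN.par V x y) := by
  set J := jmp c (w 0) (w 1) with hJ
  have key : Bool.xor (c x y) (J && CSN.par V x y) = false := by
    obtain ⟨M, hM⟩ := hfar
    obtain ⟨N, hN⟩ := h.par_out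
    have hfar' : Bool.xor (c (max M N + 1) 0) (J && CSN.par V (max M N + 1) 0) = false := by
      rw [hM _ _ (by omega)]
      have : CSN.par V (max M N + 1) 0 = false := by
        rw [Bool.eq_false_iff]
        intro hc
        have h1 := (hN _ _ hc).1
        have h2 := le_abs_self (max M N + 1)
        omega
      rw [this]
      simp
    rw [← hfar']
    refine const_of_steps (fun x y => Bool.xor (c x y) (J && CSN.par V x y)) ?_ ?_ _ _ _ _
    · intro x y
      by_cases ho : ∃ t < L, OnV w x y t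
      · have h1 := (h.par_ne_iffV x y).mpr ho
        obtain ⟨t, ht, ho⟩ := ho
        have h2 : Bool.xor (c x y) (c (x - 1) y) = J := by
          rw [hJ, ← h.jmp_const c hV hH t]
          rcases ho with ⟨h3, h4⟩ | ⟨h3, h4⟩
          · rw [h3, h4, jmp_up]
          · rw [h3, h4, jmp_symm c (x, y + 1) (x, y) (Or.inl ⟨rfl, Or.inr rfl⟩), jmp_up]
        revert h1 h2
        cases c x y <;> cases c (x - 1) y <;> cases J <;> cases CSN.par V x y <;>
          cases CSN.par V (x - 1) y <;> simp
      · rw [hV x y ho, h.par_eq_of_not_onV ho]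
    · intro x y
      by_cases ho : ∃ t < L, OnH w x y t
      · have h1 := (h.par_ne_iffH x y).mpr ho
        obtain ⟨t, ht, ho⟩ := ho
        have h2 : Bool.xor (c x y) (c x (y - 1)) = J := by
          rw [hJ, ← h.jmp_const c hV hH t]
          rcases ho with ⟨h3, h4⟩ | ⟨h3, h4⟩
          · rw [h3, h4, jmp_right]
          · rw [h3, h4, jmp_symm c (x + 1, y) (x, y) (Or.inr ⟨rfl, Or.inr rfl⟩), jmp_right]
        revert h1 h2
        cases c x y <;> cases c x (y - 1) <;> cases J <;> cases CSN.par V x y <;>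
          cases CSN.par V x (y - 1) <;> simp
      · rw [hH x y ho, h.par_eq_of_not_onH ho]
  revert key
  cases c x y <;> cases (J && CSN.par V x y) <;> simp

/-- The center of a unit cell. -/
noncomputable def ctr (x y : ℤ) : Pt := ((x : ℝ) + 1 / 2, (y : ℝ) + 1 / 2)

/-- A segment off the boundary stays in the component. -/
theorem mem_comp_of_segment {B : Set Pt} {p a b : Pt}
    (ha : a ∈ connectedComponentIn Bᶜ p) (hs : segment ℝ a b ⊆ Bᶜ) :
    b ∈ connectedComponentIn Bᶜ p := by
  rw [connectedComponentIn_eq ha]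
  exact (convex_segment a b).isPreconnected.subset_connectedComponentIn (left_mem_segment ℝ a b)
    hs (right_mem_segment ℝ a b)

/-- A point both of whose coordinates are not integers is not on the boundary. -/
theorem UnitPath.notMem_of_frac {V : List (ℤ × ℤ)} {L : ℕ} {w : ℕ → ℤ × ℤ}
    (h : UnitPath V L w) {p : Pt} {x y : ℤ} (h1 : (x : ℝ) < p.1) (h2 : p.1 < x + 1)
    (h3 : (y : ℝ) < p.2) (h4 : p.2 < y + 1) : p ∉ boundary V := by
  rw [h.mem_boundary]
  rintro (⟨x', y', -, h5, -⟩ | ⟨x', y', -, h5, -⟩)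
  · rw [h5] at h1 h2
    have h6 : x < x' := by exact_mod_cast h1
    have h7 : x' < x + 1 := by exact_mod_cast h2
    omega
  · rw [h5] at h3 h4
    have h6 : y < y' := by exact_mod_cast h3
    have h7 : y' < y + 1 := by exact_mod_cast h4
    omega

theorem targetInner : TargetUnit → TargetInner := by
  intro hU V hV
  obtain ⟨L, w, h⟩ := hU V hV
  classical
  ext p
  constructor
  · rintro ⟨hp, hb⟩
    refine ⟨hp, ?_⟩
    by_contra hpar
    set C := connectedComponentIn (boundary V)ᶜ p with hC
    have hpC : p ∈ C := mem_connectedComponentIn hp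
    set c : ℤ → ℤ → Bool := fun x y => decide (ctr x y ∈ C) with hc
    have hcV : ∀ x y, (¬ ∃ t < L, OnV w x y t) → c x y = c (x - 1) y := by
      intro x y hn
      have hs : segment ℝ (ctr x y) (ctr (x - 1) y) ⊆ (boundary V)ᶜ := by
        intro q hq
        have hq' : q.2 = (y : ℝ) + 1 / 2 ∧ (x : ℝ) - 1 / 2 ≤ q.1 ∧ q.1 ≤ (x : ℝ) + 1 / 2 := by
          unfold ctr at hq
          rw [segment_symm, ← Prod.image_mk_segment_left, segment_eq_uIcc,
            Set.uIcc_of_le (by push_cast; linarith)] at hq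
          obtain ⟨r, ⟨hr1, hr2⟩, rfl⟩ := hq
          push_cast at hr1
          refine ⟨rfl, ?_, ?_⟩ <;> simp only <;> linarith
        obtain ⟨h1, h2, h3⟩ := hq'
        rw [Set.mem_compl_iff, h.mem_boundary]
        rintro (⟨x', y', ho, h4, h5, h6⟩ | ⟨x', y', ho, h4, h5, h6⟩)
        · rw [h4] at h2 h3
          rw [h1] at h5 h6
          have e1 : x' = x := by
            have h7 : (x : ℝ) < x' + 1 := by linarith
            have h8 : (x' : ℝ) < x + 1 := by linarith
            have h7' : x < x' + 1 := by exact_mod_cast h7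
            have h8' : x' < x + 1 := by exact_mod_cast h8
            omega
          have e2 : y' = y := by
            have h7 : (y : ℝ) < y' + 1 := by linarith
            have h8 : (y' : ℝ) < y + 1 := by linarith
            have h7' : y < y' + 1 := by exact_mod_cast h7
            have h8' : y' < y + 1 := by exact_mod_cast h8
            omega
          subst e1 e2
          exact hn ho
        · rw [h1] at h4
          have h7 : (y : ℝ) < y' := by linarith
          have h8 : (y' : ℝ) < y + 1 := by linarith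
          have h7' : y < y' := by exact_mod_cast h7
          have h8' : y' < y + 1 := by exact_mod_cast h8
          omega
      simp only [hc, decide_eq_decide]
      constructor
      · exact fun hx => mem_comp_of_segment hx hs
      · exact fun hx => mem_comp_of_segment hx (by rwa [segment_symm])
    have hcH : ∀ x y, (¬ ∃ t < L, OnH w x y t) → c x y = c x (y - 1) := by
      intro x y hn
      have hs : segment ℝ (ctr x y) (ctr x (y - 1)) ⊆ (boundary V)ᶜ := by
        intro q hq
        have hq' : q.1 = (x : ℝ) + 1 / 2 ∧ (y : ℝ) - 1 / 2 ≤ q.2 ∧ q.2 ≤ (y : ℝ) + 1 / 2 := by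
          unfold ctr at hq
          rw [segment_symm, ← Prod.image_mk_segment_right, segment_eq_uIcc,
            Set.uIcc_of_le (by push_cast; linarith)] at hq
          obtain ⟨r, ⟨hr1, hr2⟩, rfl⟩ := hq
          push_cast at hr1
          refine ⟨rfl, ?_, ?_⟩ <;> simp only <;> linarith
        obtain ⟨h1, h2, h3⟩ := hq'
        rw [Set.mem_compl_iff, h.mem_boundary]
        rintro (⟨x', y', ho, h4, h5, h6⟩ | ⟨x', y', ho, h4, h5, h6⟩)
        · rw [h1] at h4
          have h7 : (x : ℝ) < x' := by linarith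
          have h8 : (x' : ℝ) < x + 1 := by linarith
          have h7' : x < x' := by exact_mod_cast h7
          have h8' : x' < x + 1 := by exact_mod_cast h8
          omega
        · rw [h4] at h2 h3
          rw [h1] at h5 h6
          have e1 : y' = y := by
            have h7 : (y : ℝ) < y' + 1 := by linarith
            have h8 : (y' : ℝ) < y + 1 := by linarith
            have h7' : y < y' + 1 := by exact_mod_cast h7
            have h8' : y' < y + 1 := by exact_mod_cast h8
            omega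
          have e2 : x' = x := by
            have h7 : (x : ℝ) < x' + 1 := by linarith
            have h8 : (x' : ℝ) < x + 1 := by linarith
            have h7' : x < x' + 1 := by exact_mod_cast h7
            have h8' : x' < x + 1 := by exact_mod_cast h8
            omega
          subst e1 e2
          exact hn ho
      simp only [hc, decide_eq_decide]
      constructor
      · exact fun hx => mem_comp_of_segment hx hs
      · exact fun hx => mem_comp_of_segment hx (by rwa [segment_symm])
    have hfar : ∃ M : ℤ, ∀ x y : ℤ, M < x → c x y = false := by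
      obtain ⟨R, hR⟩ := hb.exists_norm_le
      refine ⟨⌈R⌉, fun x y hx => ?_⟩
      simp only [hc, decide_eq_false_iff_not]
      intro hmem
      have h1 := hR _ hmem
      have h2 : |(x : ℝ) + 1 / 2| ≤ ‖ctr x y‖ := norm_fst_le (ctr x y)
      have h3 := le_abs_self ((x : ℝ) + 1 / 2)
      have h4 := Int.le_ceil R
      have h5 : ((⌈R⌉ : ℤ) : ℝ) < x := by exact_mod_cast hx
      linarith
    have heq := h.eq_and_par c hcV hcH hfar ⌊p.1⌋ ⌊p.2⌋
    rw [Bool.not_eq_true] at hpar
    rw [hpar, Bool.and_false] at heq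
    simp only [hc, decide_eq_false_iff_not] at heq
    apply heq
    refine mem_comp_of_segment hpC ?_
    intro q hq
    by_cases hqp : q = p
    · rw [hqp]; exact hp
    · obtain ⟨a, b, ha, hb', hab, rfl⟩ := hq
      have hb0 : 0 < b := by
        rcases hb'.lt_or_eq with h1 | h1
        · exact h1
        · exfalso
          apply hqp
          have : a = 1 := by linarith
          rw [← h1, this]
          simp
      have f1 := Int.floor_le p.1
      have f2 := Int.lt_floor_add_one p.1
      have f3 := Int.floor_le p.2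
      have f4 := Int.lt_floor_add_one p.2
      have ha' : a = 1 - b := by linarith
      subst ha'
      refine h.notMem_of_frac (x := ⌊p.1⌋) (y := ⌊p.2⌋) ?_ ?_ ?_ ?_
      · simp only [ctr, Prod.fst_add, Prod.smul_fst, smul_eq_mul]
        nlinarith
      · simp only [ctr, Prod.fst_add, Prod.smul_fst, smul_eq_mul]
        nlinarith
      · simp only [ctr, Prod.snd_add, Prod.smul_snd, smul_eq_mul]
        nlinarith
      · simp only [ctr, Prod.snd_add, Prod.smul_snd, smul_eq_mul]
        nlinarith
  · rintro ⟨hp, hpar⟩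
    refine ⟨hp, ?_⟩
    obtain ⟨M, hM⟩ := h.par_out
    rw [isBounded_iff_forall_norm_le]
    refine ⟨(M : ℝ) + 1, fun q hq => ?_⟩
    have h1 : CSN.par V ⌊q.1⌋ ⌊q.2⌋ = CSN.par V ⌊p.1⌋ ⌊p.2⌋ :=
      isPreconnected_connectedComponentIn.constant
        (h.continuousOn.mono (connectedComponentIn_subset _ _)) hq (mem_connectedComponentIn hp)
    rw [hpar] at h1
    obtain ⟨h2, h3⟩ := hM _ _ h1
    rw [abs_le] at h2 h3
    have f1 := Int.floor_le q.1
    have f2 := Int.lt_floor_add_one q.1
    have f3 := Int.floor_le q.2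
    have f4 := Int.lt_floor_add_one q.2
    have g1 : (-(M : ℝ)) ≤ ⌊q.1⌋ := by exact_mod_cast h2.1
    have g2 : (⌊q.1⌋ : ℝ) ≤ M := by exact_mod_cast h2.2
    have g3 : (-(M : ℝ)) ≤ ⌊q.2⌋ := by exact_mod_cast h3.1
    have g4 : (⌊q.2⌋ : ℝ) ≤ M := by exact_mod_cast h3.2
    rw [Prod.norm_def, max_le_iff, Real.norm_eq_abs, Real.norm_eq_abs, abs_le, abs_le]
    refine ⟨⟨?_, ?_⟩, ?_, ?_⟩ <;> linarith

end Pool.Agent.CSN
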