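import Pool.Agent.CSN.Feas

/-!
# Job CSN-B1: any two trees behind a chord have a common lower bound
-/

set_option autoImplicit false

namespace Pool.Agent.CSN

namespace KeyB1

/-- `y` comes after `x` in direction `dir`. -/
def Bef (dir x y : ℕ) : Prop := if dir % 2 = 0 then x < y else y < x

theorem bef_irrefl (dir x : ℕ) : ¬ Bef dir x x := by
  unfold Bef; split <;> omega

theorem bef_trans {dir x y z : ℕ} (h : Bef dir x y) (h' : Bef dir y z) : Bef dir x z := by
  unfold Bef at *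
  split_ifs at * <;> omega

theorem bef_tri (dir x y : ℕ) : Bef dir x y ∨ x = y ∨ Bef dir y x := by
  unfold Bef; split <;> omega

theorem op_lt {dir : ℕ} (_ : dir < 4) : op dir < 4 := by
  unfold op; split_ifs <;> omega

theorem op_ne {dir : ℕ} (_ : dir < 4) : dir ≠ op dir := by
  unfold op; split_ifs <;> omega

theorem edge_op {P : ℕ → ℕ → Prop} {dir a j : ℕ} (h : dir < 4) :
    Edge P (op dir) a j ↔ Edge P dir a j := by
  have : dir = 0 ∨ dir = 1 ∨ dir = 2 ∨ dir = 3 := by omega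
  rcases this with rfl | rfl | rfl | rfl <;> simp [Edge, op, near, far, and_comm]

theorem pos_op {R : IRect} {dir j : ℕ} (h : dir < 4) : R.pos (op dir) j ↔ R.pos dir j := by
  have : dir = 0 ∨ dir = 1 ∨ dir = 2 ∨ dir = 3 := by omega
  rcases this with rfl | rfl | rfl | rfl <;> simp [IRect.pos, op]

theorem same_symm {P : ℕ → ℕ → Prop} {dir a j j' : ℕ} (h : Same P dir a j j') :
    Same P dir a j' j := by
  intro t h1 h2
  exact h t (by omega) (by omega)

theorem same_trans {P : ℕ → ℕ → Prop} {dir a j j' j'' : ℕ} (h : Same P dir a j j')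
    (h' : Same P dir a j' j'') : Same P dir a j j'' := by
  intro t h1 h2
  by_cases h3 : min j j' ≤ t ∧ t ≤ max j j'
  · exact h t h3.1 h3.2
  · exact h' t (by omega) (by omega)

theorem same_left {P : ℕ → ℕ → Prop} {dir a j j' : ℕ} (h : Same P dir a j j') :
    Edge P dir a j := h j (by omega) (by omega)

theorem same_right {P : ℕ → ℕ → Prop} {dir a j j' : ℕ} (h : Same P dir a j j') :
    Edge P dir a j' := h j' (by omega) (by omega)

theorem same_refl {P : ℕ → ℕ → Prop} {dir a j : ℕ} (h : Edge P dir a j) :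
    Same P dir a j j := by
  intro t h1 h2
  have : t = j := by omega
  rwa [this]

theorem same_op {P : ℕ → ℕ → Prop} {dir a j j' : ℕ} (h : dir < 4) :
    Same P (op dir) a j j' ↔ Same P dir a j j' := by
  unfold Same
  simp only [edge_op h]

theorem pos_of_same {P : ℕ → ℕ → Prop} {R : IRect} (hv : Valid P R) {d j j' : ℕ} (hd : d < 4)
    (hp : R.pos d j) (hs : Same P d (R.line d) j j') : R.pos d j' := by
  obtain ⟨hab, hcd, -, hac, had, hbc, hbd⟩ := hv
  have : d = 0 ∨ d = 1 ∨ d = 2 ∨ d = 3 := by omega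
  rcases this with rfl | rfl | rfl | rfl
  · simp only [IRect.pos, IRect.line, Same, Edge, near, far, Ipt] at *
    simp at *
    by_contra hcon
    have : j' ≤ R.c ∨ R.d < j' := by omega
    rcases this with h | h
    · exact hbc (hs R.c (by omega) (by omega)).1 (hs R.c (by omega) (by omega)).2
        (hs (R.c + 1) (by omega) (by omega)).1 (hs (R.c + 1) (by omega) (by omega)).2
    · exact hbd (hs R.d (by omega) (by omega)).1 (hs R.d (by omega) (by omega)).2
        (hs (R.d + 1) (by omega) (by omega)).1 (hs (R.d + 1) (by omega) (by omega)).2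
  · simp only [IRect.pos, IRect.line, Same, Edge, near, far, Ipt] at *
    simp at *
    by_contra hcon
    have : j' ≤ R.c ∨ R.d < j' := by omega
    rcases this with h | h
    · exact hac (hs R.c (by omega) (by omega)).2 (hs R.c (by omega) (by omega)).1
        (hs (R.c + 1) (by omega) (by omega)).2 (hs (R.c + 1) (by omega) (by omega)).1
    · exact had (hs R.d (by omega) (by omega)).2 (hs R.d (by omega) (by omega)).1
        (hs (R.d + 1) (by omega) (by omega)).2 (hs (R.d + 1) (by omega) (by omega)).1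
  · simp only [IRect.pos, IRect.line, Same, Edge, near, far, Ipt] at *
    simp at *
    by_contra hcon
    have : j' ≤ R.a ∨ R.b < j' := by omega
    rcases this with h | h
    · exact had (hs R.a (by omega) (by omega)).1 (hs (R.a + 1) (by omega) (by omega)).1
        (hs R.a (by omega) (by omega)).2 (hs (R.a + 1) (by omega) (by omega)).2
    · exact hbd (hs R.b (by omega) (by omega)).1 (hs (R.b + 1) (by omega) (by omega)).1
        (hs R.b (by omega) (by omega)).2 (hs (R.b + 1) (by omega) (by omega)).2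
  · simp only [IRect.pos, IRect.line, Same, Edge, near, far, Ipt] at *
    simp at *
    by_contra hcon
    have : j' ≤ R.a ∨ R.b < j' := by omega
    rcases this with h | h
    · exact hac (hs R.a (by omega) (by omega)).2 (hs (R.a + 1) (by omega) (by omega)).2
        (hs R.a (by omega) (by omega)).1 (hs (R.a + 1) (by omega) (by omega)).1
    · exact hbc (hs R.b (by omega) (by omega)).2 (hs (R.b + 1) (by omega) (by omega)).2
        (hs R.b (by omega) (by omega)).1 (hs (R.b + 1) (by omega) (by omega)).1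

/-- The same for the side through which the rectangle is entered. -/
theorem pos_of_same' {P : ℕ → ℕ → Prop} {R : IRect} (hv : Valid P R) {dir j j' : ℕ}
    (hd : dir < 4) (hp : R.pos dir j) (hs : Same P dir (R.line (op dir)) j j') : R.pos dir j' := by
  rw [← pos_op hd]
  exact pos_of_same hv (op_lt hd) ((pos_op hd).2 hp) ((same_op hd).2 hs)

theorem bef_line {P : ℕ → ℕ → Prop} {R : IRect} (hv : Valid P R) {dir : ℕ} (hd : dir < 4) :
    Bef dir (R.line (op dir)) (R.line dir) := by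
  have h1 := hv.ab
  have h2 := hv.cd
  have : dir = 0 ∨ dir = 1 ∨ dir = 2 ∨ dir = 3 := by omega
  rcases this with rfl | rfl | rfl | rfl <;> simp [Bef, op, IRect.line] <;> omega

theorem edge_between {P : ℕ → ℕ → Prop} {R : IRect} (hv : Valid P R) {dir l j : ℕ}
    (hd : dir < 4) (hp : R.pos dir j) (h1 : Bef dir (R.line (op dir)) l)
    (h2 : Bef dir l (R.line dir)) : Edge P dir l j := by
  have hsub := hv.sub
  have : dir = 0 ∨ dir = 1 ∨ dir = 2 ∨ dir = 3 := by omega
  rcases this with rfl | rfl | rfl | rfl <;>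
    simp [Bef, op, IRect.line, IRect.pos, Edge, near, far, IRect.mem] at * <;>
    exact ⟨hsub _ _ (by omega) (by omega) (by omega) (by omega),
      hsub _ _ (by omega) (by omega) (by omega) (by omega)⟩

/-! ### Monotonicity in the height -/

theorem feasN_mono_succ {P : ℕ → ℕ → Prop} {k : ℕ} : ∀ (h dir a j : ℕ) (f : ℕ → ℕ),
    FeasN P k h dir a j f → FeasN P k (h + 1) dir a j f
  | 0, _, _, _, _, hf => hf.elim
  | h + 1, dir, a, j, f, hf => by
    obtain ⟨he, R, F, L, hv, hl, hp, h1, h2, h3, h4, h5⟩ := hf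
    exact ⟨he, R, F, L, hv, hl, hp, fun d hd j' hp' he' hx =>
      ⟨feasN_mono_succ h _ _ _ _ (h1 d hd j' hp' he' hx).1, (h1 d hd j' hp' he' hx).2⟩,
      h2, h3, h4, h5⟩

theorem feasN_mono {P : ℕ → ℕ → Prop} {k h h' dir a j : ℕ} {f : ℕ → ℕ} (hh : h ≤ h')
    (hf : FeasN P k h dir a j f) : FeasN P k h' dir a j f := by
  induction hh with
  | refl => exact hf
  | step _ ih => exact feasN_mono_succ _ _ _ _ _ ih

theorem ex_iff {P : ℕ → ℕ → Prop} {dir a j j₁ d x : ℕ} (hs : Same P dir a j j₁) :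
    Ex P dir a j₁ d x ↔ Ex P dir a j d x :=
  ⟨fun h => ⟨h.1, same_trans hs h.2⟩, fun h => ⟨h.1, same_trans (same_symm hs) h.2⟩⟩

theorem feasN_same {P : ℕ → ℕ → Prop} {k h dir a j j₁ : ℕ} {f : ℕ → ℕ} (hd : dir < 4)
    (hs : Same P dir a j j₁) (hf : FeasN P k h dir a j f) : FeasN P k h dir a j₁ f := by
  cases h with
  | zero => exact hf.elim
  | succ h =>
    obtain ⟨he, R, F, L, hv, hl, hp, h1, h2, h3, h4, h5⟩ := hf
    refine ⟨same_right hs, R, F, L, hv, hl, pos_of_same' hv hd hp (hl ▸ hs), ?_, ?_, h3, h4, ?_⟩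
    · intro d hd' j' hp' he' hx
      exact h1 d hd' j' hp' he' (fun h => hx ((ex_iff hs).2 h))
    · intro d hd' j' hp' hx
      exact h2 d hd' j' hp' (fun h => hx ⟨h.1, fun h' => h.2 ((ex_iff hs).1 h')⟩)
    · intro j' hj'
      exact h5 j' (same_trans hs hj')

theorem feas_same {P : ℕ → ℕ → Prop} {k dir a j j₁ : ℕ} {f : ℕ → ℕ} (hd : dir < 4)
    (hs : Same P dir a j j₁) (hf : Feas P k dir a j f) : Feas P k dir a j₁ f := by
  obtain ⟨h, hf⟩ := hf
  exact ⟨h, feasN_same hd hs hf⟩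

theorem feas_edge {P : ℕ → ℕ → Prop} {k dir a j : ℕ} {f : ℕ → ℕ}
    (hf : Feas P k dir a j f) : Edge P dir a j := by
  obtain ⟨h, hf⟩ := hf
  cases h with
  | zero => exact hf.elim
  | succ h => exact hf.1

theorem condL_mono {k : ℕ} {R : IRect} {L L' : ℕ → ℕ → ℕ}
    (h : ∀ d < 4, ∀ j, R.pos d j → L' d j ≤ L d j) (hc : CondL k R L) : CondL k R L' := by
  refine ⟨fun j hj => ?_, fun j hj => ?_⟩
  · have h0 := h 0 (by omega) j hj
    have h1 := h 1 (by omega) j hj
    have := hc.1 j hj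
    omega
  · have h0 := h 2 (by omega) j hj
    have h1 := h 3 (by omega) j hj
    have := hc.2 j hj
    omega

theorem pos_le {R : IRect} {d j : ℕ} (h : R.pos d j) : j ≤ R.b + R.d := by
  unfold IRect.pos at h
  split_ifs at h <;> omega

/-- Uniform height for boundedly many trees. -/
theorem uniform {P : ℕ → ℕ → Prop} {k : ℕ} (B : ℕ) (A : ℕ → ℕ) (Q : ℕ → ℕ → Prop)
    (F : ℕ → ℕ → ℕ → ℕ)
    (h : ∀ d < 4, ∀ j ≤ B, Q d j → Feas P k d (A d) j (F d j)) :
    ∃ H, ∀ d < 4, ∀ j ≤ B, Q d j → FeasN P k H d (A d) j (F d j) := by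
  classical
  choose! g hg using h
  refine ⟨(Finset.range 4 ×ˢ Finset.range (B + 1)).sup (fun p => g p.1 p.2), ?_⟩
  intro d hd j hj hq
  refine feasN_mono ?_ (hg d hd j hj hq)
  exact Finset.le_sup (f := fun p : ℕ × ℕ => g p.1 p.2) (b := (d, j))
    (by simp only [Finset.mem_product, Finset.mem_range]; omega)

theorem feas_intro {P : ℕ → ℕ → Prop} {k dir a j : ℕ} {f : ℕ → ℕ} (he : Edge P dir a j)
    (R : IRect) (F : ℕ → ℕ → ℕ → ℕ) (L : ℕ → ℕ → ℕ) (hv : Valid P R)
    (hl : R.line (op dir) = a) (hp : R.pos dir j)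
    (h1 : ∀ d < 4, ∀ j', R.pos d j' → Edge P d (R.line d) j' → ¬ Ex P dir a j d j' →
        Feas P k d (R.line d) j' (F d j') ∧ L d j' = F d j' j')
    (h2 : ∀ d < 4, ∀ j', R.pos d j' → ¬ (Edge P d (R.line d) j' ∧ ¬ Ex P dir a j d j') →
        L d j' = 0)
    (h3 : ∀ d < 4, ∀ j' j'', Same P d (R.line d) j' j'' → F d j' = F d j'')
    (h4 : CondL k R L) (h5 : ∀ j', Same P dir a j j' → f j' = 1 + L dir j') :
    Feas P k dir a j f := by
  obtain ⟨H, hH⟩ := uniform (P := P) (k := k) (R.b + R.d) R.line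
    (fun d j' => R.pos d j' ∧ Edge P d (R.line d) j' ∧ ¬ Ex P dir a j d j') F
    (fun d hd j' _ hq => (h1 d hd j' hq.1 hq.2.1 hq.2.2).1)
  exact ⟨H + 1, he, R, F, L, hv, hl, hp, fun d hd j' hp' he' hx =>
    ⟨hH d hd j' (pos_le hp') ⟨hp', he', hx⟩, (h1 d hd j' hp' he' hx).2⟩, h2, h3, h4, h5⟩

/-! ### The spine -/

open Classical in
/-- The data of the spine lemma. -/
def Spine (P : ℕ → ℕ → Prop) (k h dir a j : ℕ) (f : ℕ → ℕ) (lo hi w m : ℕ)
    (F : ℕ → ℕ → ℕ) : Prop :=
  Bef dir a w ∧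
  (∀ l, Bef dir a l → Bef dir l w → ∀ j', lo ≤ j' → j' ≤ hi → Edge P dir l j') ∧
  (∃ j', lo ≤ j' ∧ j' ≤ hi ∧ ¬ Edge P dir w j') ∧
  (∀ j', lo ≤ j' → j' ≤ hi → Edge P dir w j' → FeasN P k h dir w j' (F j')) ∧
  (∀ j' j'', Same P dir w j' j'' → F j' = F j'') ∧
  (∀ j', lo ≤ j' → j' ≤ hi → f j' = 1 + m + (if Edge P dir w j' then F j' j' else 0)) ∧
  (∀ F' : ℕ → ℕ → ℕ, (∀ j' j'', Same P dir w j' j'' → F' j' = F' j'') →
    (∀ j', lo ≤ j' → j' ≤ hi → Edge P dir w j' → Feas P k dir w j' (F' j') ∧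
      ∀ j'', Same P dir w j' j'' → F' j' j'' ≤ F j' j'') →
    ∃ f', Feas P k dir a j f' ∧ (∀ j', Same P dir a j j' → f' j' ≤ f j') ∧
      (∀ j', lo ≤ j' → j' ≤ hi → f' j' ≤ 1 + m + (if Edge P dir w j' then F' j' j' else 0)))

theorem spine_mono {P : ℕ → ℕ → Prop} {k h dir a j lo hi w m : ℕ} {f : ℕ → ℕ} {F : ℕ → ℕ → ℕ}
    (hs : Spine P k h dir a j f lo hi w m F) : Spine P k (h + 1) dir a j f lo hi w m F := by
  obtain ⟨h1, h2, h3, h4, h5⟩ := hs
  exact ⟨h1, h2, h3, fun j' hj1 hj2 he => feasN_mono_succ _ _ _ _ _ (h4 j' hj1 hj2 he), h5⟩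

theorem same_of_all {P : ℕ → ℕ → Prop} {dir b j j' lo hi : ℕ}
    (h : ∀ x, lo ≤ x → x ≤ hi → Edge P dir b x) (h1 : lo ≤ j) (h2 : j ≤ hi) (h3 : lo ≤ j')
    (h4 : j' ≤ hi) : Same P dir b j j' := fun t h5 h6 => h t (by omega) (by omega)

theorem spineStep {P : ℕ → ℕ → Prop} {k : ℕ} (h : ℕ)
    (ih : ∀ (dir a j : ℕ) (f : ℕ → ℕ) (lo hi : ℕ), dir < 4 →
      lo ≤ j → j ≤ hi → (∀ j', lo ≤ j' → j' ≤ hi → Edge P dir a j') →
      FeasN P k h dir a j f → ∃ w m F, Spine P k h dir a j f lo hi w m F) :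
    ∀ (dir a j : ℕ) (f : ℕ → ℕ) (lo hi : ℕ), dir < 4 →
    lo ≤ j → j ≤ hi → (∀ j', lo ≤ j' → j' ≤ hi → Edge P dir a j') →
    FeasN P k (h + 1) dir a j f → ∃ w m F, Spine P k h dir a j f lo hi w m F := by
  classical
  intro dir a j f lo hi hd hlo hhi hJ hf
  obtain ⟨he, R, F₀, L₀, hv, hl, hp, h1, h2, h3, h4, h5⟩ := hf
  have hJs : ∀ j', lo ≤ j' → j' ≤ hi → Same P dir a j j' := fun j' hj1 hj2 =>
    same_of_all hJ hlo hhi hj1 hj2
  have hpos : ∀ j', Same P dir a j j' → R.pos dir j' := fun j' hs =>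
    pos_of_same' hv hd hp (hl.symm ▸ hs)
  have hnex : ∀ j', ¬ Ex P dir a j dir j' := fun j' hx => op_ne hd hx.1
  set b := R.line dir with hb
  have hab : Bef dir a b := hl ▸ bef_line hv hd
  have hbetw : ∀ l, Bef dir a l → Bef dir l b → ∀ j', lo ≤ j' → j' ≤ hi → Edge P dir l j' :=
    fun l hl1 hl2 j' hj1 hj2 =>
      edge_between hv hd (hpos j' (hJs j' hj1 hj2)) (by rw [hl]; exact hl1) hl2
  -- the loads on the far side
  have hL : ∀ j', R.pos dir j' → Edge P dir b j' → FeasN P k h dir b j' (F₀ dir j') ∧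
      L₀ dir j' = F₀ dir j' j' := fun j' hj he' => h1 dir hd j' hj he' (hnex j')
  -- general replacement
  have hrep : ∀ (C : ℕ → Prop) (G : ℕ → ℕ → ℕ), (∀ j', C j' → Edge P dir b j') →
      (∀ j' j'', Same P dir b j' j'' → C j' → C j'') →
      (∀ j' j'', Same P dir b j' j'' → C j' → G j' = G j'') →
      (∀ j', C j' → R.pos dir j' → Feas P k dir b j' (G j') ∧ G j' j' ≤ F₀ dir j' j') →
      Feas P k dir a j (fun j' => 1 + (if C j' then G j' j' else L₀ dir j')) := by
    intro C G hCe hCs hGs hG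
    refine feas_intro he R (fun d j' => if d = dir ∧ C j' then G j' else F₀ d j')
      (fun d j' => if d = dir ∧ C j' then G j' j' else L₀ d j') hv hl hp ?_ ?_ ?_ ?_ ?_
    · intro d hd' j' hp' he' hx
      by_cases hc : d = dir ∧ C j'
      · obtain ⟨rfl, hc⟩ := hc
        simp only [hc, and_self, if_true]
        exact ⟨(hG j' hc hp').1, trivial⟩
      · simp only [hc, if_false]
        exact ⟨⟨h, (h1 d hd' j' hp' he' hx).1⟩, (h1 d hd' j' hp' he' hx).2⟩
    · intro d hd' j' hp' hx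
      by_cases hc : d = dir ∧ C j'
      · obtain ⟨rfl, hc⟩ := hc
        exact absurd ⟨hCe j' hc, hnex j'⟩ hx
      · simp only [hc, if_false]
        exact h2 d hd' j' hp' hx
    · intro d hd' j' j'' hs
      by_cases hdd : d = dir
      · subst hdd
        by_cases hc : C j'
        · have hc' := hCs j' j'' hs hc
          simp only [hc, hc', and_self, if_true]
          exact hGs j' j'' hs hc
        · have hc' : ¬ C j'' := fun hc' => hc (hCs j'' j' (same_symm hs) hc')
          simp only [hc, hc', and_false, if_false]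
          exact h3 d hd' j' j'' hs
      · simp only [hdd, false_and, if_false]
        exact h3 d hd' j' j'' hs
    · refine condL_mono (fun d hd' j' hp' => ?_) h4
      by_cases hc : d = dir ∧ C j'
      · obtain ⟨rfl, hc⟩ := hc
        simp only [hc, and_self, if_true]
        rw [(hL j' hp' (hCe j' hc)).2]
        exact (hG j' hc hp').2
      · simp only [hc, if_false]
        exact le_refl _
    · intro j' _
      simp
  by_cases hcase : ∃ j', lo ≤ j' ∧ j' ≤ hi ∧ ¬ Edge P dir b j'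
  · -- the line `b` is the first line that is not full
    refine ⟨b, 0, F₀ dir, hab, hbetw, hcase, ?_, ?_, ?_, ?_⟩
    · intro j' hj1 hj2 he'
      exact (hL j' (hpos j' (hJs j' hj1 hj2)) he').1
    · intro j' j'' hs
      exact h3 dir hd j' j'' hs
    · intro j' hj1 hj2
      rw [h5 j' (hJs j' hj1 hj2)]
      split_ifs with he'
      · rw [(hL j' (hpos j' (hJs j' hj1 hj2)) he').2]
      · rw [h2 dir hd j' (hpos j' (hJs j' hj1 hj2)) (fun hx => he' hx.1)]
    · intro F' hF' hFeas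
      let C : ℕ → Prop := fun j' => ∃ x, lo ≤ x ∧ x ≤ hi ∧ Edge P dir b x ∧ Same P dir b x j'
      have hG : ∀ j', C j' → Feas P k dir b j' (F' j') ∧ F' j' j' ≤ F₀ dir j' j' := by
        rintro j' ⟨x, hx1, hx2, hx3, hx4⟩
        have := hFeas x hx1 hx2 hx3
        have hxF := h3 dir hd x j' hx4
        rw [← hF' x j' hx4, ← hxF]
        exact ⟨feas_same hd hx4 this.1, this.2 j' hx4⟩
      refine ⟨_, hrep C F' ?_ ?_ ?_ (fun j' hc _ => hG j' hc), ?_, ?_⟩
      · rintro j' ⟨x, hx1, hx2, hx3, hx4⟩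
        exact same_right hx4
      · rintro j' j'' hs ⟨x, hx1, hx2, hx3, hx4⟩
        exact ⟨x, hx1, hx2, hx3, same_trans hx4 hs⟩
      · intro j' j'' hs _
        exact hF' j' j'' hs
      · intro j' hs
        rw [h5 j' hs]
        by_cases hc : C j'
        · have h6 := (hG j' hc).2
          obtain ⟨x, hx1, hx2, hx3, hx4⟩ := hc
          have h7 := (hL j' (hpos j' hs) (same_right hx4)).2
          have hc : C j' := ⟨x, hx1, hx2, hx3, hx4⟩
          simp only [hc, if_true]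
          omega
        · simp only [hc, if_false]
          exact le_refl _
      · intro j' hj1 hj2
        by_cases he' : Edge P dir b j'
        · have hc : C j' := ⟨j', hj1, hj2, he', same_refl he'⟩
          simp only [hc, he', if_true]
          omega
        · have hc : ¬ C j' := by
            rintro ⟨x, hx1, hx2, hx3, hx4⟩
            exact he' (same_right hx4)
          simp only [hc, he', if_false]
          rw [h2 dir hd j' (hpos j' (hJs j' hj1 hj2)) (fun hx => he' hx.1)]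
  · -- the line `b` is full
    push Not at hcase
    have hbs : ∀ j', lo ≤ j' → j' ≤ hi → Same P dir b j j' := fun j' hj1 hj2 =>
      same_of_all hcase hlo hhi hj1 hj2
    obtain ⟨w, m, F, hw1, hw2, hw3, hw4, hw5, hw6, hw7⟩ :=
      ih dir b j (F₀ dir j) lo hi hd hlo hhi hcase (hL j hp (hcase j hlo hhi)).1
    refine ⟨w, m + 1, F, bef_trans hab hw1, ?_, hw3, hw4, hw5, ?_, ?_⟩
    · intro l hl1 hl2 j' hj1 hj2
      rcases bef_tri dir l b with h6 | h6 | h6
      · exact hbetw l hl1 h6 j' hj1 hj2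
      · rw [h6]
        exact hcase j' hj1 hj2
      · exact hw2 l h6 hl2 j' hj1 hj2
    · intro j' hj1 hj2
      have h6 := hw6 j' hj1 hj2
      have h7 := hL j' (hpos j' (hJs j' hj1 hj2)) (hcase j' hj1 hj2)
      have h8 := h3 dir hd j j' (hbs j' hj1 hj2)
      rw [h5 j' (hJs j' hj1 hj2), h7.2, ← h8, h6]
      omega
    · intro F' hF' hFeas
      obtain ⟨f'', hf1, hf2, hf3⟩ := hw7 F' hF' hFeas
      refine ⟨_, hrep (fun j' => Same P dir b j j') (fun _ => f'') ?_ ?_ ?_ ?_, ?_, ?_⟩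
      · intro j' hs
        exact same_right hs
      · intro j' j'' hs hc
        exact same_trans hc hs
      · intro j' j'' _ _
        rfl
      · intro j' hs _
        refine ⟨feas_same hd hs hf1, ?_⟩
        rw [← h3 dir hd j j' hs]
        exact hf2 j' hs
      · intro j' hs
        rw [h5 j' hs]
        by_cases hc : Same P dir b j j'
        · have h6 := hf2 j' hc
          have h7 := (hL j' (hpos j' hs) (same_right hc)).2
          have h8 := h3 dir hd j j' hc
          simp only [hc, if_true]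
          rw [h7, ← h8]
          omega
        · simp only [hc, if_false]
          exact le_refl _
      · intro j' hj1 hj2
        have h6 := hf3 j' hj1 hj2
        have hc := hbs j' hj1 hj2
        simp only [hc, if_true]
        omega

theorem spine {P : ℕ → ℕ → Prop} {k : ℕ} : ∀ (h dir a j : ℕ) (f : ℕ → ℕ) (lo hi : ℕ), dir < 4 →
    lo ≤ j → j ≤ hi → (∀ j', lo ≤ j' → j' ≤ hi → Edge P dir a j') →
    FeasN P k (h + 1) dir a j f → ∃ w m F, Spine P k h dir a j f lo hi w m F := by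
  intro h
  induction h with
  | zero => exact spineStep 0 (fun dir a j f _ _ _ _ _ _ hf => hf.elim)
  | succ h ih =>
    refine spineStep (h + 1) (fun dir a j f lo hi hd hlo hhi hJ hf => ?_)
    obtain ⟨w, m, F, hs⟩ := ih dir a j f lo hi hd hlo hhi hJ hf
    exact ⟨w, m, F, spine_mono hs⟩

/-! ### The whole chord -/

theorem edge_bound {P : ℕ → ℕ → Prop} {N : ℕ} (hS : Supp P N) {dir a j : ℕ}
    (h : Edge P dir a j) : j ≤ N := by
  obtain ⟨h1, -⟩ := h
  unfold near at h1
  split_ifs at h1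
  · exact (hS _ _ h1).2.2.2
  · exact (hS _ _ h1).2.2.2
  · exact (hS _ _ h1).2.1
  · exact (hS _ _ h1).2.1

theorem chord {P : ℕ → ℕ → Prop} {N : ℕ} (hS : Supp P N) {dir a j : ℕ}
    (h : Edge P dir a j) : ∃ lo hi, lo ≤ j ∧ j ≤ hi ∧
      (∀ j', Same P dir a j j' ↔ lo ≤ j' ∧ j' ≤ hi) := by
  classical
  have hj : Same P dir a j j := same_refl h
  have hex : ∃ x, Same P dir a j x := ⟨j, hj⟩
  refine ⟨Nat.find hex, Nat.findGreatest (fun x => Same P dir a j x) N, Nat.find_min' hex hj,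
    Nat.le_findGreatest (edge_bound hS h) hj, fun j' => ⟨fun hs => ⟨Nat.find_min' hex hs,
      Nat.le_findGreatest (edge_bound hS (same_right hs)) hs⟩, fun hs => ?_⟩⟩
  have h1 : Same P dir a j (Nat.find hex) := Nat.find_spec hex
  have h2 : Same P dir a j (Nat.findGreatest (fun x => Same P dir a j x) N) :=
    Nat.findGreatest_spec (P := fun x => Same P dir a j x) (edge_bound hS h) hj
  have h3 := Nat.find_min' hex hj
  have h4 : j ≤ Nat.findGreatest (fun x => Same P dir a j x) N :=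
    Nat.le_findGreatest (edge_bound hS h) hj
  intro t ht1 ht2
  rcases le_total t j with h5 | h5
  · exact h1 t (by omega) (by omega)
  · exact h2 t (by omega) (by omega)

/-- One replacement, in either tree. -/
theorem finish {P : ℕ → ℕ → Prop} {k h dir a j : ℕ} {f g : ℕ → ℕ} {lo hi w m m' : ℕ}
    {F F' G : ℕ → ℕ → ℕ} (hch : ∀ j', Same P dir a j j' ↔ lo ≤ j' ∧ j' ≤ hi)
    (hs : Spine P k h dir a j f lo hi w m F) (hm : m ≤ m')
    (hF' : ∀ j' j'', Same P dir w j' j'' → F' j' = F' j'')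
    (hFeas : ∀ j', lo ≤ j' → j' ≤ hi → Edge P dir w j' → Feas P k dir w j' (F' j') ∧
      ∀ j'', Same P dir w j' j'' → F' j' j'' ≤ F j' j'' ∧ F' j' j'' ≤ G j' j'')
    (hg : ∀ j', lo ≤ j' → j' ≤ hi → ∀ [Decidable (Edge P dir w j')],
      g j' = 1 + m' + (if Edge P dir w j' then G j' j' else 0)) :
    ∃ f', Feas P k dir a j f' ∧ ∀ j', Same P dir a j j' → f' j' ≤ f j' ∧ f' j' ≤ g j' := by
  classical
  obtain ⟨-, -, -, -, -, -, hrep⟩ := hs
  obtain ⟨f', h1, h2, h3⟩ := hrep F' hF' (fun j' hj1 hj2 he =>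
    ⟨(hFeas j' hj1 hj2 he).1, fun j'' hs' => ((hFeas j' hj1 hj2 he).2 j'' hs').1⟩)
  refine ⟨f', h1, fun j' hs' => ⟨h2 j' hs', ?_⟩⟩
  obtain ⟨hj1, hj2⟩ := (hch j').1 hs'
  have h4 := h3 j' hj1 hj2
  have h5 := hg j' hj1 hj2
  by_cases he : Edge P dir w j'
  · have h6 := ((hFeas j' hj1 hj2 he).2 j' (same_refl he)).2
    simp only [he, if_true] at h4 h5
    omega
  · simp only [he, if_false] at h4 h5
    omega

theorem key {P : ℕ → ℕ → Prop} {N k : ℕ} (hS : Supp P N) : ∀ (h dir a j : ℕ) (f₁ f₂ : ℕ → ℕ),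
    dir < 4 → FeasN P k h dir a j f₁ → Feas P k dir a j f₂ →
    ∃ f, Feas P k dir a j f ∧ ∀ j', Same P dir a j j' → f j' ≤ f₁ j' ∧ f j' ≤ f₂ j' := by
  classical
  intro h
  induction h with
  | zero =>
    intro dir a j f₁ f₂ _ h1 _
    exact h1.elim
  | succ h ih =>
    intro dir a j f₁ f₂ hd h1 h2
    obtain ⟨h', h2⟩ := h2
    cases h' with
    | zero => exact h2.elim
    | succ h' =>
    obtain ⟨lo, hi, hlo, hhi, hch⟩ := chord hS h1.1
    have hJ : ∀ j', lo ≤ j' → j' ≤ hi → Edge P dir a j' := fun j' hj1 hj2 =>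
      same_right ((hch j').2 ⟨hj1, hj2⟩)
    obtain ⟨w, m₁, F₁, hs1⟩ := spine h dir a j f₁ lo hi hd hlo hhi hJ h1
    obtain ⟨w', m₂, F₂, hs2⟩ := spine h' dir a j f₂ lo hi hd hlo hhi hJ h2
    have hww : w = w' := by
      obtain ⟨ha1, hb1, ⟨x1, hx1, hx1', hx1''⟩, -⟩ := hs1
      obtain ⟨ha2, hb2, ⟨x2, hx2, hx2', hx2''⟩, -⟩ := hs2
      rcases bef_tri dir w w' with h6 | h6 | h6
      · exact absurd (hb2 w ha1 h6 x1 hx1 hx1') hx1''
      · exact h6
      · exact absurd (hb1 w' ha2 h6 x2 hx2 hx2') hx2''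
    subst hww
    let Q : ℕ → (ℕ → ℕ) → Prop := fun j' g => Feas P k dir w j' g ∧
      ∀ x, Same P dir w j' x → g x ≤ F₁ j' x ∧ g x ≤ F₂ j' x
    have hconst1 := hs1.2.2.2.2.1
    have hconst2 := hs2.2.2.2.2.1
    have hQ : ∀ j' j'', Same P dir w j' j'' → Q j' = Q j'' := by
      intro j' j'' hs
      funext g
      apply propext
      constructor
      · rintro ⟨h3, h4⟩
        refine ⟨feas_same hd hs h3, fun x hx => ?_⟩
        rw [← hconst1 j' j'' hs, ← hconst2 j' j'' hs]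
        exact h4 x (same_trans hs hx)
      · rintro ⟨h3, h4⟩
        refine ⟨feas_same hd (same_symm hs) h3, fun x hx => ?_⟩
        rw [hconst1 j' j'' hs, hconst2 j' j'' hs]
        exact h4 x (same_trans (same_symm hs) hx)
    have hQex : ∀ j', lo ≤ j' → j' ≤ hi → Edge P dir w j' → ∃ g, Q j' g := by
      intro j' hj1 hj2 he
      exact ih dir w j' (F₁ j') (F₂ j') hd (hs1.2.2.2.1 j' hj1 hj2 he)
        ⟨h', hs2.2.2.2.1 j' hj1 hj2 he⟩
    let F' : ℕ → ℕ → ℕ := fun j' => Classical.epsilon (Q j')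
    have hF' : ∀ j' j'', Same P dir w j' j'' → F' j' = F' j'' := by
      intro j' j'' hs
      show Classical.epsilon (Q j') = Classical.epsilon (Q j'')
      rw [hQ j' j'' hs]
    have hF'Q : ∀ j', lo ≤ j' → j' ≤ hi → Edge P dir w j' → Q j' (F' j') := fun j' hj1 hj2 he =>
      Classical.epsilon_spec (hQex j' hj1 hj2 he)
    rcases le_total m₁ m₂ with hm | hm
    · exact finish (g := f₂) (G := F₂) hch hs1 hm hF' (fun j' hj1 hj2 he => hF'Q j' hj1 hj2 he)
        (fun j' hj1 hj2 _ => by rw [hs2.2.2.2.2.2.1 j' hj1 hj2]; congr)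
    · obtain ⟨f', h6, h7⟩ := finish (g := f₁) (G := F₁) hch hs2 hm hF' (fun j' hj1 hj2 he =>
          ⟨(hF'Q j' hj1 hj2 he).1, fun x hx => ((hF'Q j' hj1 hj2 he).2 x hx).symm⟩)
        (fun j' hj1 hj2 _ => by rw [hs1.2.2.2.2.2.1 j' hj1 hj2]; congr)
      exact ⟨f', h6, fun j' hs => (h7 j' hs).symm⟩

end KeyB1

/-- Job B1. -/
theorem targetKey : TargetKey := by
  intro P N k dir a j f₁ f₂ hS hd h1 h2
  obtain ⟨h, h1⟩ := h1
  exact KeyB1.key hS h dir a j f₁ f₂ hd h1 h2

end Pool.Agent.CSN
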