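import Pool.Agent.CSN.GridPar

/-!
# The interior in terms of the cells of the index grid (CSN-C1)
-/

set_option autoImplicit false

namespace Pool.Agent.CSN

variable {V : List (ℤ × ℤ)} {L : ℕ} {w : ℕ → ℤ × ℤ} {X Y : List ℤ}

theorem local_iff (h : UnitPath V L w) (hg : IsGrid V X Y) (i j : ℕ) (x y : ℝ)
    (hi : i + 2 < X.length) (hj : j + 2 < Y.length)
    (hx1 : (X.getD (i + 1) 0 : ℝ) ≤ x) (hx2 : x < (X.getD (i + 2) 0 : ℝ))
    (hy1 : (Y.getD (j + 1) 0 : ℝ) ≤ y) (hy2 : y < (Y.getD (j + 2) 0 : ℝ)) :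
    (Odd' V (x, y) ↔ cell V X Y (i + 1) (j + 1) = true ∧
      (x = (X.getD (i + 1) 0 : ℝ) → cell V X Y i (j + 1) = true) ∧
      (y = (Y.getD (j + 1) 0 : ℝ) → cell V X Y (i + 1) j = true) ∧
      (x = (X.getD (i + 1) 0 : ℝ) → y = (Y.getD (j + 1) 0 : ℝ) → cell V X Y i j = true)) := by
  have sX : X.getD i 0 < X.getD (i + 1) 0 := getD_lt hg.sx (by omega) (by omega)
  have sY : Y.getD j 0 < Y.getD (j + 1) 0 := getD_lt hg.sy (by omega) (by omega)
  have fx1 : X.getD (i + 1) 0 ≤ ⌊x⌋ := Int.le_floor.mpr hx1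
  have fx2 : ⌊x⌋ < X.getD (i + 1 + 1) 0 := Int.floor_lt.mpr hx2
  have fy1 : Y.getD (j + 1) 0 ≤ ⌊y⌋ := Int.le_floor.mpr hy1
  have fy2 : ⌊y⌋ < Y.getD (j + 1 + 1) 0 := Int.floor_lt.mpr hy2
  have c11 : par V ⌊x⌋ ⌊y⌋ = cell V X Y (i + 1) (j + 1) :=
    h.par_cell hg (by omega) (by omega) fx1 fx2 fy1 fy2
  rw [h.odd_iff (x, y) ⌊x⌋ ⌊y⌋ rfl rfl, c11]
  -- the cells left, below
  have c01 : x = (X.getD (i + 1) 0 : ℝ) → ⌊x⌋ = X.getD (i + 1) 0 ∧
      par V (⌊x⌋ - 1) ⌊y⌋ = cell V X Y i (j + 1) := by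
    intro e
    have e' : ⌊x⌋ = X.getD (i + 1) 0 := by rw [e, Int.floor_intCast]
    exact ⟨e', h.par_cell hg (by omega) (by omega) (by omega) (by omega) fy1 fy2⟩
  have c01' : X.getD (i + 1) 0 < ⌊x⌋ → par V (⌊x⌋ - 1) ⌊y⌋ = cell V X Y (i + 1) (j + 1) := by
    intro e
    exact h.par_cell hg (by omega) (by omega) (by omega) (by omega) fy1 fy2
  have c10 : y = (Y.getD (j + 1) 0 : ℝ) → ⌊y⌋ = Y.getD (j + 1) 0 ∧
      par V ⌊x⌋ (⌊y⌋ - 1) = cell V X Y (i + 1) j := by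
    intro e
    have e' : ⌊y⌋ = Y.getD (j + 1) 0 := by rw [e, Int.floor_intCast]
    exact ⟨e', h.par_cell hg (by omega) (by omega) fx1 fx2 (by omega) (by omega)⟩
  have c10' : Y.getD (j + 1) 0 < ⌊y⌋ → par V ⌊x⌋ (⌊y⌋ - 1) = cell V X Y (i + 1) (j + 1) := by
    intro e
    exact h.par_cell hg (by omega) (by omega) fx1 fx2 (by omega) (by omega)
  have c00 : x = (X.getD (i + 1) 0 : ℝ) → y = (Y.getD (j + 1) 0 : ℝ) →
      par V (⌊x⌋ - 1) (⌊y⌋ - 1) = cell V X Y i j := by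
    intro e f
    have e' : ⌊x⌋ = X.getD (i + 1) 0 := by rw [e, Int.floor_intCast]
    have f' : ⌊y⌋ = Y.getD (j + 1) 0 := by rw [f, Int.floor_intCast]
    exact h.par_cell hg (by omega) (by omega) (by omega) (by omega) (by omega) (by omega)
  have c00a : x = (X.getD (i + 1) 0 : ℝ) → Y.getD (j + 1) 0 < ⌊y⌋ →
      par V (⌊x⌋ - 1) (⌊y⌋ - 1) = cell V X Y i (j + 1) := by
    intro e f
    have e' : ⌊x⌋ = X.getD (i + 1) 0 := by rw [e, Int.floor_intCast]
    exact h.par_cell hg (by omega) (by omega) (by omega) (by omega) (by omega) (by omega)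
  have c00b : X.getD (i + 1) 0 < ⌊x⌋ → y = (Y.getD (j + 1) 0 : ℝ) →
      par V (⌊x⌋ - 1) (⌊y⌋ - 1) = cell V X Y (i + 1) j := by
    intro e f
    have f' : ⌊y⌋ = Y.getD (j + 1) 0 := by rw [f, Int.floor_intCast]
    exact h.par_cell hg (by omega) (by omega) (by omega) (by omega) (by omega) (by omega)
  have c00c : X.getD (i + 1) 0 < ⌊x⌋ → Y.getD (j + 1) 0 < ⌊y⌋ →
      par V (⌊x⌋ - 1) (⌊y⌋ - 1) = cell V X Y (i + 1) (j + 1) := by
    intro e f
    exact h.par_cell hg (by omega) (by omega) (by omega) (by omega) (by omega) (by omega)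
  constructor
  · rintro ⟨h1, h2, h3, h4⟩
    refine ⟨h1, fun e => ?_, fun f => ?_, fun e f => ?_⟩
    · obtain ⟨e', e''⟩ := c01 e
      rw [← e'']
      exact h2 (by rw [e', e])
    · obtain ⟨f', f''⟩ := c10 f
      rw [← f'']
      exact h3 (by rw [f', f])
    · rw [← c00 e f]
      exact h4 (by rw [(c01 e).1, e]) (by rw [(c10 f).1, f])
  · rintro ⟨h1, h2, h3, h4⟩
    have dX : X.getD (i + 1) 0 = ⌊x⌋ ∨ X.getD (i + 1) 0 < ⌊x⌋ := by omega
    have dY : Y.getD (j + 1) 0 = ⌊y⌋ ∨ Y.getD (j + 1) 0 < ⌊y⌋ := by omega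
    refine ⟨h1, fun e => ?_, fun f => ?_, fun e f => ?_⟩
    · rcases dX with d | d
      · have e' : x = (X.getD (i + 1) 0 : ℝ) := by rw [d]; exact e
        rw [(c01 e').2]; exact h2 e'
      · rw [c01' d]; exact h1
    · rcases dY with d | d
      · have f' : y = (Y.getD (j + 1) 0 : ℝ) := by rw [d]; exact f
        rw [(c10 f').2]; exact h3 f'
      · rw [c10' d]; exact h1
    · rcases dX with d | d
      · have e' : x = (X.getD (i + 1) 0 : ℝ) := by rw [d]; exact e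
        rcases dY with g | g
        · have f' : y = (Y.getD (j + 1) 0 : ℝ) := by rw [g]; exact f
          rw [c00 e' f']; exact h4 e' f'
        · rw [c00a e' g]; exact h2 e'
      · rcases dY with g | g
        · have f' : y = (Y.getD (j + 1) 0 : ℝ) := by rw [g]; exact f
          rw [c00b d f']; exact h3 f'
        · rw [c00c d g]; exact h1

theorem targetLocal (hU : TargetUnit) : TargetLocal := by
  intro V X Y hV hg
  obtain ⟨L, w, h⟩ := hU V hV
  refine ⟨fun i j x y hi hj a b c d => local_iff h hg i j x y hi hj a b c d, ?_⟩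
  intro x y hodd
  have hp : par V ⌊x⌋ ⌊y⌋ = true := hodd.2
  have a1 : ∃ k, k + 1 < X.length ∧ X.getD (k + 1) 0 ≤ ⌊x⌋ := by
    by_contra hne
    push Not at hne
    have : par V ⌊x⌋ ⌊y⌋ = false := par_out_left (fun p hp => by
      obtain ⟨k, hk, hk'⟩ := mem_tail_getD (hg.mx p hp)
      rw [← hk']; exact hne k hk)
    rw [hp] at this; exact absurd this (by simp)
  have a2 : ∃ k, k + 1 < X.length ∧ ⌊x⌋ < X.getD (k + 1) 0 := by
    by_contra hne
    push Not at hne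
    have : par V ⌊x⌋ ⌊y⌋ = false := h.par_out_right (fun p hp => by
      obtain ⟨k, hk, hk'⟩ := mem_tail_getD (hg.mx p hp)
      rw [← hk']; exact hne k hk)
    rw [hp] at this; exact absurd this (by simp)
  have b1 : ∃ k, k + 1 < Y.length ∧ Y.getD (k + 1) 0 ≤ ⌊y⌋ := by
    by_contra hne
    push Not at hne
    have : par V ⌊x⌋ ⌊y⌋ = false := par_out_low (fun p hp => by
      obtain ⟨k, hk, hk'⟩ := mem_tail_getD (hg.my p hp)
      rw [← hk']; exact hne k hk)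
    rw [hp] at this; exact absurd this (by simp)
  have b2 : ∃ k, k + 1 < Y.length ∧ ⌊y⌋ < Y.getD (k + 1) 0 := by
    by_contra hne
    push Not at hne
    have : par V ⌊x⌋ ⌊y⌋ = false := par_out_high (fun p hp => by
      obtain ⟨k, hk, hk'⟩ := mem_tail_getD (hg.my p hp)
      rw [← hk']; exact hne k hk)
    rw [hp] at this; exact absurd this (by simp)
  obtain ⟨i, hi, i1, i2⟩ := exists_col a1 a2 hg.sx
  obtain ⟨j, hj, j1, j2⟩ := exists_col b1 b2 hg.sy
  exact ⟨i, j, hi, hj, Int.le_floor.mp i1, Int.floor_lt.mp i2, Int.le_floor.mp j1,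
    Int.floor_lt.mp j2⟩

end Pool.Agent.CSN
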