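import Pool.Agent.CSN.Region

/-!
# Trees give partitions (job CSN-B3)
-/

set_option autoImplicit false

namespace Pool.Agent.CSN

variable {P : ℕ → ℕ → Prop} {k : ℕ}

/-- The cell with coordinate `x` on the row (`o = 0`) or column (`o = 1`) number `y`. -/
def cl (o x y : ℕ) : ℕ × ℕ := if o = 0 then (x, y) else (y, x)

/-- The cell is in the region. -/
def Pc (P : ℕ → ℕ → Prop) (u : ℕ × ℕ) : Prop := P u.1 u.2

/-- The members of `F` met by a run. -/
def metRun (F : Set IRect) (o y i₁ i₂ : ℕ) : Set IRect :=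
  {R ∈ F | ∃ x, i₁ < x ∧ x ≤ i₂ ∧ R.memc (cl o x y)}

/-- A good partition of the set of cells `B`. -/
structure Rlz (P : ℕ → ℕ → Prop) (k : ℕ) (B : ℕ × ℕ → Prop) (F : Set IRect) : Prop where
  valid : ∀ R ∈ F, Valid P R
  sub : ∀ R ∈ F, ∀ u, R.memc u → B u
  cover : ∀ u, B u → ∃ R ∈ F, R.memc u
  disj : ∀ R ∈ F, ∀ R' ∈ F, ∀ u, R.memc u → R'.memc u → R = R'
  runs : ∀ o < 2, ∀ y i₁ i₂, (∀ x, i₁ < x → x ≤ i₂ → B (cl o x y)) →
    (metRun F o y i₁ i₂).ncard ≤ k

/-- A good partition of the cells behind a chord, with profile `f`. -/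
structure RlzC (P : ℕ → ℕ → Prop) (k dir a j : ℕ) (f : ℕ → ℕ) (F : Set IRect) : Prop where
  rlz : Rlz P k (Bhd P dir a j) F
  rayE : ∀ o < 2, dir = 2 * o → ∀ j', Same P dir a j j' → ∀ i₂,
    (∀ x, a < x → x ≤ i₂ → Pc P (cl o x j')) → (metRun F o j' a i₂).ncard ≤ f j'
  rayO : ∀ o < 2, dir = 2 * o + 1 → ∀ j', Same P dir a j j' → ∀ i₁,
    (∀ x, i₁ < x → x ≤ a → Pc P (cl o x j')) → (metRun F o j' i₁ a).ncard ≤ f j'

theorem memc_cl {R : IRect} {o x y : ℕ} (ho : o < 2) :
    R.memc (cl o x y) ↔ R.line (2 * o + 1) < x ∧ x ≤ R.line (2 * o) ∧ R.pos (2 * o) y := by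
  unfold IRect.memc IRect.mem cl IRect.line IRect.pos
  interval_cases o <;> simp <;> tauto

theorem near_even {o x y : ℕ} (ho : o < 2) : near (2 * o) x y = cl o x y := by
  unfold near cl; interval_cases o <;> simp

theorem far_even {o x y : ℕ} (ho : o < 2) : far (2 * o) x y = cl o (x + 1) y := by
  unfold far cl; interval_cases o <;> simp

theorem near_odd {o x y : ℕ} (ho : o < 2) : near (2 * o + 1) x y = cl o (x + 1) y := by
  unfold near cl; interval_cases o <;> simp

theorem far_odd {o x y : ℕ} (ho : o < 2) : far (2 * o + 1) x y = cl o x y := by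
  unfold far cl; interval_cases o <;> simp

theorem pos_odd {R : IRect} {o y : ℕ} (ho : o < 2) : R.pos (2 * o + 1) y ↔ R.pos (2 * o) y := by
  unfold IRect.pos; interval_cases o <;> simp

theorem onChord_same {dir a j j₁ d a' j' : ℕ} (h : Same P dir a j j₁) :
    OnChord P dir a j d a' j' ↔ OnChord P dir a j₁ d a' j' := by
  unfold OnChord
  constructor
  · rintro ⟨h1, h2, h3⟩; exact ⟨h1, h2, h.symm.trans h3⟩
  · rintro ⟨h1, h2, h3⟩; exact ⟨h1, h2, h.trans h3⟩

theorem stepAv_same {dir a j j₁ : ℕ} (h : Same P dir a j j₁) :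
    StepAv P dir a j = StepAv P dir a j₁ := by
  funext u v
  unfold StepAv
  simp only [onChord_same h]

/-- Cells of the chord are connected behind the chord. -/
theorem bhd_far {dir a : ℕ} (hd : dir < 4) {j j' : ℕ} (h : Same P dir a j j') :
    Bhd P dir a j (far dir a j') := by
  have key : ∀ j n, j ≤ n → Same P dir a j n → Bhd P dir a j (far dir a n) := by
    intro j n hn
    induction n, hn using Nat.le_induction with
    | base => intro _; exact Relation.ReflTransGen.refl
    | succ n hn ih =>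
      intro h
      have h1 : Same P dir a j n := fun t ht1 ht2 => h t (by omega) (by omega)
      refine (ih h1).tail ?_
      have e1 := h1.edge'
      have e2 := h.edge'
      unfold Edge at e1 e2
      by_cases hdir : dir < 2
      · refine ⟨2, n, (far dir a n).1, by omega, ?_, ?_, ?_, ?_⟩
        · refine ⟨?_, ?_⟩
          · have := e1.2
            unfold far near at *; interval_cases dir <;> simp at * <;> exact this
          · have := e2.2
            unfold far near at *; interval_cases dir <;> simp at * <;> exact this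
        · unfold far near; interval_cases dir <;> simp
        · unfold far; interval_cases dir <;> simp
        · rintro ⟨h3, _⟩; omega
      · refine ⟨0, n, (far dir a n).2, by omega, ?_, ?_, ?_, ?_⟩
        · refine ⟨?_, ?_⟩
          · have := e1.2
            unfold far near at *; interval_cases dir <;> simp at * <;> exact this
          · have := e2.2
            unfold far near at *; interval_cases dir <;> simp at * <;> exact this
        · unfold far near; interval_cases dir <;> simp at *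
        · unfold far; interval_cases dir <;> simp at *
        · rintro ⟨h3, _⟩; omega
  rcases le_total j j' with hle | hle
  · exact key j j' hle h
  · have h2 := key j' j hle h.symm
    unfold Bhd at h2 ⊢
    rw [stepAv_same h.symm] at h2
    exact rtg_symm (fun _ _ h => h.symm) h2

/-- `Bhd` depends only on the chord. -/
theorem bhd_same {dir a : ℕ} (hd : dir < 4) {j j' : ℕ} (h : Same P dir a j j') :
    Bhd P dir a j = Bhd P dir a j' := by
  funext u
  apply propext
  constructor
  · intro hu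
    have h1 := bhd_far hd h.symm
    unfold Bhd at hu h1 ⊢
    rw [stepAv_same h] at hu
    exact h1.trans hu
  · intro hu
    have h1 := bhd_far hd h
    unfold Bhd at hu h1 ⊢
    rw [← stepAv_same h] at hu
    exact h1.trans hu

theorem rlzC_same {dir a : ℕ} (hd : dir < 4) {j j' : ℕ} (h : Same P dir a j j') (f : ℕ → ℕ)
    (F : Set IRect) : RlzC P k dir a j f F ↔ RlzC P k dir a j' f F := by
  have key : ∀ {j j' : ℕ}, Same P dir a j j' → RlzC P k dir a j f F → RlzC P k dir a j' f F := by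
    intro j j' h hr
    refine ⟨?_, ?_, ?_⟩
    · rw [← bhd_same hd h]; exact hr.rlz
    · intro o ho e j'' h2 i₂ h3
      exact hr.rayE o ho e j'' (h.trans h2) i₂ h3
    · intro o ho e j'' h2 i₂ h3
      exact hr.rayO o ho e j'' (h.trans h2) i₂ h3
  exact ⟨key h, key h.symm⟩

/-- The cells of a ray starting at a chord are behind the chord. -/
theorem ray_bhd_even {o : ℕ} (ho : o < 2) {a j j' : ℕ} (h : Same P (2 * o) a j j') {x : ℕ}
    (hx : a < x) (hP : ∀ x', a < x' → x' ≤ x → Pc P (cl o x' j')) :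
    Bhd P (2 * o) a j (cl o x j') := by
  induction x, hx using Nat.le_induction with
  | base =>
    rw [← far_even ho]
    exact bhd_far (by omega) h
  | succ n hn ih =>
    refine (ih (fun x' h1 h2 => hP x' h1 (by omega))).tail ?_
    refine ⟨2 * o, n, j', by omega, ⟨?_, ?_⟩, near_even ho, far_even ho, ?_⟩
    · rw [near_even ho]; exact hP n (by omega) (by omega)
    · rw [far_even ho]; exact hP (n + 1) (by omega) (by omega)
    · rintro ⟨_, h2, _⟩; omega

theorem ray_bhd_odd {o : ℕ} (ho : o < 2) {a j j' : ℕ} (h : Same P (2 * o + 1) a j j') {x : ℕ}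
    (hx : x ≤ a) (hP : ∀ x', x ≤ x' → x' ≤ a → Pc P (cl o x' j')) :
    Bhd P (2 * o + 1) a j (cl o x j') := by
  have key : ∀ m x, x + m = a → (∀ x', x ≤ x' → x' ≤ a → Pc P (cl o x' j')) →
      Bhd P (2 * o + 1) a j (cl o x j') := by
    intro m
    induction m with
    | zero =>
      intro x hx _
      have : x = a := by omega
      subst this
      rw [← far_odd ho]
      exact bhd_far (by omega) h
    | succ n ih =>
      intro x hx hP
      refine (ih (x + 1) (by omega) (fun x' h1 h2 => hP x' (by omega) h2)).tail ?_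
      refine ⟨2 * o + 1, x, j', by omega, ⟨?_, ?_⟩, near_odd ho, far_odd ho, ?_⟩
      · rw [near_odd ho]; exact hP (x + 1) (by omega) (by omega)
      · rw [far_odd ho]; exact hP x (by omega) (by omega)
      · rintro ⟨_, h2, _⟩; omega
  exact key (a - x) x (by omega) hP

/-- A true exit of the rectangle. -/
def Exit (P : ℕ → ℕ → Prop) (R : IRect) (ex : ℕ → ℕ → Prop) (d j : ℕ) : Prop :=
  d < 4 ∧ R.pos d j ∧ Edge P d (R.line d) j ∧ ¬ ex d j

/-- A step from behind an exit to a cell outside the rectangle stays behind the exit. -/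
theorem step_in_exit (hTF : TF P) {R : IRect} (hR : Valid P R) {d j : ℕ} (hd : d < 4)
    (hp : R.pos d j) (he : Edge P d (R.line d) j) {u v : ℕ × ℕ}
    (hu : Bhd P d (R.line d) j u) (hv : ¬ R.memc v) {d' a' j' : ℕ} (hd' : d' < 4)
    (he' : Edge P d' a' j') (h1 : near d' a' j' = u) (h2 : far d' a' j' = v) :
    Bhd P d (R.line d) j v := by
  refine Relation.ReflTransGen.tail hu ⟨d', a', j', hd', he', h1, h2, fun h3 => ?_⟩
  rcases onChord_memc hR hd hp hd' h3 with h4 | h4
  · rw [h1] at h4; exact bhd_disj hTF hR hd hp he hu h4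
  · rw [h2] at h4; exact hv h4

theorem valid_finite {N : ℕ} (hS : Supp P N) : {R : IRect | Valid P R}.Finite := by
  have hfin : (Set.Iic N ×ˢ (Set.Iic N ×ˢ (Set.Iic N ×ˢ Set.Iic N))).Finite :=
    (Set.finite_Iic N).prod ((Set.finite_Iic N).prod ((Set.finite_Iic N).prod
      (Set.finite_Iic N)))
  refine (hfin.preimage (f := fun R : IRect => (R.a, R.b, R.c, R.d)) ?_).subset ?_
  · rintro ⟨a, b, c, d⟩ _ ⟨a', b', c', d'⟩ _ h
    simpa using h
  · intro R hR
    have h1 := hS _ _ (hR.sub R.b R.d ⟨hR.ab, le_refl _, hR.cd, le_refl _⟩)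
    have h2 := hR.ab
    have h3 := hR.cd
    simp only [Set.mem_preimage, Set.mem_prod, Set.mem_Iic]
    omega

section Assemble

variable {N : ℕ} {R : IRect} {ex : ℕ → ℕ → Prop} {𝓕 : ℕ → ℕ → Set IRect}
  {Fp : ℕ → ℕ → ℕ → ℕ} {L : ℕ → ℕ → ℕ} {B : ℕ × ℕ → Prop}

/-- The data of the assembly. -/
structure Asm (P : ℕ → ℕ → Prop) (k : ℕ) (R : IRect) (ex : ℕ → ℕ → Prop)
    (𝓕 : ℕ → ℕ → Set IRect) (Fp : ℕ → ℕ → ℕ → ℕ) (L : ℕ → ℕ → ℕ) (B : ℕ × ℕ → Prop) :
    Prop where
  valid : Valid P R
  fam : ∀ d j, Exit P R ex d j → RlzC P k d (R.line d) j (Fp d j) (𝓕 d j) ∧ L d j = Fp d j j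
  const : ∀ d < 4, ∀ j j', Same P d (R.line d) j j' → 𝓕 d j = 𝓕 d j'
  cond : CondL k R L
  reg : ∀ u, B u ↔ R.memc u ∨ ∃ d j, Exit P R ex d j ∧ Bhd P d (R.line d) j u
  exo : ∀ d < 4, ∀ j, R.pos d j → Edge P d (R.line d) j → ex d j → ¬ B (far d (R.line d) j)

/-- The assembled family. -/
def asm (P : ℕ → ℕ → Prop) (R : IRect) (ex : ℕ → ℕ → Prop) (𝓕 : ℕ → ℕ → Set IRect) :
    Set IRect := {R' | R' = R ∨ ∃ d j, Exit P R ex d j ∧ R' ∈ 𝓕 d j}

theorem asm_valid (h : Asm P k R ex 𝓕 Fp L B) : ∀ R' ∈ asm P R ex 𝓕, Valid P R' := by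
  rintro R' (rfl | ⟨d, j, hx, hm⟩)
  · exact h.valid
  · exact (h.fam d j hx).1.rlz.valid _ hm

theorem asm_disj (hTF : TF P) (h : Asm P k R ex 𝓕 Fp L B) : ∀ R₁ ∈ asm P R ex 𝓕,
    ∀ R₂ ∈ asm P R ex 𝓕, ∀ u, R₁.memc u → R₂.memc u → R₁ = R₂ := by
  have key : ∀ d j, Exit P R ex d j → ∀ R₁ ∈ 𝓕 d j, ∀ u, R₁.memc u → ¬ R.memc u := by
    intro d j hx R₁ h1 u h2
    exact bhd_disj hTF h.valid hx.1 hx.2.1 hx.2.2.1 ((h.fam d j hx).1.rlz.sub _ h1 _ h2)
  rintro R₁ (rfl | ⟨d, j, hx, hm⟩) R₂ (rfl | ⟨d', j', hx', hm'⟩) u hu hu'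
  · rfl
  · exact absurd hu (key _ _ hx' _ hm' _ hu')
  · exact absurd hu' (key _ _ hx _ hm _ hu)
  · have h1 := (h.fam d j hx).1.rlz.sub _ hm _ hu
    have h2 := (h.fam d' j' hx').1.rlz.sub _ hm' _ hu'
    by_cases hs : d' = d ∧ Same P d (R.line d) j j'
    · obtain ⟨rfl, hs⟩ := hs
      rw [← h.const d' hx.1 j j' hs] at hm'
      exact (h.fam d' j hx).1.rlz.disj _ hm _ hm' u hu hu'
    · exact (bhd_inter hTF h.valid hx.1 hx.2.1 hx.2.2.1 hx'.1 hx'.2.1 hx'.2.2.1 hs h1 h2).elim

theorem mem_asm {d j : ℕ} (hx : Exit P R ex d j) {R' : IRect} (h : R' ∈ 𝓕 d j) :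
    R' ∈ asm P R ex 𝓕 := Or.inr ⟨d, j, hx, h⟩

/-- A member of the assembled family with a cell behind an exit belongs to its family. -/
theorem asm_mem (hTF : TF P) (h : Asm P k R ex 𝓕 Fp L B) {d j : ℕ} (hx : Exit P R ex d j)
    {u : ℕ × ℕ} (hu : Bhd P d (R.line d) j u) {R' : IRect} (h1 : R' ∈ asm P R ex 𝓕)
    (h2 : R'.memc u) : R' ∈ 𝓕 d j := by
  obtain ⟨R'', h3, h4⟩ := (h.fam d j hx).1.rlz.cover u hu
  rw [asm_disj hTF h R' h1 R'' (mem_asm hx h3) u h2 h4]
  exact h3

theorem asm_finite (hS : Supp P N) (h : Asm P k R ex 𝓕 Fp L B) : (asm P R ex 𝓕).Finite :=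
  (valid_finite hS).subset (fun R' hR' => asm_valid h R' hR')

/-- The number of members met by a run through the rectangle. -/
theorem asm_run (hTF : TF P) (hS : Supp P N) (h : Asm P k R ex 𝓕 Fp L B) {o y i₁ i₂ : ℕ}
    (ho : o < 2) (hy : R.pos (2 * o) y) (hlo : R.line (2 * o + 1) < i₂)
    (hhi : i₁ < R.line (2 * o)) (hP : ∀ x, i₁ < x → x ≤ i₂ → Pc P (cl o x y))
    (e1 : i₁ < R.line (2 * o + 1) → ¬ ex (2 * o + 1) y) (e2 : R.line (2 * o) < i₂ →
      ¬ ex (2 * o) y) :
    (metRun (asm P R ex 𝓕) o y i₁ i₂).ncard ≤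
      (if i₁ < R.line (2 * o + 1) then L (2 * o + 1) y else 0) + 1 +
      (if R.line (2 * o) < i₂ then L (2 * o) y else 0) := by
  set lo := R.line (2 * o + 1) with hlo'
  set hi := R.line (2 * o) with hhi'
  have hlh : lo < hi := by
    have h1 := h.valid.ab
    have h2 := h.valid.cd
    rw [hlo', hhi']; unfold IRect.line; interval_cases o <;> simpa
  have hfin := asm_finite hS h
  have hinR : ∀ x, lo < x → x ≤ hi → R.memc (cl o x y) := fun x h1 h2 =>
    (memc_cl ho).mpr ⟨h1, h2, hy⟩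
  have hRP : ∀ x, lo < x → x ≤ hi → Pc P (cl o x y) := fun x h1 h2 =>
    h.valid.sub _ _ (hinR x h1 h2)
  -- the exit above
  have hX2 : hi < i₂ → Exit P R ex (2 * o) y := by
    intro h1
    refine ⟨by omega, hy, ⟨?_, ?_⟩, e2 h1⟩
    · rw [near_even ho]; exact hRP _ hlh (le_refl _)
    · rw [far_even ho]; exact hP _ (by omega) (by omega)
  have hX1 : i₁ < lo → Exit P R ex (2 * o + 1) y := by
    intro h1
    refine ⟨by omega, (pos_odd ho).mpr hy, ⟨?_, ?_⟩, e1 h1⟩
    · rw [near_odd ho]; exact hRP _ (by omega) (by omega)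
    · rw [far_odd ho]; exact hP _ (by omega) (by omega)
  have hA2 : ∃ A : Set IRect, A ⊆ asm P R ex 𝓕 ∧
      A.ncard ≤ (if hi < i₂ then L (2 * o) y else 0) ∧
      ∀ R' ∈ asm P R ex 𝓕, ∀ x, hi < x → x ≤ i₂ → R'.memc (cl o x y) → R' ∈ A := by
    by_cases h1 : hi < i₂
    · have hx := hX2 h1
      have hs : Same P (2 * o) hi y y := Same.refl hx.2.2.1
      refine ⟨metRun (𝓕 (2 * o) y) o y hi i₂, fun R' hR' => mem_asm hx hR'.1, ?_, ?_⟩
      · rw [if_pos h1, (h.fam _ _ hx).2]
        exact (h.fam _ _ hx).1.rayE o ho rfl y hs i₂ (fun x h2 h3 => hP x (by omega) h3)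
      · intro R' hR' x h2 h3 h4
        refine ⟨asm_mem hTF h hx ?_ hR' h4, x, h2, h3, h4⟩
        exact ray_bhd_even ho hs h2 (fun x' h5 h6 => hP x' (by omega) (by omega))
    · exact ⟨∅, by simp, by simp, fun R' _ x h2 h3 _ => by omega⟩
  have hA1 : ∃ A : Set IRect, A ⊆ asm P R ex 𝓕 ∧
      A.ncard ≤ (if i₁ < lo then L (2 * o + 1) y else 0) ∧
      ∀ R' ∈ asm P R ex 𝓕, ∀ x, i₁ < x → x ≤ lo → R'.memc (cl o x y) → R' ∈ A := by
    by_cases h1 : i₁ < lo
    · have hx := hX1 h1
      have hs : Same P (2 * o + 1) lo y y := Same.refl hx.2.2.1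
      refine ⟨metRun (𝓕 (2 * o + 1) y) o y i₁ lo, fun R' hR' => mem_asm hx hR'.1, ?_, ?_⟩
      · rw [if_pos h1, (h.fam _ _ hx).2]
        exact (h.fam _ _ hx).1.rayO o ho rfl y hs i₁ (fun x h2 h3 => hP x h2 (by omega))
      · intro R' hR' x h2 h3 h4
        refine ⟨asm_mem hTF h hx ?_ hR' h4, x, h2, h3, h4⟩
        exact ray_bhd_odd ho hs h3 (fun x' h5 h6 => hP x' (by omega) (by omega))
    · exact ⟨∅, by simp, by simp, fun R' _ x h2 h3 _ => by omega⟩
  obtain ⟨A₂, s2, c2, m2⟩ := hA2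
  obtain ⟨A₁, s1, c1, m1⟩ := hA1
  have hsub : metRun (asm P R ex 𝓕) o y i₁ i₂ ⊆ (A₁ ∪ {R}) ∪ A₂ := by
    rintro R' ⟨hR', x, h1, h2, h3⟩
    by_cases h4 : x ≤ lo
    · exact Or.inl (Or.inl (m1 R' hR' x h1 h4 h3))
    · by_cases h5 : hi < x
      · exact Or.inr (m2 R' hR' x h5 h2 h3)
      · refine Or.inl (Or.inr ?_)
        exact asm_disj hTF h R' hR' R (Or.inl rfl) _ h3 (hinR x (by omega) (by omega))
  have f1 := hfin.subset s1
  have f2 := hfin.subset s2
  calc (metRun (asm P R ex 𝓕) o y i₁ i₂).ncard ≤ ((A₁ ∪ {R}) ∪ A₂).ncard :=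
        Set.ncard_le_ncard hsub ((f1.union (Set.finite_singleton R)).union f2)
    _ ≤ (A₁ ∪ {R}).ncard + A₂.ncard := Set.ncard_union_le _ _
    _ ≤ (A₁.ncard + ({R} : Set IRect).ncard) + A₂.ncard := by
        gcongr; exact Set.ncard_union_le _ _
    _ ≤ _ := by rw [Set.ncard_singleton]; omega

/-- The assembled family is good. -/
theorem asm_rlz (hTF : TF P) (hS : Supp P N) (h : Asm P k R ex 𝓕 Fp L B) :
    Rlz P k B (asm P R ex 𝓕) := by
  refine ⟨asm_valid h, ?_, ?_, asm_disj hTF h, ?_⟩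
  · rintro R' (rfl | ⟨d, j, hx, hm⟩) u hu
    · exact (h.reg u).mpr (Or.inl hu)
    · exact (h.reg u).mpr (Or.inr ⟨d, j, hx, (h.fam d j hx).1.rlz.sub _ hm _ hu⟩)
  · intro u hu
    rcases (h.reg u).mp hu with h1 | ⟨d, j, hx, hb⟩
    · exact ⟨R, Or.inl rfl, h1⟩
    · obtain ⟨R', h1, h2⟩ := (h.fam d j hx).1.rlz.cover u hb
      exact ⟨R', mem_asm hx h1, h2⟩
  · intro o ho y i₁ i₂ hB
    have hPB : ∀ u, B u → Pc P u := by
      intro u hu
      rcases (h.reg u).mp hu with h1 | ⟨d, j, hx, hb⟩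
      · exact h.valid.sub _ _ h1
      · obtain ⟨R', h1, h2⟩ := (h.fam d j hx).1.rlz.cover u hb
        exact ((h.fam d j hx).1.rlz.valid _ h1).sub _ _ h2
    by_cases hi : i₁ < i₂
    · by_cases hm : ∃ x, i₁ < x ∧ x ≤ i₂ ∧ R.memc (cl o x y)
      · obtain ⟨x, h1, h2, h3⟩ := hm
        obtain ⟨h4, h5, h6⟩ := (memc_cl ho).mp h3
        have hlh : R.line (2 * o + 1) < R.line (2 * o) := by omega
        have hinR : ∀ x, R.line (2 * o + 1) < x → x ≤ R.line (2 * o) → Pc P (cl o x y) :=
          fun x h1 h2 => h.valid.sub _ _ ((memc_cl ho).mpr ⟨h1, h2, h6⟩)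
        have hr := asm_run hTF hS h ho h6 (by omega) (by omega)
          (fun x h1 h2 => hPB _ (hB x h1 h2)) (i₁ := i₁) (i₂ := i₂) ?_ ?_
        · refine hr.trans ?_
          have hc : L (2 * o + 1) y + 1 + L (2 * o) y ≤ k := by
            interval_cases o
            · exact h.cond.1 y h6
            · exact h.cond.2 y h6
          split_ifs <;> omega
        · intro h7 h8
          refine h.exo (2 * o + 1) (by omega) y ((pos_odd ho).mpr h6) ⟨?_, ?_⟩ h8 ?_
          · rw [near_odd ho]; exact hinR _ (by omega) (by omega)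
          · rw [far_odd ho]; exact hPB _ (hB _ (by omega) (by omega))
          · rw [far_odd ho]; exact hB _ (by omega) (by omega)
        · intro h7 h8
          refine h.exo (2 * o) (by omega) y h6 ⟨?_, ?_⟩ h8 ?_
          · rw [near_even ho]; exact hinR _ (by omega) (by omega)
          · rw [far_even ho]; exact hPB _ (hB _ (by omega) (by omega))
          · rw [far_even ho]; exact hB _ (by omega) (by omega)
      · have h1 : B (cl o (i₁ + 1) y) := hB _ (by omega) (by omega)
        rcases (h.reg _).mp h1 with h2 | ⟨d, j, hx, hb⟩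
        · exact absurd ⟨i₁ + 1, by omega, by omega, h2⟩ hm
        · have hall : ∀ x, i₁ + 1 ≤ x → x ≤ i₂ → Bhd P d (R.line d) j (cl o x y) := by
            intro x hx1
            induction x, hx1 using Nat.le_induction with
            | base => intro _; exact hb
            | succ n hn ih =>
              intro h3
              refine step_in_exit hTF h.valid hx.1 hx.2.1 hx.2.2.1 (ih (by omega))
                (fun h4 => hm ⟨n + 1, by omega, h3, h4⟩) (d' := 2 * o) (a' := n) (j' := y)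
                (by omega) ⟨?_, ?_⟩ (near_even ho) (far_even ho)
              · rw [near_even ho]; exact hPB _ (hB _ (by omega) (by omega))
              · rw [far_even ho]; exact hPB _ (hB _ (by omega) (by omega))
          refine le_trans (Set.ncard_le_ncard (t := metRun (𝓕 d j) o y i₁ i₂) ?_ ?_) ?_
          · rintro R' ⟨h3, x, h4, h5, h6⟩
            exact ⟨asm_mem hTF h hx (hall x (by omega) h5) h3 h6, x, h4, h5, h6⟩
          · exact (asm_finite hS h).subset (fun R' hR' => mem_asm hx hR'.1)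
          · exact (h.fam d j hx).1.rlz.runs o ho y i₁ i₂
              (fun x h3 h4 => hall x (by omega) h4)
    · have : metRun (asm P R ex 𝓕) o y i₁ i₂ = ∅ := by
        ext R'
        simp only [metRun, Set.mem_ofPred_eq, Set.mem_empty_iff_false, iff_false]
        rintro ⟨_, x, h1, h2, _⟩
        omega
      rw [this]; simp

end Assemble

/-- Trees give partitions behind chords. -/
theorem feasN_rlzC (hTF : TF P) {N : ℕ} (hS : Supp P N) (h : ℕ) :
    ∀ dir a j f, dir < 4 → FeasN P k h dir a j f → ∃ F, RlzC P k dir a j f F := by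
  induction h with
  | zero => intro dir a j f _ hf; exact hf.elim
  | succ h ih =>
    rintro dir a j f hd ⟨he, R, Fp, L, hR, rfl, hp, h1, _, h3, h4, h5⟩
    have hex : ∀ d j', Exit P R (Ex P dir (R.line (op dir)) j) d j' →
        ∃ F, RlzC P k d (R.line d) j' (Fp d j') F := fun d j' hx =>
      ih _ _ _ _ hx.1 (h1 d hx.1 j' hx.2.1 hx.2.2.1 hx.2.2.2).1
    set 𝓕 : ℕ → ℕ → Set IRect := fun d j' =>
      Classical.epsilon (fun F => RlzC P k d (R.line d) j' (Fp d j') F) with h𝓕
    have hA : Asm P k R (Ex P dir (R.line (op dir)) j) 𝓕 Fp L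
        (Bhd P dir (R.line (op dir)) j) := by
      refine ⟨hR, ?_, ?_, h4, ?_, ?_⟩
      · intro d j' hx
        exact ⟨Classical.epsilon_spec (hex d j' hx), (h1 d hx.1 j' hx.2.1 hx.2.2.1 hx.2.2.2).2⟩
      · intro d hd' j' j'' hs
        rw [h𝓕]
        simp only
        congr 1
        funext F
        rw [h3 d hd' j' j'' hs]
        exact propext (rlzC_same hd' hs _ F)
      · intro u
        constructor
        · intro hu
          rcases bhd_cases hTF hR hd hp hu with h6 | ⟨d, j', h6, h7, h8, h9, h10⟩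
          · exact Or.inl h6
          · exact Or.inr ⟨d, j', ⟨h6, h7, h8, h9⟩, h10⟩
        · rintro (h6 | ⟨d, j', hx, hb⟩)
          · have hod := op_lt hd
            have hpo : R.pos (op dir) j := (pos_op R hd j).mpr hp
            have hfar : R.memc (far dir (R.line (op dir)) j) := by
              rw [← near_op hd]; exact near_memc hR.ab hR.cd hod hpo
            have := conn_av (j := j) hR hod hfar h6
            refine rtg_mono ?_ this
            rintro x y ⟨d', a', j₁, hd', he₁, h1, h2, h3⟩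
            refine ⟨d', a', j₁, hd', he₁, h1, h2, fun h4 => h3 ?_⟩
            obtain ⟨h5, h6, h7⟩ := h4
            exact ⟨by rw [op_div hd]; exact h5, h6, (same_op hd _ _ _).mpr h7⟩
          · exact bhd_sub hTF hR hd hp he hx.1 hx.2.1 hx.2.2.1 hx.2.2.2 hb
      · rintro d hd' j' hp' he' ⟨rfl, hs⟩ hb
        rw [far_op hd] at hb
        rw [bhd_same hd hs] at hb
        exact near_not_bhd hTF hd hs.edge' hb
    refine ⟨asm P R (Ex P dir (R.line (op dir)) j) 𝓕, asm_rlz hTF hS hA, ?_, ?_⟩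
    · rintro o ho rfl j' hs i₂ hP
      have hop : op (2 * o) = 2 * o + 1 := by unfold op; interval_cases o <;> simp
      have hp' : R.pos (2 * o) j' := by
        have := hR.pos (op_lt hd) ((pos_op R hd j).mpr hp) ((same_op hd _ _ _).mpr hs)
        exact (pos_op R hd j').mp this
      rw [h5 j' hs]
      by_cases hi : R.line (op (2 * o)) < i₂
      · have hlh : R.line (op (2 * o)) < R.line (2 * o) := by
          have h1 := hR.ab
          have h2 := hR.cd
          rw [hop]; unfold IRect.line; interval_cases o <;> simpa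
        have := asm_run hTF hS hA ho hp' (i₁ := R.line (op (2 * o))) (i₂ := i₂)
          (by rw [← hop]; exact hi) hlh hP
          (by intro h; rw [← hop] at h; omega) (by rintro _ ⟨h, _⟩; exact op_ne hd h.symm)
        refine this.trans ?_
        rw [← hop]
        split_ifs <;> omega
      · have : metRun (asm P R (Ex P (2 * o) (R.line (op (2 * o))) j) 𝓕) o j'
            (R.line (op (2 * o))) i₂ = ∅ := by
          ext R'
          simp only [metRun, Set.mem_ofPred_eq, Set.mem_empty_iff_false, iff_false]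
          rintro ⟨_, x, h1, h2, _⟩
          omega
        rw [this]; simp
    · rintro o ho rfl j' hs i₁ hP
      have hop : op (2 * o + 1) = 2 * o := by unfold op; interval_cases o <;> simp
      have hp' : R.pos (2 * o) j' := by
        have := hR.pos (op_lt hd) ((pos_op R hd j).mpr hp) ((same_op hd _ _ _).mpr hs)
        rw [hop] at this
        exact this
      rw [h5 j' hs]
      by_cases hi : i₁ < R.line (op (2 * o + 1))
      · have hlh : R.line (2 * o + 1) < R.line (op (2 * o + 1)) := by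
          have h1 := hR.ab
          have h2 := hR.cd
          rw [hop]; unfold IRect.line; interval_cases o <;> simpa
        have e : R.line (op (2 * o + 1)) = R.line (2 * o) := by rw [hop]
        have := asm_run hTF hS hA ho hp' (i₁ := i₁) (i₂ := R.line (op (2 * o + 1)))
          hlh (by omega) hP
          (by rintro _ ⟨h, _⟩; exact op_ne hd h.symm) (by intro h; omega)
        refine this.trans ?_
        split_ifs <;> omega
      · have : metRun (asm P R (Ex P (2 * o + 1) (R.line (op (2 * o + 1))) j) 𝓕) o j'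
            i₁ (R.line (op (2 * o + 1))) = ∅ := by
          ext R'
          simp only [metRun, Set.mem_ofPred_eq, Set.mem_empty_iff_false, iff_false]
          rintro ⟨_, x, h1, h2, _⟩
          omega
        rw [this]; simp

/-- A step between two cells of the region. -/
def StepP (P : ℕ → ℕ → Prop) (u v : ℕ × ℕ) : Prop :=
  ∃ d a j, d < 4 ∧ Edge P d a j ∧ near d a j = u ∧ far d a j = v

theorem StepP.symm {u v : ℕ × ℕ} (h : StepP P u v) : StepP P v u := by
  obtain ⟨d, a, j, hd, he, h1, h2⟩ := h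
  exact ⟨op d, a, j, op_lt hd, (edge_op hd _ _).mpr he, by rw [near_op hd, h2],
    by rw [far_op hd, h1]⟩

/-- The component of the cell. -/
def Comp (P : ℕ → ℕ → Prop) (u v : ℕ × ℕ) : Prop := Relation.ReflTransGen (StepP P) u v

theorem comp_eq {u v : ℕ × ℕ} (h : Comp P u v) : Comp P u = Comp P v := by
  funext w
  exact propext ⟨fun h1 => (rtg_symm (fun _ _ h => h.symm) h).trans h1, fun h1 => h.trans h1⟩

theorem comp_run {o : ℕ} (ho : o < 2) {y i₁ i₂ : ℕ}
    (hP : ∀ x, i₁ < x → x ≤ i₂ → Pc P (cl o x y)) {x : ℕ} (hx : i₁ < x) (hx' : x ≤ i₂) :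
    Comp P (cl o (i₁ + 1) y) (cl o x y) := by
  induction x, hx using Nat.le_induction with
  | base => exact Relation.ReflTransGen.refl
  | succ n hn ih =>
    refine (ih (by omega)).tail ⟨2 * o, n, y, by omega, ⟨?_, ?_⟩, near_even ho, far_even ho⟩
    · rw [near_even ho]; exact hP _ (by omega) (by omega)
    · rw [far_even ho]; exact hP _ (by omega) (by omega)

/-- A good partition of a component. -/
theorem root_rlz (hTF : TF P) {N : ℕ} (hS : Supp P N) {i₀ j₀ : ℕ} (hr : Root P k i₀ j₀) :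
    ∃ F, Rlz P k (Comp P (i₀, j₀)) F := by
  obtain ⟨R, Fp, L, hR, hm, h1, _, h3, h4⟩ := hr
  have hm' : R.memc (i₀, j₀) := hm
  have hex : ∀ d j', Exit P R (fun _ _ => False) d j' →
      ∃ F, RlzC P k d (R.line d) j' (Fp d j') F := by
    intro d j' hx
    obtain ⟨h, hf⟩ := (h1 d hx.1 j' hx.2.1 hx.2.2.1).1
    exact feasN_rlzC hTF hS h _ _ _ _ hx.1 hf
  set 𝓕 : ℕ → ℕ → Set IRect := fun d j' =>
    Classical.epsilon (fun F => RlzC P k d (R.line d) j' (Fp d j') F) with h𝓕
  have hA : Asm P k R (fun _ _ => False) 𝓕 Fp L (Comp P (i₀, j₀)) := by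
    refine ⟨hR, ?_, ?_, h4, ?_, fun _ _ _ _ _ h => h.elim⟩
    · intro d j' hx
      exact ⟨Classical.epsilon_spec (hex d j' hx), (h1 d hx.1 j' hx.2.1 hx.2.2.1).2⟩
    · intro d hd' j' j'' hs
      rw [h𝓕]
      simp only
      congr 1
      funext F
      rw [h3 d hd' j' j'' hs]
      exact propext (rlzC_same hd' hs _ F)
    · intro u
      constructor
      · intro hu
        induction hu with
        | refl => exact Or.inl hm'
        | @tail v w hv hvw ih =>
          obtain ⟨d', a', j₁, hd', he', h5, h6⟩ := hvw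
          by_cases hw : R.memc w
          · exact Or.inl hw
          · right
            rcases ih with ih | ⟨d, j', hx, hb⟩
            · obtain ⟨h7, h8⟩ := exit_of_step hd' (by rw [h5]; exact ih) (by rw [h6]; exact hw)
              subst h7
              exact ⟨d', j₁, ⟨hd', h8, he', fun h => h⟩,
                by rw [← h6]; exact Relation.ReflTransGen.refl⟩
            · exact ⟨d, j', hx, step_in_exit hTF hR hx.1 hx.2.1 hx.2.2.1 hb hw hd' he' h5 h6⟩
      · have hin : ∀ v, R.memc v → Comp P (i₀, j₀) v := by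
          intro v hv
          refine rtg_mono ?_ (rect_conn R hm' hv)
          rintro x y ⟨h5, h6, d, a, j, hd, h7, h8⟩
          refine ⟨d, a, j, hd, ?_, h7, h8⟩
          unfold Edge
          rw [h7, h8]
          exact ⟨hR.sub _ _ h5, hR.sub _ _ h6⟩
        rintro (h5 | ⟨d, j', hx, hb⟩)
        · exact hin u h5
        · refine ((hin _ (near_memc hR.ab hR.cd hx.1 hx.2.1)).tail
            ⟨d, R.line d, j', hx.1, hx.2.2.1, rfl, rfl⟩).trans ?_
          refine rtg_mono ?_ hb
          rintro x y ⟨d, a, j, hd, he, h7, h8, _⟩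
          exact ⟨d, a, j, hd, he, h7, h8⟩
  exact ⟨_, asm_rlz hTF hS hA⟩

/-- Job B3. -/
theorem targetRealize : TargetRealize := by
  intro P N k hS hTF hroot
  set Φ : (ℕ × ℕ → Prop) → Set IRect := fun B => Classical.epsilon (fun F => Rlz P k B F) with hΦ
  have hspec : ∀ u, Pc P u → Rlz P k (Comp P u) (Φ (Comp P u)) := by
    intro u hu
    exact Classical.epsilon_spec (p := fun F => Rlz P k (Comp P u) F)
      (root_rlz hTF hS (hroot u.1 u.2 hu))
  set G : Set IRect := {R | ∃ u, Pc P u ∧ R ∈ Φ (Comp P u)} with hG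
  have hcomp : ∀ u, Pc P u → ∀ R ∈ G, R.memc u → R ∈ Φ (Comp P u) := by
    rintro u hu R ⟨v, hv, hR⟩ hm
    have := (hspec v hv).sub R hR u hm
    rw [← comp_eq this]
    exact hR
  have hfin : G.Finite := (valid_finite hS).subset (by
    rintro R ⟨u, hu, hR⟩
    exact (hspec u hu).valid R hR)
  have hval : ∀ R ∈ G, Valid P R := by
    rintro R ⟨u, hu, hR⟩
    exact (hspec u hu).valid R hR
  have hrun : ∀ o < 2, ∀ y i₁ i₂, (∀ x, i₁ < x → x ≤ i₂ → Pc P (cl o x y)) →
      (metRun G o y i₁ i₂).ncard ≤ k := by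
    intro o ho y i₁ i₂ hP
    by_cases hi : i₁ < i₂
    · have hu : Pc P (cl o (i₁ + 1) y) := hP _ (by omega) (by omega)
      have hc : ∀ x, i₁ < x → x ≤ i₂ → Comp P (cl o (i₁ + 1) y) (cl o x y) :=
        fun x h1 h2 => comp_run ho hP h1 h2
      refine le_trans (Set.ncard_le_ncard
        (t := metRun (Φ (Comp P (cl o (i₁ + 1) y))) o y i₁ i₂) ?_ ?_)
        ((hspec _ hu).runs o ho y i₁ i₂ hc)
      · rintro R ⟨h1, x, h2, h3, h4⟩
        refine ⟨?_, x, h2, h3, h4⟩
        rw [comp_eq (hc x h2 h3)]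
        exact hcomp _ (hP x h2 h3) R h1 h4
      · refine hfin.subset ?_
        rintro R ⟨h1, _⟩
        exact ⟨_, hu, h1⟩
    · have : metRun G o y i₁ i₂ = ∅ := by
        ext R'
        simp only [metRun, Set.mem_ofPred_eq, Set.mem_empty_iff_false, iff_false]
        rintro ⟨_, x, h1, h2, _⟩
        omega
      rw [this]; simp
  refine ⟨G, ⟨fun R hR => ⟨(hval R hR).ab, (hval R hR).cd⟩, fun R hR => (hval R hR).sub, ?_, ?_,
    fun R hR => ⟨(hval R hR).ac, (hval R hR).ad, (hval R hR).bc, (hval R hR).bd⟩⟩, ?_, ?_⟩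
  · intro i j hij
    have hu : Pc P (i, j) := hij
    obtain ⟨R, h1, h2⟩ := (hspec _ hu).cover (i, j) Relation.ReflTransGen.refl
    exact ⟨R, ⟨_, hu, h1⟩, h2⟩
  · intro R hR R' hR' i j h1 h2
    have hu : Pc P (i, j) := (hval R hR).sub i j h1
    exact (hspec _ hu).disj R (hcomp _ hu R hR h1) R' (hcomp _ hu R' hR' h2) (i, j) h1 h2
  · intro j i₁ i₂ h
    exact hrun 0 (by omega) j i₁ i₂ h
  · intro i j₁ j₂ h
    exact hrun 1 (by omega) i j₁ j₂ h

end Pool.Agent.CSN
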