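import Pool.Agent.CSN.Defs

/-!
# Job CSN-E: real conforming partitions and partitions of the index grid
-/

set_option autoImplicit false

open Filter Topology Set

namespace Pool.Agent.CSN

namespace Round

/-- The abstract setting: two increasing families of lines, the cells, and the region. -/
structure Setting (X Y : ℕ → ℝ) (P : ℕ → ℕ → Prop) (U : Set Pt) : Prop where
  mx : StrictMono X
  my : StrictMono Y
  tx : ∀ x, ∃ i, x < X i
  ty : ∀ y, ∃ j, y < Y j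
  fin : ∃ N, ∀ i j, P i j → i ≤ N ∧ j ≤ N
  pos : ∀ i j, P i j → 0 < i ∧ 0 < j
  loc : ∀ (i j : ℕ) (x y : ℝ), X (i + 1) ≤ x → x < X (i + 2) → Y (j + 1) ≤ y → y < Y (j + 2) →
    ((x, y) ∈ U ↔ P (i + 1) (j + 1) ∧ (x = X (i + 1) → P i (j + 1)) ∧
      (y = Y (j + 1) → P (i + 1) j) ∧ (x = X (i + 1) → y = Y (j + 1) → P i j))
  out : ∀ x y, (x, y) ∈ U → X 1 ≤ x ∧ Y 1 ≤ y

variable {X Y : ℕ → ℝ} {P : ℕ → ℕ → Prop} {U : Set Pt}

theorem Setting.swap (h : Setting X Y P U) :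
    Setting Y X (fun i j => P j i) (Prod.swap ⁻¹' U) where
  mx := h.my
  my := h.mx
  tx := h.ty
  ty := h.tx
  fin := by
    obtain ⟨N, hN⟩ := h.fin
    exact ⟨N, fun i j hij => (hN j i hij).symm⟩
  pos := fun i j hij => (h.pos j i hij).symm
  loc := by
    intro i j x y hx hx' hy hy'
    have := h.loc j i y x hy hy' hx hx'
    simp only [mem_preimage, Prod.swap_prod_mk]
    rw [this]
    tauto
  out := by
    intro x y hxy
    exact (h.out y x hxy).symm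

/-! ### The index of a real number -/

/-- The largest `i` with `X (i + 1) ≤ x`. -/
noncomputable def ix (X : ℕ → ℝ) (x : ℝ) : ℕ := sInf {i | x < X (i + 2)}

theorem lt_ix (hm : StrictMono X) (ht : ∀ x, ∃ i, x < X i) (x : ℝ) : x < X (ix X x + 2) := by
  have : (sInf {i | x < X (i + 2)}) ∈ {i | x < X (i + 2)} := Nat.sInf_mem (by
    obtain ⟨i, hi⟩ := ht x
    exact ⟨i, hi.trans (hm (by omega))⟩)
  exact this

theorem ix_le (x : ℝ) (hx : X 1 ≤ x) : X (ix X x + 1) ≤ x := by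
  rcases Nat.eq_zero_or_pos (ix X x) with h | h
  · rw [h]; exact hx
  · have : ix X x - 1 ∉ {i | x < X (i + 2)} :=
      Nat.notMem_of_lt_sInf (by unfold ix at *; omega)
    simp only [mem_ofPred_eq, not_lt] at this
    rwa [show ix X x - 1 + 2 = ix X x + 1 by omega] at this

theorem le_ix_iff (hm : StrictMono X) (ht : ∀ x, ∃ i, x < X i) (x : ℝ) (hx : X 1 ≤ x) (i : ℕ) :
    i ≤ ix X x ↔ X (i + 1) ≤ x := by
  constructor
  · intro h
    exact (hm.monotone (by omega)).trans (ix_le x hx)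
  · intro h
    by_contra hc
    push Not at hc
    have := hm.monotone (show ix X x + 2 ≤ i + 1 by omega)
    linarith [lt_ix hm ht x]

theorem ix_lt_iff (hm : StrictMono X) (ht : ∀ x, ∃ i, x < X i) (x : ℝ) (hx : X 1 ≤ x) (i : ℕ) :
    ix X x < i ↔ x < X (i + 1) := by
  rw [← not_le, le_ix_iff hm ht x hx, not_le]

/-- The columns met by an open interval form a run. -/
theorem exists_run (hm : StrictMono X) (ht : ∀ x, ∃ i, x < X i) (x₁ x₂ : ℝ) (h1 : X 1 ≤ x₁) :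
    ∃ i₁ i₂ : ℕ, ∀ i, (i₁ < i ∧ i ≤ i₂) ↔ (0 < i ∧ x₁ < X (i + 1) ∧ X i < x₂) := by
  classical
  have hex : ∃ i, x₂ ≤ X (i + 1) := by
    obtain ⟨i, hi⟩ := ht x₂
    exact ⟨i, hi.le.trans (hm.monotone (by omega))⟩
  refine ⟨ix X x₁, Nat.find hex, fun i => ?_⟩
  rw [ix_lt_iff hm ht x₁ h1]
  constructor
  · rintro ⟨ha, hb⟩
    have hi : 0 < i := by
      rcases Nat.eq_zero_or_pos i with rfl | h
      · linarith
      · exact h
    refine ⟨hi, ha, ?_⟩
    have := Nat.find_min hex (m := i - 1) (by omega)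
    rw [not_le, Nat.sub_add_cancel hi] at this
    exact this
  · rintro ⟨hi, ha, hb⟩
    refine ⟨ha, ?_⟩
    by_contra hc
    push Not at hc
    have := Nat.find_spec hex
    have := hm.monotone (show Nat.find hex + 1 ≤ i by omega)
    linarith

theorem exists_col (X : ℕ → ℝ) (a b : ℕ) (hab : a < b) (x : ℝ) (h1 : X (a + 1) ≤ x)
    (h2 : x ≤ X (b + 1)) : ∃ i, a < i ∧ i ≤ b ∧ X i ≤ x ∧ x ≤ X (i + 1) := by
  induction b, hab using Nat.le_induction with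
  | base => exact ⟨a + 1, by omega, le_rfl, h1, h2⟩
  | succ b hb ih =>
    by_cases hx : x ≤ X (b + 1)
    · obtain ⟨i, h1, h2, h3, h4⟩ := ih hx
      exact ⟨i, h1, by omega, h3, h4⟩
    · exact ⟨b + 1, by omega, le_rfl, (not_le.mp hx).le, h2⟩

/-! ### The closed region -/

theorem cell_open (h : Setting X Y P U) {i j : ℕ} (hP : P i j) {x y : ℝ} (hx : X i < x)
    (hx' : x < X (i + 1)) (hy : Y j < y) (hy' : y < Y (j + 1)) : (x, y) ∈ U := by
  obtain ⟨hi, hj⟩ := h.pos i j hP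
  obtain ⟨i, rfl⟩ := Nat.exists_eq_succ_of_ne_zero hi.ne'
  obtain ⟨j, rfl⟩ := Nat.exists_eq_succ_of_ne_zero hj.ne'
  rw [h.loc i j x y hx.le hx' hy.le hy']
  exact ⟨hP, fun e => absurd e hx.ne', fun e => absurd e hy.ne', fun e => absurd e hx.ne'⟩

theorem cell_of_mem (h : Setting X Y P U) {i j : ℕ} {x y : ℝ} (hU : (x, y) ∈ U) (hx : X i < x)
    (hx' : x < X (i + 1)) (hy : Y j < y) (hy' : y < Y (j + 1)) : P i j := by
  obtain ⟨h1, h2⟩ := h.out x y hU
  have hi : 0 < i := by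
    rcases Nat.eq_zero_or_pos i with rfl | hi
    · simp at hx'; linarith
    · exact hi
  have hj : 0 < j := by
    rcases Nat.eq_zero_or_pos j with rfl | hi
    · simp at hy'; linarith
    · exact hi
  obtain ⟨i, rfl⟩ := Nat.exists_eq_succ_of_ne_zero hi.ne'
  obtain ⟨j, rfl⟩ := Nat.exists_eq_succ_of_ne_zero hj.ne'
  exact ((h.loc i j x y hx.le hx' hy.le hy').mp hU).1

theorem cell_of_closure (h : Setting X Y P U) {i j : ℕ} {x y : ℝ} (hU : (x, y) ∈ closure U)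
    (hx : X i < x) (hx' : x < X (i + 1)) (hy : Y j < y) (hy' : y < Y (j + 1)) : P i j := by
  rw [mem_closure_iff] at hU
  obtain ⟨⟨x', y'⟩, ⟨⟨h1, h2⟩, ⟨h3, h4⟩⟩, h5⟩ :=
    hU (Ioo (X i) (X (i + 1)) ×ˢ Ioo (Y j) (Y (j + 1))) (isOpen_Ioo.prod isOpen_Ioo)
      ⟨⟨hx, hx'⟩, ⟨hy, hy'⟩⟩
  exact cell_of_mem h h5 h1 h2 h3 h4

theorem closure_out (h : Setting X Y P U) {x y : ℝ} (hU : (x, y) ∈ closure U) :
    X 1 ≤ x ∧ Y 1 ≤ y := by
  have hc : IsClosed (Ici (X 1) ×ˢ Ici (Y 1) : Set Pt) := isClosed_Ici.prod isClosed_Ici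
  have : closure U ⊆ Ici (X 1) ×ˢ Ici (Y 1) :=
    closure_minimal (fun p hp => h.out p.1 p.2 hp) hc
  exact this hU

theorem closure_cell (h : Setting X Y P U) {i j : ℕ} (hP : P i j) {x y : ℝ} (hx : X i ≤ x)
    (hx' : x ≤ X (i + 1)) (hy : Y j ≤ y) (hy' : y ≤ Y (j + 1)) : (x, y) ∈ closure U := by
  have h1 : Ioo (X i) (X (i + 1)) ×ˢ Ioo (Y j) (Y (j + 1)) ⊆ U := by
    rintro ⟨x, y⟩ ⟨⟨h1, h2⟩, ⟨h3, h4⟩⟩
    exact cell_open h hP h1 h2 h3 h4
  have h2 := closure_mono h1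
  rw [closure_prod_eq, closure_Ioo (h.mx (Nat.lt_succ_self i)).ne,
    closure_Ioo (h.my (Nat.lt_succ_self j)).ne] at h2
  exact h2 ⟨⟨hx, hx'⟩, ⟨hy, hy'⟩⟩

theorem exists_cell (h : Setting X Y P U) {x y : ℝ} (hU : (x, y) ∈ closure U) :
    ∃ i j, P i j ∧ X i ≤ x ∧ x ≤ X (i + 1) ∧ Y j ≤ y ∧ y ≤ Y (j + 1) := by
  obtain ⟨N, hN⟩ := h.fin
  have hc : IsClosed (⋃ i ∈ Iic N, ⋃ j ∈ Iic N, {p : Pt | P i j ∧ X i ≤ p.1 ∧ p.1 ≤ X (i + 1) ∧
      Y j ≤ p.2 ∧ p.2 ≤ Y (j + 1)}) := by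
    refine (finite_Iic N).isClosed_biUnion fun i _ => (finite_Iic N).isClosed_biUnion fun j _ => ?_
    by_cases hP : P i j
    · simp only [hP, true_and]
      exact (isClosed_le continuous_const continuous_fst).inter
        ((isClosed_le continuous_fst continuous_const).inter
          ((isClosed_le continuous_const continuous_snd).inter
            (isClosed_le continuous_snd continuous_const)))
    · simp only [hP, false_and, ofPred_false, isClosed_empty]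
  have hs : U ⊆ ⋃ i ∈ Iic N, ⋃ j ∈ Iic N, {p : Pt | P i j ∧ X i ≤ p.1 ∧ p.1 ≤ X (i + 1) ∧
      Y j ≤ p.2 ∧ p.2 ≤ Y (j + 1)} := by
    rintro ⟨x, y⟩ hp
    obtain ⟨h1, h2⟩ := h.out x y hp
    have hP := ((h.loc (ix X x) (ix Y y) x y (ix_le x h1) (lt_ix h.mx h.tx x) (ix_le y h2)
      (lt_ix h.my h.ty y)).mp hp).1
    simp only [mem_iUnion, mem_ofPred_eq]
    exact ⟨_, (hN _ _ hP).1, _, (hN _ _ hP).2, hP, ix_le x h1, (lt_ix h.mx h.tx x).le, ix_le y h2,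
      (lt_ix h.my h.ty y).le⟩
  have := closure_minimal hs hc hU
  simp only [mem_iUnion, mem_ofPred_eq] at this
  obtain ⟨i, _, j, _, h⟩ := this
  exact ⟨i, j, h⟩

/-! ### From real partitions to partitions of the index grid -/

theorem ev_lt {a b : ℝ} (h : a < b) : ∀ᶠ ε in 𝓝[>] (0 : ℝ), a < b - ε := by
  filter_upwards [Ioo_mem_nhdsGT (sub_pos.2 h)] with ε hε
  linarith [hε.2]

theorem ev_pos : ∀ᶠ ε in 𝓝[>] (0 : ℝ), 0 < ε := self_mem_nhdsWithin

/-- The index rectangle of a box. -/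
noncomputable def idx (X Y : ℕ → ℝ) (R : Box) : IRect := ⟨ix X R.a, ix X R.b, ix Y R.c, ix Y R.d⟩

theorem box_sub {F : Set Box} (hF : IsConforming U F) {R : Box} (hR : R ∈ F) :
    R.carrier ⊆ closure U := by
  rw [← hF.cover]
  exact subset_biUnion_of_mem hR

theorem box_low (h : Setting X Y P U) {F : Set Box} (hF : IsConforming U F) {R : Box}
    (hR : R ∈ F) : X 1 ≤ R.a ∧ Y 1 ≤ R.c :=
  closure_out h (box_sub hF hR ⟨⟨le_rfl, R.hab.le⟩, ⟨le_rfl, R.hcd.le⟩⟩)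

theorem mem_idx (h : Setting X Y P U) {F : Set Box} (hF : IsConforming U F) {R : Box}
    (hR : R ∈ F) (i j : ℕ) : (idx X Y R).mem i j ↔
      (R.a < X (i + 1) ∧ X (i + 1) ≤ R.b ∧ R.c < Y (j + 1) ∧ Y (j + 1) ≤ R.d) := by
  obtain ⟨h1, h2⟩ := box_low h hF hR
  unfold IRect.mem idx
  simp only
  rw [ix_lt_iff h.mx h.tx _ h1, le_ix_iff h.mx h.tx _ (h1.trans R.hab.le),
    ix_lt_iff h.my h.ty _ h2, le_ix_iff h.my h.ty _ (h2.trans R.hcd.le)]

theorem idx_inside (h : Setting X Y P U) {F : Set Box} (hF : IsConforming U F) {R : Box}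
    (hR : R ∈ F) {i j : ℕ} (hm : (idx X Y R).mem i j) :
    ∀ᶠ ε in 𝓝[>] (0 : ℝ), (X (i + 1) - ε, Y (j + 1) - ε) ∈ R.inside := by
  rw [mem_idx h hF hR] at hm
  obtain ⟨h1, h2, h3, h4⟩ := hm
  filter_upwards [ev_lt h1, ev_lt h3, ev_pos] with ε e1 e2 e3
  exact ⟨⟨e1, by simp only; linarith⟩, ⟨e2, by simp only; linarith⟩⟩

theorem corner_mem (h : Setting X Y P U) {x y : ℝ} (hx : X 1 ≤ x) (hy : Y 1 ≤ y)
    (hI : Ipt P (ix X x) (ix Y y)) : (x, y) ∈ U := by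
  rw [h.loc (ix X x) (ix Y y) x y (ix_le x hx) (lt_ix h.mx h.tx x) (ix_le y hy)
      (lt_ix h.my h.ty y)]
  obtain ⟨h1, h2, h3, h4⟩ := hI
  exact ⟨h4, fun _ => h3, fun _ => h2, fun _ _ => h1⟩

theorem exists_box (h : Setting X Y P U) {F : Set Box} (hF : IsConforming U F) {i j : ℕ}
    (hP : P i j) : ∃ R ∈ F, (idx X Y R).mem i j := by
  have hi := h.mx (Nat.lt_succ_self i)
  have hj := h.my (Nat.lt_succ_self j)
  have hR : ∀ᶠ ε in 𝓝[>] (0 : ℝ), ∀ R ∈ F, (R.b < X (i + 1) → R.b < X (i + 1) - ε) ∧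
      (R.d < Y (j + 1) → R.d < Y (j + 1) - ε) := by
    rw [eventually_all_finite hF.finite]
    intro R hR
    refine Filter.Eventually.and ?_ ?_
    · by_cases hc : R.b < X (i + 1)
      · filter_upwards [ev_lt hc] with ε e _ using e
      · exact Eventually.of_forall fun ε hh => absurd hh hc
    · by_cases hc : R.d < Y (j + 1)
      · filter_upwards [ev_lt hc] with ε e _ using e
      · exact Eventually.of_forall fun ε hh => absurd hh hc
  obtain ⟨ε, h1, h2, h3, h4⟩ := (hR.and ((ev_lt hi).and ((ev_lt hj).and ev_pos))).exists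
  have hU : (X (i + 1) - ε, Y (j + 1) - ε) ∈ closure U :=
    closure_cell h hP h2.le (by linarith) h3.le (by linarith)
  rw [← hF.cover] at hU
  simp only [mem_iUnion] at hU
  obtain ⟨R, hRF, ⟨h5, h6⟩, ⟨h7, h8⟩⟩ := hU
  simp only at h5 h6 h7 h8
  refine ⟨R, hRF, (mem_idx h hF hRF i j).mpr ⟨by linarith, ?_, by linarith, ?_⟩⟩
  · by_contra hc
    have := (h1 R hRF).1 (not_le.mp hc)
    linarith
  · by_contra hc
    have := (h1 R hRF).2 (not_le.mp hc)
    linarith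

theorem idx_cell (h : Setting X Y P U) {F : Set Box} (hF : IsConforming U F) {R : Box}
    (hR : R ∈ F) {i j : ℕ} (hm : (idx X Y R).mem i j) : P i j := by
  have hi := h.mx (Nat.lt_succ_self i)
  have hj := h.my (Nat.lt_succ_self j)
  obtain ⟨ε, h1, h2, h3, h4⟩ :=
    ((idx_inside h hF hR hm).and ((ev_lt hi).and ((ev_lt hj).and ev_pos))).exists
  exact cell_of_closure h (box_sub hF hR ⟨⟨h1.1.1.le, h1.1.2.le⟩, ⟨h1.2.1.le, h1.2.2.le⟩⟩)
    h2 (by linarith) h3 (by linarith)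

theorem idx_disj (h : Setting X Y P U) {F : Set Box} (hF : IsConforming U F) {R R' : Box}
    (hR : R ∈ F) (hR' : R' ∈ F) {i j : ℕ} (hm : (idx X Y R).mem i j)
    (hm' : (idx X Y R').mem i j) : R = R' := by
  by_contra hne
  obtain ⟨ε, h1, h2⟩ := ((idx_inside h hF hR hm).and (idx_inside h hF hR' hm')).exists
  exact Set.disjoint_left.mp (hF.disj R hR R' hR' hne) h1 h2

/-- The index partition. -/
def idxF (X Y : ℕ → ℝ) (F : Set Box) : Set IRect :=
  {S | ∃ R ∈ F, idx X Y R = S ∧ S.a < S.b ∧ S.c < S.d}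

theorem idxF_partition (h : Setting X Y P U) {F : Set Box} (hF : IsConforming U F) :
    IsGridPartition P (idxF X Y F) where
  pos := by
    rintro S ⟨R, hR, rfl, h1, h2⟩
    exact ⟨h1, h2⟩
  sub := by
    rintro S ⟨R, hR, rfl, h1, h2⟩ i j hm
    exact idx_cell h hF hR hm
  cover := by
    intro i j hP
    obtain ⟨R, hR, hm⟩ := exists_box h hF hP
    refine ⟨idx X Y R, ⟨R, hR, rfl, ?_, ?_⟩, hm⟩
    · have := hm.1; have := hm.2.1; omega
    · have := hm.2.2.1; have := hm.2.2.2; omega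
  disj := by
    rintro S ⟨R, hR, rfl, h1, h2⟩ S' ⟨R', hR', rfl, h1', h2'⟩ i j hm hm'
    rw [idx_disj h hF hR hR' hm hm']
  corner := by
    rintro S ⟨R, hR, rfl, h1, h2⟩
    obtain ⟨hl1, hl2⟩ := box_low h hF hR
    have hl1' := hl1.trans R.hab.le
    have hl2' := hl2.trans R.hcd.le
    have hn := hF.noSteiner R hR
    unfold Box.corners at hn
    refine ⟨fun hI => hn _ (by simp) (corner_mem h hl1 hl2 hI),
      fun hI => hn _ (by simp) (corner_mem h hl1 hl2' hI),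
      fun hI => hn _ (by simp) (corner_mem h hl1' hl2 hI),
      fun hI => hn _ (by simp) (corner_mem h hl1' hl2' hI)⟩

theorem row_sub (h : Setting X Y P U) {i₁ i₂ j : ℕ} (hrun : ∀ i, i₁ < i → i ≤ i₂ → P i j)
    {x y : ℝ} (hx : X (i₁ + 1) < x) (hx' : x < X (i₂ + 1)) (hy : Y j < y) (hy' : y < Y (j + 1)) :
    (x, y) ∈ U := by
  have h1 : X 1 ≤ x := (h.mx.monotone (by omega)).trans hx.le
  have e1 := ix_le x h1
  have e2 := lt_ix h.mx h.tx x
  have e3 : i₁ ≤ ix X x := (le_ix_iff h.mx h.tx x h1 _).mpr hx.le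
  have e4 : ix X x < i₂ := (ix_lt_iff h.mx h.tx x h1 _).mpr hx'
  have hj := (h.pos _ _ (hrun (ix X x + 1) (by omega) (by omega))).2
  obtain ⟨j, rfl⟩ := Nat.exists_eq_succ_of_ne_zero hj.ne'
  rw [h.loc (ix X x) j x y e1 e2 hy.le hy']
  refine ⟨hrun _ (by omega) (by omega), fun e => hrun _ ?_ (by omega), fun e => absurd e hy.ne',
    fun _ e => absurd e hy.ne'⟩
  rcases e3.lt_or_eq with h' | h'
  · exact h'
  · exfalso
    rw [← h'] at e
    linarith

theorem col_sub (h : Setting X Y P U) {i j₁ j₂ : ℕ} (hrun : ∀ j, j₁ < j → j ≤ j₂ → P i j)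
    {x y : ℝ} (hy : Y (j₁ + 1) < y) (hy' : y < Y (j₂ + 1)) (hx : X i < x) (hx' : x < X (i + 1)) :
    (x, y) ∈ U :=
  row_sub h.swap (i₁ := j₁) (i₂ := j₂) (j := i) hrun (x := y) (y := x) hy hy' hx hx'

theorem forward (h : Setting X Y P U) (k : ℕ) (F : Set Box) (hF : IsConforming U F)
    (hs : ∀ s, IsStabbing U s → (met F s).ncard ≤ k) : GridLe P k := by
  refine ⟨idxF X Y F, idxF_partition h hF, ?_, ?_⟩
  · intro j i₁ i₂ hrun
    by_cases hi : i₁ < i₂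
    · have hev : ∀ᶠ ε in 𝓝[>] (0 : ℝ), ∀ R ∈ F, (R.c < Y (j + 1) → R.c < Y (j + 1) - ε) := by
        rw [eventually_all_finite hF.finite]
        intro R hR
        by_cases hc : R.c < Y (j + 1)
        · filter_upwards [ev_lt hc] with ε e _ using e
        · exact Eventually.of_forall fun ε hh => absurd hh hc
      obtain ⟨ε, h1, h2, h3⟩ :=
        (hev.and ((ev_lt (h.my (Nat.lt_succ_self j))).and ev_pos)).exists
      have hst : IsStabbing U (Ioo (X (i₁ + 1)) (X (i₂ + 1)) ×ˢ {Y (j + 1) - ε}) := by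
        refine ⟨?_, Or.inl ⟨_, _, _, h.mx (by omega), rfl⟩⟩
        rintro ⟨x, y⟩ ⟨⟨hx, hx'⟩, hy⟩
        simp only [mem_singleton_iff] at hy hx hx'
        subst hy
        exact row_sub h hrun hx hx' h2 (by linarith)
      refine le_trans ?_ (hs _ hst)
      have hfin : (met F (Ioo (X (i₁ + 1)) (X (i₂ + 1)) ×ˢ {Y (j + 1) - ε})).Finite :=
        hF.finite.subset fun R hR => hR.1
      refine le_trans (Set.ncard_le_ncard ?_ (hfin.image (idx X Y)))
        (Set.ncard_image_le hfin)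
      rintro S ⟨⟨R, hR, rfl, hp1, hp2⟩, i, hi1, hi2, hm⟩
      refine ⟨R, ⟨hR, ?_⟩, rfl⟩
      rw [mem_idx h hF hR] at hm
      obtain ⟨m1, m2, m3, m4⟩ := hm
      have hXi : X (i₁ + 1) < X (i + 1) := h.mx (by omega)
      obtain ⟨δ, d1, d2, d3⟩ := ((ev_lt m1).and ((ev_lt hXi).and ev_pos)).exists
      refine ⟨(X (i + 1) - δ, Y (j + 1) - ε), ⟨⟨d1.le, ?_⟩, ⟨(h1 R hR m3).le, ?_⟩⟩,
        ⟨⟨d2, ?_⟩, rfl⟩⟩
      · simp only; linarith
      · simp only; linarith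
      · simp only
        have := h.mx.monotone (show i + 1 ≤ i₂ + 1 by omega)
        linarith
    · have : {R ∈ idxF X Y F | ∃ i, i₁ < i ∧ i ≤ i₂ ∧ R.mem i j} = ∅ := by
        ext R
        simp only [mem_ofPred_eq, mem_empty_iff_false, iff_false]
        rintro ⟨_, i, h1, h2, _⟩
        omega
      rw [this]
      simp
  · intro i j₁ j₂ hrun
    by_cases hj : j₁ < j₂
    · have hev : ∀ᶠ ε in 𝓝[>] (0 : ℝ), ∀ R ∈ F, (R.a < X (i + 1) → R.a < X (i + 1) - ε) := by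
        rw [eventually_all_finite hF.finite]
        intro R hR
        by_cases hc : R.a < X (i + 1)
        · filter_upwards [ev_lt hc] with ε e _ using e
        · exact Eventually.of_forall fun ε hh => absurd hh hc
      obtain ⟨ε, h1, h2, h3⟩ :=
        (hev.and ((ev_lt (h.mx (Nat.lt_succ_self i))).and ev_pos)).exists
      have hst : IsStabbing U ({X (i + 1) - ε} ×ˢ Ioo (Y (j₁ + 1)) (Y (j₂ + 1))) := by
        refine ⟨?_, Or.inr ⟨_, _, _, h.my (by omega), rfl⟩⟩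
        rintro ⟨x, y⟩ ⟨hx, hy, hy'⟩
        simp only [mem_singleton_iff] at hy hx hy'
        subst hx
        exact col_sub h hrun hy hy' h2 (by linarith)
      refine le_trans ?_ (hs _ hst)
      have hfin : (met F ({X (i + 1) - ε} ×ˢ Ioo (Y (j₁ + 1)) (Y (j₂ + 1)))).Finite :=
        hF.finite.subset fun R hR => hR.1
      refine le_trans (Set.ncard_le_ncard ?_ (hfin.image (idx X Y)))
        (Set.ncard_image_le hfin)
      rintro S ⟨⟨R, hR, rfl, hp1, hp2⟩, j, hi1, hi2, hm⟩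
      refine ⟨R, ⟨hR, ?_⟩, rfl⟩
      rw [mem_idx h hF hR] at hm
      obtain ⟨m1, m2, m3, m4⟩ := hm
      have hYj : Y (j₁ + 1) < Y (j + 1) := h.my (by omega)
      obtain ⟨δ, d1, d2, d3⟩ := ((ev_lt m3).and ((ev_lt hYj).and ev_pos)).exists
      refine ⟨(X (i + 1) - ε, Y (j + 1) - δ), ⟨⟨(h1 R hR m1).le, ?_⟩, ⟨d1.le, ?_⟩⟩,
        ⟨rfl, ⟨d2, ?_⟩⟩⟩
      · simp only; linarith
      · simp only; linarith
      · simp only
        have := h.my.monotone (show j + 1 ≤ j₂ + 1 by omega)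
        linarith
    · have : {R ∈ idxF X Y F | ∃ j, j₁ < j ∧ j ≤ j₂ ∧ R.mem i j} = ∅ := by
        ext R
        simp only [mem_ofPred_eq, mem_empty_iff_false, iff_false]
        rintro ⟨_, j, h1, h2, _⟩
        omega
      rw [this]
      simp

/-! ### From partitions of the index grid to real partitions -/

variable {F : Set IRect}

theorem grid_finite (h : Setting X Y P U) (hF : IsGridPartition P F) : F.Finite := by
  obtain ⟨N, hN⟩ := h.fin
  have hfin : ((fun q : ℕ × ℕ × ℕ × ℕ => (⟨q.1, q.2.1, q.2.2.1, q.2.2.2⟩ : IRect)) ''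
      (Iic N ×ˢ Iic N ×ˢ Iic N ×ˢ Iic N)).Finite :=
    (((finite_Iic N).prod ((finite_Iic N).prod ((finite_Iic N).prod (finite_Iic N)))).image _)
  refine hfin.subset ?_
  intro R hR
  obtain ⟨h1, h2⟩ := hF.pos R hR
  have h3 := hN _ _ (hF.sub R hR R.b R.d ⟨h1, le_rfl, h2, le_rfl⟩)
  refine ⟨(R.a, R.b, R.c, R.d), ⟨?_, ?_, ?_, ?_⟩, rfl⟩ <;> simp only [mem_Iic] <;> omega

theorem step_up (hF : IsGridPartition P F) {i j : ℕ} {R₁ R₂ : IRect} (h1 : R₁ ∈ F) (h2 : R₂ ∈ F)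
    (hne : R₁ ≠ R₂) (m1 : R₁.mem i j) (m2 : R₂.mem i (j + 1)) (hI : Ipt P i j) :
    R₁.mem (i + 1) j ∧ R₂.mem (i + 1) (j + 1) := by
  have hd : R₁.d = j := by
    by_contra hc
    have : R₁.mem i (j + 1) := by unfold IRect.mem at *; omega
    exact hne (hF.disj R₁ h1 R₂ h2 _ _ this m2)
  have hc : R₂.c = j := by
    by_contra hc
    have : R₂.mem i j := by unfold IRect.mem at *; omega
    exact hne (hF.disj R₁ h1 R₂ h2 _ _ m1 this)
  have hb : R₁.b ≠ i := by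
    intro e
    apply (hF.corner R₁ h1).2.2.2
    rw [e, hd]; exact hI
  have hb2 : R₂.b ≠ i := by
    intro e
    apply (hF.corner R₂ h2).2.2.1
    rw [e, hc]; exact hI
  unfold IRect.mem at *
  omega

theorem step_down (hF : IsGridPartition P F) {i j : ℕ} {R₁ R₂ : IRect} (h1 : R₁ ∈ F) (h2 : R₂ ∈ F)
    (hne : R₁ ≠ R₂) (m1 : R₁.mem (i + 1) j) (m2 : R₂.mem (i + 1) (j + 1)) (hI : Ipt P i j) :
    R₁.mem i j ∧ R₂.mem i (j + 1) := by
  have hd : R₁.d = j := by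
    by_contra hc
    have : R₁.mem (i + 1) (j + 1) := by unfold IRect.mem at *; omega
    exact hne (hF.disj R₁ h1 R₂ h2 _ _ this m2)
  have hc : R₂.c = j := by
    by_contra hc
    have : R₂.mem (i + 1) j := by unfold IRect.mem at *; omega
    exact hne (hF.disj R₁ h1 R₂ h2 _ _ m1 this)
  have hb : R₁.a ≠ i := by
    intro e
    apply (hF.corner R₁ h1).2.1
    rw [e, hd]; exact hI
  have hb2 : R₂.a ≠ i := by
    intro e
    apply (hF.corner R₂ h2).1
    rw [e, hc]; exact hI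
  unfold IRect.mem at *
  omega

theorem row_alt (hF : IsGridPartition P F) {i₁ i₂ j : ℕ}
    (hrun : ∀ i, i₁ < i → i ≤ i₂ → P i j ∧ P i (j + 1)) :
    (∀ i, i₁ < i → i ≤ i₂ → ∀ R₁ ∈ F, ∀ R₂ ∈ F, R₁.mem i j → R₂.mem i (j + 1) → R₁ = R₂) ∨
      ∃ R₁ ∈ F, ∃ R₂ ∈ F, R₁ ≠ R₂ ∧ ∀ i, i₁ < i → i ≤ i₂ → R₁.mem i j ∧ R₂.mem i (j + 1) := by
  by_cases hc : ∀ i, i₁ < i → i ≤ i₂ → ∀ R₁ ∈ F, ∀ R₂ ∈ F, R₁.mem i j → R₂.mem i (j + 1) →
      R₁ = R₂
  · exact Or.inl hc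
  · right
    push Not at hc
    obtain ⟨i₀, ha, hb, R₁, h1, R₂, h2, m1, m2, hne⟩ := hc
    have hI : ∀ i, i₁ < i → i + 1 ≤ i₂ → Ipt P i j := fun i ha hb =>
      ⟨(hrun i ha (by omega)).1, (hrun (i + 1) (by omega) hb).1, (hrun i ha (by omega)).2,
        (hrun (i + 1) (by omega) hb).2⟩
    refine ⟨R₁, h1, R₂, h2, hne, ?_⟩
    have up : ∀ n, i₀ + n ≤ i₂ → R₁.mem (i₀ + n) j ∧ R₂.mem (i₀ + n) (j + 1) := by
      intro n
      induction n with
      | zero => intro _; exact ⟨m1, m2⟩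
      | succ n ih =>
        intro hn
        obtain ⟨a1, a2⟩ := ih (by omega)
        exact step_up hF h1 h2 hne a1 a2 (hI (i₀ + n) (by omega) (by omega))
    have down : ∀ n i, i + n = i₀ → i₁ < i → R₁.mem i j ∧ R₂.mem i (j + 1) := by
      intro n
      induction n with
      | zero => intro i hi _; obtain rfl : i = i₀ := by omega
                exact ⟨m1, m2⟩
      | succ n ih =>
        intro i hi hi1
        obtain ⟨a1, a2⟩ := ih (i + 1) (by omega) (by omega)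
        exact step_down hF h1 h2 hne a1 a2 (hI _ (by omega) (by omega))
    intro i hi1 hi2
    rcases le_total i₀ i with hle | hle
    · have := up (i - i₀) (by omega)
      rwa [Nat.add_sub_cancel' hle] at this
    · exact down (i₀ - i) i (by omega) hi1

theorem horz (h : Setting X Y P U) (hF : IsGridPartition P F) (k : ℕ)
    (hrow : ∀ j i₁ i₂, (∀ i, i₁ < i → i ≤ i₂ → P i j) →
      {R ∈ F | ∃ i, i₁ < i ∧ i ≤ i₂ ∧ R.mem i j}.ncard ≤ k)
    (hcol : ∀ i j₁ j₂, (∀ j, j₁ < j → j ≤ j₂ → P i j) →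
      {R ∈ F | ∃ j, j₁ < j ∧ j ≤ j₂ ∧ R.mem i j}.ncard ≤ k)
    (x₁ x₂ y : ℝ) (hx : x₁ < x₂) (hU : ∀ x, x₁ < x → x < x₂ → (x, y) ∈ U) :
    {R ∈ F | ∃ x, x₁ < x ∧ x < x₂ ∧ X (R.a + 1) ≤ x ∧ x ≤ X (R.b + 1) ∧ Y (R.c + 1) ≤ y ∧
      y ≤ Y (R.d + 1)}.ncard ≤ k := by
  have hfin := grid_finite h hF
  have h1 : X 1 ≤ x₁ := by
    by_contra hc
    push Not at hc
    obtain ⟨x, ha, hb⟩ := exists_between (lt_min hx hc)
    rw [lt_min_iff] at hb
    have := (h.out _ _ (hU x ha hb.1)).1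
    linarith
  have hy1 : Y 1 ≤ y := by
    obtain ⟨x, ha, hb⟩ := exists_between hx
    exact (h.out _ _ (hU x ha hb)).2
  obtain ⟨i₁, i₂, hrun⟩ := exists_run h.mx h.tx x₁ x₂ h1
  obtain ⟨j, hj⟩ : ∃ j, j = ix Y y := ⟨_, rfl⟩
  have hyj : Y (j + 1) ≤ y := by rw [hj]; exact ix_le y hy1
  have hyj' : y < Y (j + 2) := by rw [hj]; exact lt_ix h.my h.ty y
  have hcell : ∀ i, i₁ < i → i ≤ i₂ → P i (j + 1) ∧ (y = Y (j + 1) → P i j) := by
    intro i ha hb
    obtain ⟨hi, h2, h3⟩ := (hrun i).mp ⟨ha, hb⟩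
    obtain ⟨i, rfl⟩ := Nat.exists_eq_succ_of_ne_zero hi.ne'
    have h4 : max x₁ (X (i + 1)) < min x₂ (X (i + 2)) := by
      rw [max_lt_iff, lt_min_iff, lt_min_iff]
      exact ⟨⟨hx, h2⟩, ⟨h3, h.mx (by omega)⟩⟩
    obtain ⟨x, h5, h6⟩ := exists_between h4
    rw [max_lt_iff] at h5
    rw [lt_min_iff] at h6
    have := (h.loc i j x y h5.2.le h6.2 hyj hyj').mp (hU x h5.1 h6.1)
    exact ⟨this.1, this.2.2.1⟩
  have hmet : ∀ R ∈ F, (∃ x, x₁ < x ∧ x < x₂ ∧ X (R.a + 1) ≤ x ∧ x ≤ X (R.b + 1) ∧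
      Y (R.c + 1) ≤ y ∧ y ≤ Y (R.d + 1)) → ∃ i, i₁ < i ∧ i ≤ i₂ ∧ R.a < i ∧ i ≤ R.b ∧
        R.c ≤ j ∧ j ≤ R.d ∧ (y ≠ Y (j + 1) → j < R.d) := by
    rintro R hR ⟨x, a1, a2, a3, a4, a5, a6⟩
    obtain ⟨i, b1, b2, b3, b4⟩ := exists_col X R.a R.b (hF.pos R hR).1 x a3 a4
    have hi : i₁ < i ∧ i ≤ i₂ := (hrun i).mpr ⟨by omega, by linarith, by linarith⟩
    refine ⟨i, hi.1, hi.2, b1, b2, ?_, ?_, ?_⟩
    · rw [hj, le_ix_iff h.my h.ty y hy1]; exact a5
    · have : Y (j + 1) ≤ Y (R.d + 1) := hyj.trans a6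
      rw [h.my.le_iff_le] at this
      omega
    · intro hne
      have : Y (j + 1) < Y (R.d + 1) := (lt_of_le_of_ne hyj (Ne.symm hne)).trans_le a6
      rw [h.my.lt_iff_lt] at this
      omega
  have hrs : {R ∈ F | ∃ i, i₁ < i ∧ i ≤ i₂ ∧ R.mem i (j + 1)}.ncard ≤ k :=
    hrow (j + 1) i₁ i₂ fun i ha hb => (hcell i ha hb).1
  have hrf : {R ∈ F | ∃ i, i₁ < i ∧ i ≤ i₂ ∧ R.mem i (j + 1)}.Finite :=
    hfin.subset fun R hR => hR.1
  by_cases hy : y = Y (j + 1)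
  · rcases row_alt hF (fun i ha hb => ⟨(hcell i ha hb).2 hy, (hcell i ha hb).1⟩) with
      hsame | ⟨R₁, hR1, R₂, hR2, hne, hdiff⟩
    · refine le_trans (Set.ncard_le_ncard ?_ hrf) hrs
      rintro R ⟨hR, hRm⟩
      obtain ⟨i, a1, a2, a3, a4, a5, a6, _⟩ := hmet R hR hRm
      refine ⟨hR, i, a1, a2, ?_⟩
      by_cases hd : j + 1 ≤ R.d
      · exact ⟨a3, a4, by omega, hd⟩
      · have hm : R.mem i j := ⟨a3, a4, by have := (hF.pos R hR).2; omega, a6⟩
        obtain ⟨R', hR', hm'⟩ := hF.cover i (j + 1) (hcell i a1 a2).1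
        rw [hsame i a1 a2 R hR R' hR' hm hm']
        exact hm'
    · by_cases hemp : {R ∈ F | ∃ x, x₁ < x ∧ x < x₂ ∧ X (R.a + 1) ≤ x ∧ x ≤ X (R.b + 1) ∧
          Y (R.c + 1) ≤ y ∧ y ≤ Y (R.d + 1)} = ∅
      · rw [hemp]; simp
      · rw [← Ne, ← Set.nonempty_iff_ne_empty] at hemp
        obtain ⟨S, hS, hSm⟩ := hemp
        obtain ⟨i, a1, a2, _⟩ := hmet S hS hSm
        obtain ⟨hP1, hP2⟩ := hcell i a1 a2
        have hPj := hP2 hy
        have hj0 := (h.pos _ _ hPj).2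
        have hk := hcol i (j - 1) (j + 1) (fun j' b1 b2 => by
          rcases (show j' = j ∨ j' = j + 1 by omega) with rfl | rfl
          · exact hPj
          · exact hP1)
        have h2 : ({R₁, R₂} : Set IRect).ncard ≤ k := by
          refine le_trans (Set.ncard_le_ncard ?_ (hfin.subset fun R hR => hR.1)) hk
          rintro R (rfl | rfl)
          · exact ⟨hR1, j, by omega, by omega, (hdiff i a1 a2).1⟩
          · exact ⟨hR2, j + 1, by omega, by omega, (hdiff i a1 a2).2⟩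
        refine le_trans (Set.ncard_le_ncard ?_ (Set.toFinite _)) h2
        rintro R ⟨hR, hRm⟩
        obtain ⟨i, a1, a2, a3, a4, a5, a6, _⟩ := hmet R hR hRm
        by_cases hd : j + 1 ≤ R.d
        · right
          exact hF.disj R hR R₂ hR2 i (j + 1) ⟨a3, a4, by omega, hd⟩ (hdiff i a1 a2).2
        · left
          exact hF.disj R hR R₁ hR1 i j ⟨a3, a4, by have := (hF.pos R hR).2; omega, a6⟩
            (hdiff i a1 a2).1
  · refine le_trans (Set.ncard_le_ncard ?_ hrf) hrs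
    rintro R ⟨hR, hRm⟩
    obtain ⟨i, a1, a2, a3, a4, a5, a6, a7⟩ := hmet R hR hRm
    exact ⟨hR, i, a1, a2, a3, a4, by omega, a7 hy⟩

/-- Exchange of the coordinates. -/
def sw (R : IRect) : IRect := ⟨R.c, R.d, R.a, R.b⟩

theorem sw_sw (R : IRect) : sw (sw R) = R := rfl

theorem sw_mem (R : IRect) (i j : ℕ) : (sw R).mem i j ↔ R.mem j i := by
  unfold sw IRect.mem
  tauto

theorem swap_partition (hF : IsGridPartition P F) :
    IsGridPartition (fun i j => P j i) (sw '' F) where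
  pos := by
    rintro _ ⟨R, hR, rfl⟩
    exact (hF.pos R hR).symm
  sub := by
    rintro _ ⟨R, hR, rfl⟩ i j hm
    exact hF.sub R hR j i ((sw_mem R i j).mp hm)
  cover := by
    intro i j hP
    obtain ⟨R, hR, hm⟩ := hF.cover j i hP
    exact ⟨sw R, ⟨R, hR, rfl⟩, (sw_mem R i j).mpr hm⟩
  disj := by
    rintro _ ⟨R, hR, rfl⟩ _ ⟨R', hR', rfl⟩ i j hm hm'
    rw [hF.disj R hR R' hR' j i ((sw_mem R i j).mp hm) ((sw_mem R' i j).mp hm')]
  corner := by
    rintro _ ⟨R, hR, rfl⟩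
    obtain ⟨h1, h2, h3, h4⟩ := hF.corner R hR
    unfold Ipt at *
    refine ⟨fun hI => h1 ?_, fun hI => h3 ?_, fun hI => h2 ?_, fun hI => h4 ?_⟩ <;>
      exact ⟨hI.1, hI.2.2.1, hI.2.1, hI.2.2.2⟩

theorem sw_inj : Function.Injective sw := fun R R' h => by
  rw [← sw_sw R, h, sw_sw]

theorem vert (h : Setting X Y P U) (hF : IsGridPartition P F) (k : ℕ)
    (hrow : ∀ j i₁ i₂, (∀ i, i₁ < i → i ≤ i₂ → P i j) →
      {R ∈ F | ∃ i, i₁ < i ∧ i ≤ i₂ ∧ R.mem i j}.ncard ≤ k)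
    (hcol : ∀ i j₁ j₂, (∀ j, j₁ < j → j ≤ j₂ → P i j) →
      {R ∈ F | ∃ j, j₁ < j ∧ j ≤ j₂ ∧ R.mem i j}.ncard ≤ k)
    (x y₁ y₂ : ℝ) (hy : y₁ < y₂) (hU : ∀ y, y₁ < y → y < y₂ → (x, y) ∈ U) :
    {R ∈ F | ∃ y, y₁ < y ∧ y < y₂ ∧ X (R.a + 1) ≤ x ∧ x ≤ X (R.b + 1) ∧ Y (R.c + 1) ≤ y ∧
      y ≤ Y (R.d + 1)}.ncard ≤ k := by
  have key := horz h.swap (swap_partition hF) k ?_ ?_ y₁ y₂ x hy (fun y a b => hU y a b)
  · rw [← Set.ncard_image_of_injective _ sw_inj]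
    refine le_trans (le_of_eq ?_) key
    congr 1
    ext S
    constructor
    · rintro ⟨R, ⟨hR, y, a1, a2, a3, a4, a5, a6⟩, rfl⟩
      exact ⟨⟨R, hR, rfl⟩, y, a1, a2, a5, a6, a3, a4⟩
    · rintro ⟨⟨R, hR, rfl⟩, y, a1, a2, a3, a4, a5, a6⟩
      exact ⟨R, ⟨hR, y, a1, a2, a5, a6, a3, a4⟩, rfl⟩
  · intro j i₁ i₂ hrun
    refine le_trans (le_of_eq ?_) (hcol j i₁ i₂ hrun)
    rw [← Set.ncard_image_of_injective {R ∈ F | ∃ j', i₁ < j' ∧ j' ≤ i₂ ∧ R.mem j j'} sw_inj]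
    congr 1
    ext S
    constructor
    · rintro ⟨⟨R, hR, rfl⟩, i, a1, a2, a3⟩
      exact ⟨R, ⟨hR, i, a1, a2, (sw_mem R i j).mp a3⟩, rfl⟩
    · rintro ⟨R, ⟨hR, i, a1, a2, a3⟩, rfl⟩
      exact ⟨⟨R, hR, rfl⟩, i, a1, a2, (sw_mem R i j).mpr a3⟩
  · intro i j₁ j₂ hrun
    refine le_trans (le_of_eq ?_) (hrow i j₁ j₂ hrun)
    rw [← Set.ncard_image_of_injective {R ∈ F | ∃ i', j₁ < i' ∧ i' ≤ j₂ ∧ R.mem i' i} sw_inj]
    congr 1
    ext S
    constructor
    · rintro ⟨⟨R, hR, rfl⟩, j, a1, a2, a3⟩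
      exact ⟨R, ⟨hR, j, a1, a2, (sw_mem R i j).mp a3⟩, rfl⟩
    · rintro ⟨R, ⟨hR, j, a1, a2, a3⟩, rfl⟩
      exact ⟨⟨R, hR, rfl⟩, j, a1, a2, (sw_mem R i j).mpr a3⟩

/-- The real box of an index rectangle. -/
noncomputable def bx (hX : StrictMono X) (hY : StrictMono Y) (R : IRect) : Box where
  a := X (R.a + 1)
  b := X (max R.b (R.a + 1) + 1)
  c := Y (R.c + 1)
  d := Y (max R.d (R.c + 1) + 1)
  hab := hX (by omega)
  hcd := hY (by omega)

theorem bx_mem (hX : StrictMono X) (hY : StrictMono Y) {R : IRect} (h1 : R.a < R.b)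
    (h2 : R.c < R.d) (x y : ℝ) : (x, y) ∈ (bx hX hY R).carrier ↔
      X (R.a + 1) ≤ x ∧ x ≤ X (R.b + 1) ∧ Y (R.c + 1) ≤ y ∧ y ≤ Y (R.d + 1) := by
  unfold Box.carrier bx
  simp only [mem_prod, mem_Icc]
  rw [max_eq_left (by omega), max_eq_left (by omega), and_assoc]

theorem bx_inside (hX : StrictMono X) (hY : StrictMono Y) {R : IRect} (h1 : R.a < R.b)
    (h2 : R.c < R.d) (x y : ℝ) : (x, y) ∈ (bx hX hY R).inside ↔
      X (R.a + 1) < x ∧ x < X (R.b + 1) ∧ Y (R.c + 1) < y ∧ y < Y (R.d + 1) := by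
  unfold Box.inside bx
  simp only [mem_prod, mem_Ioo]
  rw [max_eq_left (by omega), max_eq_left (by omega), and_assoc]

theorem corner_ipt (h : Setting X Y P U) {a c : ℕ} (hU : (X (a + 1), Y (c + 1)) ∈ U) :
    Ipt P a c := by
  obtain ⟨h1, h2, h3, h4⟩ := (h.loc a c _ _ le_rfl (h.mx (by omega)) le_rfl
    (h.my (by omega))).mp hU
  exact ⟨h4 rfl rfl, h3 rfl, h2 rfl, h1⟩

theorem backward (h : Setting X Y P U) (k : ℕ) (hG : GridLe P k) :
    ∃ F : Set Box, IsConforming U F ∧ ∀ s, IsStabbing U s → (met F s).ncard ≤ k := by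
  obtain ⟨F, hF, hrow, hcol⟩ := hG
  have hfin := grid_finite h hF
  refine ⟨bx h.mx h.my '' F, ⟨hfin.image _, ?_, ?_, ?_⟩, ?_⟩
  · apply Set.Subset.antisymm
    · rintro ⟨x, y⟩ hp
      simp only [mem_iUnion] at hp
      obtain ⟨_, ⟨R, hR, rfl⟩, hm⟩ := hp
      obtain ⟨h1, h2⟩ := hF.pos R hR
      rw [bx_mem h.mx h.my h1 h2] at hm
      obtain ⟨a1, a2, a3, a4⟩ := hm
      obtain ⟨i, b1, b2, b3, b4⟩ := exists_col X R.a R.b h1 x a1 a2
      obtain ⟨j, c1, c2, c3, c4⟩ := exists_col Y R.c R.d h2 y a3 a4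
      exact closure_cell h (hF.sub R hR i j ⟨b1, b2, c1, c2⟩) b3 b4 c3 c4
    · rintro ⟨x, y⟩ hp
      obtain ⟨i, j, hP, b1, b2, b3, b4⟩ := exists_cell h hp
      obtain ⟨R, hR, c1, c2, c3, c4⟩ := hF.cover i j hP
      obtain ⟨h1, h2⟩ := hF.pos R hR
      simp only [mem_iUnion]
      refine ⟨_, ⟨R, hR, rfl⟩, ?_⟩
      rw [bx_mem h.mx h.my h1 h2]
      exact ⟨(h.mx.monotone (by omega)).trans b1, b2.trans (h.mx.monotone (by omega)),
        (h.my.monotone (by omega)).trans b3, b4.trans (h.my.monotone (by omega))⟩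
  · rintro _ ⟨R, hR, rfl⟩ _ ⟨R', hR', rfl⟩ hne
    obtain ⟨h1, h2⟩ := hF.pos R hR
    obtain ⟨h1', h2'⟩ := hF.pos R' hR'
    rw [Set.disjoint_left]
    rintro ⟨x, y⟩ hp hp'
    rw [bx_inside h.mx h.my h1 h2] at hp
    rw [bx_inside h.mx h.my h1' h2'] at hp'
    obtain ⟨a1, a2, a3, a4⟩ := hp
    obtain ⟨b1, b2, b3, b4⟩ := hp'
    have e1 := h.mx.lt_iff_lt.mp (a1.trans b2)
    have e2 := h.mx.lt_iff_lt.mp (b1.trans a2)
    have e3 := h.my.lt_iff_lt.mp (a3.trans b4)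
    have e4 := h.my.lt_iff_lt.mp (b3.trans a4)
    apply hne
    rw [hF.disj R hR R' hR' (max R.a R'.a + 1) (max R.c R'.c + 1)
      ⟨by omega, by omega, by omega, by omega⟩ ⟨by omega, by omega, by omega, by omega⟩]
  · rintro _ ⟨R, hR, rfl⟩ p hp hpU
    obtain ⟨h1, h2⟩ := hF.pos R hR
    obtain ⟨c1, c2, c3, c4⟩ := hF.corner R hR
    unfold Box.corners bx at hp
    simp only [mem_insert_iff, mem_singleton_iff] at hp
    rw [max_eq_left (by omega), max_eq_left (by omega)] at hp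
    rcases hp with rfl | rfl | rfl | rfl
    · exact c1 (corner_ipt h hpU)
    · exact c2 (corner_ipt h hpU)
    · exact c3 (corner_ipt h hpU)
    · exact c4 (corner_ipt h hpU)
  · rintro s ⟨hs, ⟨x₁, x₂, y, hx, rfl⟩ | ⟨x, y₁, y₂, hy, rfl⟩⟩
    · have key := horz h hF k hrow hcol x₁ x₂ y hx (fun x a b => hs ⟨⟨a, b⟩, rfl⟩)
      refine le_trans ?_ key
      have hf : {R ∈ F | ∃ x, x₁ < x ∧ x < x₂ ∧ X (R.a + 1) ≤ x ∧ x ≤ X (R.b + 1) ∧
          Y (R.c + 1) ≤ y ∧ y ≤ Y (R.d + 1)}.Finite := hfin.subset fun R hR => hR.1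
      refine le_trans (Set.ncard_le_ncard ?_ (hf.image (bx h.mx h.my))) (Set.ncard_image_le hf)
      rintro _ ⟨⟨R, hR, rfl⟩, ⟨x, y'⟩, hm, ⟨a1, a2⟩, a3⟩
      obtain ⟨h1, h2⟩ := hF.pos R hR
      simp only [mem_singleton_iff] at a3
      subst a3
      rw [bx_mem h.mx h.my h1 h2] at hm
      exact ⟨R, ⟨hR, x, a1, a2, hm⟩, rfl⟩
    · have key := vert h hF k hrow hcol x y₁ y₂ hy (fun y a b => hs ⟨rfl, ⟨a, b⟩⟩)
      refine le_trans ?_ key
      have hf : {R ∈ F | ∃ y, y₁ < y ∧ y < y₂ ∧ X (R.a + 1) ≤ x ∧ x ≤ X (R.b + 1) ∧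
          Y (R.c + 1) ≤ y ∧ y ≤ Y (R.d + 1)}.Finite := hfin.subset fun R hR => hR.1
      refine le_trans (Set.ncard_le_ncard ?_ (hf.image (bx h.mx h.my))) (Set.ncard_image_le hf)
      rintro _ ⟨⟨R, hR, rfl⟩, ⟨x', y⟩, hm, a3, ⟨a1, a2⟩⟩
      obtain ⟨h1, h2⟩ := hF.pos R hR
      simp only [mem_singleton_iff] at a3
      subst a3
      rw [bx_mem h.mx h.my h1 h2] at hm
      exact ⟨R, ⟨hR, y, a1, a2, hm⟩, rfl⟩

/-! ### The setting of a polygon -/

/-- The coordinates of a grid line, continued to all indices. -/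
noncomputable def ext (X : List ℤ) (i : ℕ) : ℝ :=
  if i < X.length then (X.getD i 0 : ℝ) else (X.getD (X.length - 1) 0 : ℝ) + ((i : ℝ) - (X.length - 1 : ℕ))

theorem ext_of_lt (X : List ℤ) {i : ℕ} (h : i < X.length) : ext X i = (X.getD i 0 : ℝ) := by
  unfold ext
  rw [if_pos h]

theorem getD_lt (X : List ℤ) (hX : X.Pairwise (· < ·)) {i j : ℕ} (hij : i < j)
    (hj : j < X.length) : X.getD i 0 < X.getD j 0 := by
  rw [List.getD_eq_getElem _ _ (hij.trans hj), List.getD_eq_getElem _ _ hj]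
  exact List.pairwise_iff_getElem.mp hX i j _ _ hij

theorem ext_mono (X : List ℤ) (hX : X.Pairwise (· < ·)) : StrictMono (ext X) := by
  refine strictMono_nat_of_lt_succ fun i => ?_
  rcases lt_trichotomy (i + 1) X.length with h | h | h
  · rw [ext_of_lt X (by omega), ext_of_lt X h]
    exact_mod_cast getD_lt X hX (Nat.lt_succ_self i) h
  · rw [ext_of_lt X (by omega)]
    unfold ext
    rw [if_neg (by omega), ← h]
    simp
  · unfold ext
    rw [if_neg (by omega), if_neg (by omega)]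
    push_cast
    linarith

theorem ext_top (X : List ℤ) (x : ℝ) : ∃ i, x < ext X i := by
  obtain ⟨n, hn⟩ := exists_nat_gt (x - X.getD (X.length - 1) 0)
  refine ⟨n + X.length, ?_⟩
  unfold ext
  rw [if_neg (by omega)]
  push_cast
  have : ((X.length - 1 : ℕ) : ℝ) ≤ X.length := by exact_mod_cast Nat.sub_le _ _
  linarith

theorem head_lt (X : List ℤ) (hX : X.Pairwise (· < ·)) {x : ℤ} (hx : x ∈ X.tail) :
    X.getD 0 0 < x := by
  cases X with
  | nil => simp at hx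
  | cons a l =>
    simp only [List.tail_cons] at hx
    simp only [List.getD_cons_zero]
    exact (List.pairwise_cons.mp hX).1 x hx

theorem edge_mem {V : List (ℤ × ℤ)} {e : (ℤ × ℤ) × (ℤ × ℤ)} (he : e ∈ edges V) :
    e.1 ∈ V ∧ e.2 ∈ V := by
  unfold edges at he
  obtain ⟨h1, h2⟩ := List.of_mem_zip he
  refine ⟨h1, ?_⟩
  rcases List.mem_append.mp h2 with h | h
  · exact List.mem_of_mem_tail h
  · exact List.mem_of_mem_take h

theorem par_left {V : List (ℤ × ℤ)} {X Y : List ℤ} (hg : IsGrid V X Y) (y : ℤ) :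
    par V (X.getD 0 0) y = false := by
  unfold par
  have : (edges V).countP (crossL (X.getD 0 0) y) = 0 := by
    rw [List.countP_eq_zero]
    intro e he
    have := head_lt X hg.sx (hg.mx _ (edge_mem he).1)
    unfold crossL
    simp only [Bool.and_eq_true, decide_eq_true_eq, not_and]
    intro _ h
    omega
  rw [this]
  rfl

theorem par_low {V : List (ℤ × ℤ)} {X Y : List ℤ} (hg : IsGrid V X Y) (x : ℤ) :
    par V x (Y.getD 0 0) = false := by
  unfold par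
  have : (edges V).countP (crossL x (Y.getD 0 0)) = 0 := by
    rw [List.countP_eq_zero]
    intro e he
    have h1 := head_lt Y hg.sy (hg.my _ (edge_mem he).1)
    have h2 := head_lt Y hg.sy (hg.my _ (edge_mem he).2)
    unfold crossL
    simp only [Bool.and_eq_true, decide_eq_true_eq, not_and]
    intro _ _ h
    omega
  rw [this]
  rfl

theorem setting (V : List (ℤ × ℤ)) (X Y : List ℤ) (hI : TargetInner) (hL : TargetLocal)
    (hV : IsRectilinear V) (hg : IsGrid V X Y) :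
    Setting (ext X) (ext Y) (fun i j => cell V X Y i j = true) (inner V) := by
  obtain ⟨hL1, hL2⟩ := hL V X Y hV hg
  rw [hI V hV]
  have hmx := ext_mono X hg.sx
  have hmy := ext_mono Y hg.sy
  have hL2' : ∀ x y : ℝ, (x, y) ∈ {p | Odd' V p} → ∃ i j : ℕ, i + 2 < X.length ∧ j + 2 < Y.length ∧
      ext X (i + 1) ≤ x ∧ x < ext X (i + 2) ∧ ext Y (j + 1) ≤ y ∧ y < ext Y (j + 2) := by
    intro x y h
    obtain ⟨i, j, h1, h2, h3, h4, h5, h6⟩ := hL2 x y h
    refine ⟨i, j, h1, h2, ?_, ?_, ?_, ?_⟩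
    · rw [ext_of_lt X (by omega)]; exact h3
    · rw [ext_of_lt X (by omega)]; exact h4
    · rw [ext_of_lt Y (by omega)]; exact h5
    · rw [ext_of_lt Y (by omega)]; exact h6
  refine ⟨hmx, hmy, ext_top X, ext_top Y, ?_, ?_, ?_, ?_⟩
  · refine ⟨X.length + Y.length, fun i j h => ?_⟩
    unfold cell at h
    simp only [Bool.and_eq_true, decide_eq_true_eq] at h
    omega
  · intro i j h
    unfold cell at h
    simp only [Bool.and_eq_true, decide_eq_true_eq] at h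
    obtain ⟨_, _, h⟩ := h
    constructor
    · rcases Nat.eq_zero_or_pos i with rfl | hi
      · rw [par_left hg] at h; simp at h
      · exact hi
    · rcases Nat.eq_zero_or_pos j with rfl | hj
      · rw [par_low hg] at h; simp at h
      · exact hj
  · intro i j x y hx hx' hy hy'
    by_cases hlen : i + 2 < X.length ∧ j + 2 < Y.length
    · obtain ⟨l1, l2⟩ := hlen
      rw [ext_of_lt X (by omega)] at hx hx'
      rw [ext_of_lt Y (by omega)] at hy hy'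
      rw [ext_of_lt X (by omega), ext_of_lt Y (by omega)]
      exact hL1 i j x y l1 l2 hx hx' hy hy'
    · constructor
      · intro h
        exfalso
        obtain ⟨i', j', h1, h2, h3, h4, h5, h6⟩ := hL2' x y h
        have e1 := hmx.lt_iff_lt.mp (hx.trans_lt h4)
        have e2 := hmy.lt_iff_lt.mp (hy.trans_lt h6)
        omega
      · rintro ⟨h, _⟩
        exfalso
        unfold cell at h
        simp only [Bool.and_eq_true, decide_eq_true_eq] at h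
        omega
  · intro x y h
    obtain ⟨i', j', h1, h2, h3, h4, h5, h6⟩ := hL2' x y h
    exact ⟨(hmx.monotone (by omega)).trans h3, (hmy.monotone (by omega)).trans h5⟩

end Round

/-- Job CSN-E. -/
theorem targetRound : TargetRound := by
  intro V X Y k hI hL hV hg
  have hs := Round.setting V X Y hI hL hV hg
  constructor
  · rintro ⟨F, hF, hk⟩
    exact Round.forward hs k F hF hk
  · intro h
    exact Round.backward hs k h

end Pool.Agent.CSN
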