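import Pool.Agent.CSN.SepCore

/-!
# Chords separate: the index grid (CSN-C2)
-/

set_option autoImplicit false

namespace Pool.Agent.CSN

variable {V : List (ℤ × ℤ)} {L : ℕ} {w : ℕ → ℤ × ℤ} {X Y : List ℤ}

theorem cell_iff {i j : ℕ} : cell V X Y i j = true ↔
    i + 1 < X.length ∧ j + 1 < Y.length ∧ par V (X.getD i 0) (Y.getD j 0) = true := by
  unfold cell
  simp only [Bool.and_eq_true, decide_eq_true_eq]

theorem targetTF (hU : TargetUnit) : TargetTF := by
  intro V X Y hV hg
  obtain ⟨L, w, h⟩ := hU V hV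
  constructor
  · intro a j h1 h2
    obtain ⟨ha1, hj1, hp1⟩ := cell_iff.mp h1
    obtain ⟨ha2, _, hp2⟩ := cell_iff.mp h2
    have sX : X.getD a 0 < X.getD (a + 1) 0 := getD_lt hg.sx (by omega) (by omega)
    have sY : Y.getD j 0 < Y.getD (j + 1) 0 := getD_lt hg.sy (by omega) (by omega)
    have hleft : ∀ r, r + 1 < Y.length →
        par V (X.getD (a + 1) 0 - 1) (Y.getD r 0) = cell V X Y a r := by
      intro r hr
      have sYr : Y.getD r 0 < Y.getD (r + 1) 0 := getD_lt hg.sy (by omega) (by omega)
      exact h.par_cell hg ha1 hr (by omega) (by omega) le_rfl sYr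
    obtain ⟨s, s1, s2, s3⟩ := h.sepV (X.getD (a + 1) 0) (Y.getD j 0)
      (by rw [hleft j hj1]; exact h1) hp2
    -- no change inside a grid cell
    have cX : ∀ i r, i + 1 < X.length → s (X.getD (i + 1) 0 - 1) (Y.getD r 0) =
        s (X.getD i 0) (Y.getD r 0) := by
      intro i r hi
      have sXi : X.getD i 0 < X.getD (i + 1) 0 := getD_lt hg.sx (by omega) hi
      exact const_x (fun z => s z (Y.getD r 0)) (by omega) (by omega) (fun z z1 z2 => by
        apply s2 z _ (h.noEV hg hi z1 z2)
        rintro ⟨e, _⟩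
        exact no_between hg.sx hi ha1 ⟨by omega, by omega⟩)
    have cY : ∀ i r, r + 1 < Y.length → s (X.getD i 0) (Y.getD (r + 1) 0 - 1) =
        s (X.getD i 0) (Y.getD r 0) := by
      intro i r hr
      have sYr : Y.getD r 0 < Y.getD (r + 1) 0 := getD_lt hg.sy (by omega) hr
      exact const_x (X := Y) (fun z => s (X.getD i 0) z) (by omega) (by omega)
        (fun z z1 z2 => s3 _ z (h.noEH hg hr z1 z2))
    refine ⟨fun i r => s (X.getD i 0) (Y.getD r 0), ?_, ?_, ?_⟩
    · show s (X.getD a 0) (Y.getD j 0) ≠ s (X.getD (a + 1) 0) (Y.getD j 0)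
      rw [← cX a j ha1]
      exact s1.symm
    · intro i j' q1 q2 q3
      show s (X.getD i 0) (Y.getD j' 0) = s (X.getD (i + 1) 0) (Y.getD j' 0)
      obtain ⟨hi1, hj'1, hq1⟩ := cell_iff.mp q1
      obtain ⟨hi2, _, hq2⟩ := cell_iff.mp q2
      rw [← cX i j' hi1]
      symm
      have sXi : X.getD i 0 < X.getD (i + 1) 0 := getD_lt hg.sx (by omega) hi1
      have sYj : Y.getD j' 0 < Y.getD (j' + 1) 0 := getD_lt hg.sy (by omega) hj'1
      apply s2
      · rw [← h.par_left, hq2, h.par_cell hg hi1 hj'1 (by omega) (by omega) le_rfl sYj, q1]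
        simp
      · rintro ⟨e, hS⟩
        apply q3
        have e' : i = a := by
          have := getD_inj hg.sx hi1 ha1 e
          omega
        refine ⟨e', ?_⟩
        intro t ht1 ht2
        have htY : t + 1 < Y.length := by omega
        have m1 : min (Y.getD j 0) (Y.getD j' 0) ≤ Y.getD t 0 := by
          rcases le_total j j' with h' | h'
          · rw [min_eq_left h'] at ht1
            exact (min_le_left _ _).trans (getD_le hg.sy ht1 (by omega))
          · rw [min_eq_right h'] at ht1
            exact (min_le_right _ _).trans (getD_le hg.sy ht1 (by omega))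
        have m2 : Y.getD t 0 ≤ max (Y.getD j 0) (Y.getD j' 0) := by
          rcases le_total j j' with h' | h'
          · rw [max_eq_right h'] at ht2
            exact (getD_le hg.sy ht2 (by omega)).trans (le_max_right _ _)
          · rw [max_eq_left h'] at ht2
            exact (getD_le hg.sy ht2 (by omega)).trans (le_max_left _ _)
        obtain ⟨p1, p2⟩ := hS (Y.getD t 0) m1 m2
        constructor
        · show cell V X Y a t = true
          rw [← hleft t htY]; exact p1
        · exact cell_iff.mpr ⟨ha2, htY, p2⟩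
    · intro i j' q1 q2
      show s (X.getD i 0) (Y.getD j' 0) = s (X.getD i 0) (Y.getD (j' + 1) 0)
      obtain ⟨hi1, hj'1, hq1⟩ := cell_iff.mp q1
      obtain ⟨_, hj'2, hq2⟩ := cell_iff.mp q2
      rw [← cY i j' hj'1]
      symm
      have sXi : X.getD i 0 < X.getD (i + 1) 0 := getD_lt hg.sx (by omega) hi1
      have sYj : Y.getD j' 0 < Y.getD (j' + 1) 0 := getD_lt hg.sy (by omega) hj'1
      apply s3
      rw [← h.par_down, hq2, h.par_cell hg hi1 hj'1 le_rfl sXi (by omega) (by omega), q1]
      simp
  · intro c i h1 h2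
    obtain ⟨hi1, hc1, hp1⟩ := cell_iff.mp h1
    obtain ⟨_, hc2, hp2⟩ := cell_iff.mp h2
    have sX : X.getD i 0 < X.getD (i + 1) 0 := getD_lt hg.sx (by omega) (by omega)
    have sY : Y.getD c 0 < Y.getD (c + 1) 0 := getD_lt hg.sy (by omega) (by omega)
    have hdown : ∀ r, r + 1 < X.length →
        par V (X.getD r 0) (Y.getD (c + 1) 0 - 1) = cell V X Y r c := by
      intro r hr
      have sXr : X.getD r 0 < X.getD (r + 1) 0 := getD_lt hg.sx (by omega) (by omega)
      exact h.par_cell hg hr hc1 le_rfl sXr (by omega) (by omega)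
    obtain ⟨s, s1, s2, s3⟩ := h.sepH (X.getD i 0) (Y.getD (c + 1) 0)
      (by rw [hdown i hi1]; exact h1) hp2
    have cX : ∀ i r, i + 1 < X.length → s (X.getD (i + 1) 0 - 1) (Y.getD r 0) =
        s (X.getD i 0) (Y.getD r 0) := by
      intro i r hi
      have sXi : X.getD i 0 < X.getD (i + 1) 0 := getD_lt hg.sx (by omega) hi
      exact const_x (fun z => s z (Y.getD r 0)) (by omega) (by omega)
        (fun z z1 z2 => s3 z _ (h.noEV hg hi z1 z2))
    have cY : ∀ i r, r + 1 < Y.length → s (X.getD i 0) (Y.getD (r + 1) 0 - 1) =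
        s (X.getD i 0) (Y.getD r 0) := by
      intro i r hr
      have sYr : Y.getD r 0 < Y.getD (r + 1) 0 := getD_lt hg.sy (by omega) hr
      exact const_x (X := Y) (fun z => s (X.getD i 0) z) (by omega) (by omega) (fun z z1 z2 => by
        apply s2 _ z (h.noEH hg hr z1 z2)
        rintro ⟨e, _⟩
        exact no_between hg.sy hr hc1 ⟨by omega, by omega⟩)
    refine ⟨fun i r => s (X.getD i 0) (Y.getD r 0), ?_, ?_, ?_⟩
    · show s (X.getD i 0) (Y.getD c 0) ≠ s (X.getD i 0) (Y.getD (c + 1) 0)
      rw [← cY i c hc1]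
      exact s1.symm
    · intro i' j' q1 q2 q3
      show s (X.getD i' 0) (Y.getD j' 0) = s (X.getD i' 0) (Y.getD (j' + 1) 0)
      obtain ⟨hi'1, hj'1, hq1⟩ := cell_iff.mp q1
      obtain ⟨_, hj'2, hq2⟩ := cell_iff.mp q2
      rw [← cY i' j' hj'1]
      symm
      have sXi : X.getD i' 0 < X.getD (i' + 1) 0 := getD_lt hg.sx (by omega) hi'1
      have sYj : Y.getD j' 0 < Y.getD (j' + 1) 0 := getD_lt hg.sy (by omega) hj'1
      apply s2
      · rw [← h.par_down, hq2, h.par_cell hg hi'1 hj'1 le_rfl sXi (by omega) (by omega), q1]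
        simp
      · rintro ⟨e, hS⟩
        apply q3
        have e' : j' = c := by
          have := getD_inj hg.sy hj'1 hc1 e
          omega
        refine ⟨e', ?_⟩
        intro t ht1 ht2
        have htX : t + 1 < X.length := by omega
        have m1 : min (X.getD i 0) (X.getD i' 0) ≤ X.getD t 0 := by
          rcases le_total i i' with h' | h'
          · rw [min_eq_left h'] at ht1
            exact (min_le_left _ _).trans (getD_le hg.sx ht1 (by omega))
          · rw [min_eq_right h'] at ht1
            exact (min_le_right _ _).trans (getD_le hg.sx ht1 (by omega))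
        have m2 : X.getD t 0 ≤ max (X.getD i 0) (X.getD i' 0) := by
          rcases le_total i i' with h' | h'
          · rw [max_eq_right h'] at ht2
            exact (getD_le hg.sx ht2 (by omega)).trans (le_max_right _ _)
          · rw [max_eq_left h'] at ht2
            exact (getD_le hg.sx ht2 (by omega)).trans (le_max_left _ _)
        obtain ⟨p1, p2⟩ := hS (X.getD t 0) m1 m2
        constructor
        · show cell V X Y t c = true
          rw [← hdown t htX]; exact p1
        · exact cell_iff.mpr ⟨htX, hc2, p2⟩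
    · intro i' j' q1 q2
      show s (X.getD i' 0) (Y.getD j' 0) = s (X.getD (i' + 1) 0) (Y.getD j' 0)
      obtain ⟨hi'1, hj'1, hq1⟩ := cell_iff.mp q1
      obtain ⟨hi'2, _, hq2⟩ := cell_iff.mp q2
      rw [← cX i' j' hi'1]
      symm
      have sXi : X.getD i' 0 < X.getD (i' + 1) 0 := getD_lt hg.sx (by omega) hi'1
      have sYj : Y.getD j' 0 < Y.getD (j' + 1) 0 := getD_lt hg.sy (by omega) hj'1
      apply s3
      rw [← h.par_left, hq2, h.par_cell hg hi'1 hj'1 (by omega) (by omega) le_rfl sYj, q1]
      simp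

end Pool.Agent.CSN
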