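import Pool.Agent.CSN.Feas

/-!
# Job CSN-B2: tables give trees
-/

set_option autoImplicit false

namespace Pool.Agent.CSN

namespace SoundAux

variable {P : ℕ → ℕ → Prop}

theorem op_lt (dir : ℕ) : op dir < 4 := by unfold op; split_ifs <;> omega

theorem edge_op {dir a j : ℕ} (hd : dir < 4) : Edge P (op dir) a j ↔ Edge P dir a j := by
  unfold Edge near far op
  interval_cases dir <;> simp [and_comm]

theorem same_op {dir a j j' : ℕ} (hd : dir < 4) : Same P (op dir) a j j' ↔ Same P dir a j j' := by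
  unfold Same
  simp only [edge_op hd]

theorem pos_op {R : IRect} {dir j : ℕ} (hd : dir < 4) : R.pos (op dir) j ↔ R.pos dir j := by
  unfold IRect.pos op
  interval_cases dir <;> simp

theorem same_symm {dir a j j' : ℕ} (h : Same P dir a j j') : Same P dir a j' j := by
  intro t h1 h2
  exact h t (by omega) (by omega)

theorem same_trans {dir a j j' j'' : ℕ} (h : Same P dir a j j') (h' : Same P dir a j' j'') :
    Same P dir a j j'' := by
  intro t h1 h2
  by_cases h3 : min j j' ≤ t ∧ t ≤ max j j'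
  · exact h t h3.1 h3.2
  · exact h' t (by omega) (by omega)

theorem same_edge {dir a j j' : ℕ} (h : Same P dir a j j') : Edge P dir a j :=
  h j (by omega) (by omega)

theorem same_refl {dir a j : ℕ} (h : Edge P dir a j) : Same P dir a j j := by
  intro t h1 h2
  have : t = j := by omega
  rw [this]; exact h

/-- Chords through a side of a valid rectangle do not leave the side. -/
theorem pos_of_same {R : IRect} (hV : Valid P R) {d j j' : ℕ} (hd : d < 4) (hp : R.pos d j)
    (h : Same P d (R.line d) j j') : R.pos d j' := by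
  have h1 := hV.ac
  have h2 := hV.ad
  have h3 := hV.bc
  have h4 := hV.bd
  by_contra hn
  unfold Same Edge near far at h
  unfold IRect.pos IRect.line at *
  unfold Ipt at *
  interval_cases d
  · simp only [if_true, Nat.ofNat_pos] at *
    rcases lt_or_ge R.c j' with h5 | h5
    · have h6 : R.d < j' := by
        by_contra h7; exact hn ⟨h5, by omega⟩
      have e1 := h R.d (by omega) (by omega)
      have e2 := h (R.d + 1) (by omega) (by omega)
      exact h4 ⟨e1.1, e1.2, e2.1, e2.2⟩
    · have e1 := h R.c (by omega) (by omega)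
      have e2 := h (R.c + 1) (by omega) (by omega)
      exact h3 ⟨e1.1, e1.2, e2.1, e2.2⟩
  · simp only [one_ne_zero, if_true, if_false, Nat.one_lt_ofNat] at *
    rcases lt_or_ge R.c j' with h5 | h5
    · have h6 : R.d < j' := by
        by_contra h7; exact hn ⟨h5, by omega⟩
      have e1 := h R.d (by omega) (by omega)
      have e2 := h (R.d + 1) (by omega) (by omega)
      exact h2 ⟨e1.2, e1.1, e2.2, e2.1⟩
    · have e1 := h R.c (by omega) (by omega)
      have e2 := h (R.c + 1) (by omega) (by omega)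
      exact h1 ⟨e1.2, e1.1, e2.2, e2.1⟩
  · simp only [OfNat.ofNat_ne_zero, OfNat.ofNat_ne_one, if_true, if_false, lt_irrefl] at *
    rcases lt_or_ge R.a j' with h5 | h5
    · have h6 : R.b < j' := by
        by_contra h7; exact hn ⟨h5, by omega⟩
      have e1 := h R.b (by omega) (by omega)
      have e2 := h (R.b + 1) (by omega) (by omega)
      exact h4 ⟨e1.1, e2.1, e1.2, e2.2⟩
    · have e1 := h R.a (by omega) (by omega)
      have e2 := h (R.a + 1) (by omega) (by omega)
      exact h2 ⟨e1.1, e2.1, e1.2, e2.2⟩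
  · have h32 : ((3 : ℕ) = 2) = False := by simp
    have h322 : ((3 : ℕ) < 2) = False := by simp
    simp only [OfNat.ofNat_ne_zero, OfNat.ofNat_ne_one, if_false, h32, h322] at *
    rcases lt_or_ge R.a j' with h5 | h5
    · have h6 : R.b < j' := by
        by_contra h7; exact hn ⟨h5, by omega⟩
      have e1 := h R.b (by omega) (by omega)
      have e2 := h (R.b + 1) (by omega) (by omega)
      exact h3 ⟨e1.2, e2.2, e1.1, e2.1⟩
    · have e1 := h R.a (by omega) (by omega)
      have e2 := h (R.a + 1) (by omega) (by omega)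
      exact h1 ⟨e1.2, e2.2, e1.1, e2.1⟩

theorem edge_le {N : ℕ} (hS : Supp P N) {dir a j : ℕ} (hd : dir < 4)
    (h : Edge P dir a j) : a ≤ N ∧ j ≤ N := by
  obtain ⟨h1, h2⟩ := h
  have h3 := hS _ _ h1
  have h4 := hS _ _ h2
  unfold near far at *
  interval_cases dir <;> simp at h3 h4 <;> omega

theorem feasN_succ {k h : ℕ} : ∀ {dir a j : ℕ} {f : ℕ → ℕ}, FeasN P k h dir a j f →
    FeasN P k (h + 1) dir a j f := by
  induction h with
  | zero => intro dir a j f hf; exact hf.elim
  | succ h ih =>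
    rintro dir a j f ⟨he, R, F, L, h1, h2, h3, h4, h5, h6, h7, h8⟩
    refine ⟨he, R, F, L, h1, h2, h3, ?_, h5, h6, h7, h8⟩
    intro d hd j' hp hj he'
    exact ⟨ih (h4 d hd j' hp hj he').1, (h4 d hd j' hp hj he').2⟩

theorem feasN_mono {k h h' : ℕ} (hh : h ≤ h') {dir a j : ℕ} {f : ℕ → ℕ}
    (hf : FeasN P k h dir a j f) : FeasN P k h' dir a j f := by
  induction h', hh using Nat.le_induction with
  | base => exact hf
  | succ n _ ih => exact feasN_succ ih

theorem ex_congr {dir a j j₂ d j' : ℕ} (h : Same P dir a j j₂) :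
    Ex P dir a j₂ d j' ↔ Ex P dir a j d j' := by
  unfold Ex
  constructor
  · rintro ⟨h1, h2⟩; exact ⟨h1, same_trans h h2⟩
  · rintro ⟨h1, h2⟩; exact ⟨h1, same_trans (same_symm h) h2⟩

theorem feasN_same {k h dir a j j₂ : ℕ} {f : ℕ → ℕ} (hd : dir < 4) (hs : Same P dir a j j₂)
    (hf : FeasN P k h dir a j f) : FeasN P k h dir a j₂ f := by
  cases h with
  | zero => exact hf.elim
  | succ h =>
    obtain ⟨he, R, F, L, h1, h2, h3, h4, h5, h6, h7, h8⟩ := hf
    refine ⟨same_edge (same_symm hs), R, F, L, h1, h2, ?_, ?_, ?_, h6, h7, ?_⟩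
    · rw [← pos_op hd]
      refine pos_of_same h1 (op_lt dir) ((pos_op hd).2 h3) ?_
      rw [h2, same_op hd]
      exact hs
    · intro d hd' j' hp hj hex
      exact h4 d hd' j' hp hj (fun h => hex ((ex_congr hs).2 h))
    · intro d hd' j' hp hj
      exact h5 d hd' j' hp (fun h => hj ⟨h.1, fun h' => h.2 ((ex_congr hs).1 h')⟩)
    · intro j' hj'
      exact h8 j' (same_trans hs hj')

theorem feas_same {k dir a j j₂ : ℕ} {f : ℕ → ℕ} (hd : dir < 4) (hs : Same P dir a j j₂)
    (hf : Feas P k dir a j f) : Feas P k dir a j₂ f := by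
  obtain ⟨h, hf⟩ := hf
  exact ⟨h, feasN_same hd hs hf⟩

/-- One tree for a whole chord. -/
theorem chord_tree (hk : TargetKey) {N k : ℕ} (hS : Supp P N) {G : Tab}
    (hG : ∀ dir a j, dir < 4 → Edge P dir a j → G dir a j ≤ k →
      ∃ f, Feas P k dir a j f ∧ f j ≤ G dir a j)
    {d a j : ℕ} (hd : d < 4) (he : Edge P d a j) (hle : ∀ t, Same P d a j t → G d a t ≤ k) :
    ∃ f, ∀ t, Same P d a j t → Feas P k d a t f ∧ f t ≤ G d a t := by
  have h1 : ∀ T : Finset ℕ, ∃ f, Feas P k d a j f ∧ ∀ t ∈ T, Same P d a j t → f t ≤ G d a t := by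
    intro T
    induction T using Finset.induction_on with
    | empty =>
      obtain ⟨f, hf, -⟩ := hG d a j hd he (hle j (same_refl he))
      exact ⟨f, hf, by simp⟩
    | insert t T _ ih =>
      obtain ⟨f, hf, hfT⟩ := ih
      by_cases hs : Same P d a j t
      · obtain ⟨g, hg, hgt⟩ := hG d a t hd (same_edge (same_symm hs)) (hle t hs)
        have hg' := feas_same hd (same_symm hs) hg
        obtain ⟨f', hf', hle'⟩ := hk P N k d a j f g hS hd hf hg'
        refine ⟨f', hf', ?_⟩
        intro s hsT hss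
        rcases Finset.mem_insert.1 hsT with rfl | hsT
        · exact (hle' s hss).2.trans hgt
        · exact (hle' s hss).1.trans (hfT s hsT hss)
      · refine ⟨f, hf, ?_⟩
        intro s hsT hss
        rcases Finset.mem_insert.1 hsT with rfl | hsT
        · exact absurd hss hs
        · exact hfT s hsT hss
  obtain ⟨f, hf, hfT⟩ := h1 (Finset.range (N + 1))
  refine ⟨f, ?_⟩
  intro t ht
  refine ⟨feas_same hd ht hf, hfT t ?_ ht⟩
  have := (edge_le hS hd (same_edge (same_symm ht))).2
  exact Finset.mem_range.2 (by omega)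

theorem condL_le {k : ℕ} {R : IRect} {L : ℕ → ℕ → ℕ} (h : CondL k R L) {d j : ℕ} (hd : d < 4)
    (hp : R.pos d j) : L d j ≤ k := by
  obtain ⟨h1, h2⟩ := h
  interval_cases d
  · have := h1 j hp; omega
  · have := h1 j ((pos_op (dir := 0) (by omega)).1 hp); omega
  · have := h2 j hp; omega
  · have := h2 j ((pos_op (dir := 2) (by omega)).1 hp); omega

theorem condL_mono {k : ℕ} {R : IRect} {L L' : ℕ → ℕ → ℕ} (h : CondL k R L)
    (hL : ∀ d < 4, ∀ j, R.pos d j → L' d j ≤ L d j) : CondL k R L' := by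
  obtain ⟨h1, h2⟩ := h
  refine ⟨fun j hj => ?_, fun j hj => ?_⟩
  · have e1 := h1 j hj
    have e2 := hL 0 (by omega) j hj
    have e3 := hL 1 (by omega) j ((pos_op (dir := 0) (by omega)).2 hj)
    omega
  · have e1 := h2 j hj
    have e2 := hL 2 (by omega) j hj
    have e3 := hL 3 (by omega) j ((pos_op (dir := 2) (by omega)).2 hj)
    omega

theorem exits (hk : TargetKey) {N k : ℕ} (hS : Supp P N) {G : Tab} {R : IRect} (hV : Valid P R)
    {ex : ℕ → ℕ → Prop}
    (hex : ∀ d < 4, ∀ j j', Same P d (R.line d) j j' → ex d j' → ex d j)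
    (hG : ∀ dir a j, dir < 4 → Edge P dir a j → G dir a j ≤ k →
      ∃ f, Feas P k dir a j f ∧ f j ≤ G dir a j)
    (hc : CondL k R (ld G R ex)) :
    ∃ (F : ℕ → ℕ → ℕ → ℕ) (L : ℕ → ℕ → ℕ),
      (∀ d < 4, ∀ j', R.pos d j' → Edge P d (R.line d) j' → ¬ ex d j' →
        Feas P k d (R.line d) j' (F d j') ∧ L d j' = F d j' j') ∧
      (∀ d < 4, ∀ j', R.pos d j' → ¬ (Edge P d (R.line d) j' ∧ ¬ ex d j') → L d j' = 0) ∧
      (∀ d < 4, ∀ j' j'', Same P d (R.line d) j' j'' → F d j' = F d j'') ∧
      CondL k R L ∧ (∀ d < 4, ∀ j', R.pos d j' → L d j' ≤ ld G R ex d j') := by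
  classical
  set good : ℕ → Set ℕ → (ℕ → ℕ) → Prop := fun d S f =>
    ∀ t ∈ S, Feas P k d (R.line d) t f ∧ f t ≤ G d (R.line d) t with hgood
  set H : ℕ → Set ℕ → ℕ → ℕ := fun d S =>
    if h : ∃ f, good d S f then h.choose else fun _ => 0 with hH
  set F : ℕ → ℕ → ℕ → ℕ := fun d j => H d {t | Same P d (R.line d) j t} with hF
  set L : ℕ → ℕ → ℕ := fun d j =>
    if Edge P d (R.line d) j ∧ ¬ ex d j then F d j j else 0 with hL
  have hFgood : ∀ d < 4, ∀ j', R.pos d j' → Edge P d (R.line d) j' → ¬ ex d j' →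
      Feas P k d (R.line d) j' (F d j') ∧ F d j' j' ≤ G d (R.line d) j' := by
    intro d hd j' hp he hn
    have h1 : ∃ f, good d {t | Same P d (R.line d) j' t} f := by
      obtain ⟨f, hf⟩ := chord_tree hk hS hG hd he (fun t ht => by
        have hpt := pos_of_same hV hd hp ht
        have hnt : ¬ ex d t := fun h => hn (hex d hd j' t ht h)
        have := condL_le hc hd hpt
        rwa [ld, if_neg hnt] at this)
      exact ⟨f, fun t ht => hf t ht⟩
    have h2 : good d {t | Same P d (R.line d) j' t} (F d j') := by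
      simp only [hF, hH]
      rw [dif_pos h1]
      exact h1.choose_spec
    exact h2 j' (same_refl he)
  have hLle : ∀ d < 4, ∀ j', R.pos d j' → L d j' ≤ ld G R ex d j' := by
    intro d hd j' hp
    by_cases h : Edge P d (R.line d) j' ∧ ¬ ex d j'
    · rw [ld, if_neg h.2]
      simp only [hL]
      rw [if_pos h]
      exact (hFgood d hd j' hp h.1 h.2).2
    · simp only [hL]
      rw [if_neg h]
      exact Nat.zero_le _
  refine ⟨F, L, ?_, ?_, ?_, condL_mono hc hLle, hLle⟩
  · intro d hd j' hp he hn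
    refine ⟨(hFgood d hd j' hp he hn).1, ?_⟩
    simp only [hL]
    rw [if_pos ⟨he, hn⟩]
  · intro d hd j' hp hn
    simp only [hL]
    rw [if_neg hn]
  · intro d hd j' j'' hs
    have : {t | Same P d (R.line d) j' t} = {t | Same P d (R.line d) j'' t} := by
      ext t
      exact ⟨fun h => same_trans (same_symm hs) h, fun h => same_trans hs h⟩
    simp only [hF]
    rw [this]

end SoundAux

open SoundAux in
theorem targetSound : TargetSound := by
  intro hk P N k G hS hinit hzero hstep
  have main : ∀ n dir a j, dir < 4 → Edge P dir a j → G n dir a j ≤ k →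
      ∃ f, Feas P k dir a j f ∧ f j ≤ G n dir a j := by
    intro n
    induction n with
    | zero =>
      intro dir a j hd he hle
      exact absurd hle (not_le.2 (hinit dir a j hd he))
    | succ n ih =>
      intro dir a j hd he hle
      obtain ⟨R, hR, hR1⟩ := hstep n dir a j hd he hle
      obtain ⟨F, L, h1, h2, h3, h4, h5⟩ := exits hk hS (G := G n) hR.valid
        (ex := Ex P dir a j) (by
          rintro d hd' j₁ j₂ hs ⟨he1, he2⟩
          refine ⟨he1, same_trans he2 ?_⟩
          subst he1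
          rw [same_op hd, hR.line] at hs
          exact same_symm hs) ih hR.cond
      -- a common height
      have hheight : ∃ h, ∀ d < 4, ∀ j', R.pos d j' → Edge P d (R.line d) j' →
          ¬ Ex P dir a j d j' → FeasN P k h d (R.line d) j' (F d j') := by
        classical
        have h6 : ∀ q : ℕ × ℕ, ∃ h, q.1 < 4 → R.pos q.1 q.2 → Edge P q.1 (R.line q.1) q.2 →
            ¬ Ex P dir a j q.1 q.2 → FeasN P k h q.1 (R.line q.1) q.2 (F q.1 q.2) := by
          intro q
          by_cases hq : q.1 < 4 ∧ R.pos q.1 q.2 ∧ Edge P q.1 (R.line q.1) q.2 ∧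
              ¬ Ex P dir a j q.1 q.2
          · obtain ⟨h, hh⟩ := (h1 q.1 hq.1 q.2 hq.2.1 hq.2.2.1 hq.2.2.2).1
            exact ⟨h, fun _ _ _ _ => hh⟩
          · exact ⟨0, fun a1 a2 a3 a4 => absurd ⟨a1, a2, a3, a4⟩ hq⟩
        choose H hH using h6
        refine ⟨(Finset.range 4 ×ˢ Finset.range (N + 1)).sup H, ?_⟩
        intro d hd' j' hp hj hn
        have hj' := (edge_le hS hd' hj).2
        refine feasN_mono ?_ (hH (d, j') hd' hp hj hn)
        refine Finset.le_sup (f := H) ?_
        rw [Finset.mem_product, Finset.mem_range, Finset.mem_range]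
        exact ⟨hd', by omega⟩
      obtain ⟨h, hh⟩ := hheight
      refine ⟨fun t => 1 + L dir t, ⟨h + 1, he, R, F, L, hR.valid, hR.line, hR.pos, ?_, h2, h3, h4,
        fun _ _ => rfl⟩, ?_⟩
      · intro d hd' j' hp hj hn
        exact ⟨hh d hd' j' hp hj hn, (h1 d hd' j' hp hj hn).2⟩
      · have h6 := h5 dir hd j hR.pos
        have h7 : ld (G n) R (Ex P dir a j) dir j ≤ G n dir (R.line dir) j := by
          unfold ld
          split_ifs <;> omega
        show 1 + L dir j ≤ G (n + 1) dir a j
        omega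
  refine ⟨main, ?_⟩
  rintro n i j ⟨R, hV, hm, hc⟩
  obtain ⟨F, L, h1, h2, h3, h4, -⟩ := exits hk hS (G := G n) hV (ex := fun _ _ => False)
    (fun _ _ _ _ _ h => h) (main n) hc
  refine ⟨R, F, L, hV, hm, ?_, ?_, h3, h4⟩
  · intro d hd j' hp he
    exact h1 d hd j' hp he (fun h => h)
  · intro d hd j' hp he
    exact h2 d hd j' hp (fun h => he h.1)

end Pool.Agent.CSN
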