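import Pool.Agent.CSN.Feas

/-!
# Job CSN-B5: what the functions `stepTab` and `final` do
-/

set_option autoImplicit false

namespace Pool.Agent.CSN

theorem foldl_min_le {α : Type*} (c : α → ℕ) (l : List α) (m : ℕ) :
    l.foldl (fun m q => min m (c q)) m ≤ m ∧
      ∀ q ∈ l, l.foldl (fun m q => min m (c q)) m ≤ c q := by
  induction l generalizing m with
  | nil => simp
  | cons x l ih =>
    rw [List.foldl_cons]
    obtain ⟨h1, h2⟩ := ih (min m (c x))
    refine ⟨h1.trans (min_le_left _ _), ?_⟩
    intro q hq
    rcases List.mem_cons.1 hq with rfl | hq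
    · exact h1.trans (min_le_right _ _)
    · exact h2 q hq

theorem foldl_min_eq {α : Type*} (c : α → ℕ) (l : List α) (m : ℕ) :
    l.foldl (fun m q => min m (c q)) m = m ∨
      ∃ q ∈ l, l.foldl (fun m q => min m (c q)) m = c q := by
  induction l generalizing m with
  | nil => simp
  | cons x l ih =>
    rw [List.foldl_cons]
    rcases ih (min m (c x)) with h | ⟨q, hq, h⟩
    · rcases min_choice m (c x) with h' | h'
      · left; rw [h, h']
      · right; exact ⟨x, List.mem_cons_self, by rw [h, h']⟩
    · right; exact ⟨q, List.mem_cons_of_mem _ hq, h⟩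

theorem mem_triples {N : ℕ} {q : ℕ × ℕ × ℕ} :
    q ∈ triples N ↔ q.1 ≤ N ∧ q.2.1 ≤ N ∧ q.2.2 ≤ N := by
  obtain ⟨x, y, z⟩ := q
  simp only [triples, List.mem_flatMap, List.mem_range, List.mem_map, Prod.mk.injEq]
  constructor
  · rintro ⟨x', hx, y', hy, z', hz, rfl, rfl, rfl⟩
    exact ⟨by omega, by omega, by omega⟩
  · rintro ⟨hx, hy, hz⟩
    exact ⟨x, by omega, y, by omega, z, by omega, rfl, rfl, rfl⟩

theorem allIoc_iff {N a b : ℕ} {f : ℕ → Bool} :
    allIoc N a b f = true ↔ ∀ i, i ≤ N → a < i → i ≤ b → f i = true := by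
  simp only [allIoc, List.all_eq_true, List.mem_range, Bool.or_eq_true, Bool.not_eq_true',
    Bool.and_eq_false_iff, decide_eq_false_iff_not]
  constructor
  · intro h i hi ha hb
    rcases h i (by omega) with (h | h) | h
    · exact absurd ha h
    · exact absurd hb h
    · exact h
  · intro h i hi
    by_cases ha : a < i
    · by_cases hb : i ≤ b
      · right; exact h i (by omega) ha hb
      · left; right; exact hb
    · left; left; exact ha

theorem edgeIn_iff {P : ℕ → ℕ → Bool} {dir a j : ℕ} (hd : dir < 4) :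
    edgeIn P dir a j = true ↔ Edge (fun i j => P i j = true) dir a j := by
  unfold edgeIn Edge near far
  interval_cases dir <;> simp [and_comm]

theorem ipt_iff {P : ℕ → ℕ → Bool} {a c : ℕ} :
    ipt P a c = true ↔ Ipt (fun i j => P i j = true) a c := by
  unfold ipt Ipt
  simp

theorem rectOK_iff {P : ℕ → ℕ → Bool} {N a b c d : ℕ} (hb : b ≤ N) (hd : d ≤ N) :
    rectOK P N a b c d = true ↔ Valid (fun i j => P i j = true) ⟨a, b, c, d⟩ := by
  unfold rectOK
  simp only [Bool.and_eq_true, decide_eq_true_eq, allIoc_iff, Bool.not_eq_true']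
  constructor
  · rintro ⟨⟨h1, h2⟩, h3, ⟨h4, h5⟩, h6, h7⟩
    refine ⟨h1, h2, ?_, ?_, ?_, ?_, ?_⟩
    · rintro i j ⟨hi1, hi2, hj1, hj2⟩
      exact h3 i (le_trans hi2 hb) hi1 hi2 j (le_trans hj2 hd) hj1 hj2
    · rw [← ipt_iff]; simp [h4]
    · rw [← ipt_iff]; simp [h5]
    · rw [← ipt_iff]; simp [h6]
    · rw [← ipt_iff]; simp [h7]
  · rintro ⟨h1, h2, h3, h4, h5, h6, h7⟩
    refine ⟨⟨h1, h2⟩, ?_, ⟨?_, ?_⟩, ?_, ?_⟩
    · intro i _ hi1 hi2 j _ hj1 hj2
      exact h3 i j ⟨hi1, hi2, hj1, hj2⟩
    · rw [← ipt_iff] at h4; simpa using h4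
    · rw [← ipt_iff] at h5; simpa using h5
    · rw [← ipt_iff] at h6; simpa using h6
    · rw [← ipt_iff] at h7; simpa using h7

theorem same_iff {P : ℕ → ℕ → Bool} {N dir a j j' : ℕ} (hd : dir < 4) (hj : j ≤ N)
    (hj' : j' ≤ N) :
    same P N dir a j j' = true ↔ Same (fun i j => P i j = true) dir a j j' := by
  unfold same Same
  simp only [List.all_eq_true, List.mem_range, Bool.or_eq_true, Bool.not_eq_true',
    Bool.and_eq_false_iff, decide_eq_false_iff_not]
  constructor
  · intro h t ht1 ht2
    have hmax : max j j' ≤ N := max_le hj hj'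
    rcases h t (by omega) with (h | h) | h
    · exact absurd ht1 h
    · exact absurd ht2 h
    · exact (edgeIn_iff hd).1 h
  · intro h t _
    by_cases h1 : min j j' ≤ t
    · by_cases h2 : t ≤ max j j'
      · right; exact (edgeIn_iff hd).2 (h t h1 h2)
      · left; right; exact h2
    · left; left; exact h1

theorem okCols_iff {N k : ℕ} {G : Tab} {a b c d : ℕ} {e e' : ℕ → Bool} :
    okCols N k G a b c d e e' = true ↔ ∀ i, i ≤ N → a < i → i ≤ b →
      (if e i then 0 else G 3 c i) + 1 + (if e' i then 0 else G 2 d i) ≤ k := by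
  unfold okCols
  simp only [allIoc_iff, decide_eq_true_eq]

theorem okRows_iff {N k : ℕ} {G : Tab} {a b c d : ℕ} {e e' : ℕ → Bool} :
    okRows N k G a b c d e e' = true ↔ ∀ j, j ≤ N → c < j → j ≤ d →
      (if e j then 0 else G 1 a j) + 1 + (if e' j then 0 else G 0 b j) ≤ k := by
  unfold okRows
  simp only [allIoc_iff, decide_eq_true_eq]

/-- The rectangle of the candidate. -/
def rectOf (dir a : ℕ) (q : ℕ × ℕ × ℕ) : IRect :=
  if dir = 0 then ⟨a, q.1, q.2.1, q.2.2⟩ else if dir = 1 then ⟨q.1, a, q.2.1, q.2.2⟩
  else if dir = 2 then ⟨q.2.1, q.2.2, a, q.1⟩ else ⟨q.2.1, q.2.2, q.1, a⟩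

/-- The triple of a rectangle. -/
def tripOf (dir : ℕ) (R : IRect) : ℕ × ℕ × ℕ :=
  if dir = 0 then (R.b, R.c, R.d) else if dir = 1 then (R.a, R.c, R.d)
  else if dir = 2 then (R.d, R.a, R.b) else (R.c, R.a, R.b)

theorem rectOf_tripOf {dir a : ℕ} (hd : dir < 4) {R : IRect} (h : R.line (op dir) = a) :
    rectOf dir a (tripOf dir R) = R := by
  subst h
  unfold rectOf tripOf IRect.line op
  interval_cases dir <;> simp

theorem rectOf_line_op {dir a : ℕ} (hd : dir < 4) (q : ℕ × ℕ × ℕ) :
    (rectOf dir a q).line (op dir) = a := by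
  unfold rectOf IRect.line op
  interval_cases dir <;> simp

theorem Valid.le {P : ℕ → ℕ → Prop} {N : ℕ} (hS : Supp P N) {R : IRect} (h : Valid P R) :
    R.a ≤ N ∧ R.b ≤ N ∧ R.c ≤ N ∧ R.d ≤ N := by
  have h1 := hS R.b R.d (h.sub R.b R.d ⟨h.ab, le_rfl, h.cd, le_rfl⟩)
  have h2 := h.ab
  have h3 := h.cd
  omega

theorem tripOf_mem {P : ℕ → ℕ → Prop} {N : ℕ} (hS : Supp P N) {R : IRect} (h : Valid P R)
    (dir : ℕ) : tripOf dir R ∈ triples N := by
  obtain ⟨h1, h2, h3, h4⟩ := h.le hS
  rw [mem_triples]
  unfold tripOf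
  split_ifs <;> exact ⟨by assumption, by assumption, by assumption⟩

theorem Edge.le {P : ℕ → ℕ → Prop} {N : ℕ} (hS : Supp P N) {dir a j : ℕ} (hd : dir < 4)
    (h : Edge P dir a j) : a ≤ N ∧ j ≤ N := by
  obtain ⟨h1, h2⟩ := h
  have h3 := hS _ _ h1
  have h4 := hS _ _ h2
  unfold near far at *
  interval_cases dir <;> simp at h3 h4 <;> omega

theorem cand_eq {P : ℕ → ℕ → Bool} {N k : ℕ} {G : Tab} (hS : Supp (fun i j => P i j = true) N)
    {dir a j : ℕ} (hd : dir < 4) (he : Edge (fun i j => P i j = true) dir a j)
    {q : ℕ × ℕ × ℕ} (hq : q ∈ triples N) :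
    (CandOK (fun i j => P i j = true) k G dir a j (rectOf dir a q) ∧
      cand P N k G dir a j q = 1 + G dir ((rectOf dir a q).line dir) j) ∨
    (¬ CandOK (fun i j => P i j = true) k G dir a j (rectOf dir a q) ∧
      cand P N k G dir a j q = k + 1) := by
  obtain ⟨hq1, hq2, hq3⟩ := mem_triples.1 hq
  obtain ⟨ha, hj⟩ := he.le hS hd
  have key : ∀ (b : Bool) (x : ℕ),
      (b = true ↔ CandOK (fun i j => P i j = true) k G dir a j (rectOf dir a q)) →
      (CandOK (fun i j => P i j = true) k G dir a j (rectOf dir a q) ∧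
        (if b then x else k + 1) = x) ∨
      (¬ CandOK (fun i j => P i j = true) k G dir a j (rectOf dir a q) ∧
        (if b then x else k + 1) = k + 1) := by
    intro b x hb
    by_cases h : CandOK (fun i j => P i j = true) k G dir a j (rectOf dir a q)
    · left
      exact ⟨h, by rw [if_pos (hb.2 h)]⟩
    · right
      exact ⟨h, by rw [if_neg (fun h' => h (hb.1 h'))]⟩
  have hcond : ∀ R : IRect, CandOK (fun i j => P i j = true) k G dir a j R ↔
      Valid (fun i j => P i j = true) R ∧ R.line (op dir) = a ∧ R.pos dir j ∧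
      CondL k R (ld G R (Ex (fun i j => P i j = true) dir a j)) := by
    intro R
    exact ⟨fun h => ⟨h.1, h.2, h.3, h.4⟩, fun h => ⟨h.1, h.2.1, h.2.2.1, h.2.2.2⟩⟩
  have hsame : ∀ t, t ≤ N → (same P N dir a j t = true ↔
      Same (fun i j => P i j = true) dir a j t) := fun t ht => same_iff hd hj ht
  unfold cand
  interval_cases dir
  · simp only [if_true]
    refine key _ _ ?_
    rw [hcond]
    simp only [rectOf, if_true, Bool.and_eq_true, rectOK_iff hq1 hq3, okCols_iff, okRows_iff,
      decide_eq_true_eq, noEx, CondL, ld, Ex, IRect.pos, IRect.line, op]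
    constructor
    · rintro ⟨⟨hv, hp1, hp2⟩, hc, hr⟩
      refine ⟨hv, by simp, by simpa using ⟨hp1, hp2⟩, ?_, ?_⟩
      · intro t ht
        have ht' : q.2.1 < t ∧ t ≤ q.2.2 := by simpa using ht
        have htN : t ≤ N := ht'.2.trans hq3
        have h := hr t htN ht'.1 ht'.2
        by_cases hs : Same (fun i j => P i j = true) 0 a j t
        · simpa [hs, (hsame t htN).2 hs] using h
        · have : same P N 0 a j t = false := by
            rw [← Bool.not_eq_true]; exact fun h' => hs ((hsame t htN).1 h')
          simpa [hs, this] using h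
      · intro t ht
        have ht' : a < t ∧ t ≤ q.1 := by simpa using ht
        have h := hc t (ht'.2.trans hq1) ht'.1 ht'.2
        simpa using h
    · rintro ⟨hv, -, hp, hr, hc⟩
      refine ⟨⟨hv, by simpa using hp⟩, ?_, ?_⟩
      · intro t htN h1 h2
        have h := hc t (by simpa using ⟨h1, h2⟩)
        simpa using h
      · intro t htN h1 h2
        have h := hr t (by simpa using ⟨h1, h2⟩)
        by_cases hs : Same (fun i j => P i j = true) 0 a j t
        · simpa [hs, (hsame t htN).2 hs] using h
        · have : same P N 0 a j t = false := by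
            rw [← Bool.not_eq_true]; exact fun h' => hs ((hsame t htN).1 h')
          simpa [hs, this] using h
  · have h10 : ((1 : ℕ) = 0) = False := by simp
    simp only [h10, if_true, if_false]
    refine key _ _ ?_
    rw [hcond]
    simp only [rectOf, h10, if_true, if_false, Bool.and_eq_true, rectOK_iff ha hq3, okCols_iff,
      okRows_iff, decide_eq_true_eq, noEx, CondL, ld, Ex, IRect.pos, IRect.line, op]
    constructor
    · rintro ⟨⟨hv, hp1, hp2⟩, hc, hr⟩
      refine ⟨hv, by simp, by simpa using ⟨hp1, hp2⟩, ?_, ?_⟩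
      · intro t ht
        have ht' : q.2.1 < t ∧ t ≤ q.2.2 := by simpa using ht
        have htN : t ≤ N := ht'.2.trans hq3
        have h := hr t htN ht'.1 ht'.2
        by_cases hs : Same (fun i j => P i j = true) 1 a j t
        · simpa [hs, (hsame t htN).2 hs] using h
        · have : same P N 1 a j t = false := by
            rw [← Bool.not_eq_true]; exact fun h' => hs ((hsame t htN).1 h')
          simpa [hs, this] using h
      · intro t ht
        have ht' : q.1 < t ∧ t ≤ a := by simpa using ht
        have h := hc t (ht'.2.trans ha) ht'.1 ht'.2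
        simpa using h
    · rintro ⟨hv, -, hp, hr, hc⟩
      refine ⟨⟨hv, by simpa using hp⟩, ?_, ?_⟩
      · intro t htN h1 h2
        have h := hc t (by simpa using ⟨h1, h2⟩)
        simpa using h
      · intro t htN h1 h2
        have h := hr t (by simpa using ⟨h1, h2⟩)
        by_cases hs : Same (fun i j => P i j = true) 1 a j t
        · simpa [hs, (hsame t htN).2 hs] using h
        · have : same P N 1 a j t = false := by
            rw [← Bool.not_eq_true]; exact fun h' => hs ((hsame t htN).1 h')
          simpa [hs, this] using h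
  · have h20 : ((2 : ℕ) = 0) = False := by simp
    have h21 : ((2 : ℕ) = 1) = False := by simp
    simp only [h20, h21, if_true, if_false]
    refine key _ _ ?_
    rw [hcond]
    simp only [rectOf, h20, h21, if_true, if_false, Bool.and_eq_true, rectOK_iff hq3 hq1,
      okCols_iff, okRows_iff, decide_eq_true_eq, noEx, CondL, ld, Ex, IRect.pos, IRect.line, op]
    constructor
    · rintro ⟨⟨hv, hp1, hp2⟩, hc, hr⟩
      refine ⟨hv, by simp, by simpa using ⟨hp1, hp2⟩, ?_, ?_⟩
      · intro t ht
        have ht' : a < t ∧ t ≤ q.1 := by simpa using ht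
        have h := hr t (ht'.2.trans hq1) ht'.1 ht'.2
        simpa using h
      · intro t ht
        have ht' : q.2.1 < t ∧ t ≤ q.2.2 := by simpa using ht
        have htN : t ≤ N := ht'.2.trans hq3
        have h := hc t htN ht'.1 ht'.2
        by_cases hs : Same (fun i j => P i j = true) 2 a j t
        · simpa [hs, (hsame t htN).2 hs] using h
        · have : same P N 2 a j t = false := by
            rw [← Bool.not_eq_true]; exact fun h' => hs ((hsame t htN).1 h')
          simpa [hs, this] using h
    · rintro ⟨hv, -, hp, hr, hc⟩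
      refine ⟨⟨hv, by simpa using hp⟩, ?_, ?_⟩
      · intro t htN h1 h2
        have h := hc t (by simpa using ⟨h1, h2⟩)
        by_cases hs : Same (fun i j => P i j = true) 2 a j t
        · simpa [hs, (hsame t htN).2 hs] using h
        · have : same P N 2 a j t = false := by
            rw [← Bool.not_eq_true]; exact fun h' => hs ((hsame t htN).1 h')
          simpa [hs, this] using h
      · intro t htN h1 h2
        have h := hr t (by simpa using ⟨h1, h2⟩)
        simpa using h
  · have h30 : ((3 : ℕ) = 0) = False := by simp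
    have h31 : ((3 : ℕ) = 1) = False := by simp
    have h32 : ((3 : ℕ) = 2) = False := by simp
    simp only [h30, h31, h32, if_false]
    refine key _ _ ?_
    rw [hcond]
    simp only [rectOf, h30, h31, h32, if_true, if_false, Bool.and_eq_true, rectOK_iff hq3 ha,
      okCols_iff, okRows_iff, decide_eq_true_eq, noEx, CondL, ld, Ex, IRect.pos, IRect.line, op]
    constructor
    · rintro ⟨⟨hv, hp1, hp2⟩, hc, hr⟩
      refine ⟨hv, by simp, by simpa using ⟨hp1, hp2⟩, ?_, ?_⟩
      · intro t ht
        have ht' : q.1 < t ∧ t ≤ a := by simpa using ht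
        have h := hr t (ht'.2.trans ha) ht'.1 ht'.2
        simpa using h
      · intro t ht
        have ht' : q.2.1 < t ∧ t ≤ q.2.2 := by simpa using ht
        have htN : t ≤ N := ht'.2.trans hq3
        have h := hc t htN ht'.1 ht'.2
        by_cases hs : Same (fun i j => P i j = true) 3 a j t
        · simpa [hs, (hsame t htN).2 hs] using h
        · have : same P N 3 a j t = false := by
            rw [← Bool.not_eq_true]; exact fun h' => hs ((hsame t htN).1 h')
          simpa [hs, this] using h
    · rintro ⟨hv, -, hp, hr, hc⟩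
      refine ⟨⟨hv, by simpa using hp⟩, ?_, ?_⟩
      · intro t htN h1 h2
        have h := hc t (by simpa using ⟨h1, h2⟩)
        by_cases hs : Same (fun i j => P i j = true) 3 a j t
        · simpa [hs, (hsame t htN).2 hs] using h
        · have : same P N 3 a j t = false := by
            rw [← Bool.not_eq_true]; exact fun h' => hs ((hsame t htN).1 h')
          simpa [hs, this] using h
      · intro t htN h1 h2
        have h := hr t (by simpa using ⟨h1, h2⟩)
        simpa using h

theorem targetUnfold : TargetUnfold := by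
  intro P N k G hS
  have hedge : ∀ dir a j, dir < 4 → ¬ Edge (fun i j => P i j = true) dir a j →
      edgeIn P dir a j = false := by
    intro dir a j hd he
    rw [← Bool.not_eq_true]
    exact fun h => he ((edgeIn_iff hd).1 h)
  refine ⟨?_, ?_, ?_, ?_⟩
  · intro dir a j hd he
    simp [stepTab, hedge dir a j hd he]
  · intro dir a j hd he
    simp [initTab, hedge dir a j hd he]
  · intro dir a j hd he
    simp [initTab, (edgeIn_iff hd).2 he]
  · intro _
    have hstep : ∀ dir a j, dir < 4 → Edge (fun i j => P i j = true) dir a j →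
        stepTab P N k G dir a j =
          (triples N).foldl (fun m q => min m (cand P N k G dir a j q)) (k + 1) := by
      intro dir a j hd he
      simp [stepTab, (edgeIn_iff hd).2 he]
    refine ⟨?_, ?_, ?_⟩
    · intro dir a j R hd he hR
      rw [hstep dir a j hd he]
      have hq := tripOf_mem hS hR.valid dir
      have h1 := (foldl_min_le (cand P N k G dir a j) (triples N) (k + 1)).2 _ hq
      have h2 := rectOf_tripOf hd hR.line
      rcases cand_eq (k := k) (G := G) hS hd he hq with ⟨-, h3⟩ | ⟨h3, -⟩
      · rw [h3, h2] at h1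
        exact h1
      · rw [h2] at h3
        exact absurd hR h3
    · intro dir a j hd he hle
      rw [hstep dir a j hd he] at hle ⊢
      rcases foldl_min_eq (cand P N k G dir a j) (triples N) (k + 1) with h | ⟨q, hq, h⟩
      · rw [h] at hle
        omega
      · rcases cand_eq (k := k) (G := G) hS hd he hq with ⟨h2, h3⟩ | ⟨-, h3⟩
        · exact ⟨rectOf dir a q, h2, by rw [h, h3]⟩
        · rw [h, h3] at hle
          omega
    · unfold final
      simp only [List.all_eq_true, List.mem_range, Bool.or_eq_true, Bool.not_eq_true',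
        List.any_eq_true, Bool.and_eq_true, decide_eq_true_eq]
      constructor
      · intro h i j hij
        obtain ⟨-, hi, -, hj⟩ := hS i j hij
        rcases h i (by omega) j (by omega) with h | ⟨a, ha, q, hq, ⟨h1, ⟨h2, h3⟩, h4, h5⟩, h6, h7⟩
        · rw [h] at hij
          exact absurd hij (by simp)
        · obtain ⟨hq1, hq2, hq3⟩ := mem_triples.1 hq
          refine ⟨⟨a, q.1, q.2.1, q.2.2⟩, (rectOK_iff hq1 hq3).1 h1, ⟨h2, h3, h4, h5⟩, ?_, ?_⟩
          · intro t ht
            have ht' : q.2.1 < t ∧ t ≤ q.2.2 := by simpa [IRect.pos] using ht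
            have h := okRows_iff.1 h7 t (ht'.2.trans hq3) ht'.1 ht'.2
            simpa [ld, noEx, IRect.line] using h
          · intro t ht
            have ht' : a < t ∧ t ≤ q.1 := by simpa [IRect.pos] using ht
            have h := okCols_iff.1 h6 t (ht'.2.trans hq1) ht'.1 ht'.2
            simpa [ld, noEx, IRect.line] using h
      · intro h i hi j hj
        by_cases hij : P i j = true
        · right
          obtain ⟨R, hv, ⟨h2, h3, h4, h5⟩, hr, hc⟩ := h i j hij
          obtain ⟨ha, hb, hc', hd⟩ := hv.le hS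
          refine ⟨R.a, by omega, (R.b, R.c, R.d), mem_triples.2 ⟨hb, hc', hd⟩,
            ⟨(rectOK_iff hb hd).2 hv, ⟨h2, h3⟩, h4, h5⟩, ?_, ?_⟩
          · rw [okCols_iff]
            intro t _ h6 h7
            have h8 := hc t (by simpa [IRect.pos] using ⟨h6, h7⟩)
            simpa [ld, noEx, IRect.line] using h8
          · rw [okRows_iff]
            intro t _ h6 h7
            have h8 := hr t (by simpa [IRect.pos] using ⟨h6, h7⟩)
            simpa [ld, noEx, IRect.line] using h8
        · left
          simpa using hij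

end Pool.Agent.CSN
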