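import Pool.Agent.CSN.Check
import Pool.Agent.CSN.Round
import Pool.Agent.CSN.Inner
import Pool.Agent.CSN.Local
import Pool.Agent.CSN.Sep
import Pool.Agent.CSN.Realize
import Pool.Agent.CSN.Complete
import Pool.Agent.CSN.Unfold
import Pool.Agent.CSN.Sound
import Pool.Agent.CSN.Key

/-!
# Assembly
-/

set_option autoImplicit false

namespace Pool.Agent.CSN

open Pool.Agent.PT

/-- The dynamic program is correct. -/
theorem dp_correct : TargetDP :=
  targetDP targetKey targetSound targetRealize targetComplete targetUnfold

/-- The decision procedure is correct on all instances. -/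
theorem csnFull_iff (V : List (ℤ × ℤ)) (k : ℕ) :
    csnFull (V, k) = true ↔ IsRectilinear V ∧ CsnLe V k := by
  unfold csnFull
  rw [Bool.and_eq_true, recB_iff]
  constructor
  · rintro ⟨h1, h2⟩
    exact ⟨h1, (csnAlg_correct (targetInner targetUnit) (targetLocal targetUnit)
      (targetTF targetUnit) targetRound dp_correct h1 k).mp h2⟩
  · rintro ⟨h1, h2⟩
    exact ⟨h1, (csnAlg_correct (targetInner targetUnit) (targetLocal targetUnit)
      (targetTF targetUnit) targetRound dp_correct h1 k).mpr h2⟩

/-- The main theorem, given the closure properties of polynomial time. -/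
theorem main (hC : Core) : Function.Injective encInst ∧ ∃ f : List (ℤ × ℤ) × ℕ → Bool,
    Nonempty (Turing.TM2ComputableInPolyTime encInst encBool f) ∧
    ∀ (V : List (ℤ × ℤ)) (k : ℕ), f (V, k) = true ↔ IsRectilinear V ∧ CsnLe V k := by
  haveI : Fact Core := ⟨hC⟩
  exact ⟨encInst_injective, csnFull, tm_of_polyF csnFull_pt, csnFull_iff⟩

end Pool.Agent.CSN
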