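import Pool.Agent.CSN.Path

/-!
# Parity of the cells and the boundary, in terms of a unit step path
-/

set_option autoImplicit false

namespace Pool.Agent.CSN

namespace UnitPath

variable {V : List (ℤ × ℤ)} {L : ℕ} {w : ℕ → ℤ × ℤ}

theorem pos (h : UnitPath V L w) : 0 < L := by have := h.four; omega

theorem w_mod (h : UnitPath V L w) (t : ℕ) : w t = w (t % L) := by
  induction t using Nat.strong_induction_on with
  | _ t ih =>
    by_cases ht : t < L
    · rw [Nat.mod_eq_of_lt ht]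
    · have h1 := ih (t - L) (by have := h.pos; omega)
      have h2 := h.per (t - L)
      rw [Nat.sub_add_cancel (by omega)] at h2
      rw [h2, h1]
      congr 1
      conv_rhs => rw [← Nat.sub_add_cancel (by omega : L ≤ t), Nat.add_mod_right]

theorem closed (h : UnitPath V L w) : w L = w 0 := by
  have := h.per 0
  rwa [Nat.zero_add] at this

/-- Equal members of the path have congruent indices. -/
theorem mod_eq (h : UnitPath V L w) {s t : ℕ} (hst : w s = w t) : s % L = t % L := by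
  rw [h.w_mod s, h.w_mod t] at hst
  exact h.inj _ (Nat.mod_lt _ h.pos) _ (Nat.mod_lt _ h.pos) hst

/-- Consecutive members of the path from congruent indices. -/
theorem succ_eq (h : UnitPath V L w) {s t : ℕ} (hst : w s = w t) : w (s + 1) = w (t + 1) := by
  have h1 := h.mod_eq hst
  rw [h.w_mod (s + 1), h.w_mod (t + 1), Nat.add_mod, h1, ← Nat.add_mod]

/-- Preceding members of the path from congruent indices. -/
theorem pred_eq (h : UnitPath V L w) {s t : ℕ} (hst : w (s + 1) = w (t + 1)) : w s = w t := by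
  have h1 := h.mod_eq hst
  have h2 : s % L = t % L := by
    have : s + 1 ≡ t + 1 [MOD L] := h1
    exact Nat.ModEq.add_right_cancel' 1 this
  rw [h.w_mod s, h.w_mod t, h2]

/-- The path does not turn back. -/
theorem ne_two (h : UnitPath V L w) (t : ℕ) : w t ≠ w (t + 2) := by
  intro h1
  have h2 : t ≡ t + 2 [MOD L] := h.mod_eq h1
  have h3 : 0 ≡ 2 [MOD L] := Nat.ModEq.add_left_cancel' t (by simpa using h2)
  have h4 := h.four
  have h5 : (0 : ℕ) % L = 2 % L := h3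
  rw [Nat.zero_mod, Nat.mod_eq_of_lt (by omega)] at h5
  omega

theorem onV_unique (h : UnitPath V L w) {x y : ℤ} {s t : ℕ} (hs : s < L) (ht : t < L)
    (h1 : OnV w x y s) (h2 : OnV w x y t) : s = t := by
  rcases h1 with ⟨a, b⟩ | ⟨a, b⟩ <;> rcases h2 with ⟨c, d⟩ | ⟨c, d⟩
  · exact h.inj s hs t ht (a.trans c.symm)
  · exfalso
    have e1 : w (s + 1) = w t := b.trans c.symm
    have e2 : w (s + 2) = w (t + 1) := h.succ_eq e1
    exact h.ne_two s (by rw [e2, a, d])
  · exfalso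
    have e1 : w (s + 1) = w t := b.trans c.symm
    have e2 : w (s + 2) = w (t + 1) := h.succ_eq e1
    exact h.ne_two s (by rw [e2, a, d])
  · exact h.inj s hs t ht (a.trans c.symm)

theorem onH_unique (h : UnitPath V L w) {x y : ℤ} {s t : ℕ} (hs : s < L) (ht : t < L)
    (h1 : OnH w x y s) (h2 : OnH w x y t) : s = t := by
  rcases h1 with ⟨a, b⟩ | ⟨a, b⟩ <;> rcases h2 with ⟨c, d⟩ | ⟨c, d⟩
  · exact h.inj s hs t ht (a.trans c.symm)
  · exfalso
    have e1 : w (s + 1) = w t := b.trans c.symm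
    have e2 : w (s + 2) = w (t + 1) := h.succ_eq e1
    exact h.ne_two s (by rw [e2, a, d])
  · exfalso
    have e1 : w (s + 1) = w t := b.trans c.symm
    have e2 : w (s + 2) = w (t + 1) := h.succ_eq e1
    exact h.ne_two s (by rw [e2, a, d])
  · exact h.inj s hs t ht (a.trans c.symm)

/-- The parity changes exactly across the vertical edges of the path. -/
theorem par_ne_iffV (h : UnitPath V L w) (x y : ℤ) :
    CSN.par V x y ≠ CSN.par V (x - 1) y ↔ ∃ t < L, OnV w x y t := by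
  rw [h.par, h.par, cntL_succ w L (fun t _ => h.step t) x y]
  have hle : ((Finset.range L).filter (OnV w x y)).card ≤ 1 := by
    rw [Finset.card_le_one]
    intro a ha b hb
    simp only [Finset.mem_filter, Finset.mem_range] at ha hb
    exact h.onV_unique ha.1 hb.1 ha.2 hb.2
  have hpos : (0 < ((Finset.range L).filter (OnV w x y)).card) ↔ ∃ t < L, OnV w x y t := by
    rw [Finset.card_pos]
    constructor
    · rintro ⟨t, ht⟩
      simp only [Finset.mem_filter, Finset.mem_range] at ht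
      exact ⟨t, ht.1, ht.2⟩
    · rintro ⟨t, ht, ho⟩
      exact ⟨t, by simp [ht, ho]⟩
  rw [← hpos]
  simp only [ne_eq, decide_eq_decide]
  omega

/-- The parity changes exactly across the horizontal edges of the path. -/
theorem par_ne_iffH (h : UnitPath V L w) (x y : ℤ) :
    CSN.par V x y ≠ CSN.par V x (y - 1) ↔ ∃ t < L, OnH w x y t := by
  rw [h.par, h.par]
  have key := cntL_flipH w L (fun t _ => h.step t) h.closed x y
  have hle : ((Finset.range L).filter (OnH w x y)).card ≤ 1 := by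
    rw [Finset.card_le_one]
    intro a ha b hb
    simp only [Finset.mem_filter, Finset.mem_range] at ha hb
    exact h.onH_unique ha.1 hb.1 ha.2 hb.2
  have hpos : (0 < ((Finset.range L).filter (OnH w x y)).card) ↔ ∃ t < L, OnH w x y t := by
    rw [Finset.card_pos]
    constructor
    · rintro ⟨t, ht⟩
      simp only [Finset.mem_filter, Finset.mem_range] at ht
      exact ⟨t, ht.1, ht.2⟩
    · rintro ⟨t, ht, ho⟩
      exact ⟨t, by simp [ht, ho]⟩
  rw [← hpos]
  simp only [ne_eq, decide_eq_decide]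
  omega

theorem par_eq_of_not_onV (h : UnitPath V L w) {x y : ℤ} (hn : ¬ ∃ t < L, OnV w x y t) :
    CSN.par V x y = CSN.par V (x - 1) y := by
  by_contra hc
  exact hn ((h.par_ne_iffV x y).mp hc)

theorem par_eq_of_not_onH (h : UnitPath V L w) {x y : ℤ} (hn : ¬ ∃ t < L, OnH w x y t) :
    CSN.par V x y = CSN.par V x (y - 1) := by
  by_contra hc
  exact hn ((h.par_ne_iffH x y).mp hc)

/-- Outside a large square the parity is even. -/
theorem par_out (h : UnitPath V L w) : ∃ M : ℤ, ∀ x y : ℤ, CSN.par V x y = true →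
    |x| ≤ M ∧ |y| ≤ M := by
  obtain ⟨M, hM⟩ : ∃ M : ℤ, ∀ t ∈ Finset.range (L + 1), |(w t).1| + |(w t).2| ≤ M := by
    refine ⟨∑ t ∈ Finset.range (L + 1), (|(w t).1| + |(w t).2|), fun t ht => ?_⟩
    exact Finset.single_le_sum (f := fun t => |(w t).1| + |(w t).2|)
      (fun i _ => by positivity) ht
  have hM' : ∀ t ≤ L, |(w t).1| + |(w t).2| ≤ M := fun t ht => hM t (by simp; omega)
  refine ⟨M + 1, fun x y hxy => ?_⟩
  rw [h.par, decide_eq_true_iff] at hxy
  have h1 : ¬ (∀ t < L, x < (w t).1) := by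
    intro hc
    rw [cntL_left w L x y hc] at hxy
    omega
  have h2 : ¬ (∀ t < L, (w t).1 ≤ x) := by
    intro hc
    have := cntL_full w L (fun t _ => h.step t) h.closed x y hc
    omega
  have h3 : ¬ (∀ t ≤ L, y < (w t).2) := by
    intro hc
    rw [cntL_out w L x y (Or.inl hc) (fun t _ => h.step t)] at hxy
    omega
  have h4 : ¬ (∀ t ≤ L, (w t).2 ≤ y) := by
    intro hc
    rw [cntL_out w L x y (Or.inr hc) (fun t _ => h.step t)] at hxy
    omega
  push Not at h1 h2 h3 h4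
  obtain ⟨t1, ht1, h1⟩ := h1
  obtain ⟨t2, ht2, h2⟩ := h2
  obtain ⟨t3, ht3, h3⟩ := h3
  obtain ⟨t4, ht4, h4⟩ := h4
  have k1 := hM' t1 ht1.le
  have k2 := hM' t2 ht2.le
  have k3 := hM' t3 ht3
  have k4 := hM' t4 ht4
  constructor
  · rw [abs_le]
    have a1 := neg_abs_le (w t1).1
    have a2 := le_abs_self (w t2).1
    have a3 := abs_nonneg (w t1).2
    have a4 := abs_nonneg (w t2).2
    have a5 := le_abs_self (w t1).1
    have a6 := neg_abs_le (w t2).1
    constructor <;> omega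
  · rw [abs_le]
    have a1 := neg_abs_le (w t3).2
    have a2 := le_abs_self (w t4).2
    have a3 := abs_nonneg (w t3).1
    have a4 := abs_nonneg (w t4).1
    have a5 := le_abs_self (w t3).2
    have a6 := neg_abs_le (w t4).2
    constructor <;> omega

/-- The points of the vertical unit edge. -/
theorem mem_segV (x y : ℤ) (p : Pt) : p ∈ segment ℝ (toPt (x, y)) (toPt (x, y + 1)) ↔
    p.1 = x ∧ (y : ℝ) ≤ p.2 ∧ p.2 ≤ y + 1 := by
  obtain ⟨p1, p2⟩ := p
  unfold toPt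
  rw [← Prod.image_mk_segment_right, segment_eq_uIcc, Set.uIcc_of_le (by push_cast; linarith)]
  simp only [Set.mem_image, Set.mem_Icc, Prod.mk.injEq]
  constructor
  · rintro ⟨q, ⟨h1, h2⟩, h3, h4⟩
    push_cast at h2
    subst h4
    exact ⟨h3.symm, h1, h2⟩
  · rintro ⟨h1, h2, h3⟩
    exact ⟨p2, ⟨h2, by push_cast; exact h3⟩, h1.symm, rfl⟩

/-- The points of the horizontal unit edge. -/
theorem mem_segH (x y : ℤ) (p : Pt) : p ∈ segment ℝ (toPt (x, y)) (toPt (x + 1, y)) ↔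
    p.2 = y ∧ (x : ℝ) ≤ p.1 ∧ p.1 ≤ x + 1 := by
  obtain ⟨p1, p2⟩ := p
  unfold toPt
  rw [← Prod.image_mk_segment_left, segment_eq_uIcc, Set.uIcc_of_le (by push_cast; linarith)]
  simp only [Set.mem_image, Set.mem_Icc, Prod.mk.injEq]
  constructor
  · rintro ⟨q, ⟨h1, h2⟩, h3, h4⟩
    push_cast at h2
    subst h3
    exact ⟨h4.symm, h1, h2⟩
  · rintro ⟨h1, h2, h3⟩
    exact ⟨p1, ⟨h2, by push_cast; exact h3⟩, rfl, h1.symm⟩

/-- Every step runs along a unit edge. -/
theorem step_cases (h : UnitPath V L w) (t : ℕ) :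
    (∃ x y, OnV w x y t ∧ x = (w t).1 ∧ (w (t + 1)).1 = (w t).1) ∨
    (∃ x y, OnH w x y t ∧ y = (w t).2 ∧ (w (t + 1)).2 = (w t).2) := by
  rcases h.step t with ⟨h1, h2 | h2⟩ | ⟨h1, h2 | h2⟩
  · exact Or.inl ⟨(w t).1, (w t).2, Or.inl ⟨rfl, Prod.ext h1 h2⟩, rfl, h1⟩
  · exact Or.inl ⟨(w t).1, (w (t + 1)).2, Or.inr ⟨Prod.ext rfl h2, Prod.ext h1 rfl⟩, rfl, h1⟩
  · exact Or.inr ⟨(w t).1, (w t).2, Or.inl ⟨rfl, Prod.ext h2 h1⟩, rfl, h1⟩
  · exact Or.inr ⟨(w (t + 1)).1, (w t).2, Or.inr ⟨Prod.ext h2 rfl, Prod.ext rfl h1⟩, rfl, h1⟩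

/-- The boundary in terms of the unit edges of the path. -/
theorem mem_boundary (h : UnitPath V L w) (p : Pt) : p ∈ boundary V ↔
    (∃ x y : ℤ, (∃ t < L, OnV w x y t) ∧ p.1 = x ∧ (y : ℝ) ≤ p.2 ∧ p.2 ≤ y + 1) ∨
    (∃ x y : ℤ, (∃ t < L, OnH w x y t) ∧ p.2 = y ∧ (x : ℝ) ≤ p.1 ∧ p.1 ≤ x + 1) := by
  rw [h.bd]
  constructor
  · rintro ⟨t, ht, hp⟩
    rcases h.step_cases t with ⟨x, y, ho, -, -⟩ | ⟨x, y, ho, -, -⟩
    · left
      refine ⟨x, y, ⟨t, ht, ho⟩, ?_⟩
      rw [← mem_segV]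
      rcases ho with ⟨h1, h2⟩ | ⟨h1, h2⟩
      · rwa [h1, h2] at hp
      · rwa [h1, h2, segment_symm] at hp
    · right
      refine ⟨x, y, ⟨t, ht, ho⟩, ?_⟩
      rw [← mem_segH]
      rcases ho with ⟨h1, h2⟩ | ⟨h1, h2⟩
      · rwa [h1, h2] at hp
      · rwa [h1, h2, segment_symm] at hp
  · rintro (⟨x, y, ⟨t, ht, ho⟩, hp⟩ | ⟨x, y, ⟨t, ht, ho⟩, hp⟩)
    · refine ⟨t, ht, ?_⟩
      rw [← mem_segV] at hp
      rcases ho with ⟨h1, h2⟩ | ⟨h1, h2⟩
      · rwa [h1, h2]
      · rwa [h1, h2, segment_symm]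
    · refine ⟨t, ht, ?_⟩
      rw [← mem_segH] at hp
      rcases ho with ⟨h1, h2⟩ | ⟨h1, h2⟩
      · rwa [h1, h2]
      · rwa [h1, h2, segment_symm]

/-- Near a point off the boundary the parity is constant. -/
theorem par_near (h : UnitPath V L w) {p : Pt} (hp : p ∉ boundary V) {x y : ℤ}
    (hx : x = ⌊p.1⌋ ∨ (p.1 = ⌊p.1⌋ ∧ x = ⌊p.1⌋ - 1))
    (hy : y = ⌊p.2⌋ ∨ (p.2 = ⌊p.2⌋ ∧ y = ⌊p.2⌋ - 1)) :
    CSN.par V x y = CSN.par V ⌊p.1⌋ ⌊p.2⌋ := by
  rw [h.mem_boundary] at hp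
  push Not at hp
  obtain ⟨hV, hH⟩ := hp
  have f1 := Int.floor_le p.1
  have f2 := Int.lt_floor_add_one p.1
  have f3 := Int.floor_le p.2
  have f4 := Int.lt_floor_add_one p.2
  -- the parity does not change from column to column
  have colm : ∀ y', (y' = ⌊p.2⌋ ∨ (p.2 = ⌊p.2⌋ ∧ y' = ⌊p.2⌋ - 1)) → p.1 = ⌊p.1⌋ →
      CSN.par V ⌊p.1⌋ y' = CSN.par V (⌊p.1⌋ - 1) y' := by
    intro y' hy' hp1
    refine h.par_eq_of_not_onV (fun hc => ?_)
    have h1 : (y' : ℝ) ≤ p.2 := by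
      rcases hy' with rfl | ⟨h1, rfl⟩
      · exact f3
      · push_cast; linarith
    have h2 : p.2 ≤ (y' : ℝ) + 1 := by
      rcases hy' with rfl | ⟨h2, rfl⟩
      · exact f4.le
      · push_cast; linarith
    have := hV _ _ hc hp1 h1
    linarith
  have row : p.2 = ⌊p.2⌋ → CSN.par V ⌊p.1⌋ ⌊p.2⌋ = CSN.par V ⌊p.1⌋ (⌊p.2⌋ - 1) := by
    intro hp2
    refine h.par_eq_of_not_onH (fun hc => ?_)
    have := hH _ _ hc hp2 f1
    linarith
  rcases hx with rfl | ⟨hx1, rfl⟩ <;> rcases hy with rfl | ⟨hy1, rfl⟩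
  · rfl
  · exact (row hy1).symm
  · exact (colm _ (Or.inl rfl) hx1).symm
  · rw [row hy1]
    exact (colm _ (Or.inr ⟨hy1, rfl⟩) hx1).symm

end UnitPath

end Pool.Agent.CSN
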