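import Pool.Agent.CSN.Defs

/-!
# Unit step paths

The boundary of the polygon as a closed lattice path with unit steps, the number of vertical steps
to the left of a cell, and the flip lemmas.
-/

set_option autoImplicit false

namespace Pool.Agent.CSN

/-- The step from `w t` to `w (t + 1)` is the vertical unit edge from `(x', y)` to `(x', y + 1)`
or back, with `x' ≤ x`. -/
def stepL (w : ℕ → ℤ × ℤ) (x y : ℤ) (t : ℕ) : Prop :=
  (w (t + 1)).1 = (w t).1 ∧ (w t).1 ≤ x ∧ min (w t).2 (w (t + 1)).2 = y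

instance (w : ℕ → ℤ × ℤ) (x y : ℤ) : DecidablePred (stepL w x y) := fun t => by
  unfold stepL; infer_instance

/-- The number of vertical steps in the row `y` with abscissa at most `x`. -/
def cntL (w : ℕ → ℤ × ℤ) (L : ℕ) (x y : ℤ) : ℕ := ((Finset.range L).filter (stepL w x y)).card

/-- A unit step. -/
def UnitStep (p q : ℤ × ℤ) : Prop :=
  (q.1 = p.1 ∧ (q.2 = p.2 + 1 ∨ p.2 = q.2 + 1)) ∨ (q.2 = p.2 ∧ (q.1 = p.1 + 1 ∨ p.1 = q.1 + 1))

/-- The step `t` runs along the vertical unit edge from `(x, y)` to `(x, y + 1)`. -/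
def OnV (w : ℕ → ℤ × ℤ) (x y : ℤ) (t : ℕ) : Prop :=
  (w t = (x, y) ∧ w (t + 1) = (x, y + 1)) ∨ (w t = (x, y + 1) ∧ w (t + 1) = (x, y))

/-- The step `t` runs along the horizontal unit edge from `(x, y)` to `(x + 1, y)`. -/
def OnH (w : ℕ → ℤ × ℤ) (x y : ℤ) (t : ℕ) : Prop :=
  (w t = (x, y) ∧ w (t + 1) = (x + 1, y)) ∨ (w t = (x + 1, y) ∧ w (t + 1) = (x, y))

instance (w : ℕ → ℤ × ℤ) (x y : ℤ) : DecidablePred (OnV w x y) := fun t => by
  unfold OnV; infer_instance

instance (w : ℕ → ℤ × ℤ) (x y : ℤ) : DecidablePred (OnH w x y) := fun t => by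
  unfold OnH; infer_instance

/-- `w` runs through the boundary of the polygon once, in unit steps. -/
structure UnitPath (V : List (ℤ × ℤ)) (L : ℕ) (w : ℕ → ℤ × ℤ) : Prop where
  four : 4 ≤ L
  per : ∀ t, w (t + L) = w t
  inj : ∀ s < L, ∀ t < L, w s = w t → s = t
  step : ∀ t, UnitStep (w t) (w (t + 1))
  bd : boundary V = {p | ∃ t < L, p ∈ segment ℝ (toPt (w t)) (toPt (w (t + 1)))}
  par : ∀ x y, par V x y = decide (cntL w L x y % 2 = 1)
  vline : ∀ t, (w (t + 1)).1 = (w t).1 → ∃ p ∈ V, p.1 = (w t).1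
  hline : ∀ t, (w (t + 1)).2 = (w t).2 → ∃ p ∈ V, p.2 = (w t).2

/-- Job U. Every simple rectilinear polygon has a unit step path. -/
def TargetUnit : Prop := ∀ V, IsRectilinear V → ∃ L w, UnitPath V L w

/-- Moving the cell one step to the right. -/
theorem cntL_succ (w : ℕ → ℤ × ℤ) (L : ℕ) (hstep : ∀ t < L, UnitStep (w t) (w (t + 1)))
    (x y : ℤ) : cntL w L x y = cntL w L (x - 1) y + ((Finset.range L).filter (OnV w x y)).card := by
  unfold cntL
  rw [← Finset.card_union_of_disjoint]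
  · congr 1
    ext t
    simp only [Finset.mem_filter, Finset.mem_range, Finset.mem_union]
    constructor
    · rintro ⟨ht, h1, h2, h3⟩
      by_cases hx : (w t).1 ≤ x - 1
      · exact Or.inl ⟨ht, h1, hx, h3⟩
      · right
        refine ⟨ht, ?_⟩
        have hx' : (w t).1 = x := by omega
        unfold OnV
        rcases hstep t ht with ⟨_, h⟩ | ⟨h, h'⟩
        · rcases h with h | h
          · left
            constructor <;> ext <;> simp only <;> omega
          · right
            constructor <;> ext <;> simp only <;> omega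
        · omega
    · rintro (⟨ht, h1, h2, h3⟩ | ⟨ht, h⟩)
      · exact ⟨ht, h1, by omega, h3⟩
      · refine ⟨ht, ?_⟩
        unfold stepL
        rcases h with ⟨h, h'⟩ | ⟨h, h'⟩ <;> rw [h, h'] <;> simp
  · rw [Finset.disjoint_left]
    intro t ht ht'
    simp only [Finset.mem_filter, Finset.mem_range] at ht ht'
    obtain ⟨_, h1, h2, h3⟩ := ht
    obtain ⟨_, h⟩ := ht'
    rcases h with ⟨h, h'⟩ | ⟨h, h'⟩ <;> rw [h] at h2 <;> simp at h2

/-- A closed sequence enters and leaves a set equally often. -/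
theorem even_cross {α : Type} (w : ℕ → α) (L : ℕ) (S : α → Prop) [DecidablePred S] :
    (((Finset.range L).filter (fun t => ¬ (S (w t) ↔ S (w (t + 1))))).card % 2 = 0) ↔
      (S (w 0) ↔ S (w L)) := by
  induction L with
  | zero => simp
  | succ L ih =>
    rw [Finset.range_add_one, Finset.filter_insert]
    by_cases h : S (w L) ↔ S (w (L + 1))
    · rw [if_neg (not_not.mpr h), ih, h]
    · rw [if_pos h, Finset.card_insert_of_notMem (by simp)]
      by_cases h0 : S (w 0) <;> by_cases hL : S (w L) <;> by_cases hL1 : S (w (L + 1)) <;>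
        simp only [h0, hL, hL1, true_iff, false_iff, iff_true, iff_false, not_true, not_false_iff]
          at ih h ⊢
      all_goals omega

/-- Moving the cell one step down. -/
theorem cntL_flipH (w : ℕ → ℤ × ℤ) (L : ℕ) (hstep : ∀ t < L, UnitStep (w t) (w (t + 1)))
    (hcl : w L = w 0) (x y : ℤ) :
    (cntL w L x y + cntL w L x (y - 1) + ((Finset.range L).filter (OnH w x y)).card) % 2 = 0 := by
  have key := (even_cross w L (fun p => p.2 = y ∧ p.1 ≤ x)).mpr (by rw [hcl])
  rw [← key]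
  congr 1
  unfold cntL
  rw [← Finset.card_union_of_disjoint, ← Finset.card_union_of_disjoint]
  · congr 1
    ext t
    simp only [Finset.mem_filter, Finset.mem_range, Finset.mem_union]
    constructor
    · rintro ((⟨ht, h1, h2, h3⟩ | ⟨ht, h1, h2, h3⟩) | ⟨ht, h⟩)
      · refine ⟨ht, ?_⟩
        rcases hstep t ht with ⟨_, h⟩ | ⟨h, h'⟩ <;> omega
      · refine ⟨ht, ?_⟩
        rcases hstep t ht with ⟨_, h⟩ | ⟨h, h'⟩ <;> omega
      · refine ⟨ht, ?_⟩
        rcases h with ⟨h, h'⟩ | ⟨h, h'⟩ <;> rw [h, h'] <;> simp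
    · rintro ⟨ht, h⟩
      rcases hstep t ht with ⟨h1, h2⟩ | ⟨h1, h2⟩
      · left
        unfold stepL
        by_cases hm : min (w t).2 (w (t + 1)).2 = y
        · left
          exact ⟨ht, h1, by omega, hm⟩
        · right
          exact ⟨ht, h1, by omega, by omega⟩
      · right
        refine ⟨ht, ?_⟩
        unfold OnH
        rcases h2 with h2 | h2
        · left
          constructor <;> ext <;> simp only <;> omega
        · right
          constructor <;> ext <;> simp only <;> omega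
  · rw [Finset.disjoint_left]
    intro t ht ht'
    simp only [Finset.mem_filter, Finset.mem_range, Finset.mem_union] at ht ht'
    obtain ⟨_, h⟩ := ht'
    rcases ht with ⟨_, h1, h2, h3⟩ | ⟨_, h1, h2, h3⟩ <;>
      rcases h with ⟨h, h'⟩ | ⟨h, h'⟩ <;> rw [h, h'] at h1 <;> simp at h1
  · rw [Finset.disjoint_left]
    intro t ht ht'
    simp only [Finset.mem_filter, Finset.mem_range] at ht ht'
    obtain ⟨_, h1, h2, h3⟩ := ht
    obtain ⟨_, h1', h2', h3'⟩ := ht'
    omega

/-- The total number of vertical steps in a row is even. -/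
theorem cntL_full (w : ℕ → ℤ × ℤ) (L : ℕ) (hstep : ∀ t < L, UnitStep (w t) (w (t + 1)))
    (hcl : w L = w 0) (x y : ℤ) (hx : ∀ t < L, (w t).1 ≤ x) : cntL w L x y % 2 = 0 := by
  have key := (even_cross w L (fun p => p.2 ≤ y)).mpr (by rw [hcl])
  rw [← key]
  congr 1
  unfold cntL
  congr 1
  ext t
  simp only [Finset.mem_filter, Finset.mem_range, stepL]
  constructor
  · rintro ⟨ht, h1, h2, h3⟩
    refine ⟨ht, ?_⟩
    rcases hstep t ht with ⟨_, h⟩ | ⟨h, h'⟩ <;> omega
  · rintro ⟨ht, h⟩
    refine ⟨ht, ?_⟩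
    have := hx t ht
    rcases hstep t ht with ⟨h1, h2⟩ | ⟨h1, h2⟩ <;> omega

/-- No vertical steps to the left of the path. -/
theorem cntL_left (w : ℕ → ℤ × ℤ) (L : ℕ) (x y : ℤ) (hx : ∀ t < L, x < (w t).1) :
    cntL w L x y = 0 := by
  unfold cntL
  rw [Finset.card_eq_zero, Finset.filter_eq_empty_iff]
  intro t ht
  rw [Finset.mem_range] at ht
  unfold stepL
  have := hx t ht
  omega

/-- No vertical steps above or below the path. -/
theorem cntL_out (w : ℕ → ℤ × ℤ) (L : ℕ) (x y : ℤ)
    (hy : (∀ t ≤ L, y < (w t).2) ∨ (∀ t ≤ L, (w t).2 ≤ y))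
    (hstep : ∀ t < L, UnitStep (w t) (w (t + 1))) :
    cntL w L x y = 0 := by
  unfold cntL
  rw [Finset.card_eq_zero, Finset.filter_eq_empty_iff]
  intro t ht
  rw [Finset.mem_range] at ht
  unfold stepL
  rcases hy with hy | hy
  · have h1 := hy t ht.le
    have h2 := hy (t + 1) ht
    omega
  · have h1 := hy t ht.le
    have h2 := hy (t + 1) ht
    rcases hstep t ht with ⟨h3, h4⟩ | ⟨h3, h4⟩ <;> omega

end Pool.Agent.CSN
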