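import Pool.Agent.CSN.Feas

/-!
# Regions behind chords
-/

set_option autoImplicit false

namespace Pool.Agent.CSN

/-- The cell belongs to the rectangle. -/
def IRect.memc (R : IRect) (u : ℕ × ℕ) : Prop := R.mem u.1 u.2

/-- The unit edge `(d, a', j')` lies on the chord of `(dir, a, j)`. -/
def OnChord (P : ℕ → ℕ → Prop) (dir a j d a' j' : ℕ) : Prop :=
  d / 2 = dir / 2 ∧ a' = a ∧ Same P dir a j j'

/-- A step to a neighbouring cell that does not cross the chord of `(dir, a, j)`. -/
def StepAv (P : ℕ → ℕ → Prop) (dir a j : ℕ) (u v : ℕ × ℕ) : Prop :=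
  ∃ d a' j', d < 4 ∧ Edge P d a' j' ∧ near d a' j' = u ∧ far d a' j' = v ∧
    ¬ OnChord P dir a j d a' j'

/-- The cells behind the chord. -/
def Bhd (P : ℕ → ℕ → Prop) (dir a j : ℕ) (u : ℕ × ℕ) : Prop :=
  Relation.ReflTransGen (StepAv P dir a j) (far dir a j) u

variable {P : ℕ → ℕ → Prop}

theorem rtg_symm {α : Type} {r : α → α → Prop} (hr : ∀ x y, r x y → r y x) {x y : α}
    (h : Relation.ReflTransGen r x y) : Relation.ReflTransGen r y x := by
  induction h with
  | refl => exact Relation.ReflTransGen.refl
  | tail _ h2 ih => exact Relation.ReflTransGen.head (hr _ _ h2) ih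

theorem rtg_mono {α : Type} {r r' : α → α → Prop} (hr : ∀ x y, r x y → r' x y) {x y : α}
    (h : Relation.ReflTransGen r x y) : Relation.ReflTransGen r' x y := by
  induction h with
  | refl => exact Relation.ReflTransGen.refl
  | tail _ h2 ih => exact ih.tail (hr _ _ h2)

theorem op_lt {d : ℕ} (h : d < 4) : op d < 4 := by unfold op; interval_cases d <;> decide

theorem op_op {d : ℕ} (h : d < 4) : op (op d) = d := by unfold op; interval_cases d <;> decide

theorem op_ne {d : ℕ} (h : d < 4) : op d ≠ d := by unfold op; interval_cases d <;> decide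

theorem op_div {d : ℕ} (h : d < 4) : op d / 2 = d / 2 := by
  unfold op; interval_cases d <;> decide

theorem near_op {d : ℕ} (h : d < 4) (a j : ℕ) : near (op d) a j = far d a j := by
  unfold op near far; interval_cases d <;> simp

theorem far_op {d : ℕ} (h : d < 4) (a j : ℕ) : far (op d) a j = near d a j := by
  unfold op near far; interval_cases d <;> simp

theorem edge_op {d : ℕ} (h : d < 4) (a j : ℕ) : Edge P (op d) a j ↔ Edge P d a j := by
  unfold Edge; rw [near_op h, far_op h, and_comm]

theorem same_op {d : ℕ} (h : d < 4) (a j j' : ℕ) : Same P (op d) a j j' ↔ Same P d a j j' := by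
  unfold Same; simp only [edge_op h]

theorem same_congr {d d' : ℕ} (h : d < 4) (h' : d' < 4) (hd : d / 2 = d' / 2) (a j j' : ℕ) :
    Same P d a j j' ↔ Same P d' a j j' := by
  by_cases hh : d = d'
  · rw [hh]
  · have : d = op d' := by
      unfold op; interval_cases d <;> interval_cases d' <;> simp_all
    rw [this, same_op h']

theorem Same.edge {d a j j' : ℕ} (h : Same P d a j j') : Edge P d a j := h j (by omega) (by omega)

theorem Same.edge' {d a j j' : ℕ} (h : Same P d a j j') : Edge P d a j' :=
  h j' (by omega) (by omega)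

theorem Same.refl {d a j : ℕ} (h : Edge P d a j) : Same P d a j j := by
  intro t h1 h2
  have : t = j := by omega
  rw [this]; exact h

theorem Same.symm {d a j j' : ℕ} (h : Same P d a j j') : Same P d a j' j := by
  intro t h1 h2
  exact h t (by omega) (by omega)

theorem Same.trans {d a j j' j'' : ℕ} (h : Same P d a j j') (h' : Same P d a j' j'') :
    Same P d a j j'' := by
  intro t h1 h2
  by_cases ht : min j j' ≤ t ∧ t ≤ max j j'
  · exact h t ht.1 ht.2
  · exact h' t (by omega) (by omega)

/-- A chord touching a side of a valid rectangle is contained in this side. -/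
theorem Valid.pos {R : IRect} (hR : Valid P R) {d j j' : ℕ} (hd : d < 4) (hp : R.pos d j)
    (hs : Same P d (R.line d) j j') : R.pos d j' := by
  by_contra hn
  obtain ⟨a, b, c, e⟩ := R
  have hac := hR.ac
  have had := hR.ad
  have hbc := hR.bc
  have hbd := hR.bd
  unfold Same at hs
  unfold Ipt at *
  unfold IRect.pos at *
  unfold Edge near far IRect.line at hs
  simp only at *
  interval_cases d <;> simp at hp hn hs
  · by_cases h : j' ≤ c
    · have h1 := hs c (by omega) (by omega)
      have h2 := hs (c + 1) (by omega) (by omega)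
      exact hbc ⟨h1.1, h1.2, h2.1, h2.2⟩
    · have h1 := hs e (by omega) (by omega)
      have h2 := hs (e + 1) (by omega) (by omega)
      exact hbd ⟨h1.1, h1.2, h2.1, h2.2⟩
  · by_cases h : j' ≤ c
    · have h1 := hs c (by omega) (by omega)
      have h2 := hs (c + 1) (by omega) (by omega)
      exact hac ⟨h1.2, h1.1, h2.2, h2.1⟩
    · have h1 := hs e (by omega) (by omega)
      have h2 := hs (e + 1) (by omega) (by omega)
      exact had ⟨h1.2, h1.1, h2.2, h2.1⟩
  · by_cases h : j' ≤ a
    · have h1 := hs a (by omega) (by omega)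
      have h2 := hs (a + 1) (by omega) (by omega)
      exact had ⟨h1.1, h2.1, h1.2, h2.2⟩
    · have h1 := hs b (by omega) (by omega)
      have h2 := hs (b + 1) (by omega) (by omega)
      exact hbd ⟨h1.1, h2.1, h1.2, h2.2⟩
  · by_cases h : j' ≤ a
    · have h1 := hs a (by omega) (by omega)
      have h2 := hs (a + 1) (by omega) (by omega)
      exact hac ⟨h1.2, h2.2, h1.1, h2.1⟩
    · have h1 := hs b (by omega) (by omega)
      have h2 := hs (b + 1) (by omega) (by omega)
      exact hbc ⟨h1.2, h2.2, h1.1, h2.1⟩

theorem pos_op (R : IRect) {d : ℕ} (hd : d < 4) (j : ℕ) : R.pos (op d) j ↔ R.pos d j := by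
  unfold IRect.pos op; interval_cases d <;> simp

/-- The cell before an exit lies in the rectangle. -/
theorem near_memc {R : IRect} (_ : R.a < R.b) (_ : R.c < R.d) {d j : ℕ} (hd : d < 4)
    (hp : R.pos d j) : R.memc (near d (R.line d) j) := by
  unfold IRect.memc IRect.mem near IRect.line
  unfold IRect.pos at hp
  interval_cases d <;> simp at hp ⊢ <;> omega

/-- The cell behind an exit does not lie in the rectangle. -/
theorem far_not_memc {R : IRect} {d j : ℕ} (hd : d < 4) :
    ¬ R.memc (far d (R.line d) j) := by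
  unfold IRect.memc IRect.mem far IRect.line
  interval_cases d <;> simp

/-- A step leaving the rectangle goes through an exit. -/
theorem exit_of_step {R : IRect} {d a j : ℕ} (hd : d < 4) (h1 : R.memc (near d a j))
    (h2 : ¬ R.memc (far d a j)) : a = R.line d ∧ R.pos d j := by
  unfold IRect.memc IRect.mem near at h1
  unfold IRect.memc IRect.mem far at h2
  unfold IRect.line IRect.pos
  interval_cases d <;> simp at h1 h2 ⊢ <;> omega

/-- A step inside the rectangle does not cross the line of a side. -/
theorem line_ne_of_step {R : IRect} {d a j d' : ℕ} (hd : d < 4) (hd' : d' < 4)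
    (h1 : R.memc (near d a j)) (h2 : R.memc (far d a j)) (hdd : d / 2 = d' / 2) :
    a ≠ R.line d' := by
  unfold IRect.memc IRect.mem near at h1
  unfold IRect.memc IRect.mem far at h2
  unfold IRect.line
  interval_cases d <;> interval_cases d' <;> simp at h1 h2 hdd ⊢ <;> omega

/-- A step inside the rectangle. -/
def StepR (R : IRect) (u v : ℕ × ℕ) : Prop :=
  R.memc u ∧ R.memc v ∧ ∃ d a j, d < 4 ∧ near d a j = u ∧ far d a j = v

theorem StepR.symm {R : IRect} {u v : ℕ × ℕ} (h : StepR R u v) : StepR R v u := by
  obtain ⟨h1, h2, d, a, j, hd, h3, h4⟩ := h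
  exact ⟨h2, h1, op d, a, j, op_lt hd, by rw [near_op hd, h4], by rw [far_op hd, h3]⟩

/-- Rectangles are connected. -/
theorem rect_conn (R : IRect) {u v : ℕ × ℕ} (hu : R.memc u) (hv : R.memc v) :
    Relation.ReflTransGen (StepR R) u v := by
  have hor : ∀ (x x' y : ℕ), x ≤ x' → R.memc (x, y) → R.memc (x', y) →
      Relation.ReflTransGen (StepR R) (x, y) (x', y) := by
    intro x x' y hxx
    induction x', hxx using Nat.le_induction with
    | base => intro _ _; exact Relation.ReflTransGen.refl
    | succ n hn ih =>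
      intro h1 h2
      have h3 : R.memc (n, y) := by
        unfold IRect.memc IRect.mem at *; simp only at *; omega
      exact (ih h1 h3).tail ⟨h3, h2, 0, n, y, by omega, by simp [near], by simp [far]⟩
  have ver : ∀ (x y y' : ℕ), y ≤ y' → R.memc (x, y) → R.memc (x, y') →
      Relation.ReflTransGen (StepR R) (x, y) (x, y') := by
    intro x y y' hyy
    induction y', hyy using Nat.le_induction with
    | base => intro _ _; exact Relation.ReflTransGen.refl
    | succ n hn ih =>
      intro h1 h2
      have h3 : R.memc (x, n) := by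
        unfold IRect.memc IRect.mem at *; simp only at *; omega
      exact (ih h1 h3).tail ⟨h3, h2, 2, n, x, by omega, by simp [near], by simp [far]⟩
  have symm : ∀ {u v}, Relation.ReflTransGen (StepR R) u v →
      Relation.ReflTransGen (StepR R) v u := fun h => rtg_symm (fun _ _ h => h.symm) h
  obtain ⟨x, y⟩ := u
  obtain ⟨x', y'⟩ := v
  have hm : R.memc (x', y) := by
    unfold IRect.memc IRect.mem at *; simp only at *; omega
  refine Relation.ReflTransGen.trans (b := (x', y)) ?_ ?_
  · rcases le_total x x' with h | h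
    · exact hor _ _ _ h hu hm
    · exact symm (hor _ _ _ h hm hu)
  · rcases le_total y y' with h | h
    · exact ver _ _ _ h hm hv
    · exact symm (ver _ _ _ h hv hm)

theorem StepAv.symm {dir a j : ℕ} {u v : ℕ × ℕ} (h : StepAv P dir a j u v) :
    StepAv P dir a j v u := by
  obtain ⟨d, a', j', hd, he, h1, h2, h3⟩ := h
  refine ⟨op d, a', j', op_lt hd, (edge_op hd _ _).mpr he, by rw [near_op hd, h2],
    by rw [far_op hd, h1], ?_⟩
  unfold OnChord at *
  rwa [op_div hd]

/-- Steps inside the rectangle avoid the chords on its sides. -/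
theorem StepR.av {R : IRect} (hR : Valid P R) {d j : ℕ} (hd : d < 4) {u v : ℕ × ℕ}
    (h : StepR R u v) : StepAv P d (R.line d) j u v := by
  obtain ⟨h1, h2, d', a, j', hd', h3, h4⟩ := h
  refine ⟨d', a, j', hd', ?_, h3, h4, ?_⟩
  · unfold Edge
    rw [h3, h4]
    exact ⟨hR.sub _ _ h1, hR.sub _ _ h2⟩
  · rintro ⟨h5, h6, _⟩
    exact line_ne_of_step hd' hd (by rw [h3]; exact h1) (by rw [h4]; exact h2) h5 h6

theorem conn_av {R : IRect} (hR : Valid P R) {d j : ℕ} (hd : d < 4) {u v : ℕ × ℕ}
    (hu : R.memc u) (hv : R.memc v) :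
    Relation.ReflTransGen (StepAv P d (R.line d) j) u v :=
  rtg_mono (fun _ _ h => h.av hR hd) (rect_conn R hu hv)

/-- The separation property, uniformly in the direction. -/
theorem TF.sep (hTF : TF P) {dir a j : ℕ} (hd : dir < 4) (he : Edge P dir a j) :
    ∃ s : ℕ × ℕ → Bool, s (near dir a j) ≠ s (far dir a j) ∧
      ∀ u v, StepAv P dir a j u v → s u = s v := by
  have hV : ∀ j', SameV P a j j' ↔ Same P 0 a j j' := by
    intro j'; unfold SameV Same Edge near far; simp
  have hH : ∀ j', SameH P a j j' ↔ Same P 2 a j j' := by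
    intro j'; unfold SameH Same Edge near far; simp
  by_cases hdir : dir < 2
  · have he0 : P a j ∧ P (a + 1) j := by
      unfold Edge near far at he
      interval_cases dir <;> simp at he
      · exact he
      · exact he.symm
    obtain ⟨s, hs1, hs2, hs3⟩ := hTF.vert a j he0.1 he0.2
    refine ⟨fun u => s u.1 u.2, ?_, ?_⟩
    · unfold near far
      interval_cases dir <;> simp
      · exact hs1
      · exact hs1.symm
    · rintro u v ⟨d, a', j', hd', he', rfl, rfl, hav⟩
      have hch : d < 2 → ¬ (a' = a ∧ SameV P a j j') := by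
        intro h2 h3
        apply hav
        refine ⟨by omega, h3.1, ?_⟩
        rw [same_congr hd (by omega : 0 < 4) (by omega), ← hV]
        exact h3.2
      unfold Edge near far at he'
      unfold near far
      interval_cases d <;> simp at he' ⊢
      · exact hs2 a' j' he'.1 he'.2 (hch (by omega))
      · exact (hs2 a' j' he'.2 he'.1 (hch (by omega))).symm
      · exact hs3 j' a' he'.1 he'.2
      · exact (hs3 j' a' he'.2 he'.1).symm
  · have he0 : P j a ∧ P j (a + 1) := by
      unfold Edge near far at he
      interval_cases dir <;> simp at he hdir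
      · exact he
      · exact he.symm
    obtain ⟨s, hs1, hs2, hs3⟩ := hTF.horz a j he0.1 he0.2
    refine ⟨fun u => s u.1 u.2, ?_, ?_⟩
    · unfold near far
      interval_cases dir <;> simp at hdir ⊢
      · exact hs1
      · exact hs1.symm
    · rintro u v ⟨d, a', j', hd', he', rfl, rfl, hav⟩
      have hch : ¬ d < 2 → ¬ (a' = a ∧ SameH P a j j') := by
        intro h2 h3
        apply hav
        refine ⟨by omega, h3.1, ?_⟩
        rw [same_congr hd (by omega : 2 < 4) (by omega), ← hH]
        exact h3.2
      unfold Edge near far at he'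
      unfold near far
      interval_cases d <;> simp at he' ⊢
      · exact hs3 a' j' he'.1 he'.2
      · exact (hs3 a' j' he'.2 he'.1).symm
      · exact hs2 j' a' he'.1 he'.2 (hch (by omega))
      · exact (hs2 j' a' he'.2 he'.1 (hch (by omega))).symm

/-- (T) The cell before the chord is not behind it. -/
theorem near_not_bhd (hTF : TF P) {dir a j : ℕ} (hd : dir < 4) (he : Edge P dir a j) :
    ¬ Bhd P dir a j (near dir a j) := by
  obtain ⟨s, hs1, hs2⟩ := hTF.sep hd he
  intro h
  have : ∀ u, Bhd P dir a j u → s (far dir a j) = s u := by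
    intro u hu
    induction hu with
    | refl => rfl
    | tail _ h2 ih => rw [ih]; exact hs2 _ _ h2
  exact hs1 (this _ h).symm

/-- (2a) No cell of a rectangle is behind one of its exits. -/
theorem bhd_disj (hTF : TF P) {R : IRect} (hR : Valid P R) {d j : ℕ} (hd : d < 4)
    (hp : R.pos d j) (he : Edge P d (R.line d) j) {u : ℕ × ℕ} (hu : Bhd P d (R.line d) j u) :
    ¬ R.memc u := by
  intro h
  exact near_not_bhd hTF hd he
    (Relation.ReflTransGen.trans hu (conn_av hR hd h (near_memc hR.ab hR.cd hd hp)))

/-- A path behind an exit also avoids every chord all of whose unit edges have a cell in the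
rectangle. -/
theorem path_av (hTF : TF P) {R : IRect} (hR : Valid P R) {d j : ℕ} (hd : d < 4)
    (hp : R.pos d j) (he : Edge P d (R.line d) j) {dir a j₀ : ℕ}
    (hch : ∀ d' a' j', d' < 4 → OnChord P dir a j₀ d' a' j' →
      R.memc (near d' a' j') ∨ R.memc (far d' a' j'))
    {u : ℕ × ℕ} (hu : Bhd P d (R.line d) j u) :
    Relation.ReflTransGen (StepAv P dir a j₀) (far d (R.line d) j) u := by
  induction hu with
  | refl => exact Relation.ReflTransGen.refl
  | @tail v w hv hvw ih =>
    refine ih.tail ?_
    have hv' := bhd_disj hTF hR hd hp he hv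
    have hw' := bhd_disj hTF hR hd hp he (Relation.ReflTransGen.tail hv hvw)
    obtain ⟨d', a', j', hd', he', h1, h2, h3⟩ := hvw
    refine ⟨d', a', j', hd', he', h1, h2, fun h4 => ?_⟩
    rcases hch d' a' j' hd' h4 with h5 | h5
    · rw [h1] at h5; exact hv' h5
    · rw [h2] at h5; exact hw' h5

/-- All unit edges of a chord on a side of a valid rectangle have a cell in it. -/
theorem onChord_memc {R : IRect} (hR : Valid P R) {d j : ℕ} (hd : d < 4) (hp : R.pos d j)
    {d' a' j' : ℕ} (hd' : d' < 4) (h : OnChord P d (R.line d) j d' a' j') :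
    R.memc (near d' a' j') ∨ R.memc (far d' a' j') := by
  obtain ⟨h1, h2, h3⟩ := h
  have hp' := hR.pos hd hp h3
  have hm := near_memc hR.ab hR.cd hd hp'
  by_cases hdd : d' = d
  · left; rw [hdd, h2]; exact hm
  · right
    have : d' = op d := by
      unfold op; interval_cases d <;> interval_cases d' <;> simp_all
    rw [this, far_op hd, h2]; exact hm

/-- (2b) What is behind an exit is behind the entry. -/
theorem bhd_sub (hTF : TF P) {R : IRect} (hR : Valid P R) {dir j d j' : ℕ} (hdir : dir < 4)
    (hp : R.pos dir j) (he : Edge P dir (R.line (op dir)) j) (hd : d < 4) (hp' : R.pos d j')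
    (he' : Edge P d (R.line d) j') (hne : ¬ Ex P dir (R.line (op dir)) j d j') {u : ℕ × ℕ}
    (hu : Bhd P d (R.line d) j' u) : Bhd P dir (R.line (op dir)) j u := by
  have hod := op_lt hdir
  have hpo : R.pos (op dir) j := (pos_op R hdir j).mpr hp
  have hch : ∀ d' a' j₁, d' < 4 → OnChord P dir (R.line (op dir)) j d' a' j₁ →
      R.memc (near d' a' j₁) ∨ R.memc (far d' a' j₁) := by
    intro d' a' j₁ hd' h
    refine onChord_memc hR hod hpo hd' ?_
    obtain ⟨h1, h2, h3⟩ := h
    exact ⟨by rw [op_div hdir]; exact h1, h2, (same_op hdir _ _ _).mpr h3⟩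
  have hfar : R.memc (far dir (R.line (op dir)) j) := by
    rw [← near_op hdir]; exact near_memc hR.ab hR.cd hod hpo
  have h1 : Relation.ReflTransGen (StepAv P dir (R.line (op dir)) j)
      (far dir (R.line (op dir)) j) (near d (R.line d) j') := by
    have := conn_av (j := j) hR hod hfar (near_memc hR.ab hR.cd hd hp')
    refine rtg_mono ?_ this
    rintro x y ⟨d', a', j₁, hd', he₁, h1, h2, h3⟩
    refine ⟨d', a', j₁, hd', he₁, h1, h2, fun h4 => h3 ?_⟩
    obtain ⟨h5, h6, h7⟩ := h4
    exact ⟨by rw [op_div hdir]; exact h5, h6, (same_op hdir _ _ _).mpr h7⟩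
  refine Relation.ReflTransGen.trans (h1.tail ?_) (path_av hTF hR hd hp' he' hch hu)
  refine ⟨d, R.line d, j', hd, he', rfl, rfl, ?_⟩
  rintro ⟨h2, h3, h4⟩
  apply hne
  refine ⟨?_, h4⟩
  have hab := hR.ab
  have hcd := hR.cd
  unfold op IRect.line at *
  interval_cases d <;> interval_cases dir <;> simp at h2 h3 ⊢ <;> omega

/-- (3) Different exits have disjoint regions behind them. -/
theorem bhd_inter (hTF : TF P) {R : IRect} (hR : Valid P R) {d j d' j' : ℕ} (hd : d < 4)
    (hp : R.pos d j) (he : Edge P d (R.line d) j) (hd' : d' < 4) (hp' : R.pos d' j')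
    (he' : Edge P d' (R.line d') j') (hne : ¬ (d' = d ∧ Same P d (R.line d) j j'))
    {u : ℕ × ℕ} (hu : Bhd P d (R.line d) j u) (hu' : Bhd P d' (R.line d') j' u) : False := by
  have hch : ∀ d₁ a₁ j₁, d₁ < 4 → OnChord P d (R.line d) j d₁ a₁ j₁ →
      R.memc (near d₁ a₁ j₁) ∨ R.memc (far d₁ a₁ j₁) := fun _ _ _ h1 h2 =>
    onChord_memc hR hd hp h1 h2
  have h1 := path_av hTF hR hd' hp' he' hch hu'
  have h2 : Relation.ReflTransGen (StepAv P d (R.line d) j) u (far d' (R.line d') j') :=
    rtg_symm (fun _ _ h => h.symm) h1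
  have h3 : StepAv P d (R.line d) j (far d' (R.line d') j') (near d' (R.line d') j') := by
    refine ⟨op d', R.line d', j', op_lt hd', (edge_op hd' _ _).mpr he', near_op hd' _ _,
      far_op hd' _ _, ?_⟩
    rintro ⟨h4, h5, h6⟩
    apply hne
    refine ⟨?_, h6⟩
    have hab := hR.ab
    have hcd := hR.cd
    rw [op_div hd'] at h4
    unfold IRect.line at h5
    interval_cases d <;> interval_cases d' <;> simp at h4 h5 ⊢ <;> omega
  have h4 := conn_av (j := j) hR hd (near_memc hR.ab hR.cd hd' hp') (near_memc hR.ab hR.cd hd hp)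
  exact near_not_bhd hTF hd he
    ((Relation.ReflTransGen.trans hu h2).trans (Relation.ReflTransGen.trans
      (Relation.ReflTransGen.single h3) h4))

/-- (4) What is behind the entry is in the rectangle or behind one of the other exits. -/
theorem bhd_cases (hTF : TF P) {R : IRect} (hR : Valid P R) {dir j : ℕ} (hdir : dir < 4)
    (hp : R.pos dir j) {u : ℕ × ℕ} (hu : Bhd P dir (R.line (op dir)) j u) :
    R.memc u ∨ ∃ d j', d < 4 ∧ R.pos d j' ∧ Edge P d (R.line d) j' ∧
      ¬ Ex P dir (R.line (op dir)) j d j' ∧ Bhd P d (R.line d) j' u := by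
  have hod := op_lt hdir
  have hpo : R.pos (op dir) j := (pos_op R hdir j).mpr hp
  induction hu with
  | refl => left; rw [← near_op hdir]; exact near_memc hR.ab hR.cd hod hpo
  | @tail v w hv hvw ih =>
    obtain ⟨d', a', j₁, hd', he', h1, h2, h3⟩ := hvw
    rcases ih with ih | ⟨d, j', hd, hpd, hed, hne, hb⟩
    · by_cases hw : R.memc w
      · exact Or.inl hw
      · right
        obtain ⟨h4, h5⟩ := exit_of_step hd' (by rw [h1]; exact ih) (by rw [h2]; exact hw)
        subst h4
        refine ⟨d', j₁, hd', h5, he', ?_, ?_⟩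
        · rintro ⟨h6, h7⟩
          exact h3 ⟨by rw [h6, op_div hdir], by rw [h6], h7⟩
        · rw [← h2]; exact Relation.ReflTransGen.refl
    · by_cases hc : OnChord P d (R.line d) j' d' a' j₁
      · left
        obtain ⟨h4, h5, h6⟩ := hc
        have hp1 := hR.pos hd hpd h6
        have hm := near_memc hR.ab hR.cd hd hp1
        by_cases hdd : d' = d
        · exfalso
          refine bhd_disj hTF hR hd hpd hed hb ?_
          rw [← h1, hdd, h5]
          exact hm
        · have : d' = op d := by
            unfold op; interval_cases d <;> interval_cases d' <;> simp_all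
          rw [← h2, this, far_op hd, h5]; exact hm
      · right
        exact ⟨d, j', hd, hpd, hed, hne, hb.tail ⟨d', a', j₁, hd', he', h1, h2, hc⟩⟩

end Pool.Agent.CSN
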