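import Pool.Agent.CSN.GridPar

/-!
# Chords separate: unit cells
-/

set_option autoImplicit false

namespace Pool.Agent.CSN

variable {V : List (ℤ × ℤ)} {L : ℕ} {w : ℕ → ℤ × ℤ} {X Y : List ℤ}

/-- The arc of `w` from `α` to `α + m`, followed by `c`. -/
def glue (w : ℕ → ℤ × ℤ) (α m : ℕ) (c : ℕ → ℤ × ℤ) (t : ℕ) : ℤ × ℤ :=
  if t ≤ m then w (α + t) else c (t - m)

theorem glue_low {w c : ℕ → ℤ × ℤ} {α m t : ℕ} (ht : t ≤ m) : glue w α m c t = w (α + t) := by
  unfold glue; rw [if_pos ht]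

theorem glue_high {w c : ℕ → ℤ × ℤ} {α m t : ℕ} (hc : c 0 = w (α + m)) (ht : m ≤ t) :
    glue w α m c t = c (t - m) := by
  unfold glue
  split_ifs with h
  · have : t = m := le_antisymm h ht
    subst this
    rw [Nat.sub_self, hc]
  · rfl

/-- The steps of the glued path. -/
theorem glue_step {w c : ℕ → ℤ × ℤ} {α m d : ℕ} (hc : c 0 = w (α + m))
    (Q : ℤ × ℤ → ℤ × ℤ → Prop) (t : ℕ) (ht : t < m + d)
    (hQ : Q (glue w α m c t) (glue w α m c (t + 1))) :
    (Q (w (α + t)) (w (α + t + 1))) ∨ (∃ r < d, t = r + m ∧ Q (c r) (c (r + 1))) := by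
  rcases Nat.lt_or_ge t m with h | h
  · left
    rw [glue_low h.le, glue_low (by omega : t + 1 ≤ m)] at hQ
    exact hQ
  · right
    rw [glue_high hc h, glue_high hc (by omega : m ≤ t + 1)] at hQ
    refine ⟨t - m, by omega, by omega, ?_⟩
    have : t - m + 1 = t + 1 - m := by omega
    rw [this]
    exact hQ

theorem sep_core (h : UnitPath V L w) (c : ℕ → ℤ × ℤ) (d : ℕ)
    (hc : ∀ r < d, UnitStep (c r) (c (r + 1))) (h0 : ∃ t < L, w t = c 0)
    (hd : ∃ t < L, w t = c d) :
    ∃ s : ℤ → ℤ → Bool,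
      (∀ x y, ¬ EV w L x y → (∀ r < d, ¬ OnV c x y r) → s x y = s (x - 1) y) ∧
      (∀ x y, ¬ EH w L x y → (∀ r < d, ¬ OnH c x y r) → s x y = s x (y - 1)) ∧
      (∀ x y, ¬ EV w L x y → (∃ r₀ < d, OnV c x y r₀ ∧ ∀ r < d, OnV c x y r → r = r₀) →
        s x y ≠ s (x - 1) y) ∧
      (∀ x y, ¬ EH w L x y → (∃ r₀ < d, OnH c x y r₀ ∧ ∀ r < d, OnH c x y r → r = r₀) →
        s x y ≠ s x (y - 1)) := by
  obtain ⟨t0, ht0, e0⟩ := h0
  obtain ⟨t1, ht1, e1⟩ := hd
  set m := t0 + L - t1 with hm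
  have hc0 : c 0 = w (t1 + m) := by
    have : t1 + m = t0 + L := by omega
    rw [this, h.per, e0]
  set g := glue w t1 m c with hg
  have hstep : ∀ t < m + d, UnitStep (g t) (g (t + 1)) := by
    intro t ht
    rcases Nat.lt_or_ge t m with h' | h'
    · rw [hg, glue_low h'.le, glue_low (by omega : t + 1 ≤ m)]
      exact h.step (t1 + t)
    · rw [hg, glue_high hc0 h', glue_high hc0 (by omega : m ≤ t + 1)]
      have : t + 1 - m = t - m + 1 := by omega
      rw [this]
      exact hc (t - m) (by omega)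
  have hcl : g (m + d) = g 0 := by
    rw [hg, glue_high hc0 (Nat.le_add_right _ _), glue_low (Nat.zero_le _), Nat.add_sub_cancel_left,
      Nat.add_zero, e1]
  have hEV : ∀ x y t, OnV w x y t → EV w L x y := by
    intro x y t ht
    refine ⟨t % L, Nat.mod_lt _ h.pos, ?_⟩
    have a1 : w (t % L) = w t := h.mod t
    have a2 : w (t % L + 1) = w (t + 1) := by
      rw [← h.mod (t % L + 1), ← h.mod (t + 1), Nat.mod_add_mod]
    unfold OnV
    rw [a1, a2]
    exact ht
  have hEH : ∀ x y t, OnH w x y t → EH w L x y := by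
    intro x y t ht
    refine ⟨t % L, Nat.mod_lt _ h.pos, ?_⟩
    have a1 : w (t % L) = w t := h.mod t
    have a2 : w (t % L + 1) = w (t + 1) := by
      rw [← h.mod (t % L + 1), ← h.mod (t + 1), Nat.mod_add_mod]
    unfold OnH
    rw [a1, a2]
    exact ht
  -- the counts
  have cV0 : ∀ x y, ¬ EV w L x y → (∀ r < d, ¬ OnV c x y r) →
      ((Finset.range (m + d)).filter (OnV g x y)).card = 0 := by
    intro x y hno hch
    rw [Finset.card_eq_zero, Finset.filter_eq_empty_iff]
    intro t ht hon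
    rcases glue_step hc0 (fun p q => (p = (x, y) ∧ q = (x, y + 1)) ∨
      (p = (x, y + 1) ∧ q = (x, y))) t (Finset.mem_range.mp ht) hon with h' | ⟨r, hr, _, h'⟩
    · exact hno (hEV x y _ h')
    · exact hch r hr h'
  have cH0 : ∀ x y, ¬ EH w L x y → (∀ r < d, ¬ OnH c x y r) →
      ((Finset.range (m + d)).filter (OnH g x y)).card = 0 := by
    intro x y hno hch
    rw [Finset.card_eq_zero, Finset.filter_eq_empty_iff]
    intro t ht hon
    rcases glue_step hc0 (fun p q => (p = (x, y) ∧ q = (x + 1, y)) ∨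
      (p = (x + 1, y) ∧ q = (x, y))) t (Finset.mem_range.mp ht) hon with h' | ⟨r, hr, _, h'⟩
    · exact hno (hEH x y _ h')
    · exact hch r hr h'
  have cV1 : ∀ x y, ¬ EV w L x y → (∃ r₀ < d, OnV c x y r₀ ∧ ∀ r < d, OnV c x y r → r = r₀) →
      ((Finset.range (m + d)).filter (OnV g x y)).card = 1 := by
    rintro x y hno ⟨r₀, hr₀, hon, hun⟩
    rw [Finset.card_eq_one]
    refine ⟨r₀ + m, ?_⟩
    ext t
    simp only [Finset.mem_filter, Finset.mem_range, Finset.mem_singleton]
    constructor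
    · rintro ⟨ht, hon'⟩
      rcases glue_step hc0 (fun p q => (p = (x, y) ∧ q = (x, y + 1)) ∨
        (p = (x, y + 1) ∧ q = (x, y))) t ht hon' with h' | ⟨r, hr, e, h'⟩
      · exact absurd (hEV x y _ h') hno
      · rw [e, hun r hr h']
    · rintro rfl
      refine ⟨by omega, ?_⟩
      unfold OnV
      rw [hg, glue_high hc0 (by omega : m ≤ r₀ + m), glue_high hc0 (by omega : m ≤ r₀ + m + 1)]
      have a1 : r₀ + m - m = r₀ := by omega
      have a2 : r₀ + m + 1 - m = r₀ + 1 := by omega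
      rw [a1, a2]
      exact hon
  have cH1 : ∀ x y, ¬ EH w L x y → (∃ r₀ < d, OnH c x y r₀ ∧ ∀ r < d, OnH c x y r → r = r₀) →
      ((Finset.range (m + d)).filter (OnH g x y)).card = 1 := by
    rintro x y hno ⟨r₀, hr₀, hon, hun⟩
    rw [Finset.card_eq_one]
    refine ⟨r₀ + m, ?_⟩
    ext t
    simp only [Finset.mem_filter, Finset.mem_range, Finset.mem_singleton]
    constructor
    · rintro ⟨ht, hon'⟩
      rcases glue_step hc0 (fun p q => (p = (x, y) ∧ q = (x + 1, y)) ∨
        (p = (x + 1, y) ∧ q = (x, y))) t ht hon' with h' | ⟨r, hr, e, h'⟩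
      · exact absurd (hEH x y _ h') hno
      · rw [e, hun r hr h']
    · rintro rfl
      refine ⟨by omega, ?_⟩
      unfold OnH
      rw [hg, glue_high hc0 (by omega : m ≤ r₀ + m), glue_high hc0 (by omega : m ≤ r₀ + m + 1)]
      have a1 : r₀ + m - m = r₀ := by omega
      have a2 : r₀ + m + 1 - m = r₀ + 1 := by omega
      rw [a1, a2]
      exact hon
  refine ⟨fun x y => decide (cntL g (m + d) x y % 2 = 1), ?_, ?_, ?_, ?_⟩
  · intro x y h1 h2
    have := cntL_succ g (m + d) hstep x y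
    rw [cV0 x y h1 h2] at this
    simp only [this, Nat.add_zero]
  · intro x y h1 h2
    have := cntL_flipH g (m + d) hstep hcl x y
    rw [cH0 x y h1 h2] at this
    rw [decide_eq_decide]
    omega
  · intro x y h1 h2
    have := cntL_succ g (m + d) hstep x y
    rw [cV1 x y h1 h2] at this
    rw [Ne, decide_eq_decide]
    omega
  · intro x y h1 h2
    have := cntL_flipH g (m + d) hstep hcl x y
    rw [cH1 x y h1 h2] at this
    rw [Ne, decide_eq_decide]
    omega

theorem exists_bd (f : ℤ × ℤ → ℤ) (V : List (ℤ × ℤ)) : ∃ M : ℤ, ∀ p ∈ V, -M < f p ∧ f p ≤ M := by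
  induction V with
  | nil => exact ⟨0, fun p hp => absurd hp (by simp)⟩
  | cons a V ih =>
    obtain ⟨M, hM⟩ := ih
    refine ⟨max M (|f a| + 1), fun p hp => ?_⟩
    rcases List.mem_cons.mp hp with rfl | hp
    · have h1 := neg_abs_le (f p)
      have h2 := le_abs_self (f p)
      have h3 := le_max_right M (|f p| + 1)
      constructor <;> omega
    · have h1 := hM p hp
      have h3 := le_max_left M (|f a| + 1)
      constructor <;> omega

/-- A maximal interval. -/
theorem exists_interval (S : ℤ → Prop) (y0 : ℤ) (h0 : S y0) (hlo : ∃ t ≤ y0, ¬ S t)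
    (hhi : ∃ t ≥ y0, ¬ S t) : ∃ a b : ℤ, a ≤ y0 ∧ y0 < b ∧ (∀ t, a ≤ t → t < b → S t) ∧
      ¬ S (a - 1) ∧ ¬ S b := by
  obtain ⟨m, ⟨hm1, hm2⟩, hm3⟩ := Int.exists_greatest_of_bdd (P := fun t => t ≤ y0 ∧ ¬ S t)
    ⟨y0, fun z hz => hz.1⟩ (by obtain ⟨t, h1, h2⟩ := hlo; exact ⟨t, h1, h2⟩)
  obtain ⟨n, ⟨hn1, hn2⟩, hn3⟩ := Int.exists_least_of_bdd (P := fun t => y0 ≤ t ∧ ¬ S t)
    ⟨y0, fun z hz => hz.1⟩ (by obtain ⟨t, h1, h2⟩ := hhi; exact ⟨t, h1, h2⟩)
  refine ⟨m + 1, n, ?_, ?_, ?_, ?_, hn2⟩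
  · rcases hm1.lt_or_eq with h' | h'
    · omega
    · subst h'; exact absurd h0 hm2
  · rcases hn1.lt_or_eq with h' | h'
    · omega
    · subst h'; exact absurd h0 hn2
  · intro t h1 h2
    by_contra hS
    rcases le_total t y0 with h' | h'
    · have := hm3 t ⟨h', hS⟩; omega
    · have := hn3 t ⟨h', hS⟩; omega
  · rw [add_sub_cancel_right]; exact hm2

/-- Vertical chords separate. -/
theorem UnitPath.sepV (h : UnitPath V L w) (x0 y0 : ℤ) (ha : CSN.par V (x0 - 1) y0 = true)
    (hb : CSN.par V x0 y0 = true) : ∃ s : ℤ → ℤ → Bool, s x0 y0 ≠ s (x0 - 1) y0 ∧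
      (∀ x y, ¬ EV w L x y → ¬ (x = x0 ∧ ∀ t, min y0 y ≤ t → t ≤ max y0 y →
        CSN.par V (x0 - 1) t = true ∧ CSN.par V x0 t = true) → s x y = s (x - 1) y) ∧
      (∀ x y, ¬ EH w L x y → s x y = s x (y - 1)) := by
  set S : ℤ → Prop := fun t => CSN.par V (x0 - 1) t = true ∧ CSN.par V x0 t = true with hS
  obtain ⟨M, hM⟩ := exists_bd Prod.snd V
  obtain ⟨a, b, ha1, hb1, hab, hna, hnb⟩ := exists_interval S y0 ⟨ha, hb⟩
    ⟨min y0 (-M), min_le_left _ _, fun h1 => by
      have h2 : CSN.par V x0 (min y0 (-M)) = false := par_out_low (fun p hp =>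
        lt_of_le_of_lt (min_le_right _ _) (hM p hp).1)
      rw [h1.2] at h2; exact absurd h2 (by simp)⟩
    ⟨max y0 M, le_max_left _ _, fun h1 => by
      have h2 : CSN.par V x0 (max y0 M) = false := par_out_high (fun p hp =>
        (hM p hp).2.trans (le_max_right _ _))
      rw [h1.2] at h2; exact absurd h2 (by simp)⟩
  have hvb : ∃ t < L, w t = (x0, b) := by
    have hSb := hab (b - 1) (by omega) (by omega)
    by_cases h1 : CSN.par V x0 b = true
    · have h2 : CSN.par V (x0 - 1) b ≠ CSN.par V (x0 - 1) (b - 1) := by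
        rw [hSb.1]; exact fun h3 => hnb ⟨h3, h1⟩
      have h3 := (h.vert_H ((h.par_down _ _).mp h2)).2
      rwa [sub_add_cancel] at h3
    · have h2 : CSN.par V x0 b ≠ CSN.par V x0 (b - 1) := by rw [hSb.2]; exact h1
      exact (h.vert_H ((h.par_down _ _).mp h2)).1
  have hva : ∃ t < L, w t = (x0, a) := by
    have hSa := hab a le_rfl (by omega)
    by_cases h1 : CSN.par V x0 (a - 1) = true
    · have h2 : CSN.par V (x0 - 1) a ≠ CSN.par V (x0 - 1) (a - 1) := by
        rw [hSa.1]; exact fun h3 => hna ⟨h3.symm, h1⟩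
      have h3 := (h.vert_H ((h.par_down _ _).mp h2)).2
      rwa [sub_add_cancel] at h3
    · have h2 : CSN.par V x0 a ≠ CSN.par V x0 (a - 1) := by rw [hSa.2]; exact fun h3 => h1 h3.symm
      exact (h.vert_H ((h.par_down _ _).mp h2)).1
  set c : ℕ → ℤ × ℤ := fun r => (x0, b - r) with hc
  obtain ⟨s, s1, s2, s3, -⟩ := sep_core h c (b - a).toNat
    (fun r _ => Or.inl ⟨rfl, Or.inr (by simp only [hc]; push_cast; ring)⟩)
    (by simpa [hc] using hvb)
    (by
      have e : c (b - a).toNat = (x0, a) := by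
        simp only [hc]
        rw [Int.toNat_of_nonneg (by omega)]
        congr 1
        ring
      rw [e]; exact hva)
  have hon : ∀ x y r, OnV c x y r → x = x0 ∧ y = b - r - 1 := by
    intro x y r hr
    rcases hr with ⟨h1, h2⟩ | ⟨h1, h2⟩
    · simp only [hc, Prod.mk.injEq] at h1 h2
      push_cast at h2
      omega
    · simp only [hc, Prod.mk.injEq] at h1 h2
      push_cast at h2
      omega
  refine ⟨s, ?_, ?_, ?_⟩
  · apply s3
    · rw [← h.par_left, ha, hb]; simp
    · refine ⟨(b - y0 - 1).toNat, by omega, Or.inr ⟨?_, ?_⟩, ?_⟩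
      · simp only [hc]
        rw [Int.toNat_of_nonneg (by omega)]
        congr 1
        ring
      · simp only [hc]
        push_cast
        rw [Int.toNat_of_nonneg (by omega)]
        congr 1
        ring
      · intro r _ hr
        have := (hon x0 y0 r hr).2
        omega
  · intro x y h1 h2
    apply s1 x y h1
    intro r hr hr'
    obtain ⟨e1, e2⟩ := hon x y r hr'
    apply h2
    refine ⟨e1, fun t h3 h4 => hab t (by omega) (by omega)⟩
  · intro x y h1
    apply s2 x y h1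
    intro r _ hr'
    rcases hr' with ⟨h1, h2⟩ | ⟨h1, h2⟩ <;>
      simp only [hc, Prod.mk.injEq] at h1 h2 <;> omega

/-- Horizontal chords separate. -/
theorem UnitPath.sepH (h : UnitPath V L w) (x0 y0 : ℤ) (ha : CSN.par V x0 (y0 - 1) = true)
    (hb : CSN.par V x0 y0 = true) : ∃ s : ℤ → ℤ → Bool, s x0 y0 ≠ s x0 (y0 - 1) ∧
      (∀ x y, ¬ EH w L x y → ¬ (y = y0 ∧ ∀ t, min x0 x ≤ t → t ≤ max x0 x →
        CSN.par V t (y0 - 1) = true ∧ CSN.par V t y0 = true) → s x y = s x (y - 1)) ∧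
      (∀ x y, ¬ EV w L x y → s x y = s (x - 1) y) := by
  set S : ℤ → Prop := fun t => CSN.par V t (y0 - 1) = true ∧ CSN.par V t y0 = true with hS
  obtain ⟨M, hM⟩ := exists_bd Prod.fst V
  obtain ⟨a, b, ha1, hb1, hab, hna, hnb⟩ := exists_interval S x0 ⟨ha, hb⟩
    ⟨min x0 (-M), min_le_left _ _, fun h1 => by
      have h2 : CSN.par V (min x0 (-M)) y0 = false := par_out_left (fun p hp =>
        lt_of_le_of_lt (min_le_right _ _) (hM p hp).1)
      rw [h1.2] at h2; exact absurd h2 (by simp)⟩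
    ⟨max x0 M, le_max_left _ _, fun h1 => by
      have h2 : CSN.par V (max x0 M) y0 = false := h.par_out_right (fun p hp =>
        (hM p hp).2.trans (le_max_right _ _))
      rw [h1.2] at h2; exact absurd h2 (by simp)⟩
  have hvb : ∃ t < L, w t = (b, y0) := by
    have hSb := hab (b - 1) (by omega) (by omega)
    by_cases h1 : CSN.par V b y0 = true
    · have h2 : CSN.par V b (y0 - 1) ≠ CSN.par V (b - 1) (y0 - 1) := by
        rw [hSb.1]; exact fun h3 => hnb ⟨h3, h1⟩
      have h3 := (h.vert_V ((h.par_left _ _).mp h2)).2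
      rwa [sub_add_cancel] at h3
    · have h2 : CSN.par V b y0 ≠ CSN.par V (b - 1) y0 := by rw [hSb.2]; exact h1
      exact (h.vert_V ((h.par_left _ _).mp h2)).1
  have hva : ∃ t < L, w t = (a, y0) := by
    have hSa := hab a le_rfl (by omega)
    by_cases h1 : CSN.par V (a - 1) y0 = true
    · have h2 : CSN.par V a (y0 - 1) ≠ CSN.par V (a - 1) (y0 - 1) := by
        rw [hSa.1]; exact fun h3 => hna ⟨h3.symm, h1⟩
      have h3 := (h.vert_V ((h.par_left _ _).mp h2)).2
      rwa [sub_add_cancel] at h3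
    · have h2 : CSN.par V a y0 ≠ CSN.par V (a - 1) y0 := by rw [hSa.2]; exact fun h3 => h1 h3.symm
      exact (h.vert_V ((h.par_left _ _).mp h2)).1
  set c : ℕ → ℤ × ℤ := fun r => (b - r, y0) with hc
  obtain ⟨s, s1, s2, -, s3⟩ := sep_core h c (b - a).toNat
    (fun r _ => Or.inr ⟨rfl, Or.inr (by simp only [hc]; push_cast; ring)⟩)
    (by simpa [hc] using hvb)
    (by
      have e : c (b - a).toNat = (a, y0) := by
        simp only [hc]
        rw [Int.toNat_of_nonneg (by omega)]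
        congr 1
        ring
      rw [e]; exact hva)
  have hon : ∀ x y r, OnH c x y r → y = y0 ∧ x = b - r - 1 := by
    intro x y r hr
    rcases hr with ⟨h1, h2⟩ | ⟨h1, h2⟩
    · simp only [hc, Prod.mk.injEq] at h1 h2
      push_cast at h2
      omega
    · simp only [hc, Prod.mk.injEq] at h1 h2
      push_cast at h2
      omega
  refine ⟨s, ?_, ?_, ?_⟩
  · apply s3
    · rw [← h.par_down, ha, hb]; simp
    · refine ⟨(b - x0 - 1).toNat, by omega, Or.inr ⟨?_, ?_⟩, ?_⟩
      · simp only [hc]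
        rw [Int.toNat_of_nonneg (by omega)]
        congr 1
        ring
      · simp only [hc]
        push_cast
        rw [Int.toNat_of_nonneg (by omega)]
        congr 1
        ring
      · intro r _ hr
        have := (hon x0 y0 r hr).2
        omega
  · intro x y h1 h2
    apply s2 x y h1
    intro r hr hr'
    obtain ⟨e1, e2⟩ := hon x y r hr'
    apply h2
    refine ⟨e1, fun t h3 h4 => hab t (by omega) (by omega)⟩
  · intro x y h1
    apply s1 x y h1
    intro r _ hr'
    rcases hr' with ⟨h1, h2⟩ | ⟨h1, h2⟩ <;>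
      simp only [hc, Prod.mk.injEq] at h1 h2 <;> omega

end Pool.Agent.CSN
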